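import Pool.Agent.MP_4c4330_an.Gen.Defs

open MeasureTheory Set Filter Topology
open scoped ENNReal ContDiff

namespace Pool.Agent.MP_4c4330_an.Gen

theorem A1_card {ι : Type} [Fintype ι] [DecidableEq ι] : Fintype.card (ι → Bool) = 2 ^ Fintype.card ι := by
  rw [Fintype.card_fun, Fintype.card_bool]

theorem A1_const {ι : Type} [Fintype ι] [DecidableEq ι] (c : ℝ) : ∑ _ξ : ι → Bool, c = 2 ^ Fintype.card ι * c := by
  rw [Finset.sum_const, Finset.card_univ, A1_card, nsmul_eq_mul]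
  push_cast
  ring

theorem A1_exp {ι : Type} [Fintype ι] [DecidableEq ι] (c : ι → ℝ) :
    avg (fun ξ => Real.exp (∑ i, c i * sg (ξ i))) = ∏ i, Real.cosh (c i) := by
  unfold avg
  have h1 : ∀ ξ : ι → Bool, Real.exp (∑ i, c i * sg (ξ i)) = ∏ i, Real.exp (c i * sg (ξ i)) :=
    fun ξ => Real.exp_sum _ _
  simp only [h1]
  have h2 : ∏ i, ∑ b : Bool, Real.exp (c i * sg b) = ∑ ξ : ι → Bool, ∏ i, Real.exp (c i * sg (ξ i)) := by
    rw [Finset.prod_univ_sum, Fintype.piFinset_univ]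
  rw [← h2]
  have h3 : ∀ i, ∑ b : Bool, Real.exp (c i * sg b) = Real.cosh (c i) * 2 := by
    intro i
    rw [Fintype.sum_bool, Real.cosh_eq]
    simp only [sg, if_true, Bool.false_eq_true, if_false, mul_one, mul_neg]
    ring
  simp only [h3]
  rw [Finset.prod_mul_distrib, Finset.prod_const, Finset.card_univ, mul_div_assoc, div_self (by positivity), mul_one]

/-- [A1] -/
theorem avg_basic {ι : Type} [Fintype ι] [DecidableEq ι] :
    (∀ f g : (ι → Bool) → ℝ, (∀ ξ, f ξ ≤ g ξ) → avg f ≤ avg g) ∧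
    (∀ f g : (ι → Bool) → ℝ, avg (fun ξ => f ξ + g ξ) = avg f + avg g) ∧
    (∀ (c : ℝ) (f : (ι → Bool) → ℝ), avg (fun ξ => c * f ξ) = c * avg f) ∧
    (∀ c : ℝ, avg (fun _ : ι → Bool => c) = c) ∧
    (∀ f : (ι → Bool) → ℝ, ∃ ξ, avg f ≤ f ξ) ∧
    (∀ c : ι → ℝ, avg (fun ξ => Real.exp (∑ i, c i * sg (ξ i))) = ∏ i, Real.cosh (c i)) := by
  refine ⟨?_, ?_, ?_, ?_, ?_, fun c => A1_exp c⟩
  · intro f g h
    unfold avg
    exact div_le_div_of_nonneg_right (Finset.sum_le_sum (fun ξ _ => h ξ)) (by positivity)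
  · intro f g
    unfold avg
    rw [Finset.sum_add_distrib, add_div]
  · intro c f
    unfold avg
    rw [← Finset.mul_sum, mul_div_assoc]
  · intro c
    unfold avg
    rw [A1_const, mul_comm, mul_div_assoc, div_self (by positivity), mul_one]
  · intro f
    have h1 : ∑ _ξ : ι → Bool, avg f ≤ ∑ ξ : ι → Bool, f ξ := by
      rw [A1_const]
      unfold avg
      rw [mul_div_cancel₀ _ (by positivity)]
    obtain ⟨ξ, _, h⟩ := Finset.exists_le_of_sum_le Finset.univ_nonempty h1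
    exact ⟨ξ, h⟩

end Pool.Agent.MP_4c4330_an.Gen
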