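import Pool.Agent.MP_4c4330_an.Gen.Defs
open MeasureTheory Set Filter Topology
open scoped ENNReal ContDiff
namespace Pool.Agent.MP_4c4330_an.Gen

theorem A2_sq (b : Bool) : sg b * sg b = 1 := by cases b <;> simp [sg]
theorem A2_not (b : Bool) : sg (!b) = - sg b := by cases b <;> simp [sg]

theorem A2_orth {ι : Type} [Fintype ι] [DecidableEq ι] (i k : ι) :
    ∑ ξ : ι → Bool, sg (ξ i) * sg (ξ k) = if i = k then (2 : ℝ) ^ Fintype.card ι else 0 := by
  by_cases h : i = k
  · subst h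
    simp only [A2_sq, if_true]
    simp
  · rw [if_neg h]
    let e : (ι → Bool) ≃ (ι → Bool) :=
      { toFun := fun ξ => Function.update ξ i (!(ξ i))
        invFun := fun ξ => Function.update ξ i (!(ξ i))
        left_inv := by intro ξ; ext l; by_cases hl : l = i <;> simp [hl]
        right_inv := by intro ξ; ext l; by_cases hl : l = i <;> simp [hl] }
    have h1 : ∑ ξ : ι → Bool, sg (ξ i) * sg (ξ k) = ∑ ξ : ι → Bool, sg ((e ξ) i) * sg ((e ξ) k) :=
      (Equiv.sum_comp e (fun ξ : ι → Bool => sg (ξ i) * sg (ξ k))).symm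
    have h2 : ∀ ξ : ι → Bool, sg ((e ξ) i) * sg ((e ξ) k) = - (sg (ξ i) * sg (ξ k)) := by
      intro ξ
      have a1 : (e ξ) i = !(ξ i) := by simp [e]
      have a2 : (e ξ) k = ξ k := by simp [e, Ne.symm h]
      rw [a1, a2, A2_not]; ring
    rw [Finset.sum_congr rfl (fun ξ _ => h2 ξ), Finset.sum_neg_distrib] at h1
    linarith

theorem avg_lin {ι κ : Type} [Fintype ι] [DecidableEq ι] [Fintype κ] (A : κ → ι → ℝ) :
    avg (fun ξ : ι → Bool => ∑ j, (∑ i, A j i * sg (ξ i)) ^ 2) = ∑ j, ∑ i, (A j i) ^ 2 := by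
  unfold avg
  have hpos : (2 : ℝ) ^ Fintype.card ι ≠ 0 := by positivity
  rw [div_eq_iff hpos, Finset.sum_comm, Finset.sum_mul]
  refine Finset.sum_congr rfl fun j _ => ?_
  have h1 : ∀ ξ : ι → Bool, (∑ i, A j i * sg (ξ i)) ^ 2 = ∑ i, ∑ k, A j i * A j k * (sg (ξ i) * sg (ξ k)) := by
    intro ξ
    rw [sq, Finset.sum_mul_sum]
    refine Finset.sum_congr rfl fun i _ => Finset.sum_congr rfl fun k _ => by ring
  simp only [h1]
  rw [Finset.sum_comm, Finset.sum_mul]
  refine Finset.sum_congr rfl fun i _ => ?_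
  rw [Finset.sum_comm]
  simp only [← Finset.mul_sum, A2_orth]
  simp [sq]

end Pool.Agent.MP_4c4330_an.Gen
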