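import Pool.Agent.MP_4c4330_an.Gen.Defs
import Pool.Agent.MP_4c4330_an.Gen.A1

open MeasureTheory Set Filter Topology
open scoped ENNReal ContDiff

namespace Pool.Agent.MP_4c4330_an.Gen

lemma A3_pow_le (p : ℝ) (hp : 0 ≤ p) (y : ℝ) :
    |y| ^ p ≤ (1 + (Nat.ceil p).factorial) * (Real.exp y + Real.exp (-y)) := by
  set m := Nat.ceil p with hm
  have h1 : |y| ^ p ≤ 1 + |y| ^ m := by
    rcases le_total |y| 1 with h | h
    · have := Real.rpow_le_one (abs_nonneg y) h hp
      have h2 : 0 ≤ |y| ^ m := by positivity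
      linarith
    · have h2 : |y| ^ p ≤ |y| ^ (m : ℝ) := Real.rpow_le_rpow_of_exponent_le h (Nat.le_ceil p)
      rw [Real.rpow_natCast] at h2
      linarith
  have h2 : (1 : ℝ) ≤ Real.exp |y| := Real.one_le_exp (abs_nonneg y)
  have h3 : |y| ^ m ≤ m.factorial * Real.exp |y| := by
    have h4 := Real.pow_div_factorial_le_exp |y| (abs_nonneg y) m
    rwa [div_le_iff₀ (by exact_mod_cast m.factorial_pos), mul_comm] at h4
  have h5 : Real.exp |y| ≤ Real.exp y + Real.exp (-y) := by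
    rcases abs_cases y with ⟨h, -⟩ | ⟨h, -⟩ <;> rw [h]
    · linarith [Real.exp_pos (-y)]
    · linarith [Real.exp_pos y]
  calc |y| ^ p ≤ 1 + |y| ^ m := h1
    _ ≤ Real.exp |y| + m.factorial * Real.exp |y| := add_le_add h2 h3
    _ = (1 + m.factorial) * Real.exp |y| := by ring
    _ ≤ (1 + m.factorial) * (Real.exp y + Real.exp (-y)) :=
        mul_le_mul_of_nonneg_left h5 (by positivity)

lemma A3_exp {ι : Type} [Fintype ι] [DecidableEq ι] (c : ι → ℝ) (hc : ∑ i, (c i) ^ 2 ≤ 1) :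
    avg (fun ξ : ι → Bool => Real.exp (∑ i, c i * sg (ξ i))) ≤ Real.exp (1 / 2) := by
  obtain ⟨-, -, -, -, -, h⟩ := avg_basic (ι := ι)
  rw [h c]
  calc ∏ i, Real.cosh (c i) ≤ ∏ i, Real.exp ((c i) ^ 2 / 2) :=
        Finset.prod_le_prod (fun i _ => (Real.cosh_pos _).le) fun i _ => Real.cosh_le_exp_half_sq _
    _ = Real.exp (∑ i, (c i) ^ 2 / 2) := (Real.exp_sum _ _).symm
    _ ≤ Real.exp (1 / 2) := by
        rw [← Finset.sum_div]
        exact Real.exp_le_exp.2 (by linarith)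

/-- [A3] Khintchine's inequality (upper bound). -/
theorem khin (p : ℝ) (hp : 0 ≤ p) : ∃ K : ℝ, 0 < K ∧
    ∀ (ι : Type) [Fintype ι] [DecidableEq ι] (c : ι → ℝ) (σ : ℝ), 0 ≤ σ → ∑ i, (c i) ^ 2 ≤ σ ^ 2 →
      avg (fun ξ : ι → Bool => |∑ i, c i * sg (ξ i)| ^ p) ≤ K * σ ^ p := by
  have hF : (0 : ℝ) ≤ (Nat.ceil p).factorial := by positivity
  refine ⟨2 * (1 + (Nat.ceil p).factorial) * Real.exp (1 / 2), by positivity, ?_⟩
  intro ι _ _ c σ hσ hc
  obtain ⟨hmono, hadd, hmul, hconst, -, -⟩ := avg_basic (ι := ι)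
  rcases hσ.eq_or_lt with h0 | h0
  · subst h0
    have hz : ∀ i, c i = 0 := by
      intro i
      have h1 : (c i) ^ 2 ≤ 0 := by
        have := Finset.single_le_sum (f := fun i => (c i) ^ 2) (fun i _ => sq_nonneg _)
          (Finset.mem_univ i)
        linarith [hc]
      exact pow_eq_zero_iff (two_ne_zero) |>.1 (le_antisymm h1 (sq_nonneg _))
    have h1 : (fun ξ : ι → Bool => |∑ i, c i * sg (ξ i)| ^ p) = fun _ => (0 : ℝ) ^ p := by
      funext ξ
      simp [hz]
    rw [h1, hconst]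
    have h2 : (0 : ℝ) ≤ 0 ^ p := Real.rpow_nonneg le_rfl p
    have h3 : (1 : ℝ) ≤ 2 * (1 + (Nat.ceil p).factorial) * Real.exp (1 / 2) := by
      have := Real.one_le_exp (show (0 : ℝ) ≤ 1 / 2 by norm_num)
      nlinarith
    nlinarith
  · have hc1 : ∑ i, (c i / σ) ^ 2 ≤ 1 := by
      simp only [div_pow]
      rw [← Finset.sum_div, div_le_one (by positivity)]
      exact hc
    have hc2 : ∑ i, (-(c i / σ)) ^ 2 ≤ 1 := by
      simpa only [neg_sq] using hc1
    have e1 := A3_exp (fun i => c i / σ) hc1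
    have e2 := A3_exp (fun i => -(c i / σ)) hc2
    have hpt : ∀ ξ : ι → Bool, |∑ i, c i * sg (ξ i)| ^ p ≤
        (σ ^ p * (1 + (Nat.ceil p).factorial)) * (Real.exp (∑ i, c i / σ * sg (ξ i)) +
          Real.exp (∑ i, -(c i / σ) * sg (ξ i))) := by
      intro ξ
      have h1 : ∑ i, c i * sg (ξ i) = σ * ∑ i, c i / σ * sg (ξ i) := by
        rw [Finset.mul_sum]
        refine Finset.sum_congr rfl fun i _ => ?_
        field_simp
      have h2 : ∑ i, -(c i / σ) * sg (ξ i) = -∑ i, c i / σ * sg (ξ i) := by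
        rw [← Finset.sum_neg_distrib]
        refine Finset.sum_congr rfl fun i _ => ?_
        ring
      rw [h1, h2, abs_mul, abs_of_pos h0, Real.mul_rpow h0.le (abs_nonneg _), mul_assoc]
      exact mul_le_mul_of_nonneg_left (A3_pow_le p hp _) (by positivity)
    refine (hmono _ _ hpt).trans ?_
    rw [hmul, hadd]
    calc σ ^ p * (1 + (Nat.ceil p).factorial) *
          (avg (fun ξ : ι → Bool => Real.exp (∑ i, c i / σ * sg (ξ i))) +
            avg (fun ξ : ι → Bool => Real.exp (∑ i, -(c i / σ) * sg (ξ i)))) ≤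
          σ ^ p * (1 + (Nat.ceil p).factorial) * (Real.exp (1 / 2) + Real.exp (1 / 2)) :=
          mul_le_mul_of_nonneg_left (add_le_add e1 e2) (by positivity)
      _ = 2 * (1 + (Nat.ceil p).factorial) * Real.exp (1 / 2) * σ ^ p := by ring

end Pool.Agent.MP_4c4330_an.Gen
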