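import Pool.Agent.MP_4c4330_an.Gen.Defs

open MeasureTheory Set Filter Topology
open scoped ENNReal ContDiff

namespace Pool.Agent.MP_4c4330_an.Gen

theorem B1_amgm {ι : Type} [Fintype ι] [Nonempty ι] (z : ι → ℝ) (hz : ∀ i, 0 ≤ z i) :
    ∏ i, z i ≤ ((∑ i, z i) / Fintype.card ι) ^ Fintype.card ι := by
  have hn : (0 : ℝ) < (Fintype.card ι : ℝ) := by
    exact_mod_cast Fintype.card_pos
  have hn0 : Fintype.card ι ≠ 0 := Fintype.card_ne_zero
  have h := Real.geom_mean_le_arith_mean_weighted (Finset.univ : Finset ι)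
    (fun _ => (1 : ℝ) / Fintype.card ι) z (fun _ _ => by positivity)
    (by rw [Finset.sum_const, Finset.card_univ, nsmul_eq_mul]; field_simp) (fun i _ => hz i)
  have h1 : ∏ i, z i = (∏ i, z i ^ ((1 : ℝ) / Fintype.card ι)) ^ Fintype.card ι := by
    rw [← Finset.prod_pow]
    refine Finset.prod_congr rfl fun i _ => ?_
    rw [← Real.rpow_natCast, ← Real.rpow_mul (hz i), one_div, inv_mul_cancel₀ hn.ne', Real.rpow_one]
  have h2 : (∑ i, (1 : ℝ) / Fintype.card ι * z i) = (∑ i, z i) / Fintype.card ι := by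
    rw [← Finset.mul_sum]
    ring
  rw [h1, ← h2]
  exact pow_le_pow_left₀ (Finset.prod_nonneg fun i _ => Real.rpow_nonneg (hz i) _) h _

/-- [B1] AM-GM for the determinant. -/
theorem det_amgm {ι : Type} [Fintype ι] [DecidableEq ι] [Nonempty ι] (M : Matrix ι ι ℝ) :
    M.det ^ 2 ≤ ((∑ i, ∑ j, (M i j) ^ 2) / Fintype.card ι) ^ Fintype.card ι := by
  have hA := Matrix.posSemidef_conjTranspose_mul_self M
  have h1 : (M.conjTranspose * M).det = M.det ^ 2 := by
    rw [Matrix.conjTranspose_eq_transpose_of_trivial, Matrix.det_mul, Matrix.det_transpose]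
    ring
  have h2 : (M.conjTranspose * M).trace = ∑ i, ∑ j, (M i j) ^ 2 := by
    rw [Matrix.conjTranspose_eq_transpose_of_trivial, Matrix.trace]
    rw [Finset.sum_comm]
    refine Finset.sum_congr rfl fun i _ => ?_
    rw [Matrix.diag_apply, Matrix.mul_apply]
    refine Finset.sum_congr rfl fun j _ => ?_
    rw [Matrix.transpose_apply]
    ring
  have h3 := hA.1.det_eq_prod_eigenvalues
  have h4 := hA.1.trace_eq_sum_eigenvalues
  rw [h1] at h3
  rw [h2] at h4
  rw [h3, h4]
  exact B1_amgm _ hA.eigenvalues_nonneg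

end Pool.Agent.MP_4c4330_an.Gen
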