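import Pool.Agent.MP_4c4330_an.Gen.Defs
import Pool.Agent.MP_4c4330_an.Gen.B1
open MeasureTheory Set Filter Topology
open scoped ENNReal ContDiff
namespace Pool.Agent.MP_4c4330_an.Gen

open Matrix

theorem B2_inl {n : ℕ} (h : ℝ) (lam : Fin n → ℝ) (G : Matrix (Fin n) (Fin n) ℝ) (y : Fin n ⊕ Fin n → ℝ) (i : Fin n) :
    (bmat h lam G).mulVec y (Sum.inl i) = y (Sum.inl i) - h * √(lam i) * y (Sum.inr i) := by
  unfold bmat
  rw [Matrix.fromBlocks_mulVec, Sum.elim_inl, Pi.add_apply, Matrix.one_mulVec, Matrix.neg_mulVec, Pi.neg_apply,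
    Matrix.smul_mulVec, Pi.smul_apply, Matrix.mulVec_diagonal, smul_eq_mul, Function.comp_apply, Function.comp_apply]
  ring

theorem B2_inr {n : ℕ} (h : ℝ) (lam : Fin n → ℝ) (G : Matrix (Fin n) (Fin n) ℝ) (y : Fin n ⊕ Fin n → ℝ) (i : Fin n) :
    (bmat h lam G).mulVec y (Sum.inr i) = h * √(lam i) * y (Sum.inl i) + y (Sum.inr i) +
      h * ∑ l, G i l * y (Sum.inr l) := by
  unfold bmat
  rw [Matrix.fromBlocks_mulVec, Sum.elim_inr, Pi.add_apply, Matrix.add_mulVec, Pi.add_apply, Matrix.one_mulVec,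
    Matrix.smul_mulVec, Pi.smul_apply, Matrix.smul_mulVec, Pi.smul_apply, Matrix.mulVec_diagonal, smul_eq_mul,
    smul_eq_mul, Function.comp_apply, Function.comp_apply]
  have e : (G *ᵥ (y ∘ Sum.inr)) i = ∑ l, G i l * y (Sum.inr l) := rfl
  rw [e]
  ring

theorem B2_quad {n : ℕ} {h : ℝ} (hh : 0 < h) (lam : Fin n → ℝ) (G : Matrix (Fin n) (Fin n) ℝ)
    (hG : ∀ β : Fin n → ℝ, 0 ≤ ∑ i, ∑ l, G i l * β i * β l) (y : Fin n ⊕ Fin n → ℝ) :
    ∑ i, (y i) ^ 2 ≤ y ⬝ᵥ (bmat h lam G) *ᵥ y := by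
  have e1 : y ⬝ᵥ (bmat h lam G) *ᵥ y = ∑ i, (y i) ^ 2 + h * ∑ i, ∑ l, G i l * y (Sum.inr i) * y (Sum.inr l) := by
    unfold dotProduct
    rw [Fintype.sum_sum_type, Fintype.sum_sum_type, Finset.mul_sum, ← Finset.sum_add_distrib,
      ← Finset.sum_add_distrib, ← Finset.sum_add_distrib]
    refine Finset.sum_congr rfl fun i _ => ?_
    rw [B2_inl, B2_inr]
    have e2 : ∑ l, G i l * y (Sum.inr i) * y (Sum.inr l) = y (Sum.inr i) * ∑ l, G i l * y (Sum.inr l) := by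
      rw [Finset.mul_sum]
      exact Finset.sum_congr rfl fun l _ => by ring
    rw [e2]
    ring
  rw [e1]
  have := mul_nonneg hh.le (hG fun i => y (Sum.inr i))
  linarith

theorem B2_quadT {n : ℕ} {h : ℝ} (hh : 0 < h) (lam : Fin n → ℝ) (G : Matrix (Fin n) (Fin n) ℝ)
    (hG : ∀ β : Fin n → ℝ, 0 ≤ ∑ i, ∑ l, G i l * β i * β l) (y : Fin n ⊕ Fin n → ℝ) :
    ∑ i, (y i) ^ 2 ≤ y ⬝ᵥ (bmat h lam G)ᵀ *ᵥ y := by
  rw [Matrix.mulVec_transpose, dotProduct_comm, ← Matrix.dotProduct_mulVec]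
  exact B2_quad hh lam G hG y

theorem B2_grow {n : ℕ} {h : ℝ} (hh : 0 < h) (lam : Fin n → ℝ) (G : Matrix (Fin n) (Fin n) ℝ)
    (hG : ∀ β : Fin n → ℝ, 0 ≤ ∑ i, ∑ l, G i l * β i * β l) (z : Fin n ⊕ Fin n → ℝ) :
    ∑ i, (z i) ^ 2 ≤ ∑ i, (((bmat h lam G)ᵀ *ᵥ z) i) ^ 2 := by
  have h1 := B2_quadT hh lam G hG z
  set w := (bmat h lam G)ᵀ *ᵥ z with hw
  have h2 : 0 ≤ ∑ i, (w i - z i) ^ 2 := Finset.sum_nonneg fun i _ => sq_nonneg _
  have h3 : ∑ i, (w i - z i) ^ 2 = ∑ i, (w i) ^ 2 - 2 * (z ⬝ᵥ w) + ∑ i, (z i) ^ 2 := by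
    unfold dotProduct
    rw [Finset.mul_sum, ← Finset.sum_sub_distrib, ← Finset.sum_add_distrib]
    exact Finset.sum_congr rfl fun i _ => by ring
  linarith

theorem B2_det {n : ℕ} {h : ℝ} (hh : 0 < h) (lam : Fin n → ℝ) (G : Matrix (Fin n) (Fin n) ℝ)
    (hG : ∀ β : Fin n → ℝ, 0 ≤ ∑ i, ∑ l, G i l * β i * β l) : (bmat h lam G).det ≠ 0 := by
  intro h0
  obtain ⟨v, hv, hv0⟩ := Matrix.exists_mulVec_eq_zero_iff.2 h0
  have h1 := B2_quad hh lam G hG v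
  rw [hv0, dotProduct_zero] at h1
  apply hv
  funext i
  have h2 := (Finset.sum_eq_zero_iff_of_nonneg (fun i _ => sq_nonneg (v i))).1
    (le_antisymm h1 (Finset.sum_nonneg fun i _ => sq_nonneg (v i))) i (Finset.mem_univ i)
  exact pow_eq_zero_iff (two_ne_zero) |>.1 h2

theorem B2_entries {n : ℕ} (h : ℝ) (lam : Fin n → ℝ) (hlam : ∀ i, 0 ≤ lam i) (G : Matrix (Fin n) (Fin n) ℝ) :
    ∑ i, ∑ j, (bmat h lam G i j) ^ 2 = 2 * n + (2 * h ^ 2 * ∑ i, lam i + 2 * h * ∑ i, G i i +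
      h ^ 2 * ∑ i, ∑ l, (G i l) ^ 2) := by
  have a1 : ∀ i : Fin n, ∑ j : Fin n, ((1 : Matrix (Fin n) (Fin n) ℝ) i j) ^ 2 = 1 := by
    intro i
    rw [Finset.sum_eq_single i]
    · rw [Matrix.one_apply_eq, one_pow]
    · intro j _ hj
      rw [Matrix.one_apply_ne (Ne.symm hj)]
      norm_num
    · intro h'
      exact absurd (Finset.mem_univ i) h'
  have a2 : ∀ i : Fin n, ∑ j : Fin n, ((h • Matrix.diagonal fun i => √(lam i)) i j) ^ 2 = h ^ 2 * lam i := by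
    intro i
    rw [Finset.sum_eq_single i]
    · rw [Matrix.smul_apply, Matrix.diagonal_apply_eq, smul_eq_mul, mul_pow, Real.sq_sqrt (hlam i)]
    · intro j _ hj
      rw [Matrix.smul_apply, Matrix.diagonal_apply_ne _ (Ne.symm hj), smul_zero]
      norm_num
    · intro h'
      exact absurd (Finset.mem_univ i) h'
  have a3 : ∀ i : Fin n, ∑ j : Fin n, ((1 + h • G) i j) ^ 2 = 1 + (2 * h * G i i + h ^ 2 * ∑ l, (G i l) ^ 2) := by
    intro i
    have b1 : ∑ j : Fin n, (1 : Matrix (Fin n) (Fin n) ℝ) i j * G i j = G i i := by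
      rw [Finset.sum_eq_single i]
      · rw [Matrix.one_apply_eq, one_mul]
      · intro j _ hj
        rw [Matrix.one_apply_ne (Ne.symm hj), zero_mul]
      · intro h'
        exact absurd (Finset.mem_univ i) h'
    rw [← a1 i, ← b1, Finset.mul_sum, Finset.mul_sum, ← Finset.sum_add_distrib, ← Finset.sum_add_distrib]
    refine Finset.sum_congr rfl fun j _ => ?_
    rw [Matrix.add_apply, Matrix.smul_apply, smul_eq_mul]
    ring
  rw [Fintype.sum_sum_type]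
  have c1 : ∀ i : Fin n, ∑ j : Fin n ⊕ Fin n, (bmat h lam G (Sum.inl i) j) ^ 2 = 1 + h ^ 2 * lam i := by
    intro i
    rw [Fintype.sum_sum_type, ← a1 i, ← a2 i]
    congr 1
    refine Finset.sum_congr rfl fun j _ => ?_
    change (-(h • Matrix.diagonal fun i => √(lam i)) i j) ^ 2 = _
    rw [neg_sq]
  have c2 : ∀ i : Fin n, ∑ j : Fin n ⊕ Fin n, (bmat h lam G (Sum.inr i) j) ^ 2 = h ^ 2 * lam i +
      (1 + (2 * h * G i i + h ^ 2 * ∑ l, (G i l) ^ 2)) := by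
    intro i
    rw [Fintype.sum_sum_type, ← a2 i, ← a3 i]
    rfl
  rw [Finset.sum_congr rfl fun i _ => c1 i, Finset.sum_congr rfl fun i _ => c2 i]
  rw [Finset.sum_add_distrib, Finset.sum_add_distrib, Finset.sum_add_distrib, Finset.sum_add_distrib,
    Finset.sum_const, Finset.card_univ, Fintype.card_fin, ← Finset.mul_sum, ← Finset.mul_sum, ← Finset.mul_sum,
    nsmul_eq_mul, mul_one]
  ring

/-- [B2] one step of the linear scheme. -/
theorem bmat_step {n : ℕ} (hn : 0 < n) {h : ℝ} (hh : 0 < h) (lam : Fin n → ℝ)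
    (hlam : ∀ i, 0 ≤ lam i) (G : Matrix (Fin n) (Fin n) ℝ)
    (hG : ∀ β : Fin n → ℝ, 0 ≤ ∑ i, ∑ l, G i l * β i * β l) :
    (bmat h lam G).det ≠ 0 ∧
    (∀ y : Fin n ⊕ Fin n → ℝ, ∑ i, ((((bmat h lam G)⁻¹).transpose).mulVec y i) ^ 2 ≤ ∑ i, (y i) ^ 2) ∧
    |(bmat h lam G).det| ≤
      Real.exp (h * (∑ i, G i i) + h ^ 2 / 2 * (2 * ∑ i, lam i + ∑ i, ∑ l, (G i l) ^ 2)) := by
  have hdet := B2_det hh lam G hG
  refine ⟨hdet, ?_, ?_⟩
  · intro y
    have hu : IsUnit (bmat h lam G).det := isUnit_iff_ne_zero.2 hdet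
    have h1 := B2_grow hh lam G hG ((((bmat h lam G)⁻¹)ᵀ) *ᵥ y)
    have h2 : (bmat h lam G)ᵀ *ᵥ ((((bmat h lam G)⁻¹)ᵀ) *ᵥ y) = y := by
      rw [Matrix.mulVec_mulVec, ← Matrix.transpose_mul, Matrix.nonsing_inv_mul _ hu, Matrix.transpose_one,
        Matrix.one_mulVec]
    rw [h2] at h1
    exact h1
  · have : Nonempty (Fin n ⊕ Fin n) := ⟨Sum.inl ⟨0, hn⟩⟩
    have h1 := det_amgm (bmat h lam G)
    rw [B2_entries h lam hlam G, Fintype.card_sum, Fintype.card_fin] at h1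
    set X : ℝ := 2 * h ^ 2 * ∑ i, lam i + 2 * h * ∑ i, G i i + h ^ 2 * ∑ i, ∑ l, (G i l) ^ 2 with hX
    have hn0 : (0 : ℝ) < n := by exact_mod_cast hn
    have hc : ((n + n : ℕ) : ℝ) = 2 * n := by push_cast; ring
    rw [hc] at h1
    have h2 : (2 * (n : ℝ) + X) / (2 * n) = 1 + X / (2 * n) := by field_simp
    have h3 : 0 ≤ (2 * (n : ℝ) + X) / (2 * n) := by
      have : 0 ≤ ∑ i, ∑ j, (bmat h lam G i j) ^ 2 := Finset.sum_nonneg fun i _ => Finset.sum_nonneg fun j _ => sq_nonneg _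
      rw [B2_entries h lam hlam G] at this
      positivity
    have h4 : (2 * (n : ℝ) + X) / (2 * n) ≤ Real.exp (X / (2 * n)) := by
      rw [h2, add_comm]
      exact Real.add_one_le_exp _
    have h5 : (bmat h lam G).det ^ 2 ≤ Real.exp (X / 2) ^ 2 := by
      refine h1.trans ((pow_le_pow_left₀ h3 h4 _).trans (le_of_eq ?_))
      rw [← Real.exp_nat_mul, ← Real.exp_nat_mul]
      congr 1
      push_cast
      field_simp
      ring
    have h6 : |(bmat h lam G).det| ≤ Real.exp (X / 2) := by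
      rw [← abs_of_pos (Real.exp_pos (X / 2))]
      exact sq_le_sq.1 h5
    refine h6.trans (le_of_eq ?_)
    congr 1
    rw [hX]
    ring

end Pool.Agent.MP_4c4330_an.Gen
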