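import Pool.Agent.MP_4c4330_an.Gen.Defs
import Pool.Agent.MP_4c4330_an.Gen.B1
import Pool.Agent.MP_4c4330_an.Gen.B2
open MeasureTheory Set Filter Topology
open scoped ENNReal ContDiff
namespace Pool.Agent.MP_4c4330_an.Gen

open Matrix

theorem B3_contr {n : ℕ} (hn : 0 < n) {h : ℝ} (hh : 0 < h) (lam : Fin n → ℝ)
    (hlam : ∀ i, 0 ≤ lam i) (G : ℕ → Matrix (Fin n) (Fin n) ℝ)
    (hG : ∀ j, ∀ β : Fin n → ℝ, 0 ≤ ∑ i, ∑ l, G j i l * β i * β l) (M : ℕ) :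
    ∀ y : Fin n ⊕ Fin n → ℝ,
      ∑ i, (((lmat h lam G M).transpose).mulVec y i) ^ 2 ≤ ∑ i, (y i) ^ 2 := by
  induction M with
  | zero =>
    intro y
    change ∑ i, (((1 : Matrix (Fin n ⊕ Fin n) (Fin n ⊕ Fin n) ℝ)ᵀ *ᵥ y) i) ^ 2 ≤ _
    rw [Matrix.transpose_one, Matrix.one_mulVec]
  | succ M ih =>
    intro y
    have e : (lmat h lam G (M + 1))ᵀ *ᵥ y = (lmat h lam G M)ᵀ *ᵥ ((((bmat h lam (G (M + 1)))⁻¹)ᵀ) *ᵥ y) := by
      change (((bmat h lam (G (M + 1)))⁻¹ * lmat h lam G M)ᵀ) *ᵥ y = _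
      rw [Matrix.transpose_mul, Matrix.mulVec_mulVec]
    rw [e]
    exact (ih _).trans ((bmat_step hn hh lam hlam (G (M + 1)) (hG (M + 1))).2.1 y)

theorem B3_det {n : ℕ} (hn : 0 < n) {h : ℝ} (hh : 0 < h) (lam : Fin n → ℝ)
    (hlam : ∀ i, 0 ≤ lam i) (G : ℕ → Matrix (Fin n) (Fin n) ℝ)
    (hG : ∀ j, ∀ β : Fin n → ℝ, 0 ≤ ∑ i, ∑ l, G j i l * β i * β l) (M : ℕ) :
    Real.exp (-∑ j ∈ Finset.range M, (h * (∑ i, G (j + 1) i i) +
      h ^ 2 / 2 * (2 * ∑ i, lam i + ∑ i, ∑ l, (G (j + 1) i l) ^ 2))) ≤ |(lmat h lam G M).det| := by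
  induction M with
  | zero =>
    change Real.exp _ ≤ |(1 : Matrix (Fin n ⊕ Fin n) (Fin n ⊕ Fin n) ℝ).det|
    rw [Matrix.det_one, abs_one, Finset.range_zero, Finset.sum_empty, neg_zero, Real.exp_zero]
  | succ M ih =>
    obtain ⟨h1, -, h3⟩ := bmat_step hn hh lam hlam (G (M + 1)) (hG (M + 1))
    change Real.exp _ ≤ |((bmat h lam (G (M + 1)))⁻¹ * lmat h lam G M).det|
    rw [Matrix.det_mul, Matrix.det_nonsing_inv, Ring.inverse_eq_inv', abs_mul, abs_inv, Finset.sum_range_succ,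
      neg_add, Real.exp_add, mul_comm]
    refine mul_le_mul ?_ ih (Real.exp_pos _).le (by positivity)
    rw [Real.exp_neg]
    exact inv_anti₀ (abs_pos.2 h1) h3

/-- [B3] the product of the steps. -/
theorem lmat_facts {n : ℕ} (hn : 0 < n) {h : ℝ} (hh : 0 < h) (lam : Fin n → ℝ)
    (hlam : ∀ i, 0 ≤ lam i) (G : ℕ → Matrix (Fin n) (Fin n) ℝ)
    (hG : ∀ j, ∀ β : Fin n → ℝ, 0 ≤ ∑ i, ∑ l, G j i l * β i * β l) (M : ℕ) :
    (∀ y : Fin n ⊕ Fin n → ℝ,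
      ∑ i, (((lmat h lam G M).transpose).mulVec y i) ^ 2 ≤ ∑ i, (y i) ^ 2) ∧
    (∀ y : Fin n ⊕ Fin n → ℝ, (lmat h lam G M).mulVec y =
      (bmat h lam (G (M + 1))).mulVec ((lmat h lam G (M + 1)).mulVec y)) ∧
    2 * n * Real.exp (-(1 / n) * ∑ j ∈ Finset.range M, (h * (∑ i, G (j + 1) i i) +
      h ^ 2 / 2 * (2 * ∑ i, lam i + ∑ i, ∑ l, (G (j + 1) i l) ^ 2)))
      ≤ ∑ i, ∑ j, (lmat h lam G M i j) ^ 2 := by
  refine ⟨B3_contr hn hh lam hlam G hG M, ?_, ?_⟩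
  · intro y
    have hdet := (bmat_step hn hh lam hlam (G (M + 1)) (hG (M + 1))).1
    have hu : IsUnit (bmat h lam (G (M + 1))).det := isUnit_iff_ne_zero.2 hdet
    change _ = (bmat h lam (G (M + 1))) *ᵥ (((bmat h lam (G (M + 1)))⁻¹ * lmat h lam G M) *ᵥ y)
    rw [Matrix.mulVec_mulVec, ← Matrix.mul_assoc, Matrix.mul_nonsing_inv _ hu, Matrix.one_mul]
  · have : Nonempty (Fin n ⊕ Fin n) := ⟨Sum.inl ⟨0, hn⟩⟩
    have h1 := det_amgm (lmat h lam G M)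
    have h2 := B3_det hn hh lam hlam G hG M
    rw [Fintype.card_sum, Fintype.card_fin] at h1
    set X : ℝ := ∑ j ∈ Finset.range M, (h * (∑ i, G (j + 1) i i) +
      h ^ 2 / 2 * (2 * ∑ i, lam i + ∑ i, ∑ l, (G (j + 1) i l) ^ 2)) with hX
    set S : ℝ := ∑ i, ∑ j, (lmat h lam G M i j) ^ 2 with hS
    have hS0 : 0 ≤ S := Finset.sum_nonneg fun i _ => Finset.sum_nonneg fun j _ => sq_nonneg _
    have hn0 : (0 : ℝ) < n := by exact_mod_cast hn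
    have hc : ((n + n : ℕ) : ℝ) = 2 * n := by push_cast; ring
    rw [hc] at h1
    have h3 : Real.exp (-(1 / n) * X) ^ (n + n) = Real.exp (-X) ^ 2 := by
      rw [← Real.exp_nat_mul, ← Real.exp_nat_mul]
      congr 1
      push_cast
      field_simp
      ring
    have h4 : Real.exp (-(1 / n) * X) ^ (n + n) ≤ (S / (2 * n)) ^ (n + n) := by
      rw [h3]
      refine le_trans ?_ h1
      rw [← sq_abs (lmat h lam G M).det]
      exact pow_le_pow_left₀ (Real.exp_pos _).le h2 2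
    have h5 : Real.exp (-(1 / n) * X) ≤ S / (2 * n) :=
      (pow_le_pow_iff_left₀ (Real.exp_pos _).le (by positivity) (by omega)).1 h4
    rw [le_div_iff₀ (by positivity)] at h5
    linarith

end Pool.Agent.MP_4c4330_an.Gen
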