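import Pool.Agent.MP_4c4330_an.FBridge

/-! # From functions back to classes -/

open MeasureTheory Set Filter Topology
open scoped ENNReal ContDiff

set_option linter.unusedSectionVars false

namespace Pool.Agent.MP_4c4330_an.Gen

noncomputable section
variable {E : Type*} [NormedAddCommGroup E] [InnerProductSpace ℝ E] [FiniteDimensional ℝ E]
  [MeasurableSpace E] [BorelSpace E] {Ω : Set E} {a α : ℝ}

lemma mem_step {h : ℝ} {x x' : (E → E) × (E → ℝ)} (hx : Fn.InEnergySpace Ω x)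
    (hs : Fn.EulerStep Ω a α h x x') : Fn.InEnergySpace Ω x' := by
  obtain ⟨⟨q, hq, hxq⟩, h2, h3⟩ := hs
  have hcls : MemLp (fun y => x.1 y + h • q y) 2 (volume.restrict Ω) :=
    hx.1.add (hq.2.1.const_smul h)
  have hmem : MemLp x'.1 2 (volume.restrict Ω) := (memLp_congr_ae hxq).2 hcls
  have hG : hmem.toLp x'.1 ∈ GradSpace Ω := by
    have e : hmem.toLp x'.1 = hx.1.toLp x.1 + h • hq.2.1.toLp q := by
      apply Lp.ext
      filter_upwards [hmem.coeFn_toLp, Lp.coeFn_add (hx.1.toLp x.1) (h • hq.2.1.toLp q),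
        Lp.coeFn_smul h (hq.2.1.toLp q), hx.1.coeFn_toLp, hq.2.1.coeFn_toLp, hxq]
        with y e1 e2 e3 e4 e5 e6
      rw [e1, e2, Pi.add_apply, e3, Pi.smul_apply, e4, e5, e6]
    rw [e]
    exact Submodule.add_mem _ (gradSpace_of_fn hx.1 hx.2.2)
      (Submodule.smul_mem _ _ (inH10_of_fn hq).grad_mem)
  refine ⟨hmem, hq.1, fun ε hε => ?_⟩
  obtain ⟨φ, hφ, h4⟩ := fn_of_gradSpace (⟨_, hG⟩ : GradSpace Ω) ε hε
  refine ⟨φ, hφ, ?_⟩
  have e : ∫ y in Ω, ‖x'.1 y - gradient φ y‖ ^ 2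
      = ∫ y in Ω, ‖(hmem.toLp x'.1) y - gradient φ y‖ ^ 2 := by
    apply integral_congr_ae
    filter_upwards [hmem.coeFn_toLp] with y hy
    rw [hy]
  rw [e]
  exact h4

/-- Euler steps for functions give Euler steps for classes. -/
lemma step_clsOf {h : ℝ} (hh : 0 < h) {x x' : (E → E) × (E → ℝ)} (hx : Fn.InEnergySpace Ω x)
    (hx' : Fn.InEnergySpace Ω x') (hs : Fn.EulerStep Ω a α h x x') :
    EulerStep (WaveOp Ω a α) h (clsOf hx) (clsOf hx') := by
  obtain ⟨⟨q, hq, hxq⟩, h2, h3⟩ := hs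
  unfold EulerStep
  rw [waveOp_iff]
  have es : (clsOf hx').snd = hx'.2.1.toLp x'.2 := rfl
  have es0 : (clsOf hx).snd = hx.2.1.toLp x.2 := rfl
  have ef : ((clsOf hx').fst : Lp E 2 (volume.restrict Ω)) = hx'.1.toLp x'.1 := rfl
  have ef0 : ((clsOf hx).fst : Lp E 2 (volume.restrict Ω)) = hx.1.toLp x.1 := rfl
  refine ⟨?_, ?_, ?_⟩
  · have e : -((h⁻¹ • (clsOf hx - clsOf hx')).fst : Lp E 2 (volume.restrict Ω))
        = hq.2.1.toLp q := by
      have e1 : ((h⁻¹ • (clsOf hx - clsOf hx')).fst : Lp E 2 (volume.restrict Ω))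
          = h⁻¹ • (hx.1.toLp x.1 - hx'.1.toLp x'.1) := rfl
      rw [e1]
      have e2 : hx'.1.toLp x'.1 = hx.1.toLp x.1 + h • hq.2.1.toLp q := by
        apply Lp.ext
        filter_upwards [hx'.1.coeFn_toLp, Lp.coeFn_add (hx.1.toLp x.1) (h • hq.2.1.toLp q),
          Lp.coeFn_smul h (hq.2.1.toLp q), hx.1.coeFn_toLp, hq.2.1.coeFn_toLp, hxq]
          with y e1 e2 e3 e4 e5 e6
        rw [e1, e2, Pi.add_apply, e3, Pi.smul_apply, e4, e5, e6]
      rw [e2, sub_add_cancel_left, smul_neg, neg_neg, smul_smul, inv_mul_cancel₀ hh.ne', one_smul]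
    rw [e, es]
    exact inH10_of_fn hq
  · refine h2.congr ?_
    filter_upwards [hx'.2.1.coeFn_toLp] with y hy
    rw [es, hy]
  · intro w r hw hwi
    have h4 := h3 _ _ (fn_of_inH10 hw) hwi
    have e0 : inner ℝ (h⁻¹ • (clsOf hx - clsOf hx')).snd w
        = h⁻¹ * (inner ℝ (hx.2.1.toLp x.2) w - inner ℝ (hx'.2.1.toLp x'.2) w) := by
      rw [← inner_sub_left, ← real_inner_smul_left]; rfl
    have e1 : inner ℝ (hx.2.1.toLp x.2) w = ∫ y in Ω, x.2 y * w y := by
      rw [inner_Lp_real]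
      apply integral_congr_ae
      filter_upwards [hx.2.1.coeFn_toLp] with y hy
      rw [hy]
    have e2 : inner ℝ (hx'.2.1.toLp x'.2) w = ∫ y in Ω, x'.2 y * w y := by
      rw [inner_Lp_real]
      apply integral_congr_ae
      filter_upwards [hx'.2.1.coeFn_toLp] with y hy
      rw [hy]
    have e3 : inner ℝ (hx'.1.toLp x'.1) r = ∫ y in Ω, inner ℝ (x'.1 y) (r y) := by
      rw [L2.inner_def]
      apply integral_congr_ae
      filter_upwards [hx'.1.coeFn_toLp] with y hy
      rw [hy]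
    have e4 : ∫ y in Ω, g a α ((hx'.2.1.toLp x'.2) y) * w y
        = ∫ y in Ω, a * |x'.2 y| ^ α * x'.2 y * w y := by
      apply integral_congr_ae
      filter_upwards [hx'.2.1.coeFn_toLp] with y hy
      rw [hy]
      rfl
    rw [e0, e1, e2, ef, e3, es, e4, h4]
    field_simp
    ring

/-- The class, `0` outside the energy space. -/
def cls' (Ω : Set E) (x : (E → E) × (E → ℝ)) : EnergySpace Ω := by
  classical
  exact if hx : Fn.InEnergySpace Ω x then clsOf hx else 0

lemma cls'_eq {x : (E → E) × (E → ℝ)} (hx : Fn.InEnergySpace Ω x) : cls' Ω x = clsOf hx := by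
  unfold cls'
  rw [dif_pos hx]

lemma energy_clsOf_sub {x y : (E → E) × (E → ℝ)} (hx : Fn.InEnergySpace Ω x)
    (hy : Fn.InEnergySpace Ω y) : Fn.energy Ω (x - y) = ‖clsOf hx - clsOf hy‖ ^ 2 := by
  rw [← energy_fnOf_sub]
  apply energy_congr
  · filter_upwards [(fnOf_clsOf hx).1, (fnOf_clsOf hy).1] with z h1 h2
    show x.1 z - y.1 z = (fnOf (clsOf hx)).1 z - (fnOf (clsOf hy)).1 z
    rw [h1, h2]
  · filter_upwards [(fnOf_clsOf hx).2, (fnOf_clsOf hy).2] with z h1 h2
    show x.2 z - y.2 z = (fnOf (clsOf hx)).2 z - (fnOf (clsOf hy)).2 z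
    rw [h1, h2]

lemma energy_clsOf {x : (E → E) × (E → ℝ)} (hx : Fn.InEnergySpace Ω x) :
    Fn.energy Ω x = nrg Ω (clsOf hx) := by
  rw [nrg_eq, ← energy_fnOf]
  exact (energy_congr (fnOf_clsOf hx).1 (fnOf_clsOf hx).2).symm

/-- Trajectories of functions give trajectories of classes. -/
lemma traj_cls {U : ℝ → (E → E) × (E → ℝ)} (hU : Fn.IsTrajectory Ω a α U) :
    IsTrajectory Ω a α (fun t => cls' Ω (U t)) := by
  intro t ht
  obtain ⟨y, y0, ys, yl⟩ := hU.2 t ht
  have hm : ∀ n : ℕ, 0 < n → ∀ k, Fn.InEnergySpace Ω (y n k) := by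
    intro n hn k
    induction k with
    | zero => rw [y0]; exact hU.1 0 le_rfl
    | succ k ih => exact mem_step ih (ys n hn k)
  refine ⟨fun n k => cls' Ω (y n k), fun n => by simp only [y0], ?_, ?_⟩
  · intro n hn k
    have hn' : (0:ℝ) < n := by exact_mod_cast hn
    simp only [cls'_eq (hm n hn k), cls'_eq (hm n hn (k + 1))]
    exact step_clsOf (by positivity) _ _ (ys n hn k)
  · rw [tendsto_iff_norm_sub_tendsto_zero]
    have h1 : Tendsto (fun n => √(Fn.energy Ω (y n n - U t))) atTop (𝓝 0) := by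
      have := (Real.continuous_sqrt.tendsto 0).comp yl
      rw [Real.sqrt_zero] at this
      exact this
    refine h1.congr' ?_
    filter_upwards [eventually_gt_atTop 0] with n hn
    rw [cls'_eq (hm n hn n), cls'_eq (hU.1 t ht.le), energy_clsOf_sub (hm n hn n) (hU.1 t ht.le),
      Real.sqrt_sq (norm_nonneg _)]

/-- Trajectories of classes give trajectories of functions, with prescribed initial functions. -/
lemma traj_fn {x : (E → E) × (E → ℝ)} (hx : Fn.InEnergySpace Ω x) {U : ℝ → EnergySpace Ω}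
    (hU : IsTrajectory Ω a α U) (hU0 : U 0 = clsOf hx) :
    ∃ V : ℝ → (E → E) × (E → ℝ), Fn.IsTrajectory Ω a α V ∧ V 0 = x := by
  classical
  have hF := traj_fnOf hU
  refine ⟨fun t => if t = 0 then x else fnOf (U t), ⟨?_, ?_⟩, if_pos rfl⟩
  · intro t ht
    by_cases h : t = 0
    · simp only [if_pos h]; exact hx
    · simp only [if_neg h]; exact fnOf_mem _
  · intro t ht
    obtain ⟨y, y0, ys, yl⟩ := hF.2 t ht
    have e0 : ∀ n, y n 0 = fnOf (clsOf hx) := fun n => by rw [y0 n, ← hU0]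
    refine ⟨fun n k => if k = 0 then x else y n k, fun n => by simp, ?_, ?_⟩
    · intro n hn k
      rcases Nat.eq_zero_or_pos k with hk | hk
      · subst hk
        simp only [if_pos, zero_add, one_ne_zero, if_false]
        have h1 := ys n hn 0
        obtain ⟨⟨q, hq, hxq⟩, h2, h3⟩ := h1
        rw [zero_add] at hxq h2 h3
        refine ⟨⟨q, hq, ?_⟩, h2, ?_⟩
        · filter_upwards [hxq, (fnOf_clsOf hx).1] with z h4 h5
          rw [h4, e0, h5]
        · intro w r hw hwi
          rw [← h3 w r hw hwi]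
          apply integral_congr_ae
          filter_upwards [(fnOf_clsOf hx).2] with z h5
          show x.2 z * w z = (y n 0).2 z * w z
          rw [e0, h5]
      · have hk' : k ≠ 0 := hk.ne'
        simp only [if_neg hk', if_neg (Nat.succ_ne_zero k)]
        exact ys n hn k
    · have ht' : t ≠ 0 := ht.ne'
      simp only [if_neg ht']
      refine yl.congr' ?_
      filter_upwards [eventually_gt_atTop 0] with n hn
      simp only [if_neg hn.ne']

end

end Pool.Agent.MP_4c4330_an.Gen
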