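import Pool.Agent.MP_4c4330_an.Gen.Defs
open MeasureTheory Set Filter Topology
open scoped ENNReal ContDiff
namespace Pool.Agent.MP_4c4330_an.Gen

section
variable {E : Type*} [NormedAddCommGroup E] [InnerProductSpace ℝ E] [FiniteDimensional ℝ E]
  [MeasurableSpace E] [BorelSpace E] {Ω : Set E} {a α : ℝ} {n : ℕ}

theorem C1_norm {H : Type*} [NormedAddCommGroup H] [InnerProductSpace ℝ H] (u : Fin n → H)
    (w : Fin n → ℝ) (hu : ∀ i j, inner ℝ (u i) (u j) = if i = j then w i else 0)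
    (c : Fin n → ℝ) : ‖∑ i, c i • u i‖ ^ 2 = ∑ i, (c i) ^ 2 * w i := by
  rw [← real_inner_self_eq_norm_sq, sum_inner]
  refine Finset.sum_congr rfl fun i _ => ?_
  rw [inner_sum]
  have h1 : ∀ j, inner ℝ (c i • u i) (c j • u j) = if i = j then (c i) ^ 2 * w i else 0 := by
    intro j
    rw [real_inner_smul_left, real_inner_smul_right, hu]
    by_cases h : i = j
    · subst h
      rw [if_pos rfl, if_pos rfl]
      ring
    · rw [if_neg h, if_neg h, mul_zero, mul_zero]
  rw [Finset.sum_congr rfl fun j _ => h1 j]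
  rw [Finset.sum_ite_eq Finset.univ i, if_pos (Finset.mem_univ i)]

theorem C1_coe (F : Fam Ω n) (c : Fin n → ℝ) (s : Finset (Fin n)) :
    ((∑ i ∈ s, c i • F.e i : Lp ℝ 2 (volume.restrict Ω)) : E → ℝ) =ᵐ[volume.restrict Ω]
      fun x => ∑ i ∈ s, c i * F.e i x := by
  classical
  induction s using Finset.induction_on with
  | empty =>
    simp only [Finset.sum_empty]
    exact Lp.coeFn_zero _ _ _
  | insert i s hi ih =>
    rw [Finset.sum_insert hi]
    refine (Lp.coeFn_add _ _).trans ?_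
    filter_upwards [Lp.coeFn_smul (c i) (F.e i), ih] with x h1 h2
    rw [Pi.add_apply, h1, h2, Finset.sum_insert hi, Pi.smul_apply, smul_eq_mul]

/-- [C1] the states `Zst`. -/
theorem zst_facts (F : Fam Ω n) :
    (∀ z, ‖Zst F z‖ ^ 2 = ∑ i, (z i) ^ 2) ∧ (∀ z z', Zst F (z - z') = Zst F z - Zst F z') ∧
    (∀ (c : ℝ) z, Zst F (c • z) = c • Zst F z) ∧
    ∀ z, (Zst F z).snd =ᵐ[volume.restrict Ω] zv F z := by
  refine ⟨fun z => ?_, fun z z' => ?_, fun c z => ?_, fun z => ?_⟩
  · rw [WithLp.prod_norm_sq_eq_of_L2, Fintype.sum_sum_type]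
    congr 1
    · have h1 : (Zst F z).fst = ∑ i, (z (Sum.inl i) / √(F.lam i)) •
          (⟨F.q i, (F.h10 i).grad_mem⟩ : GradSpace Ω) := rfl
      rw [h1, C1_norm (fun i => (⟨F.q i, (F.h10 i).grad_mem⟩ : GradSpace Ω)) F.lam]
      · refine Finset.sum_congr rfl fun i _ => ?_
        have h2 := F.pos i
        rw [div_pow, Real.sq_sqrt h2.le, div_mul_cancel₀ _ h2.ne']
      · intro i j
        have h2 : inner ℝ (⟨F.q i, (F.h10 i).grad_mem⟩ : GradSpace Ω)
            (⟨F.q j, (F.h10 j).grad_mem⟩ : GradSpace Ω) = inner ℝ (F.q i) (F.q j) := rfl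
        rw [h2, F.eig i (F.e j) (F.q j) (F.h10 j), orthonormal_iff_ite.1 F.orth i j]
        by_cases h : i = j
        · rw [if_pos h, if_pos h, mul_one]
        · rw [if_neg h, if_neg h, mul_zero]
    · have h1 : (Zst F z).snd = ∑ i, z (Sum.inr i) • F.e i := rfl
      rw [h1, C1_norm F.e (fun _ => 1)]
      · simp
      · intro i j
        exact orthonormal_iff_ite.1 F.orth i j
  · unfold Zst
    rw [← WithLp.toLp_sub]
    congr 1
    refine Prod.ext ?_ ?_
    · simp only [Prod.fst_sub, Pi.sub_apply, sub_div, sub_smul, Finset.sum_sub_distrib]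
    · simp only [Prod.snd_sub, Pi.sub_apply, sub_smul, Finset.sum_sub_distrib]
  · unfold Zst
    rw [← WithLp.toLp_smul]
    congr 1
    refine Prod.ext ?_ ?_
    · simp only [Prod.smul_fst, Pi.smul_apply, smul_eq_mul, Finset.smul_sum, smul_smul,
        mul_div_assoc]
    · simp only [Prod.smul_snd, Pi.smul_apply, smul_eq_mul, Finset.smul_sum, smul_smul]
  · exact C1_coe F (fun i => z (Sum.inr i)) Finset.univ

end

end Pool.Agent.MP_4c4330_an.Gen
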