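import Pool.Agent.MP_4c4330_an.Gen.Defs
open MeasureTheory Set Filter Topology
open scoped ENNReal ContDiff
namespace Pool.Agent.MP_4c4330_an.Gen

section
variable {E : Type*} [NormedAddCommGroup E] [InnerProductSpace ℝ E] [FiniteDimensional ℝ E]
  [MeasurableSpace E] [BorelSpace E] {Ω : Set E} {a α : ℝ} {n : ℕ}

theorem C2_int2 (F : Fam Ω n) (i l : Fin n) :
    Integrable (fun x => F.e i x * F.e l x) (volume.restrict Ω) :=
  (Lp.memLp (F.e i)).integrable_mul (Lp.memLp (F.e l))

theorem C2_int (F : Fam Ω n) {m : E → ℝ} (hm : Measurable m) {k : ℝ} (h0 : ∀ x, 0 ≤ m x)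
    (hk : ∀ x, m x ≤ k) (i l : Fin n) :
    Integrable (fun x => m x * F.e i x * F.e l x) (volume.restrict Ω) := by
  refine Integrable.mono' (((C2_int2 F i l).norm).const_mul k) ?_ (Eventually.of_forall fun x => ?_)
  · exact (hm.aestronglyMeasurable.mul (Lp.aestronglyMeasurable (F.e i))).mul
      (Lp.aestronglyMeasurable (F.e l))
  · rw [mul_assoc, norm_mul, Real.norm_eq_abs (m x), abs_of_nonneg (h0 x)]
    exact mul_le_mul_of_nonneg_right (hk x) (norm_nonneg _)

theorem C2_sq (F : Fam Ω n) (i : Fin n) : ∫ x in Ω, (F.e i x) ^ 2 = 1 := by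
  have h1 := orthonormal_iff_ite.1 F.orth i i
  rw [if_pos rfl, inner_Lp_real] at h1
  rw [← h1]
  refine integral_congr_ae (Eventually.of_forall fun x => ?_)
  exact sq (F.e i x)

/-- [C2] the matrix `gram` is positive semidefinite and bounded. -/
theorem gram_facts (hfin : volume Ω < ⊤) (F : Fam Ω n) {C : ℝ} (hC : 0 ≤ C) (hP : PB F C)
    {m : E → ℝ} (hm : Measurable m) {k : ℝ} (h0 : ∀ x, 0 ≤ m x) (hk : ∀ x, m x ≤ k) :
    (∀ β : Fin n → ℝ, 0 ≤ ∑ i, ∑ l, gram F m i l * β i * β l) ∧
    (∑ i, gram F m i i ≤ C * n * ∫ x in Ω, m x) ∧ (∀ i l, |gram F m i l| ≤ k) ∧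
    (∀ i l, gram F m i l = gram F m l i) := by
  have hk0 : 0 ≤ k := by
    have h1 := (h0 0).trans (hk 0)
    exact h1
  have : IsFiniteMeasure (volume.restrict Ω) := ⟨by
    rw [Measure.restrict_apply_univ]
    exact hfin⟩
  refine ⟨fun β => ?_, ?_, fun i l => ?_, fun i l => ?_⟩
  · have h1 : ∑ i, ∑ l, gram F m i l * β i * β l =
        ∫ x in Ω, m x * (∑ i, β i * F.e i x) ^ 2 := by
      have h2 : ∀ x, m x * (∑ i, β i * F.e i x) ^ 2 =
          ∑ i, ∑ l, m x * F.e i x * F.e l x * (β i * β l) := by
        intro x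
        rw [sq, Finset.sum_mul_sum, Finset.mul_sum]
        refine Finset.sum_congr rfl fun i _ => ?_
        rw [Finset.mul_sum]
        refine Finset.sum_congr rfl fun l _ => ?_
        ring
      rw [integral_congr_ae (Eventually.of_forall h2)]
      rw [integral_finsetSum _ fun i _ => integrable_finsetSum _ fun l _ =>
        (C2_int F hm h0 hk i l).mul_const _]
      refine Finset.sum_congr rfl fun i _ => ?_
      rw [integral_finsetSum _ fun l _ => (C2_int F hm h0 hk i l).mul_const _]
      refine Finset.sum_congr rfl fun l _ => ?_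
      rw [integral_mul_const]
      unfold gram
      ring
    rw [h1]
    exact integral_nonneg fun x => mul_nonneg (h0 x) (sq_nonneg _)
  · have h1 : ∑ i, gram F m i i = ∫ x in Ω, ∑ i, m x * F.e i x * F.e i x := by
      rw [integral_finsetSum _ fun i _ => C2_int F hm h0 hk i i]
      rfl
    have hmint : Integrable m (volume.restrict Ω) := by
      refine Integrable.mono' (integrable_const k) hm.aestronglyMeasurable
        (Eventually.of_forall fun x => ?_)
      rw [Real.norm_eq_abs, abs_of_nonneg (h0 x)]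
      exact hk x
    rw [h1, ← integral_const_mul]
    refine integral_mono_ae (integrable_finsetSum _ fun i _ => C2_int F hm h0 hk i i)
      (hmint.const_mul _) ?_
    filter_upwards [hP] with x hx
    have h2 : ∑ i, m x * F.e i x * F.e i x = m x * ∑ i, (F.e i x) ^ 2 := by
      rw [Finset.mul_sum]
      refine Finset.sum_congr rfl fun i _ => ?_
      ring
    rw [h2, mul_comm (C * n)]
    exact mul_le_mul_of_nonneg_left hx (h0 x)
  · have hsq : ∀ i : Fin n, Integrable (fun x => (F.e i x) ^ 2) (volume.restrict Ω) := fun i =>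
      (Lp.memLp (F.e i)).integrable_sq
    have h1 : |gram F m i l| ≤ ∫ x in Ω, k * (((F.e i x) ^ 2 + (F.e l x) ^ 2) / 2) := by
      unfold gram
      rw [← Real.norm_eq_abs]
      refine norm_integral_le_of_norm_le ((((hsq i).add (hsq l)).div_const 2).const_mul k)
        (Eventually.of_forall fun x => ?_)
      rw [mul_assoc, norm_mul, Real.norm_eq_abs (m x), abs_of_nonneg (h0 x)]
      refine mul_le_mul (hk x) ?_ (norm_nonneg _) hk0
      rw [Real.norm_eq_abs, abs_le]
      constructor
      · nlinarith [sq_nonneg (F.e i x + F.e l x)]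
      · nlinarith [sq_nonneg (F.e i x - F.e l x)]
    refine h1.trans (le_of_eq ?_)
    rw [integral_const_mul, integral_div, integral_add (hsq i) (hsq l), C2_sq, C2_sq]
    ring
  · unfold gram
    refine integral_congr_ae (Eventually.of_forall fun x => ?_)
    simp only
    ring

end

end Pool.Agent.MP_4c4330_an.Gen
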