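import Pool.Agent.MP_4c4330_an.Gen.Defs

/-! # [GEN-C3] the fundamental one-step inequality -/

set_option linter.unusedSectionVars false

open MeasureTheory Set Filter Topology
open scoped ENNReal ContDiff

namespace Pool.Agent.MP_4c4330_an.Gen

section
variable {E : Type*} [NormedAddCommGroup E] [InnerProductSpace ℝ E] [FiniteDimensional ℝ E]
  [MeasurableSpace E] [BorelSpace E] {Ω : Set E} {a α : ℝ} {n : ℕ}

/-- `g ∘ f` is in the dual space. -/
lemma C3_g_memLp {μ : Measure E} (ha : 0 < a) (hα : 0 < α) {f : E → ℝ}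
    (hf : MemLp f (ENNReal.ofReal (α + 2)) μ) :
    MemLp (fun x => g a α (f x)) (ENNReal.ofReal (qe α)) μ := by
  have hq := qe_pos hα
  have hm : AEStronglyMeasurable (fun x => g a α (f x)) μ :=
    (continuous_g hα).comp_aestronglyMeasurable hf.1
  have h1 := integrable_norm_rpow_iff (p := ENNReal.ofReal (qe α)) hm
    (by simp; linarith) ENNReal.ofReal_ne_top
  rw [← h1, ENNReal.toReal_ofReal hq.le]
  have h2 := ((pow_int_iff hα hf.1).2 hf).const_mul (a ^ qe α)
  refine h2.congr (Eventually.of_forall fun x => ?_)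
  simp only
  rw [Real.norm_eq_abs, abs_g ha hα, Real.mul_rpow ha.le (by positivity),
    ← Real.rpow_mul (abs_nonneg _), qe_mul hα]

/-- Integrability of the dual power. -/
lemma C3_qe_int {μ : Measure E} (hα : 0 < α) {f : E → ℝ}
    (hf : MemLp f (ENNReal.ofReal (qe α)) μ) :
    Integrable (fun x => |f x| ^ qe α) μ := by
  have hq := qe_pos hα
  have h1 := (integrable_norm_rpow_iff (p := ENNReal.ofReal (qe α)) hf.1
    (by simp; linarith) ENNReal.ofReal_ne_top).2 hf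
  rw [ENNReal.toReal_ofReal hq.le] at h1
  exact h1

/-- The inner product of the energy space. -/
lemma C3_inner (x y : EnergySpace Ω) : inner ℝ x y = inner ℝ x.snd y.snd +
    inner ℝ (x.fst : Lp E 2 (volume.restrict Ω)) (y.fst : Lp E 2 (volume.restrict Ω)) := by
  rw [WithLp.prod_inner_apply, add_comm]
  rfl

/-- The velocity is bounded. -/
lemma C3_zv_bdd (F : Fam Ω n) {C : ℝ} (hP : PB F C) (z : Fin n ⊕ Fin n → ℝ) :
    ∃ B : ℝ, ∀ᵐ x ∂(volume.restrict Ω), |zv F z x| ≤ B := by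
  refine ⟨∑ i, |z (Sum.inr i)| * √(C * n), ?_⟩
  filter_upwards [hP] with x hx
  unfold zv
  refine (Finset.abs_sum_le_sum_abs _ _).trans (Finset.sum_le_sum fun i _ => ?_)
  rw [abs_mul]
  refine mul_le_mul_of_nonneg_left ?_ (abs_nonneg _)
  refine Real.abs_le_sqrt ?_
  exact (Finset.single_le_sum (f := fun i => (F.e i x) ^ 2) (fun i _ => sq_nonneg _)
    (Finset.mem_univ i)).trans hx

/-- The element of `L²` given by `pz`. -/
noncomputable def C3_pl (F : Fam Ω n) (m : E → ℝ) (z : Fin n ⊕ Fin n → ℝ) :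
    Lp ℝ 2 (volume.restrict Ω) :=
  ∑ i, z (Sum.inr i) • ∑ l, gram F m i l • F.e l

lemma C3_coe_sum {ι : Type} (s : Finset ι) (c : ι → ℝ) (f : ι → Lp ℝ 2 (volume.restrict Ω)) :
    ((∑ i ∈ s, c i • f i : Lp ℝ 2 (volume.restrict Ω)) : E → ℝ) =ᵐ[volume.restrict Ω]
      fun x => ∑ i ∈ s, c i * f i x := by
  classical
  induction s using Finset.induction_on with
  | empty =>
    simp only [Finset.sum_empty]
    exact Lp.coeFn_zero _ _ _
  | insert i s hi ih =>
    rw [Finset.sum_insert hi]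
    filter_upwards [Lp.coeFn_add (c i • f i) (∑ i ∈ s, c i • f i), Lp.coeFn_smul (c i) (f i), ih]
      with x h1 h2 h3
    rw [h1, Pi.add_apply, h2, h3, Finset.sum_insert hi, Pi.smul_apply, smul_eq_mul]

lemma C3_pl_coe (F : Fam Ω n) (m : E → ℝ) (z : Fin n ⊕ Fin n → ℝ) :
    (C3_pl F m z : E → ℝ) =ᵐ[volume.restrict Ω] pz F m z := by
  unfold C3_pl
  have h1 := C3_coe_sum (Ω := Ω) Finset.univ (fun i => z (Sum.inr i))
    (fun i => ∑ l, gram F m i l • F.e l)
  have h2 : ∀ i, ((∑ l, gram F m i l • F.e l : Lp ℝ 2 (volume.restrict Ω)) : E → ℝ)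
      =ᵐ[volume.restrict Ω] fun x => ∑ l, gram F m i l * F.e l x := fun i =>
    C3_coe_sum (Ω := Ω) Finset.univ (fun l => gram F m i l) (fun l => F.e l)
  filter_upwards [h1, ae_all_iff.2 h2] with x h3 h4
  rw [h3]
  unfold pz
  refine Finset.sum_congr rfl fun i _ => ?_
  rw [h4 i]

lemma C3_gram_symm (F : Fam Ω n) (m : E → ℝ) (i l : Fin n) : gram F m i l = gram F m l i := by
  unfold gram
  congr 1
  funext x
  ring

/-- The coordinates of one linear step. -/
lemma C3_coord {h : ℝ} (lam : Fin n → ℝ) (G : Matrix (Fin n) (Fin n) ℝ)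
    (z z' : Fin n ⊕ Fin n → ℝ) (hz : z = (bmat h lam G).mulVec z') :
    (∀ i, z (Sum.inl i) = z' (Sum.inl i) - h * (√(lam i) * z' (Sum.inr i))) ∧
    ∀ i, z (Sum.inr i) = z' (Sum.inr i) + h * (√(lam i) * z' (Sum.inl i) +
      ∑ l, G i l * z' (Sum.inr l)) := by
  subst hz
  unfold bmat
  rw [Matrix.fromBlocks_mulVec]
  constructor
  · intro i
    simp only [Sum.elim_inl, Pi.add_apply, Matrix.one_mulVec, Function.comp, Matrix.neg_mulVec,
      Pi.neg_apply, Matrix.smul_mulVec, Pi.smul_apply, Matrix.mulVec_diagonal, smul_eq_mul]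
    ring
  · intro i
    simp only [Sum.elim_inr, Pi.add_apply, Matrix.add_mulVec, Matrix.one_mulVec, Function.comp,
      Matrix.smul_mulVec, Pi.smul_apply, Matrix.mulVec_diagonal, smul_eq_mul]
    have hd : (G.mulVec fun x => z' (Sum.inr x)) i = ∑ l, G i l * z' (Sum.inr l) := rfl
    rw [← hd]
    simp only [Function.comp_def]
    ring

lemma C3_inH10_sum (F : Fam Ω n) (c : Fin n → ℝ) :
    InH10 Ω (∑ i, c i • F.e i) (∑ i, c i • F.q i) := by
  have h1 : (∑ i, c i • F.e i, ∑ i, c i • F.q i) = ∑ i, c i • (F.e i, F.q i) := by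
    ext1
    · rw [Prod.fst_sum]
      rfl
    · rw [Prod.snd_sum]
      rfl
  unfold InH10
  rw [h1]
  exact Submodule.sum_mem _ fun i _ => Submodule.smul_mem _ _ (F.h10 i)

/-- The linear part of the scheme, tested with `w`. -/
lemma C3_lin (F : Fam Ω n) (m : E → ℝ) {h : ℝ} (hh : 0 < h) (z z' : Fin n ⊕ Fin n → ℝ)
    (hz : z = (bmat h F.lam (gram F m)).mulVec z') :
    ((h⁻¹ • (Zst F z - Zst F z')).fst : Lp E 2 (volume.restrict Ω)) =
      -∑ i, z' (Sum.inr i) • F.q i ∧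
    ∀ w r, InH10 Ω w r → inner ℝ (h⁻¹ • (Zst F z - Zst F z')).snd w =
      inner ℝ ((Zst F z').fst : Lp E 2 (volume.restrict Ω)) r + inner ℝ (C3_pl F m z') w := by
  obtain ⟨hl, hr⟩ := C3_coord F.lam (gram F m) z z' hz
  have hs : ∀ i, √(F.lam i) ≠ 0 := fun i => (Real.sqrt_pos.2 (F.pos i)).ne'
  have hfst : ∀ z : Fin n ⊕ Fin n → ℝ, ((Zst F z).fst : Lp E 2 (volume.restrict Ω)) =
      ∑ i, (z (Sum.inl i) / √(F.lam i)) • F.q i := by
    intro z
    have h1 : (Zst F z).fst = ∑ i, (z (Sum.inl i) / √(F.lam i)) •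
        (⟨F.q i, (F.h10 i).grad_mem⟩ : GradSpace Ω) := rfl
    rw [h1]
    rw [AddSubmonoidClass.coe_finset_sum]
    rfl
  have hsnd : ∀ z : Fin n ⊕ Fin n → ℝ, (Zst F z).snd = ∑ i, z (Sum.inr i) • F.e i :=
    fun z => rfl
  constructor
  · have h1 : ((h⁻¹ • (Zst F z - Zst F z')).fst : Lp E 2 (volume.restrict Ω)) =
        h⁻¹ • (((Zst F z).fst : Lp E 2 (volume.restrict Ω)) - (Zst F z').fst) := rfl
    rw [h1, hfst, hfst, ← Finset.sum_sub_distrib, Finset.smul_sum, ← Finset.sum_neg_distrib]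
    refine Finset.sum_congr rfl fun i _ => ?_
    rw [← sub_smul, smul_smul, ← neg_smul, hl]
    congr 1
    have := hs i
    have := hh.ne'
    field_simp
    ring
  · intro w r hwr
    have h1 : (h⁻¹ • (Zst F z - Zst F z')).snd = h⁻¹ • ((Zst F z).snd - (Zst F z').snd) := rfl
    have h2 : (h⁻¹ • (Zst F z - Zst F z')).snd = ∑ i, (√(F.lam i) * z' (Sum.inl i) +
        ∑ l, gram F m i l * z' (Sum.inr l)) • F.e i := by
      rw [h1, hsnd, hsnd, ← Finset.sum_sub_distrib, Finset.smul_sum]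
      refine Finset.sum_congr rfl fun i _ => ?_
      rw [← sub_smul, smul_smul, hr]
      congr 1
      have := hh.ne'
      field_simp
      ring
    rw [h2, hfst, sum_inner, sum_inner]
    unfold C3_pl
    rw [sum_inner]
    simp only [real_inner_smul_left, sum_inner]
    have h3 : ∀ i, z' (Sum.inl i) / √(F.lam i) * inner ℝ (F.q i) r =
        √(F.lam i) * z' (Sum.inl i) * inner ℝ (F.e i) w := by
      intro i
      rw [F.eig i w r hwr]
      have h4 : F.lam i = √(F.lam i) * √(F.lam i) := (Real.mul_self_sqrt (F.pos i).le).symm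
      have h5 := hs i
      calc z' (Sum.inl i) / √(F.lam i) * (F.lam i * inner ℝ (F.e i) w)
          = z' (Sum.inl i) / √(F.lam i) * ((√(F.lam i) * √(F.lam i)) * inner ℝ (F.e i) w) := by
            rw [← h4]
        _ = _ := by field_simp
    simp only [h3, add_mul, Finset.sum_add_distrib, Finset.sum_mul, Finset.mul_sum]
    congr 1
    rw [Finset.sum_comm]
    refine Finset.sum_congr rfl fun i _ => Finset.sum_congr rfl fun l _ => ?_
    rw [C3_gram_symm F m l i]
    ring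

/-- [C3] the fundamental one-step inequality. -/
theorem step_ineq (ha : 0 < a) (hα : 0 < α) (hfin : volume Ω < ⊤) {CY : ℝ}
    (hY : ∀ x y : ℝ, |x| * |y| ≤ a * (2 : ℝ) ^ (-α) * |y| ^ (α + 2) + CY * |x| ^ qe α)
    (F : Fam Ω n) {C : ℝ} (hC : 0 ≤ C) (hP : PB F C) {k : ℝ} (hk : 0 < k) {h : ℝ} (hh : 0 < h)
    {W W' U U' : EnergySpace Ω} (hW : EulerStep (WaveOp Ω a α) h W W')
    (hU : EulerStep (WaveOp Ω a α) h U U') {z z' : Fin n ⊕ Fin n → ℝ}
    (hz : z = (bmat h F.lam (gram F fun x => gk a α k (U'.snd x))).mulVec z') :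
    ‖W' - U' - Zst F z'‖ ^ 2 ≤ ‖W - U - Zst F z‖ ^ 2
      + 2 * h * CY * (∫ x in Ω, |g a α (U'.snd x + zv F z' x) - g a α (U'.snd x)
          - gk a α k (U'.snd x) * zv F z' x| ^ qe α)
      + 2 * h * √(∫ x in Ω, (gk a α k (U'.snd x) * zv F z' x
          - pz F (fun x => gk a α k (U'.snd x)) z' x) ^ 2) * ‖W' - U' - Zst F z'‖ := by
  have : IsFiniteMeasure (volume.restrict Ω) := ⟨by rwa [Measure.restrict_apply_univ]⟩
  set m : E → ℝ := fun x => gk a α k (U'.snd x) with hm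
  obtain ⟨w1, w2, w3⟩ := waveOp_iff.1 hW
  obtain ⟨u1, u2, u3⟩ := waveOp_iff.1 hU
  obtain ⟨l1, l2⟩ := C3_lin F m hh z z' hz
  set ξW : EnergySpace Ω := h⁻¹ • (W - W') with hξW
  set ξU : EnergySpace Ω := h⁻¹ • (U - U') with hξU
  set ξZ : EnergySpace Ω := h⁻¹ • (Zst F z - Zst F z') with hξZ
  set e1 : EnergySpace Ω := W' - U' - Zst F z' with he1
  set ξE : EnergySpace Ω := ξW - ξU - ξZ with hξE
  have he0 : W - U - Zst F z = e1 + h • ξE := by
    rw [hξE, smul_sub, smul_sub, hξW, hξU, hξZ, smul_smul, smul_smul, smul_smul,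
      mul_inv_cancel₀ hh.ne', one_smul, one_smul, one_smul, he1]
    abel
  set w : Lp ℝ 2 (volume.restrict Ω) := e1.snd with hw
  set r : Lp E 2 (volume.restrict Ω) := -(ξE.fst : Lp E 2 (volume.restrict Ω)) with hr
  have hzs : (Zst F z').snd = ∑ i, z' (Sum.inr i) • F.e i := rfl
  have hws : w = W'.snd - U'.snd - ∑ i, z' (Sum.inr i) • F.e i := rfl
  have hrs : r = -(ξW.fst : Lp E 2 (volume.restrict Ω)) -
      -(ξU.fst : Lp E 2 (volume.restrict Ω)) - ∑ i, z' (Sum.inr i) • F.q i := by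
    have h1 : (ξE.fst : Lp E 2 (volume.restrict Ω)) =
        (ξW.fst : Lp E 2 (volume.restrict Ω)) - (ξU.fst : Lp E 2 (volume.restrict Ω)) -
        (ξZ.fst : Lp E 2 (volume.restrict Ω)) := rfl
    rw [hr, h1, l1]
    abel
  have hwr : InH10 Ω w r := by
    rw [hws, hrs]
    exact (w1.sub u1).sub (C3_inH10_sum F _)
  -- the velocity
  set ζ : E → ℝ := zv F z' with hζ
  have hζl : ((∑ i, z' (Sum.inr i) • F.e i : Lp ℝ 2 (volume.restrict Ω)) : E → ℝ)
      =ᵐ[volume.restrict Ω] ζ := C3_coe_sum _ _ _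
  have hζm : AEStronglyMeasurable ζ (volume.restrict Ω) :=
    (Lp.aestronglyMeasurable _).congr hζl
  obtain ⟨B, hB⟩ := C3_zv_bdd F hP z'
  have hζp : ∀ p, MemLp ζ p (volume.restrict Ω) := fun p =>
    MemLp.of_bound hζm B (hB.mono fun x hx => by rwa [Real.norm_eq_abs])
  have hmm : AEStronglyMeasurable m (volume.restrict Ω) :=
    (continuous_gk hα k).comp_aestronglyMeasurable (Lp.aestronglyMeasurable _)
  have hmb : ∀ x, |m x| ≤ k := fun x => by
    rw [abs_of_nonneg (gk_nonneg ha hα hk.le _)]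
    exact gk_le _ _
  have hmζ : ∀ p, MemLp (fun x => m x * ζ x) p (volume.restrict Ω) := fun p =>
    MemLp.of_bound (hmm.mul hζm) (k * B) (hB.mono fun x hx => by
      rw [Real.norm_eq_abs, abs_mul]
      exact mul_le_mul (hmb x) hx (abs_nonneg _) hk.le)
  have hzint : Integrable (fun y => |(∑ i, z' (Sum.inr i) • F.e i : Lp ℝ 2 (volume.restrict Ω)) y|
      ^ (α + 2)) (volume.restrict Ω) := by
    rw [pow_int_iff hα (Lp.aestronglyMeasurable _)]
    exact (memLp_congr_ae hζl).2 (hζp _)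
  have iw : Integrable (fun y => |w y| ^ (α + 2)) (volume.restrict Ω) := by
    rw [hws]
    exact pow_int_sub hα (pow_int_sub hα w2 u2) hzint
  -- the inner product
  have t1 := w3 w r hwr iw
  have t2 := u3 w r hwr iw
  have t3 := l2 w r hwr
  have i1 := gw_int' ha hα w2 iw
  have i2 := gw_int' ha hα u2 iw
  have i3 : Integrable (fun y => C3_pl F m z' y * w y) (volume.restrict Ω) :=
    (Lp.memLp (C3_pl F m z')).integrable_mul (Lp.memLp w)
  have i12 : Integrable (fun y => g a α (W'.snd y) * w y - g a α (U'.snd y) * w y)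
      (volume.restrict Ω) := i1.sub i2
  have hin : inner ℝ ξE e1 = ∫ y in Ω, ((g a α (W'.snd y) * w y - g a α (U'.snd y) * w y) -
      C3_pl F m z' y * w y) := by
    rw [integral_sub i12 i3, integral_sub i1 i2, ← inner_Lp_real, C3_inner]
    have h1 : inner ℝ ξE.snd e1.snd =
        inner ℝ ξW.snd w - inner ℝ ξU.snd w - inner ℝ ξZ.snd w := by
      have h2 : ξE.snd = ξW.snd - ξU.snd - ξZ.snd := rfl
      rw [h2, inner_sub_left, inner_sub_left]
    have h3 : inner ℝ (ξE.fst : Lp E 2 (volume.restrict Ω)) (e1.fst : Lp E 2 (volume.restrict Ω))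
        = -(inner ℝ (W'.fst : Lp E 2 (volume.restrict Ω)) r -
          inner ℝ (U'.fst : Lp E 2 (volume.restrict Ω)) r -
          inner ℝ ((Zst F z').fst : Lp E 2 (volume.restrict Ω)) r) := by
      have h4 : (e1.fst : Lp E 2 (volume.restrict Ω)) = (W'.fst : Lp E 2 (volume.restrict Ω)) -
        (U'.fst : Lp E 2 (volume.restrict Ω)) - (Zst F z').fst := rfl
      rw [← inner_sub_left, ← inner_sub_left, ← h4, hr, inner_neg_right, neg_neg,
        real_inner_comm]
    rw [h1, h3, t1, t2, t3]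
    ring
  -- the remainders
  set ra : E → ℝ := fun x => g a α (U'.snd x + ζ x) - g a α (U'.snd x) - m x * ζ x with hra
  set rb : E → ℝ := fun x => m x * ζ x - pz F m z' x with hrb
  have hUp : MemLp (fun x => U'.snd x) (ENNReal.ofReal (α + 2)) (volume.restrict Ω) :=
    (pow_int_iff hα (Lp.aestronglyMeasurable _)).1 u2
  have hrap : MemLp ra (ENNReal.ofReal (qe α)) (volume.restrict Ω) :=
    ((C3_g_memLp ha hα (hUp.add (hζp _))).sub (C3_g_memLp ha hα hUp)).sub (hmζ _)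
  have hrai := C3_qe_int hα hrap
  have hpz : MemLp (pz F m z') 2 (volume.restrict Ω) :=
    (memLp_congr_ae (C3_pl_coe F m z')).1 (Lp.memLp _)
  have hrbp : MemLp rb 2 (volume.restrict Ω) := (hmζ 2).sub hpz
  have hrbi : Integrable (fun y => rb y * w y) (volume.restrict Ω) :=
    hrbp.integrable_mul (Lp.memLp w)
  have hpt : ∫ y in Ω, (rb y * w y - CY * |ra y| ^ qe α) ≤
      ∫ y in Ω, ((g a α (W'.snd y) * w y - g a α (U'.snd y) * w y) - C3_pl F m z' y * w y) := by
    refine integral_mono_ae (hrbi.sub (hrai.const_mul CY)) (i12.sub i3) ?_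
    filter_upwards [Lp.coeFn_sub (W'.snd - U'.snd) (∑ i, z' (Sum.inr i) • F.e i),
      Lp.coeFn_sub W'.snd U'.snd, hζl, C3_pl_coe F m z'] with y h1 h2 h3 h4
    have h5 : w y = W'.snd y - (U'.snd y + ζ y) := by
      rw [hws, h1, Pi.sub_apply, h2, Pi.sub_apply, h3]
      ring
    have h6 := g_strong ha hα (W'.snd y) (U'.snd y + ζ y)
    rw [← h5] at h6
    have h7 := hY (ra y) (w y)
    have h8 : -(|ra y| * |w y|) ≤ ra y * w y := by
      rw [← abs_mul]
      exact neg_abs_le _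
    rw [h4]
    have h9 : g a α (W'.snd y) * w y - g a α (U'.snd y) * w y - pz F m z' y * w y =
        (g a α (W'.snd y) - g a α (U'.snd y + ζ y)) * w y + ra y * w y + rb y * w y := by
      rw [hra, hrb]
      ring
    rw [h9]
    linarith
  rw [integral_sub hrbi (hrai.const_mul CY), integral_const_mul, ← hin] at hpt
  -- Cauchy-Schwarz
  have hcs : -(√(∫ y in Ω, (rb y) ^ 2) * ‖e1‖) ≤ ∫ y in Ω, rb y * w y := by
    set rl : Lp ℝ 2 (volume.restrict Ω) := hrbp.toLp rb with hrl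
    have h1 : ∫ y in Ω, rb y * w y = inner ℝ rl w := by
      rw [inner_Lp_real]
      refine integral_congr_ae ?_
      filter_upwards [hrbp.coeFn_toLp] with y hy
      rw [hrl, hy]
    have h2 : √(∫ y in Ω, (rb y) ^ 2) = ‖rl‖ := by
      have h3 : ‖rl‖ ^ 2 = ∫ y in Ω, (rb y) ^ 2 := by
        rw [norm_sq_Lp]
        refine integral_congr_ae ?_
        filter_upwards [hrbp.coeFn_toLp] with y hy
        rw [hrl, hy, Real.norm_eq_abs, sq_abs]
      rw [← h3, Real.sqrt_sq (norm_nonneg _)]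
    have h4 : ‖w‖ ≤ ‖e1‖ := by
      have h5 := WithLp.prod_norm_sq_eq_of_L2 e1
      have h6 : ‖w‖ ^ 2 ≤ ‖e1‖ ^ 2 := by
        rw [h5]
        have := sq_nonneg ‖e1.fst‖
        linarith
      exact (sq_le_sq₀ (norm_nonneg _) (norm_nonneg _)).1 h6
    rw [h1, h2]
    have h7 := (abs_le.1 (abs_real_inner_le_norm rl w)).1
    have h8 : ‖rl‖ * ‖w‖ ≤ ‖rl‖ * ‖e1‖ := mul_le_mul_of_nonneg_left h4 (norm_nonneg _)
    linarith
  have hnorm : ‖W - U - Zst F z‖ ^ 2 = ‖e1‖ ^ 2 + 2 * h * inner ℝ ξE e1 + ‖h • ξE‖ ^ 2 := by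
    have hs1 : inner ℝ e1 (h • ξE) = h * inner ℝ e1 ξE := real_inner_smul_right e1 ξE h
    have hs2 : inner ℝ e1 ξE = inner ℝ ξE e1 := real_inner_comm ξE e1
    rw [he0, norm_add_sq_real, hs1, hs2]
    ring
  rw [hnorm]
  have h10 := sq_nonneg ‖h • ξE‖
  have h11 : -(√(∫ y in Ω, (rb y) ^ 2) * ‖e1‖) - CY * ∫ y in Ω, |ra y| ^ qe α ≤
      inner ℝ ξE e1 := by linarith
  have h12 := mul_le_mul_of_nonneg_left h11 (show 0 ≤ 2 * h by positivity)
  have h13 : 2 * h * CY * (∫ y in Ω, |ra y| ^ qe α) +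
      2 * h * √(∫ y in Ω, (rb y) ^ 2) * ‖e1‖ =
      -(2 * h * (-(√(∫ y in Ω, (rb y) ^ 2) * ‖e1‖) - CY * ∫ y in Ω, |ra y| ^ qe α)) := by ring
  linarith

end

end Pool.Agent.MP_4c4330_an.Gen
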