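import Pool.Agent.MP_4c4330_an.Gen.Defs
open MeasureTheory Set Filter Topology
open scoped ENNReal ContDiff
namespace Pool.Agent.MP_4c4330_an.Gen

/-- [C4] summation of the one-step inequalities. -/
theorem seq_bound {e R b : ℕ → ℝ} {h c : ℝ} (hh : 0 ≤ h) (hc : 0 ≤ c) (he : ∀ j, 0 ≤ e j)
    (hR : ∀ j, 0 ≤ R j) (hb : ∀ j, 0 ≤ b j) (h0 : e 0 = 0) {M : ℕ}
    (hs : ∀ j < M, (e (j + 1)) ^ 2 ≤ (e j) ^ 2 + 2 * h * c * R (j + 1)
      + 2 * h * √(b (j + 1)) * e (j + 1)) :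
    (e M) ^ 2 ≤ 4 * h * c * (∑ j ∈ Finset.range M, R (j + 1))
      + 4 * (M * h) * (h * ∑ j ∈ Finset.range M, b (j + 1)) := by
  obtain ⟨m, hm, hmax⟩ := Finset.exists_max_image (Finset.range (M + 1)) e
    ⟨0, Finset.mem_range.2 (Nat.succ_pos M)⟩
  have hmM : m ≤ M := Nat.lt_succ_iff.1 (Finset.mem_range.1 hm)
  have hsum : ∀ k ≤ M, (e k) ^ 2 ≤ 2 * h * c * (∑ j ∈ Finset.range k, R (j + 1))
      + 2 * h * (∑ j ∈ Finset.range k, √(b (j + 1))) * e m := by
    intro k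
    induction k with
    | zero =>
      intro _
      rw [h0]
      simp
    | succ k ih =>
      intro hk
      have h1 := ih (by omega)
      have h2 := hs k (by omega)
      have h3 : e (k + 1) ≤ e m := hmax (k + 1) (Finset.mem_range.2 (by omega))
      have h4 : 2 * h * √(b (k + 1)) * e (k + 1) ≤ 2 * h * √(b (k + 1)) * e m :=
        mul_le_mul_of_nonneg_left h3 (by positivity)
      rw [Finset.sum_range_succ, Finset.sum_range_succ]
      calc (e (k + 1)) ^ 2 ≤ (e k) ^ 2 + 2 * h * c * R (k + 1) + 2 * h * √(b (k + 1)) * e m := by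
            linarith
        _ ≤ _ := by
            rw [mul_add, mul_add, add_mul]
            linarith
  have h1 := hsum m hmM
  set S := ∑ j ∈ Finset.range M, √(b (j + 1)) with hS
  have h2 : ∑ j ∈ Finset.range m, R (j + 1) ≤ ∑ j ∈ Finset.range M, R (j + 1) :=
    Finset.sum_le_sum_of_subset_of_nonneg (Finset.range_subset_range.2 hmM) fun j _ _ => hR _
  have h3 : ∑ j ∈ Finset.range m, √(b (j + 1)) ≤ S :=
    Finset.sum_le_sum_of_subset_of_nonneg (Finset.range_subset_range.2 hmM)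
      fun j _ _ => Real.sqrt_nonneg _
  have h4 : S ^ 2 ≤ M * ∑ j ∈ Finset.range M, b (j + 1) := by
    have h5 := sq_sum_le_card_mul_sum_sq (s := Finset.range M) (f := fun j => √(b (j + 1)))
    rw [Finset.card_range] at h5
    have h6 : ∑ j ∈ Finset.range M, √(b (j + 1)) ^ 2 = ∑ j ∈ Finset.range M, b (j + 1) :=
      Finset.sum_congr rfl fun j _ => Real.sq_sqrt (hb _)
    rw [h6] at h5
    exact h5
  have h5 : (e M) ^ 2 ≤ (e m) ^ 2 :=
    pow_le_pow_left₀ (he M) (hmax M (Finset.mem_range.2 (Nat.lt_succ_self M))) 2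
  have h6 : 2 * h * c * (∑ j ∈ Finset.range m, R (j + 1)) ≤
      2 * h * c * (∑ j ∈ Finset.range M, R (j + 1)) :=
    mul_le_mul_of_nonneg_left h2 (by positivity)
  have h7 : 2 * h * (∑ j ∈ Finset.range m, √(b (j + 1))) * e m ≤ 2 * h * S * e m :=
    mul_le_mul_of_nonneg_right (mul_le_mul_of_nonneg_left h3 (by positivity)) (he m)
  have h8 : 2 * h * S * e m ≤ (e m) ^ 2 / 2 + 2 * (h * S) ^ 2 := by
    nlinarith [sq_nonneg (e m - 2 * (h * S))]
  have h9 : (h * S) ^ 2 ≤ h ^ 2 * (M * ∑ j ∈ Finset.range M, b (j + 1)) := by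
    rw [mul_pow]
    exact mul_le_mul_of_nonneg_left h4 (sq_nonneg h)
  nlinarith [h1, h5, h6, h7, h8, h9]

end Pool.Agent.MP_4c4330_an.Gen
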