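import Pool.Agent.MP_4c4330_an.Gen.Defs
import Pool.Agent.MP_4c4330_an.Gen.A1
import Pool.Agent.MP_4c4330_an.Gen.A2
import Pool.Agent.MP_4c4330_an.Gen.C1
open MeasureTheory Set Filter Topology
open scoped ENNReal ContDiff
namespace Pool.Agent.MP_4c4330_an.Gen

set_option linter.unusedSectionVars false

section
variable {E : Type*} [NormedAddCommGroup E] [InnerProductSpace ℝ E] [FiniteDimensional ℝ E]
  [MeasurableSpace E] [BorelSpace E] {Ω : Set E} {a α : ℝ} {n : ℕ}

/-- coefficients of the random sum -/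
noncomputable def D1_c (L : Matrix (Fin n ⊕ Fin n) (Fin n ⊕ Fin n) ℝ) (ε : ℝ) (y : Fin n → ℝ)
    (j : Fin n ⊕ Fin n) : ℝ :=
  ε / √(2 * n) * L.transpose.mulVec (Sum.elim (fun _ => (0:ℝ)) y) j

lemma D1_sum (L : Matrix (Fin n ⊕ Fin n) (Fin n ⊕ Fin n) ℝ) (ε : ℝ) (y : Fin n → ℝ)
    (ξ : Fin n ⊕ Fin n → Bool) :
    ∑ i, (L.mulVec (z0 n ε ξ)) (Sum.inr i) * y i = ∑ j, D1_c L ε y j * sg (ξ j) := by
  simp only [D1_c, Matrix.mulVec, dotProduct, Matrix.transpose_apply, z0]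
  have h1 : ∀ j : Fin n ⊕ Fin n, ∑ x, L x j * Sum.elim (fun _ => (0:ℝ)) y x
      = ∑ i, L (Sum.inr i) j * y i := by
    intro j
    rw [Fintype.sum_sum_type]
    simp
  simp only [h1, Finset.sum_mul, Finset.mul_sum]
  rw [Finset.sum_comm]
  refine Finset.sum_congr rfl fun j _ => Finset.sum_congr rfl fun i _ => ?_
  ring

lemma D1_sq (hn : 0 < n) {L : Matrix (Fin n ⊕ Fin n) (Fin n ⊕ Fin n) ℝ}
    (hL : ∀ y : Fin n ⊕ Fin n → ℝ, ∑ i, (L.transpose.mulVec y i) ^ 2 ≤ ∑ i, (y i) ^ 2)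
    (ε : ℝ) (y : Fin n → ℝ) :
    ∑ j, (D1_c L ε y j) ^ 2 ≤ ε ^ 2 / (2 * n) * ∑ i, (y i) ^ 2 := by
  have hn' : (0:ℝ) < n := by exact_mod_cast hn
  have h1 := hL (Sum.elim (fun _ => (0:ℝ)) y)
  have h2 : ∑ i, (Sum.elim (fun _ : Fin n => (0:ℝ)) y i) ^ 2 = ∑ i, (y i) ^ 2 := by
    rw [Fintype.sum_sum_type]
    simp
  rw [h2] at h1
  have h3 : ∑ j, (D1_c L ε y j) ^ 2 = ε ^ 2 / (2 * n) *
      ∑ j, (L.transpose.mulVec (Sum.elim (fun _ => (0:ℝ)) y) j) ^ 2 := by
    rw [Finset.mul_sum]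
    refine Finset.sum_congr rfl fun j _ => ?_
    unfold D1_c
    rw [mul_pow, div_pow, Real.sq_sqrt (by positivity)]
  rw [h3]
  exact mul_le_mul_of_nonneg_left h1 (by positivity)

lemma D1_avg_sq {ι : Type} [Fintype ι] [DecidableEq ι] (c : ι → ℝ) :
    avg (fun ξ : ι → Bool => (∑ i, c i * sg (ξ i)) ^ 2) = ∑ i, (c i) ^ 2 := by
  have h := avg_lin (ι := ι) (κ := Unit) (fun _ i => c i)
  simpa using h

lemma D1_avg_int {ι : Type} [Fintype ι] [DecidableEq ι] {X : Type*} [MeasurableSpace X]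
    {ν : Measure X} {f : (ι → Bool) → X → ℝ} (hf : ∀ ξ, Integrable (f ξ) ν) :
    avg (fun ξ => ∫ x, f ξ x ∂ν) = ∫ x, avg (fun ξ => f ξ x) ∂ν := by
  unfold avg
  rw [integral_div, integral_finsetSum _ (fun ξ _ => hf ξ)]

lemma D1_avg_integrable {ι : Type} [Fintype ι] [DecidableEq ι] {X : Type*} [MeasurableSpace X]
    {ν : Measure X} {f : (ι → Bool) → X → ℝ} (hf : ∀ ξ, Integrable (f ξ) ν) :
    Integrable (fun x => avg (fun ξ => f ξ x)) ν := by
  unfold avg
  exact (integrable_finsetSum _ (fun ξ _ => hf ξ)).div_const _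

lemma D1_sg_sq (b : Bool) : (sg b) ^ 2 = 1 := by
  unfold sg; split_ifs <;> norm_num

theorem avg_time (ha : 0 < a) (hα : 0 < α) (hfin : volume Ω < ⊤) (hn : 0 < n) (F : Fam Ω n)
    {C : ℝ} (hC : 0 < C) (hP : PB F C) {L : Matrix (Fin n ⊕ Fin n) (Fin n ⊕ Fin n) ℝ}
    (hL : ∀ y : Fin n ⊕ Fin n → ℝ, ∑ i, (L.transpose.mulVec y i) ^ 2 ≤ ∑ i, (y i) ^ 2)
    {ε : ℝ} (hε : 0 < ε) (v : Lp ℝ 2 (volume.restrict Ω))
    (hv : Integrable (fun y => |v y| ^ (α + 2)) (volume.restrict Ω))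
    {K₁ K₂ : ℝ} (hK₁ : ∀ (c : Fin n ⊕ Fin n → ℝ) (σ : ℝ), 0 ≤ σ → ∑ i, (c i) ^ 2 ≤ σ ^ 2 →
      avg (fun ξ => |∑ i, c i * sg (ξ i)| ^ (α + 2)) ≤ K₁ * σ ^ (α + 2))
    (hK₂ : ∀ (c : Fin n ⊕ Fin n → ℝ) (σ : ℝ), 0 ≤ σ → ∑ i, (c i) ^ 2 ≤ σ ^ 2 →
      avg (fun ξ => |∑ i, c i * sg (ξ i)| ^ qe α) ≤ K₂ * σ ^ qe α)
    {μ c₁ η k : ℝ} (hμ : 0 ≤ μ) (hc₁ : 0 ≤ c₁) (hη : 0 ≤ η) (hk : 0 < k)
    (hr : ∀ v z : ℝ, |g a α (v + z) - g a α v - gk a α k v * z| ^ qe α
      ≤ μ * (|v| ^ α * z ^ 2) + c₁ * |z| ^ (α + 2) + η * (|v| ^ (α + 2) * |z| ^ qe α)) :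
    avg (fun ξ => ∫ x in Ω, |g a α (v x + zv F (L.mulVec (z0 n ε ξ)) x) - g a α (v x)
        - gk a α k (v x) * zv F (L.mulVec (z0 n ε ξ)) x| ^ qe α)
      ≤ μ * (C * ε ^ 2 * ∫ x in Ω, |v x| ^ α)
        + c₁ * (K₁ * (√C * ε) ^ (α + 2) * (volume Ω).toReal)
        + η * (K₂ * (√C * ε) ^ qe α * ∫ x in Ω, |v x| ^ (α + 2)) ∧
    avg (fun ξ => ∫ x in Ω, (gk a α k (v x) * zv F (L.mulVec (z0 n ε ξ)) x
        - pz F (fun x => gk a α k (v x)) (L.mulVec (z0 n ε ξ)) x) ^ 2)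
      ≤ ε ^ 2 / n * leak F (fun x => gk a α k (v x)) ∧
    avg (fun ξ => ‖Zst F (L.mulVec (z0 n ε ξ))‖ ^ 2) = ε ^ 2 / (2 * n) * ∑ i, ∑ j, (L i j) ^ 2 ∧
    ∀ ξ, ‖Zst F (z0 n ε ξ)‖ = ε := by
  have hn' : (0:ℝ) < n := by exact_mod_cast hn
  haveI hfm : IsFiniteMeasure (volume.restrict Ω) := ⟨by simpa using hfin⟩
  obtain ⟨A1, A2, A3, A4, -, -⟩ := avg_basic (ι := Fin n ⊕ Fin n)
  have hq := qe_pos hα
  have hem : ∀ i, MemLp (F.e i) 2 (volume.restrict Ω) := fun i => Lp.memLp (F.e i)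
  have hvm : AEStronglyMeasurable (v : E → ℝ) (volume.restrict Ω) := (Lp.memLp v).1
  -- |v|^α integrable
  have hva : Integrable (fun y => |v y| ^ α) (volume.restrict Ω) := by
    refine ((integrable_const (1:ℝ)).add hv).mono'
      ((continuous_abs.rpow_const (fun _ => Or.inr hα.le)).comp_aestronglyMeasurable hvm) ?_
    refine Eventually.of_forall fun x => ?_
    simp only [Pi.add_apply]
    rw [Real.norm_eq_abs, abs_of_nonneg (by positivity)]
    have hx := abs_nonneg (v x)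
    rcases le_total (|v x|) 1 with h | h
    · have h1 : |v x| ^ α ≤ 1 := Real.rpow_le_one hx h hα.le
      have h2 : 0 ≤ |v x| ^ (α + 2) := by positivity
      linarith
    · have h1 : |v x| ^ α ≤ |v x| ^ (α + 2) :=
        Real.rpow_le_rpow_of_exponent_le h (by linarith)
      linarith
  -- the random sum
  have hz : ∀ ξ x, zv F (L.mulVec (z0 n ε ξ)) x
      = ∑ j, D1_c L ε (fun i => F.e i x) j * sg (ξ j) := by
    intro ξ x
    exact D1_sum L ε (fun i => F.e i x) ξ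
  have hzm : ∀ z, AEStronglyMeasurable (fun x => zv F z x) (volume.restrict Ω) := by
    intro z
    unfold zv
    exact Finset.aestronglyMeasurable_fun_sum _ fun i _ => (hem i).1.const_mul _
  have hcs : ∀ᵐ x ∂(volume.restrict Ω), ∑ j, (D1_c L ε (fun i => F.e i x) j) ^ 2
      ≤ (√C * ε) ^ 2 := by
    filter_upwards [hP] with x hx
    refine (D1_sq hn hL ε _).trans ?_
    rw [mul_pow, Real.sq_sqrt hC.le]
    have h1 : ε ^ 2 / (2 * n) * ∑ i, (F.e i x) ^ 2 ≤ ε ^ 2 / (2 * n) * (C * n) :=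
      mul_le_mul_of_nonneg_left hx (by positivity)
    have h2 : ε ^ 2 / (2 * n) * (C * n) = C * ε ^ 2 / 2 := by field_simp
    have h3 : 0 ≤ C * ε ^ 2 := by positivity
    linarith
  have hσ : 0 ≤ √C * ε := by positivity
  -- boundedness
  set B : ℝ := √((2 * n) * (√C * ε) ^ 2) with hB
  have hB0 : 0 ≤ B := Real.sqrt_nonneg _
  have hzb : ∀ᵐ x ∂(volume.restrict Ω), ∀ ξ, |zv F (L.mulVec (z0 n ε ξ)) x| ≤ B := by
    filter_upwards [hcs] with x hx ξ
    rw [hz, hB]
    apply Real.abs_le_sqrt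
    have h1 := sq_sum_le_card_mul_sum_sq (s := (Finset.univ : Finset (Fin n ⊕ Fin n)))
      (f := fun j => D1_c L ε (fun i => F.e i x) j * sg (ξ j))
    have h2 : ∑ j, (D1_c L ε (fun i => F.e i x) j * sg (ξ j)) ^ 2
        = ∑ j, (D1_c L ε (fun i => F.e i x) j) ^ 2 := by
      refine Finset.sum_congr rfl fun j _ => ?_
      rw [mul_pow, D1_sg_sq, mul_one]
    rw [h2] at h1
    refine h1.trans ?_
    have h3 : ((Finset.univ : Finset (Fin n ⊕ Fin n)).card : ℝ) = 2 * n := by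
      rw [Finset.card_univ, Fintype.card_sum, Fintype.card_fin]
      push_cast; ring
    rw [h3]
    exact mul_le_mul_of_nonneg_left hx (by positivity)
  -- the majorant
  have hmaj : ∀ ξ, Integrable (fun x => μ * (|v x| ^ α * zv F (L.mulVec (z0 n ε ξ)) x ^ 2)
      + c₁ * |zv F (L.mulVec (z0 n ε ξ)) x| ^ (α + 2)
      + η * (|v x| ^ (α + 2) * |zv F (L.mulVec (z0 n ε ξ)) x| ^ qe α)) (volume.restrict Ω) := by
    intro ξ
    have hzm' := hzm (L.mulVec (z0 n ε ξ))
    refine Integrable.add (Integrable.add (Integrable.const_mul ?_ _)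
      (Integrable.const_mul ?_ _)) (Integrable.const_mul ?_ _)
    · refine Integrable.mul_bdd (c := B ^ 2) hva (hzm'.pow 2) ?_
      filter_upwards [hzb] with x hx
      rw [Real.norm_eq_abs, abs_pow]
      exact pow_le_pow_left₀ (abs_nonneg _) (hx ξ) 2
    · refine (integrable_const (B ^ (α + 2))).mono'
        ((continuous_abs.rpow_const (fun _ => Or.inr (by linarith))).comp_aestronglyMeasurable
          hzm') ?_
      filter_upwards [hzb] with x hx
      rw [Real.norm_eq_abs, abs_of_nonneg (by positivity)]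
      exact Real.rpow_le_rpow (abs_nonneg _) (hx ξ) (by linarith)
    · refine Integrable.mul_bdd (c := B ^ qe α) hv
        ((continuous_abs.rpow_const (fun _ => Or.inr hq.le)).comp_aestronglyMeasurable hzm') ?_
      filter_upwards [hzb] with x hx
      rw [Real.norm_eq_abs, abs_of_nonneg (by positivity)]
      exact Real.rpow_le_rpow (abs_nonneg _) (hx ξ) hq.le
  have hint1 : ∀ ξ, Integrable (fun x => |g a α (v x + zv F (L.mulVec (z0 n ε ξ)) x) - g a α (v x)
        - gk a α k (v x) * zv F (L.mulVec (z0 n ε ξ)) x| ^ qe α) (volume.restrict Ω) := by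
    intro ξ
    have hzm' := hzm (L.mulVec (z0 n ε ξ))
    refine (hmaj ξ).mono' ?_ ?_
    · refine (continuous_abs.rpow_const (fun _ => Or.inr hq.le)).comp_aestronglyMeasurable ?_
      refine (((continuous_g hα).comp_aestronglyMeasurable (hvm.add hzm')).sub
        ((continuous_g hα).comp_aestronglyMeasurable hvm)).sub
        (((continuous_gk hα k).comp_aestronglyMeasurable hvm).mul hzm')
    · refine Eventually.of_forall fun x => ?_
      rw [Real.norm_eq_abs, abs_of_nonneg (by positivity)]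
      exact hr _ _
  refine ⟨?_, ?_, ?_, ?_⟩
  · rw [D1_avg_int hint1]
    have hR : Integrable (fun x => μ * (C * ε ^ 2 * |v x| ^ α)
        + c₁ * (K₁ * (√C * ε) ^ (α + 2))
        + η * (K₂ * (√C * ε) ^ qe α * |v x| ^ (α + 2))) (volume.restrict Ω) :=
      (((hva.const_mul _).const_mul _).add (integrable_const _)).add
        ((hv.const_mul _).const_mul _)
    have hle : ∀ᵐ x ∂(volume.restrict Ω), avg (fun ξ =>
        |g a α (v x + zv F (L.mulVec (z0 n ε ξ)) x) - g a α (v x)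
        - gk a α k (v x) * zv F (L.mulVec (z0 n ε ξ)) x| ^ qe α)
        ≤ μ * (C * ε ^ 2 * |v x| ^ α)
        + c₁ * (K₁ * (√C * ε) ^ (α + 2))
        + η * (K₂ * (√C * ε) ^ qe α * |v x| ^ (α + 2)) := by
      filter_upwards [hcs] with x hx
      have h1 : avg (fun ξ : Fin n ⊕ Fin n → Bool =>
          |g a α (v x + zv F (L.mulVec (z0 n ε ξ)) x) - g a α (v x)
          - gk a α k (v x) * zv F (L.mulVec (z0 n ε ξ)) x| ^ qe α)
          ≤ avg (fun ξ : Fin n ⊕ Fin n → Bool =>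
            μ * |v x| ^ α * (∑ j, D1_c L ε (fun i => F.e i x) j * sg (ξ j)) ^ 2
            + (c₁ * |∑ j, D1_c L ε (fun i => F.e i x) j * sg (ξ j)| ^ (α + 2)
            + η * |v x| ^ (α + 2) *
              |∑ j, D1_c L ε (fun i => F.e i x) j * sg (ξ j)| ^ qe α)) := by
        apply A1
        intro ξ
        have h2 := hr (v x) (zv F (L.mulVec (z0 n ε ξ)) x)
        rw [hz] at h2 ⊢
        refine h2.trans (le_of_eq ?_)
        ring
      refine h1.trans ?_
      rw [A2, A2, A3, A3, A3]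
      have h3 : avg (fun ξ : Fin n ⊕ Fin n → Bool =>
          (∑ j, D1_c L ε (fun i => F.e i x) j * sg (ξ j)) ^ 2) ≤ C * ε ^ 2 := by
        rw [D1_avg_sq]
        refine hx.trans (le_of_eq ?_)
        rw [mul_pow, Real.sq_sqrt hC.le]
      have h4 := hK₁ (D1_c L ε (fun i => F.e i x)) (√C * ε) hσ hx
      have h5 := hK₂ (D1_c L ε (fun i => F.e i x)) (√C * ε) hσ hx
      have h6 : 0 ≤ μ * |v x| ^ α := by positivity
      have h7 : 0 ≤ η * |v x| ^ (α + 2) := by positivity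
      have e1 := mul_le_mul_of_nonneg_left h3 h6
      have e2 := mul_le_mul_of_nonneg_left h4 hc₁
      have e3 := mul_le_mul_of_nonneg_left h5 h7
      calc _ ≤ μ * |v x| ^ α * (C * ε ^ 2) + (c₁ * (K₁ * (√C * ε) ^ (α + 2))
            + η * |v x| ^ (α + 2) * (K₂ * (√C * ε) ^ qe α)) := add_le_add e1 (add_le_add e2 e3)
        _ = _ := by ring
    refine (integral_mono_ae (D1_avg_integrable hint1) hR hle).trans (le_of_eq ?_)
    have e0 : ∫ x in Ω, (μ * (C * ε ^ 2 * |v x| ^ α) + c₁ * (K₁ * (√C * ε) ^ (α + 2))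
        + η * (K₂ * (√C * ε) ^ qe α * |v x| ^ (α + 2)))
        = (∫ x in Ω, μ * (C * ε ^ 2 * |v x| ^ α)) + (∫ _ in Ω, c₁ * (K₁ * (√C * ε) ^ (α + 2)))
          + ∫ x in Ω, η * (K₂ * (√C * ε) ^ qe α * |v x| ^ (α + 2)) := by
      rw [integral_add, integral_add]
      · exact (hva.const_mul _).const_mul _
      · exact integrable_const _
      · exact ((hva.const_mul _).const_mul _).add (integrable_const _)
      · exact (hv.const_mul _).const_mul _
    have e1 : ∫ x in Ω, μ * (C * ε ^ 2 * |v x| ^ α) = μ * (C * ε ^ 2 * ∫ x in Ω, |v x| ^ α) := by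
      rw [integral_const_mul, integral_const_mul]
    have e2 : ∫ _ in Ω, c₁ * (K₁ * (√C * ε) ^ (α + 2))
        = c₁ * (K₁ * (√C * ε) ^ (α + 2) * (volume Ω).toReal) := by
      rw [integral_const]
      simp only [Measure.real, Measure.restrict_apply_univ, smul_eq_mul]
      ring
    have e3 : ∫ x in Ω, η * (K₂ * (√C * ε) ^ qe α * |v x| ^ (α + 2))
        = η * (K₂ * (√C * ε) ^ qe α * ∫ x in Ω, |v x| ^ (α + 2)) := by
      rw [integral_const_mul, integral_const_mul]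
    rw [e0, e1, e2, e3]
  · -- second
    set m : E → ℝ := fun x => gk a α k (v x) with hm
    have hd : ∀ i, MemLp (fun x => m x * F.e i x - ∑ l, gram F m i l * F.e l x) 2
        (volume.restrict Ω) := by
      intro i
      refine MemLp.sub ?_ ?_
      · refine MemLp.of_le_mul (c := k) (hem i)
          (((continuous_gk hα k).comp_aestronglyMeasurable hvm).mul (hem i).1)
          (Eventually.of_forall fun x => ?_)
        rw [norm_mul]
        refine mul_le_mul_of_nonneg_right ?_ (norm_nonneg _)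
        rw [Real.norm_eq_abs, abs_of_nonneg (gk_nonneg ha hα hk.le _)]
        exact gk_le _ _
      · exact memLp_finset_sum _ fun l _ => (hem l).const_mul _
    have hw : ∀ ξ x, gk a α k (v x) * zv F (L.mulVec (z0 n ε ξ)) x
        - pz F (fun x => gk a α k (v x)) (L.mulVec (z0 n ε ξ)) x
        = ∑ j, D1_c L ε (fun i => m x * F.e i x - ∑ l, gram F m i l * F.e l x) j * sg (ξ j) := by
      intro ξ x
      rw [← D1_sum]
      unfold zv pz
      rw [Finset.mul_sum, ← Finset.sum_sub_distrib]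
      refine Finset.sum_congr rfl fun i _ => ?_
      ring
    have hint2 : ∀ ξ, Integrable (fun x => (gk a α k (v x) * zv F (L.mulVec (z0 n ε ξ)) x
        - pz F (fun x => gk a α k (v x)) (L.mulVec (z0 n ε ξ)) x) ^ 2) (volume.restrict Ω) := by
      intro ξ
      have h1 : MemLp (fun x => ∑ i, (L.mulVec (z0 n ε ξ)) (Sum.inr i) *
          (m x * F.e i x - ∑ l, gram F m i l * F.e l x)) 2 (volume.restrict Ω) :=
        memLp_finset_sum _ fun i _ => (hd i).const_mul _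
      refine h1.integrable_sq.congr (Eventually.of_forall fun x => ?_)
      simp only
      rw [hw, D1_sum]
    rw [D1_avg_int hint2]
    unfold leak
    rw [← integral_finsetSum _ (fun i _ => (hd i).integrable_sq), ← integral_const_mul]
    refine integral_mono_ae (D1_avg_integrable hint2)
      ((integrable_finsetSum _ (fun i _ => (hd i).integrable_sq)).const_mul _) ?_
    refine Eventually.of_forall fun x => ?_
    simp only
    have h1 : avg (fun ξ : Fin n ⊕ Fin n → Bool =>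
        (gk a α k (v x) * zv F (L.mulVec (z0 n ε ξ)) x
        - pz F (fun x => gk a α k (v x)) (L.mulVec (z0 n ε ξ)) x) ^ 2)
        = ∑ j, (D1_c L ε (fun i => m x * F.e i x - ∑ l, gram F m i l * F.e l x) j) ^ 2 := by
      rw [← D1_avg_sq]
      congr 1
      funext ξ
      rw [hw]
    rw [h1]
    refine (D1_sq hn hL ε _).trans ?_
    refine mul_le_mul_of_nonneg_right ?_ (Finset.sum_nonneg fun i _ => sq_nonneg _)
    apply div_le_div_of_nonneg_left (by positivity) hn' (by linarith)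
  · have h1 : (fun ξ : Fin n ⊕ Fin n → Bool => ‖Zst F (L.mulVec (z0 n ε ξ))‖ ^ 2)
        = fun ξ => ∑ j, (∑ i, (L j i * (ε / √(2 * n))) * sg (ξ i)) ^ 2 := by
      funext ξ
      rw [(zst_facts F).1]
      refine Finset.sum_congr rfl fun j _ => ?_
      congr 1
      simp only [Matrix.mulVec, dotProduct, z0]
      refine Finset.sum_congr rfl fun i _ => ?_
      ring
    rw [h1, avg_lin, Finset.mul_sum]
    refine Finset.sum_congr rfl fun j _ => ?_
    rw [Finset.mul_sum]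
    refine Finset.sum_congr rfl fun i _ => ?_
    rw [mul_pow, div_pow, Real.sq_sqrt (by positivity)]
    ring
  · intro ξ
    have h1 : ‖Zst F (z0 n ε ξ)‖ ^ 2 = ε ^ 2 := by
      rw [(zst_facts F).1]
      have h2 : ∀ i, (z0 n ε ξ i) ^ 2 = ε ^ 2 / (2 * n) := by
        intro i
        unfold z0
        rw [mul_pow, D1_sg_sq, mul_one, div_pow, Real.sq_sqrt (by positivity)]
      simp only [h2, Finset.sum_const, Finset.card_univ, Fintype.card_sum, Fintype.card_fin,
        nsmul_eq_mul]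
      push_cast
      field_simp
      ring
    exact (pow_left_inj₀ (norm_nonneg _) hε.le (by norm_num)).1 h1

end

end Pool.Agent.MP_4c4330_an.Gen
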