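import Pool.Agent.MP_4c4330_an.Gen.Defs

set_option linter.unusedSectionVars false

open MeasureTheory Set Filter Topology
open scoped ENNReal ContDiff

namespace Pool.Agent.MP_4c4330_an.Gen

section
variable {E : Type*} [NormedAddCommGroup E] [InnerProductSpace ℝ E] [FiniteDimensional ℝ E]
  [MeasurableSpace E] [BorelSpace E] {Ω : Set E} {a α : ℝ} {n : ℕ}

/-- [D2] the scheme stays close to a finite set. -/
theorem cover (ha : 0 < a) (hα : 0 < α) {J : ℝ → EnergySpace Ω → EnergySpace Ω}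
    (hJ : IsJ Ω a α J) {x ζ : EnergySpace Ω} (hx : WaveOp Ω a α x ζ) {T : ℝ} (hT : 0 < T) {τ : ℝ}
    (hτ : 0 < τ) : ∃ S : Finset (EnergySpace Ω), ∃ M₀ : ℕ, 0 < M₀ ∧ ∀ M ≥ M₀, ∀ j ≤ M,
      ∃ s ∈ S, ‖(J (T / M))^[j] x - s‖ ≤ τ := by
  classical
  obtain ⟨K, hK⟩ := exists_nat_gt (3 * (T * ‖ζ‖ / τ) ^ 2 + 1)
  have hK1 : (1 : ℝ) < K := lt_of_le_of_lt (by nlinarith [sq_nonneg (T * ‖ζ‖ / τ)]) hK
  have hK0 : (0 : ℝ) < K := by linarith
  have hKn : 0 < K := by exact_mod_cast hK0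
  refine ⟨(Finset.range (K + 1)).image (fun i => (J (T / K))^[i] x), K, hKn, ?_⟩
  intro M hM j hj
  have hMn : 0 < M := lt_of_lt_of_le hKn hM
  have hM0 : (0 : ℝ) < M := by exact_mod_cast hMn
  have hMK : (K : ℝ) ≤ M := by exact_mod_cast hM
  have hjM : (j : ℝ) ≤ M := by exact_mod_cast hj
  set i : ℕ := j * K / M with hi
  have hiK : i ≤ K := by
    rw [hi]
    calc j * K / M ≤ M * K / M := Nat.div_le_div_right (Nat.mul_le_mul_right _ hj)
      _ = K := Nat.mul_div_cancel_left _ hMn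
  have hi1 : (i : ℝ) * M ≤ j * K := by
    have : i * M ≤ j * K := Nat.div_mul_le_self _ _
    exact_mod_cast this
  have hi2 : (j : ℝ) * K < (i + 1) * M := by
    have : j * K < (i + 1) * M := by
      rw [hi]
      exact Nat.lt_mul_of_div_lt (Nat.lt_succ_self _) hMn
    exact_mod_cast this
  refine ⟨(J (T / K))^[i] x, Finset.mem_image.mpr ⟨i, Finset.mem_range.mpr (by omega), rfl⟩, ?_⟩
  have p1 : 0 < T / K := by positivity
  have p2 : 0 < T / M := by positivity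
  have h3 := kobayashi (mono_waveOp ha hα) hJ p2 p1 hx j i
  refine h3.trans ?_
  have hiKr : (i : ℝ) ≤ K := by exact_mod_cast hiK
  have e1 : |(j : ℝ) * (T / M) - i * (T / K)| ≤ T / K := by
    have e : (j : ℝ) * (T / M) - i * (T / K) = (T / K) * ((j * K - i * M) / M) := by
      field_simp
    rw [e, abs_mul, abs_of_pos p1]
    have h5 : |((j : ℝ) * K - i * M) / M| ≤ 1 := by
      rw [abs_div, abs_of_pos hM0, div_le_one hM0, abs_of_nonneg (by linarith)]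
      linarith
    calc T / K * |((j : ℝ) * K - i * M) / M| ≤ T / K * 1 := mul_le_mul_of_nonneg_left h5 p1.le
      _ = T / K := mul_one _
  have e1' : ((j : ℝ) * (T / M) - i * (T / K)) ^ 2 ≤ T ^ 2 / K := by
    have h6 : ((j : ℝ) * (T / M) - i * (T / K)) ^ 2 ≤ (T / K) ^ 2 := by
      rw [← sq_abs]
      exact pow_le_pow_left₀ (abs_nonneg _) e1 2
    refine h6.trans ?_
    rw [div_pow, div_le_div_iff₀ (by positivity) hK0]
    nlinarith [mul_pos (pow_pos hT 2) hK0, mul_nonneg (mul_pos (pow_pos hT 2) hK0).le (by linarith : (0 : ℝ) ≤ K - 1)]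
  have e2 : (j : ℝ) * (T / M) ^ 2 ≤ T ^ 2 / K := by
    calc (j : ℝ) * (T / M) ^ 2 ≤ M * (T / M) ^ 2 := mul_le_mul_of_nonneg_right hjM (sq_nonneg _)
      _ = T ^ 2 / M := by field_simp
      _ ≤ T ^ 2 / K := div_le_div_of_nonneg_left (by positivity) hK0 hMK
  have e3 : (i : ℝ) * (T / K) ^ 2 ≤ T ^ 2 / K := by
    calc (i : ℝ) * (T / K) ^ 2 ≤ K * (T / K) ^ 2 := mul_le_mul_of_nonneg_right hiKr (sq_nonneg _)
      _ = T ^ 2 / K := by field_simp
  have e4 : √(((j : ℝ) * (T / M) - i * (T / K)) ^ 2 + j * (T / M) ^ 2 + i * (T / K) ^ 2)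
      ≤ √(3 * (T ^ 2 / K)) := Real.sqrt_le_sqrt (by linarith)
  have e5 : ‖ζ‖ * √(3 * (T ^ 2 / K)) ≤ τ := by
    rcases eq_or_lt_of_le (norm_nonneg ζ) with h0 | h0
    · rw [← h0, zero_mul]; exact hτ.le
    · have h7 : √(3 * (T ^ 2 / K)) ≤ τ / ‖ζ‖ := by
        apply Real.sqrt_le_iff.2
        refine ⟨by positivity, ?_⟩
        have h8 : 3 * (T * ‖ζ‖ / τ) ^ 2 ≤ K := by linarith
        rw [div_pow] at h8 ⊢
        rw [mul_div_assoc', div_le_iff₀ (by positivity)] at h8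
        rw [mul_div_assoc', div_le_div_iff₀ hK0 (by positivity)]
        nlinarith
      calc ‖ζ‖ * √(3 * (T ^ 2 / K)) ≤ ‖ζ‖ * (τ / ‖ζ‖) := mul_le_mul_of_nonneg_left h7 h0.le
        _ = τ := by field_simp
  exact (mul_le_mul_of_nonneg_left e4 (norm_nonneg ζ)).trans e5

end

end Pool.Agent.MP_4c4330_an.Gen
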