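import Pool.Agent.MP_4c4330_an.Gen.Defs
open MeasureTheory Set Filter Topology
open scoped ENNReal ContDiff
namespace Pool.Agent.MP_4c4330_an.Gen

section
variable {E : Type*} [NormedAddCommGroup E] [InnerProductSpace ℝ E] [FiniteDimensional ℝ E]
  [MeasurableSpace E] [BorelSpace E] {Ω : Set E} {a α : ℝ} {n : ℕ}

theorem D3_memLp (F : Fam Ω n) {C : ℝ} (hP : PB F C) {m : E → ℝ}
    (hm : MemLp m 2 (volume.restrict Ω)) (i : Fin n) :
    MemLp (fun x => m x * F.e i x) 2 (volume.restrict Ω) := by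
  have hb : ∀ᵐ x ∂(volume.restrict Ω), ‖F.e i x‖ ≤ √(C * n) := by
    filter_upwards [hP] with x hx
    rw [Real.norm_eq_abs]
    apply Real.abs_le_sqrt
    exact (Finset.single_le_sum (f := fun i => (F.e i x) ^ 2) (fun j _ => sq_nonneg _)
      (Finset.mem_univ i)).trans hx
  have hinf : MemLp (F.e i) ⊤ (volume.restrict Ω) :=
    memLp_top_of_bound (Lp.aestronglyMeasurable (F.e i)) _ hb
  exact MemLp.mul' hinf hm

theorem D3_int {μ : Measure E} {f : E → ℝ} (hf : MemLp f 2 μ) (h : Lp ℝ 2 μ) :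
    Integrable (fun x => f x * h x) μ :=
  hf.integrable_mul (Lp.memLp h)

theorem D3_gram (F : Fam Ω n) {C : ℝ} (hP : PB F C) {m m' : E → ℝ}
    (hm : MemLp m 2 (volume.restrict Ω)) (hm' : MemLp m' 2 (volume.restrict Ω)) (i l : Fin n) :
    gram F m i l = gram F m' i l + gram F (fun x => m x - m' x) i l := by
  unfold gram
  have h1 := D3_int (D3_memLp F hP hm' i) (F.e l)
  have h2 := D3_int (D3_memLp F hP (hm.sub hm') i) (F.e l)
  simp only [Pi.sub_apply] at h2
  rw [← integral_add h1 h2]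
  congr 1
  funext x
  ring

theorem D3_proj (F : Fam Ω n) {f : E → ℝ} (hf : MemLp f 2 (volume.restrict Ω)) :
    MemLp (fun x => f x - ∑ l, (∫ y in Ω, f y * F.e l y) * F.e l x) 2 (volume.restrict Ω) ∧
    ∫ x in Ω, (f x - ∑ l, (∫ y in Ω, f y * F.e l y) * F.e l x) ^ 2 ≤ ∫ x in Ω, (f x) ^ 2 := by
  set c : Fin n → ℝ := fun l => ∫ y in Ω, f y * F.e l y with hc
  set fh : Lp ℝ 2 (volume.restrict Ω) := hf.toLp f with hfh
  set P : Lp ℝ 2 (volume.restrict Ω) := ∑ l, c l • F.e l with hPd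
  set v : Lp ℝ 2 (volume.restrict Ω) := fh - P with hv
  have hPc : (P : E → ℝ) =ᵐ[volume.restrict Ω] fun x => ∑ l, c l * F.e l x := by
    have h1 : (P : E → ℝ) =ᵐ[volume.restrict Ω] fun x => ∑ l, (c l • F.e l : Lp ℝ 2 _) x := by
      have := Lp.coeFn_finsetSum (p := 2) (μ := volume.restrict Ω) Finset.univ
        (fun l => c l • F.e l)
      filter_upwards [this] with x hx
      rw [hPd, hx]
      simp
    have h2 : ∀ᵐ x ∂(volume.restrict Ω), ∀ l, (c l • F.e l : Lp ℝ 2 _) x = c l * F.e l x := by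
      rw [ae_all_iff]
      intro l
      filter_upwards [Lp.coeFn_smul (c l) (F.e l)] with x hx
      rw [hx]
      simp
    filter_upwards [h1, h2] with x h1 h2
    rw [h1]
    exact Finset.sum_congr rfl fun l _ => h2 l
  have hvc : (v : E → ℝ) =ᵐ[volume.restrict Ω] fun x => f x - ∑ l, c l * F.e l x := by
    filter_upwards [Lp.coeFn_sub fh P, hf.coeFn_toLp, hPc] with x h1 h2 h3
    rw [hv, h1, Pi.sub_apply, h2, h3]
  have hin : ∀ l, inner ℝ fh (F.e l) = c l := by
    intro l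
    rw [inner_Lp_real, hc]
    apply integral_congr_ae
    filter_upwards [hf.coeFn_toLp] with x hx
    rw [hx]
  have hPin : ∀ l, inner ℝ P (F.e l) = c l := by
    intro l
    have := F.orth.inner_left_fintype c l
    simpa using this
  have hv0 : inner ℝ v P = 0 := by
    have h1 : ∀ l, inner ℝ v (F.e l) = 0 := by
      intro l
      rw [hv, inner_sub_left, hin, hPin, sub_self]
    conv_lhs => rw [hPd]
    rw [inner_sum]
    apply Finset.sum_eq_zero
    intro l _
    rw [inner_smul_right, h1, mul_zero]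
  have hnorm : ‖v‖ ^ 2 ≤ ‖fh‖ ^ 2 := by
    have h1 : fh = v + P := by rw [hv]; abel
    have h2 : ‖fh‖ ^ 2 = ‖v‖ ^ 2 + 2 * inner ℝ v P + ‖P‖ ^ 2 := by
      rw [h1]
      exact norm_add_sq_real v P
    rw [h2, hv0]
    nlinarith [sq_nonneg ‖P‖]
  constructor
  · exact (memLp_congr_ae hvc).1 (Lp.memLp v)
  · have h1 : ∫ x in Ω, (f x - ∑ l, c l * F.e l x) ^ 2 = ‖v‖ ^ 2 := by
      rw [norm_sq_Lp]
      apply integral_congr_ae
      filter_upwards [hvc] with x hx
      rw [hx, Real.norm_eq_abs, sq_abs]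
    have h2 : ∫ x in Ω, (f x) ^ 2 = ‖fh‖ ^ 2 := by
      rw [norm_sq_Lp]
      apply integral_congr_ae
      filter_upwards [hf.coeFn_toLp] with x hx
      rw [hx, Real.norm_eq_abs, sq_abs]
    rw [h1, h2]
    exact hnorm

/-- [D3] `leak` is continuous in `L²`. -/
theorem leak_cont (hfin : volume Ω < ⊤) (F : Fam Ω n) {C : ℝ} (hC : 0 ≤ C) (hP : PB F C)
    {m m' : E → ℝ} (hm : MemLp m 2 (volume.restrict Ω)) (hm' : MemLp m' 2 (volume.restrict Ω)) :
    leak F m ≤ 2 * leak F m' + 2 * (C * n * ∫ x in Ω, (m x - m' x) ^ 2) := by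
  set μ : E → ℝ := fun x => m x - m' x with hμ
  have hμL : MemLp μ 2 (volume.restrict Ω) := hm.sub hm'
  have hA : ∀ (m : E → ℝ), MemLp m 2 (volume.restrict Ω) → ∀ i,
      MemLp (fun x => m x * F.e i x - ∑ l, gram F m i l * F.e l x) 2 (volume.restrict Ω) ∧
      ∫ x in Ω, (m x * F.e i x - ∑ l, gram F m i l * F.e l x) ^ 2 ≤
        ∫ x in Ω, (m x * F.e i x) ^ 2 := fun m hm i => D3_proj F (D3_memLp F hP hm i)
  have hsq : ∀ (m : E → ℝ), MemLp m 2 (volume.restrict Ω) → ∀ i,
      Integrable (fun x => (m x * F.e i x - ∑ l, gram F m i l * F.e l x) ^ 2)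
        (volume.restrict Ω) := fun m hm i => (hA m hm i).1.integrable_sq
  have hterm : ∀ i, ∫ x in Ω, (m x * F.e i x - ∑ l, gram F m i l * F.e l x) ^ 2 ≤
      2 * (∫ x in Ω, (m' x * F.e i x - ∑ l, gram F m' i l * F.e l x) ^ 2) +
      2 * ∫ x in Ω, (μ x * F.e i x) ^ 2 := by
    intro i
    have h1 : ∫ x in Ω, (m x * F.e i x - ∑ l, gram F m i l * F.e l x) ^ 2 ≤
        ∫ x in Ω, (2 * (m' x * F.e i x - ∑ l, gram F m' i l * F.e l x) ^ 2 +
          2 * (μ x * F.e i x - ∑ l, gram F μ i l * F.e l x) ^ 2) := by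
      apply integral_mono (hsq m hm i) (((hsq m' hm' i).const_mul 2).add
        ((hsq μ hμL i).const_mul 2))
      intro x
      have h2 : m x * F.e i x - ∑ l, gram F m i l * F.e l x =
          (m' x * F.e i x - ∑ l, gram F m' i l * F.e l x) +
          (μ x * F.e i x - ∑ l, gram F μ i l * F.e l x) := by
        have h3 : ∑ l, gram F m i l * F.e l x =
            ∑ l, gram F m' i l * F.e l x + ∑ l, gram F μ i l * F.e l x := by
          rw [← Finset.sum_add_distrib]
          apply Finset.sum_congr rfl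
          intro l _
          rw [D3_gram F hP hm hm' i l]
          ring
        rw [h3, hμ]
        ring
      simp only [Pi.add_apply]
      rw [h2]
      nlinarith [sq_nonneg ((m' x * F.e i x - ∑ l, gram F m' i l * F.e l x) -
          (μ x * F.e i x - ∑ l, gram F μ i l * F.e l x))]
    rw [integral_add ((hsq m' hm' i).const_mul 2) ((hsq μ hμL i).const_mul 2),
      integral_const_mul, integral_const_mul] at h1
    linarith [(hA μ hμL i).2]
  have hsum : ∑ i, ∫ x in Ω, (μ x * F.e i x) ^ 2 ≤ C * n * ∫ x in Ω, (μ x) ^ 2 := by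
    have hint : ∀ i ∈ Finset.univ, Integrable (fun x => (μ x * F.e i x) ^ 2)
        (volume.restrict Ω) := fun i _ => (D3_memLp F hP hμL i).integrable_sq
    rw [← integral_finset_sum _ hint, ← integral_const_mul]
    apply integral_mono_ae (integrable_finset_sum _ hint) (hμL.integrable_sq.const_mul _)
    filter_upwards [hP] with x hx
    have h1 : ∑ i, (μ x * F.e i x) ^ 2 = (μ x) ^ 2 * ∑ i, (F.e i x) ^ 2 := by
      rw [Finset.mul_sum]
      apply Finset.sum_congr rfl
      intro i _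
      ring
    rw [h1]
    nlinarith [sq_nonneg (μ x)]
  unfold leak
  calc ∑ i, ∫ x in Ω, (m x * F.e i x - ∑ l, gram F m i l * F.e l x) ^ 2
      ≤ ∑ i, (2 * (∫ x in Ω, (m' x * F.e i x - ∑ l, gram F m' i l * F.e l x) ^ 2) +
          2 * ∫ x in Ω, (μ x * F.e i x) ^ 2) := Finset.sum_le_sum fun i _ => hterm i
    _ = 2 * (∑ i, ∫ x in Ω, (m' x * F.e i x - ∑ l, gram F m' i l * F.e l x) ^ 2) +
          2 * ∑ i, ∫ x in Ω, (μ x * F.e i x) ^ 2 := by
        rw [Finset.sum_add_distrib, Finset.mul_sum, Finset.mul_sum]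
    _ ≤ _ := by linarith

end

end Pool.Agent.MP_4c4330_an.Gen
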