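import Pool.Agent.MP_4c4330_an.Gen.Defs
open MeasureTheory Set Filter Topology
open scoped ENNReal ContDiff
namespace Pool.Agent.MP_4c4330_an.Gen

section
variable {E : Type*} [NormedAddCommGroup E] [InnerProductSpace ℝ E] [FiniteDimensional ℝ E]
  [MeasurableSpace E] [BorelSpace E] {Ω : Set E} {a α : ℝ} {n : ℕ}

theorem D4_tendsto (ha : 0 < a) (hα : 0 < α) {k : ℝ} (hk : 0 < k) :
    Tendsto (gk a α k) (cocompact ℝ) (𝓝 k) := by
  have h1 : Tendsto (fun x : ℝ => |x|) (cocompact ℝ) atTop := tendsto_norm_cocompact_atTop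
  have h2 : Tendsto (fun x : ℝ => |x| ^ α) (cocompact ℝ) atTop :=
    (tendsto_rpow_atTop hα).comp h1
  have h3 : Tendsto (gp a α) (cocompact ℝ) atTop :=
    h2.const_mul_atTop (by positivity : 0 < a * (α + 1))
  have h4 : gk a α k =ᶠ[cocompact ℝ] fun _ => k := by
    filter_upwards [h3.eventually_ge_atTop k] with x hx
    exact min_eq_right hx
  exact (tendsto_congr' h4).2 tendsto_const_nhds

theorem D4_unif (ha : 0 < a) (hα : 0 < α) {k : ℝ} (hk : 0 < k) {w0 : ℝ} (hw0 : 0 < w0) :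
    ∃ ρ > 0, ∀ x y : ℝ, (gk a α k x - gk a α k y) ^ 2 ≤ w0 + k ^ 2 / ρ ^ 2 * (x - y) ^ 2 := by
  have hu : UniformContinuous (gk a α k) :=
    (continuous_gk hα k).uniformContinuous_of_tendsto_cocompact (D4_tendsto ha hα hk)
  rw [Metric.uniformContinuous_iff] at hu
  obtain ⟨ρ, hρ, h⟩ := hu (√w0) (Real.sqrt_pos.2 hw0)
  refine ⟨ρ, hρ, fun x y => ?_⟩
  have hpos : 0 ≤ k ^ 2 / ρ ^ 2 * (x - y) ^ 2 := by positivity
  rcases lt_or_ge (dist x y) ρ with hd | hd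
  · have h1 := h hd
    rw [Real.dist_eq] at h1
    have h2 : (gk a α k x - gk a α k y) ^ 2 ≤ w0 := by
      rw [← sq_abs, ← Real.sq_sqrt hw0.le]
      exact pow_le_pow_left₀ (abs_nonneg _) h1.le 2
    linarith
  · rw [Real.dist_eq] at hd
    have h1 : (gk a α k x - gk a α k y) ^ 2 ≤ k ^ 2 := by
      have hx0 := gk_nonneg ha hα hk.le x
      have hy0 := gk_nonneg ha hα hk.le y
      have hxk : gk a α k x ≤ k := gk_le k x
      have hyk : gk a α k y ≤ k := gk_le k y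
      apply sq_le_sq'
      · linarith
      · linarith
    have h2 : ρ ^ 2 ≤ (x - y) ^ 2 := by
      rw [← sq_abs (x - y)]
      exact pow_le_pow_left₀ hρ.le hd 2
    have h3 : k ^ 2 ≤ k ^ 2 / ρ ^ 2 * (x - y) ^ 2 := by
      rw [div_mul_eq_mul_div, le_div_iff₀ (by positivity)]
      exact mul_le_mul_of_nonneg_left h2 (by positivity)
    linarith

/-- [D4] `gk` is continuous from `L²` to `L²`. -/
theorem gk_cont (ha : 0 < a) (hα : 0 < α) (hfin : volume Ω < ⊤) {k : ℝ} (hk : 0 < k) {δ : ℝ}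
    (hδ : 0 < δ) : ∃ τ > 0, ∀ v w : Lp ℝ 2 (volume.restrict Ω), ‖v - w‖ ≤ τ →
      ∫ x in Ω, (gk a α k (v x) - gk a α k (w x)) ^ 2 ≤ δ := by
  set V : ℝ := (volume Ω).toReal with hV
  have hV0 : 0 ≤ V := ENNReal.toReal_nonneg
  have hw0 : 0 < δ / (2 * (V + 1)) := by positivity
  obtain ⟨ρ, hρ, h⟩ := D4_unif (a := a) (α := α) ha hα hk hw0
  refine ⟨ρ / k * √(δ / 2), by positivity, fun v w hvw => ?_⟩
  haveI : IsFiniteMeasure (volume.restrict Ω) := ⟨by rwa [Measure.restrict_apply_univ]⟩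
  have hsq : Integrable (fun x => (v x - w x) ^ 2) (volume.restrict Ω) :=
    ((Lp.memLp v).sub (Lp.memLp w)).integrable_sq
  have hnorm : ∫ x in Ω, (v x - w x) ^ 2 = ‖v - w‖ ^ 2 := by
    rw [norm_sq_Lp]
    apply integral_congr_ae
    filter_upwards [Lp.coeFn_sub v w] with x hx
    rw [hx, Pi.sub_apply, Real.norm_eq_abs, sq_abs]
  have hint : Integrable (fun x => δ / (2 * (V + 1)) + k ^ 2 / ρ ^ 2 * (v x - w x) ^ 2)
      (volume.restrict Ω) := (integrable_const _).add (hsq.const_mul _)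
  have h1 : ∫ x in Ω, (gk a α k (v x) - gk a α k (w x)) ^ 2 ≤
      ∫ x in Ω, (δ / (2 * (V + 1)) + k ^ 2 / ρ ^ 2 * (v x - w x) ^ 2) := by
    apply integral_mono_of_nonneg (Eventually.of_forall fun x => sq_nonneg _) hint
    exact Eventually.of_forall fun x => h (v x) (w x)
  have h2 : ∫ x in Ω, (δ / (2 * (V + 1)) + k ^ 2 / ρ ^ 2 * (v x - w x) ^ 2) =
      V * (δ / (2 * (V + 1))) + k ^ 2 / ρ ^ 2 * ‖v - w‖ ^ 2 := by
    rw [integral_add (integrable_const _) (hsq.const_mul _), integral_const_mul, hnorm,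
      integral_const, smul_eq_mul]
    congr 2
    rw [Measure.real, Measure.restrict_apply_univ]
  have h3 : V * (δ / (2 * (V + 1))) ≤ δ / 2 := by
    rw [mul_div_assoc', div_le_div_iff₀ (by positivity) (by norm_num)]
    nlinarith
  have h4 : k ^ 2 / ρ ^ 2 * ‖v - w‖ ^ 2 ≤ δ / 2 := by
    have h5 : ‖v - w‖ ^ 2 ≤ (ρ / k * √(δ / 2)) ^ 2 := pow_le_pow_left₀ (norm_nonneg _) hvw 2
    have h6 : (ρ / k * √(δ / 2)) ^ 2 = ρ ^ 2 / k ^ 2 * (δ / 2) := by
      rw [mul_pow, Real.sq_sqrt (by positivity), div_pow]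
    rw [h6] at h5
    calc k ^ 2 / ρ ^ 2 * ‖v - w‖ ^ 2 ≤ k ^ 2 / ρ ^ 2 * (ρ ^ 2 / k ^ 2 * (δ / 2)) :=
          mul_le_mul_of_nonneg_left h5 (by positivity)
      _ = δ / 2 := by field_simp
  linarith

end

end Pool.Agent.MP_4c4330_an.Gen
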