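import Pool.Agent.MP_4c4330_an.Gen.Defs
import Pool.Agent.MP_4c4330_an.Gen.D2
import Pool.Agent.MP_4c4330_an.Gen.D3
import Pool.Agent.MP_4c4330_an.Gen.D4
open MeasureTheory Set Filter Topology
open scoped ENNReal ContDiff
namespace Pool.Agent.MP_4c4330_an.Gen

variable {E : Type*} [NormedAddCommGroup E] [InnerProductSpace ℝ E] [FiniteDimensional ℝ E]
  [MeasurableSpace E] [BorelSpace E] {Ω : Set E} {a α : ℝ} {n : ℕ}

theorem D5_leak_congr (F : Fam Ω n) {m m' : E → ℝ} (h : m =ᵐ[volume.restrict Ω] m') :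
    leak F m = leak F m' := by
  have h1 : gram F m = gram F m' := by
    funext i l
    unfold gram
    refine integral_congr_ae ?_
    filter_upwards [h] with x hx
    rw [hx]
  unfold leak
  rw [h1]
  refine Finset.sum_congr rfl fun i _ => integral_congr_ae ?_
  filter_upwards [h] with x hx
  rw [hx]

theorem D5_memLp (ha : 0 < a) (hα : 0 < α) (hfin : volume Ω < ⊤) {k : ℝ} (hk : 0 < k)
    (v : Lp ℝ 2 (volume.restrict Ω)) : MemLp (fun y => gk a α k (v y)) 2 (volume.restrict Ω) := by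
  have hf : IsFiniteMeasure (volume.restrict Ω) := ⟨by rwa [Measure.restrict_apply_univ]⟩
  refine MemLp.of_bound ((continuous_gk hα k).comp_aestronglyMeasurable (Lp.aestronglyMeasurable v)) k ?_
  refine Eventually.of_forall fun y => ?_
  rw [Real.norm_eq_abs, abs_of_nonneg (gk_nonneg ha hα hk.le _)]
  exact gk_le _ _

theorem D5_norm_snd (v : EnergySpace Ω) : ‖v.snd‖ ≤ ‖v‖ := by
  have h := WithLp.prod_norm_sq_eq_of_L2 v
  have h1 : ‖v.snd‖ ^ 2 ≤ ‖v‖ ^ 2 := by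
    rw [h]
    have : 0 ≤ ‖v.fst‖ ^ 2 := sq_nonneg _
    linarith
  exact (sq_le_sq₀ (norm_nonneg _) (norm_nonneg _)).1 h1

/-- [D5] families with small leakage along the scheme. -/
theorem fam_scheme (ha : 0 < a) (hα : 0 < α) (hfin : volume Ω < ⊤) {C : ℝ} (hC : 0 < C)
    (hG : Good Ω C) {J : ℝ → EnergySpace Ω → EnergySpace Ω}
    (hJ : IsJ Ω a α J) {x ζ : EnergySpace Ω} (hx : WaveOp Ω a α x ζ) {T : ℝ} (hT : 0 < T)
    {k : ℝ} (hk : 0 < k) {δ : ℝ} (hδ : 0 < δ) : ∃ n : ℕ, 0 < n ∧ ∃ F : Fam Ω n, PB F C ∧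
      ∃ M₀ : ℕ, 0 < M₀ ∧ ∀ M ≥ M₀, ∀ j ≤ M,
        leak F (fun y => gk a α k (((J (T / M))^[j] x).snd y)) ≤ δ * n := by
  classical
  obtain ⟨τ, hτ, hτ'⟩ := gk_cont (Ω := Ω) ha hα hfin hk (δ := δ / (4 * C)) (by positivity)
  obtain ⟨S, M₀, hM₀, hS⟩ := cover ha hα hJ hx hT hτ
  obtain ⟨n, hn, F, hF, hl⟩ := hG (S.image fun s => (D5_memLp ha hα hfin hk s.snd).toLp _) (δ / 4) (by positivity)
  refine ⟨n, hn, F, hF, M₀, hM₀, fun M hM j hj => ?_⟩
  obtain ⟨s, hs, hsj⟩ := hS M hM j hj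
  have h1 := hl _ (Finset.mem_image_of_mem _ hs)
  rw [D5_leak_congr F (MemLp.coeFn_toLp _)] at h1
  have h2 : ‖((J (T / M))^[j] x).snd - s.snd‖ ≤ τ := by
    have h3 := D5_norm_snd ((J (T / M))^[j] x - s)
    rw [WithLp.sub_snd] at h3
    exact h3.trans hsj
  have h3 := hτ' _ _ h2
  have h4 := leak_cont hfin F hC.le hF (D5_memLp ha hα hfin hk ((J (T / M))^[j] x).snd)
    (D5_memLp ha hα hfin hk s.snd)
  have hn' : (0 : ℝ) < n := by exact_mod_cast hn
  have h5 : C * n * ∫ y in Ω, (gk a α k (((J (T / M))^[j] x).snd y) - gk a α k (s.snd y)) ^ 2 ≤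
      C * n * (δ / (4 * C)) := mul_le_mul_of_nonneg_left h3 (by positivity)
  have e : C * n * (δ / (4 * C)) = δ / 4 * n := by
    field_simp
  rw [e] at h5
  calc leak F (fun y => gk a α k (((J (T / M))^[j] x).snd y))
      ≤ 2 * leak F (fun y => gk a α k (s.snd y)) + 2 * (C * n * ∫ y in Ω,
        (gk a α k (((J (T / M))^[j] x).snd y) - gk a α k (s.snd y)) ^ 2) := h4
    _ ≤ 2 * (δ / 4 * n) + 2 * (δ / 4 * n) := by linarith
    _ = δ * n := by ring

end Pool.Agent.MP_4c4330_an.Gen
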