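import Pool.Agent.MP_4c4330_an.Gen.Scal

/-! # The remainder of the linearisation of `g` -/

open Set Real Filter Topology

namespace Pool.Agent.MP_4c4330_an

variable {a α : ℝ}

lemma rpow_diff (hα : 0 < α) {x y M : ℝ} (hy : 0 ≤ y) (hxy : y ≤ x) (h1 : x - y ≤ 1)
    (hM : x ≤ M) (hM1 : 1 ≤ M) : x ^ α - y ^ α ≤ (α + 1) * M ^ (max (α - 1) 0) := by
  have hx : 0 ≤ x := hy.trans hxy
  have hM0 : 0 < M := by linarith
  rcases le_total α 1 with h | h
  · rw [max_eq_right (by linarith), Real.rpow_zero, mul_one]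
    have h2 := Real.rpow_add_le_add_rpow hy (show 0 ≤ x - y by linarith) hα.le h
    rw [add_sub_cancel] at h2
    have h3 : (x - y) ^ α ≤ 1 := Real.rpow_le_one (by linarith) h1 hα.le
    linarith
  · rw [max_eq_left (by linarith)]
    rcases hx.eq_or_lt with h0 | h0
    · have : y = 0 := le_antisymm (by linarith) hy
      rw [← h0, this]
      simp only [sub_self]
      positivity
    · have hb := one_add_mul_self_le_rpow_one_add (s := y / x - 1) (by
        have : 0 ≤ y / x := by positivity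
        linarith) (p := α) h
      have h2 : (1 + (y / x - 1)) = y / x := by ring
      rw [h2, Real.div_rpow hy hx] at hb
      have hxp : 0 < x ^ α := Real.rpow_pos_of_pos h0 _
      rw [le_div_iff₀ hxp] at hb
      have h3 : x ^ α = x ^ (α - 1) * x := by
        rw [← Real.rpow_add_one h0.ne']; ring_nf
      have h4 : (1 + α * (y / x - 1)) * x ^ α = x ^ α - α * x ^ (α - 1) * (x - y) := by
        rw [h3]; field_simp; ring
      rw [h4] at hb
      have h5 : x ^ (α - 1) ≤ M ^ (α - 1) := Real.rpow_le_rpow hx hM (by linarith)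
      have h6 : 0 ≤ x ^ (α - 1) := by positivity
      have h7 : α * x ^ (α - 1) * (x - y) ≤ α * x ^ (α - 1) * 1 :=
        mul_le_mul_of_nonneg_left h1 (by positivity)
      have h8 : 0 ≤ M ^ (α - 1) := by positivity
      nlinarith

lemma rem_one (ha : 0 < a) (hα : 0 < α) (s : ℝ) :
    |g a α (s + 1) - g a α s - gp a α s| ≤ a * (α + 1) ^ 2 * (1 + |s|) ^ (max (α - 1) 0) := by
  obtain ⟨θ, hθ, he⟩ := exists_hasDerivAt_eq_slope (g a α) (gp a α) (show s < s + 1 by linarith)
    (continuous_g hα).continuousOn (fun x _ => hasDerivAt_g hα x)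
  have e1 : g a α (s + 1) - g a α s = gp a α θ := by
    rw [he, add_sub_cancel_left, div_one]
  rw [e1]
  have e2 : gp a α θ - gp a α s = a * (α + 1) * (|θ| ^ α - |s| ^ α) := by unfold gp; ring
  rw [e2, abs_mul, abs_of_pos (by positivity : 0 < a * (α + 1))]
  have h1 : |θ| - |s| ≤ 1 := by
    have := abs_sub_abs_le_abs_sub θ s
    have h2 : |θ - s| ≤ 1 := by rw [abs_le]; constructor <;> linarith [hθ.1, hθ.2]
    linarith
  have h1' : |s| - |θ| ≤ 1 := by
    have := abs_sub_abs_le_abs_sub s θ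
    have h2 : |s - θ| ≤ 1 := by rw [abs_le]; constructor <;> linarith [hθ.1, hθ.2]
    linarith
  have hs := abs_nonneg s
  have ht := abs_nonneg θ
  have h3 : |(|θ| ^ α) - |s| ^ α| ≤ (α + 1) * (1 + |s|) ^ (max (α - 1) 0) := by
    rcases le_total |s| |θ| with h | h
    · rw [abs_of_nonneg (sub_nonneg.2 (Real.rpow_le_rpow hs h hα.le))]
      exact rpow_diff hα hs h h1 (by linarith) (by linarith)
    · rw [abs_sub_comm, abs_of_nonneg (sub_nonneg.2 (Real.rpow_le_rpow ht h hα.le))]
      exact rpow_diff hα ht h h1' (by linarith) (by linarith)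
  calc a * (α + 1) * |(|θ| ^ α) - |s| ^ α|
      ≤ a * (α + 1) * ((α + 1) * (1 + |s|) ^ (max (α - 1) 0)) :=
        mul_le_mul_of_nonneg_left h3 (by positivity)
    _ = _ := by ring

lemma growth {b : ℝ} (hb : 0 ≤ b) (hbα : b < α) {μ : ℝ} (hμ : 0 < μ) :
    ∃ C : ℝ, 0 ≤ C ∧ ∀ t : ℝ, 0 ≤ t → (1 + t) ^ b ≤ μ * t ^ α + C := by
  set T : ℝ := max 1 ((2 ^ b / μ) ^ (1 / (α - b))) with hT
  have hT1 : 1 ≤ T := le_max_left _ _
  have hT2 : (2 ^ b / μ) ^ (1 / (α - b)) ≤ T := le_max_right _ _
  refine ⟨(1 + T) ^ b, by positivity, fun t ht => ?_⟩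
  rcases le_total t T with h | h
  · have h1 : (1 + t) ^ b ≤ (1 + T) ^ b := Real.rpow_le_rpow (by linarith) (by linarith) hb
    have h2 : 0 ≤ μ * t ^ α := by positivity
    linarith
  · have ht1 : 1 ≤ t := hT1.trans h
    have ht0 : 0 < t := by linarith
    have h1 : (1 + t) ^ b ≤ 2 ^ b * t ^ b := by
      rw [← Real.mul_rpow (by norm_num) ht0.le]
      exact Real.rpow_le_rpow (by linarith) (by linarith) hb
    have h2 : 2 ^ b / μ ≤ t ^ (α - b) := by
      have h3 : ((2 ^ b / μ) ^ (1 / (α - b))) ^ (α - b) ≤ t ^ (α - b) :=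
        Real.rpow_le_rpow (by positivity) (hT2.trans h) (by linarith)
      rw [← Real.rpow_mul (by positivity)] at h3
      have h4 : 1 / (α - b) * (α - b) = 1 := by
        have : α - b ≠ 0 := by linarith
        field_simp
      rwa [h4, Real.rpow_one] at h3
    have h5 : t ^ α = t ^ (α - b) * t ^ b := by
      rw [← Real.rpow_add ht0]; ring_nf
    have h6 : 0 < t ^ b := Real.rpow_pos_of_pos ht0 _
    rw [div_le_iff₀ hμ] at h2
    have h7 : 0 ≤ (1 + T) ^ b := by positivity
    rw [h5]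
    nlinarith

lemma gq_lt (hα : 0 < α) : max (α - 1) 0 * qe α < α := by
  rcases le_total α 1 with h | h
  · rw [max_eq_right (by linarith), zero_mul]; exact hα
  · rw [max_eq_left (by linarith)]
    unfold qe
    rw [mul_div_assoc', div_lt_iff₀ (by linarith)]
    nlinarith

/-- The remainder, with an arbitrarily small constant in front of `|v|^α z²`. -/
lemma rem_bound (ha : 0 < a) (hα : 0 < α) {μ : ℝ} (hμ : 0 < μ) : ∃ C : ℝ, 0 ≤ C ∧ ∀ v z : ℝ,
    |g a α (v + z) - g a α v - gp a α v * z| ^ qe α ≤ μ * (|v| ^ α * z ^ 2) + C * |z| ^ (α + 2) := by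
  set C0 : ℝ := a * (α + 1) ^ 2 with hC0
  have hC0p : 0 < C0 := by positivity
  have hq := qe_pos hα
  set b : ℝ := max (α - 1) 0 * qe α with hb
  have hb0 : 0 ≤ b := mul_nonneg (le_max_right _ _) hq.le
  obtain ⟨C, hC, hgr⟩ := growth (α := α) hb0 (gq_lt hα) (show 0 < μ / C0 ^ qe α by positivity)
  have hK : 0 < C0 ^ qe α := by positivity
  refine ⟨C0 ^ qe α * C, by positivity, fun v z => ?_⟩
  rcases eq_or_ne z 0 with h | h
  · rw [h]
    simp only [add_zero, sub_self, mul_zero, abs_zero]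
    rw [Real.zero_rpow hq.ne', Real.zero_rpow (by linarith)]
    simp
  · have hz : 0 < |z| := abs_pos.2 h
    have hom : ∀ s : ℝ, g a α (z * s) = |z| ^ α * z * g a α s := by
      intro s
      unfold g
      rw [abs_mul, Real.mul_rpow (abs_nonneg _) (abs_nonneg _)]
      ring
    have e1 : v + z = z * (v / z + 1) := by field_simp
    have e2 : g a α v = |z| ^ α * z * g a α (v / z) := by
      rw [← hom]; congr 1; field_simp
    have e3 : gp a α v * z = |z| ^ α * z * gp a α (v / z) := by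
      unfold gp
      rw [abs_div, Real.div_rpow (abs_nonneg _) (abs_nonneg _)]
      have : |z| ^ α ≠ 0 := (Real.rpow_pos_of_pos hz _).ne'
      field_simp
    have e4 : g a α (v + z) - g a α v - gp a α v * z
        = |z| ^ α * z * (g a α (v / z + 1) - g a α (v / z) - gp a α (v / z)) := by
      rw [e1, hom, e2, e3]; ring
    rw [e4, abs_mul]
    have e5 : |(|z| ^ α) * z| = |z| ^ (α + 1) := by
      rw [abs_mul, abs_of_nonneg (by positivity : 0 ≤ |z| ^ α), Real.rpow_add_one hz.ne']
    rw [e5, Real.mul_rpow (by positivity) (abs_nonneg _), ← Real.rpow_mul hz.le, qe_mul hα]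
    have h1 : |g a α (v / z + 1) - g a α (v / z) - gp a α (v / z)| ^ qe α
        ≤ μ * |v / z| ^ α + C0 ^ qe α * C := by
      have h2 := Real.rpow_le_rpow (abs_nonneg _) (rem_one ha hα (v / z)) hq.le
      rw [Real.mul_rpow hC0p.le (by positivity), ← Real.rpow_mul (by positivity)] at h2
      refine h2.trans ?_
      have h3 := mul_le_mul_of_nonneg_left (hgr |v / z| (abs_nonneg _)) hK.le
      refine h3.trans (le_of_eq ?_)
      field_simp
    have h6 : 0 ≤ |z| ^ (α + 2) := by positivity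
    refine (mul_le_mul_of_nonneg_left h1 h6).trans (le_of_eq ?_)
    have e6 : |z| ^ (α + 2) * |v / z| ^ α = |v| ^ α * z ^ 2 := by
      rw [abs_div, Real.div_rpow (abs_nonneg _) (abs_nonneg _),
        show α + 2 = α + (2:ℕ) by norm_num, Real.rpow_add_natCast hz.ne', sq_abs]
      have : |z| ^ α ≠ 0 := (Real.rpow_pos_of_pos hz _).ne'
      field_simp
    calc |z| ^ (α + 2) * (μ * |v / z| ^ α + C0 ^ qe α * C)
        = μ * (|z| ^ (α + 2) * |v / z| ^ α) + C0 ^ qe α * C * |z| ^ (α + 2) := by ring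
      _ = _ := by rw [e6]

lemma four_pow (hα : 0 < α) {x y : ℝ} (hx : 0 ≤ x) (hy : 0 ≤ y) :
    (x + y) ^ qe α ≤ 4 * (x ^ qe α + y ^ qe α) := by
  have hq := qe_pos hα
  have key : ∀ x y : ℝ, 0 ≤ x → 0 ≤ y → x ≤ y → (x + y) ^ qe α ≤ 4 * (x ^ qe α + y ^ qe α) := by
    intro x y hx hy h
    have h1 : (x + y) ^ qe α ≤ (2 * y) ^ qe α := Real.rpow_le_rpow (by positivity) (by linarith) hq.le
    rw [Real.mul_rpow (by norm_num) hy] at h1
    have h2 : (2 : ℝ) ^ qe α ≤ 2 ^ (2 : ℝ) :=
      Real.rpow_le_rpow_of_exponent_le (by norm_num) (qe_lt_two hα).le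
    have h3 : (2 : ℝ) ^ (2 : ℝ) = 4 := by norm_num
    rw [h3] at h2
    have h4 : 0 ≤ y ^ qe α := by positivity
    have h5 : 0 ≤ x ^ qe α := by positivity
    nlinarith
  rcases le_total x y with h | h
  · exact key x y hx hy h
  · rw [add_comm x y, add_comm (x ^ qe α)]; exact key y x hy hx h

/-- The remainder of the truncated linearisation. -/
lemma rem_trunc (ha : 0 < a) (hα : 0 < α) {μ : ℝ} (hμ : 0 < μ) : ∃ C : ℝ, 0 ≤ C ∧ ∀ η : ℝ, 0 < η →
    ∃ k : ℝ, 0 < k ∧ ∀ v z : ℝ, |g a α (v + z) - g a α v - gk a α k v * z| ^ qe α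
      ≤ μ * (|v| ^ α * z ^ 2) + C * |z| ^ (α + 2) + η * (|v| ^ (α + 2) * |z| ^ qe α) := by
  obtain ⟨C, hC, hr⟩ := rem_bound ha hα (show 0 < μ / 4 by positivity)
  have hq := qe_pos hα
  refine ⟨4 * C, by positivity, fun η hη => ?_⟩
  set c : ℝ := a * (α + 1) with hc
  have hc0 : 0 < c := by positivity
  have hex : 0 < α + 2 - α * qe α := by
    have := qe_mul hα
    nlinarith [one_lt_qe hα]
  set T : ℝ := (c ^ qe α / (η / 4)) ^ (1 / (α + 2 - α * qe α)) with hT
  have hT0 : 0 < T := by positivity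
  refine ⟨c * T ^ α, by positivity, fun v z => ?_⟩
  set k : ℝ := c * T ^ α with hk
  have h1 : (gp a α v - gk a α k v) ^ qe α ≤ η / 4 * |v| ^ (α + 2) := by
    rcases le_or_gt (gp a α v) k with h | h
    · have : gk a α k v = gp a α v := min_eq_left h
      rw [this, sub_self, Real.zero_rpow hq.ne']
      positivity
    · have e1 : gk a α k v = k := min_eq_right h.le
      have hk0 : 0 < k := by positivity
      rw [e1]
      have h2 : (gp a α v - k) ^ qe α ≤ (gp a α v) ^ qe α :=
        Real.rpow_le_rpow (by linarith) (by linarith) hq.le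
      refine h2.trans ?_
      have h3 : T ^ α < |v| ^ α := by
        have : c * T ^ α < c * |v| ^ α := h
        exact lt_of_mul_lt_mul_left this hc0.le
      have h4 : T < |v| := by
        by_contra hcon
        push Not at hcon
        have := Real.rpow_le_rpow (abs_nonneg v) hcon hα.le
        linarith
      have hv0 : 0 < |v| := hT0.trans h4
      have e2 : gp a α v = c * |v| ^ α := rfl
      rw [e2, Real.mul_rpow hc0.le (by positivity), ← Real.rpow_mul hv0.le]
      have h5 : c ^ qe α / (η / 4) ≤ |v| ^ (α + 2 - α * qe α) := by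
        have h6 : T ^ (α + 2 - α * qe α) ≤ |v| ^ (α + 2 - α * qe α) :=
          Real.rpow_le_rpow hT0.le h4.le hex.le
        rw [hT, ← Real.rpow_mul (by positivity)] at h6
        have h7 : 1 / (α + 2 - α * qe α) * (α + 2 - α * qe α) = 1 := by field_simp
        rwa [h7, Real.rpow_one] at h6
      rw [div_le_iff₀ (by positivity)] at h5
      have e3 : |v| ^ (α + 2) = |v| ^ (α + 2 - α * qe α) * |v| ^ (α * qe α) := by
        rw [← Real.rpow_add hv0]; ring_nf
      rw [e3]
      have h8 : 0 ≤ |v| ^ (α * qe α) := by positivity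
      calc c ^ qe α * |v| ^ (α * qe α)
          ≤ |v| ^ (α + 2 - α * qe α) * (η / 4) * |v| ^ (α * qe α) :=
            mul_le_mul_of_nonneg_right h5 h8
        _ = _ := by ring
  have hgk : 0 ≤ gp a α v - gk a α k v := sub_nonneg.2 (gk_le_gp _ _)
  have h9 : |g a α (v + z) - g a α v - gk a α k v * z|
      ≤ |g a α (v + z) - g a α v - gp a α v * z| + (gp a α v - gk a α k v) * |z| := by
    have e : g a α (v + z) - g a α v - gk a α k v * z
        = (g a α (v + z) - g a α v - gp a α v * z) + (gp a α v - gk a α k v) * z := by ring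
    rw [e]
    refine (abs_add_le _ _).trans ?_
    rw [abs_mul (gp a α v - gk a α k v), abs_of_nonneg hgk]
  have h10 := Real.rpow_le_rpow (abs_nonneg _) h9 hq.le
  refine h10.trans ((four_pow hα (abs_nonneg _) (by positivity)).trans ?_)
  rw [Real.mul_rpow hgk (abs_nonneg z)]
  have h11 := hr v z
  have h12 : (gp a α v - gk a α k v) ^ qe α * |z| ^ qe α
      ≤ η / 4 * |v| ^ (α + 2) * |z| ^ qe α := mul_le_mul_of_nonneg_right h1 (by positivity)
  nlinarith

end Pool.Agent.MP_4c4330_an
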