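import Pool.Agent.MP_4c4330_an.Traj
import Pool.Agent.MP_4c4330_an.Gen.Rem

/-! # GEN: definitions -/

open MeasureTheory Set Filter Topology
open scoped ENNReal ContDiff

namespace Pool.Agent.MP_4c4330_an.Gen

noncomputable section

/-! ## Random signs -/

/-- The sign of a Boolean. -/
def sg (b : Bool) : ℝ := if b then 1 else -1

/-- Average over all sign vectors. -/
def avg {ι : Type} [Fintype ι] [DecidableEq ι] (f : (ι → Bool) → ℝ) : ℝ :=
  (∑ ξ : ι → Bool, f ξ) / 2 ^ Fintype.card ι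

/-! ## The linear scheme -/

/-- The matrix `1 + h A₀ + h G` of one implicit step in the coordinates (gradient part, velocity). -/
def bmat {n : ℕ} (h : ℝ) (lam : Fin n → ℝ) (G : Matrix (Fin n) (Fin n) ℝ) :
    Matrix (Fin n ⊕ Fin n) (Fin n ⊕ Fin n) ℝ :=
  Matrix.fromBlocks 1 (-(h • Matrix.diagonal fun i => √(lam i)))
    (h • Matrix.diagonal fun i => √(lam i)) (1 + h • G)

/-- The product of the inverse steps. -/
def lmat {n : ℕ} (h : ℝ) (lam : Fin n → ℝ) (G : ℕ → Matrix (Fin n) (Fin n) ℝ) :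
    ℕ → Matrix (Fin n ⊕ Fin n) (Fin n ⊕ Fin n) ℝ
  | 0 => 1
  | j + 1 => (bmat h lam (G (j + 1)))⁻¹ * lmat h lam G j

section
variable {E : Type*} [NormedAddCommGroup E] [InnerProductSpace ℝ E] [FiniteDimensional ℝ E]
  [MeasurableSpace E] [BorelSpace E]

/-- A finite orthonormal family of Dirichlet eigenfunctions (weak form). -/
structure Fam (Ω : Set E) (n : ℕ) where
  e : Fin n → Lp ℝ 2 (volume.restrict Ω)
  q : Fin n → Lp E 2 (volume.restrict Ω)
  lam : Fin n → ℝ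
  pos : ∀ i, 0 < lam i
  h10 : ∀ i, InH10 Ω (e i) (q i)
  orth : Orthonormal ℝ e
  eig : ∀ i w r, InH10 Ω w r → inner ℝ (q i) r = lam i * inner ℝ (e i) w

variable {Ω : Set E} {n : ℕ}

/-- The matrix of the multiplication by `m`. -/
def gram (F : Fam Ω n) (m : E → ℝ) : Matrix (Fin n) (Fin n) ℝ :=
  fun i l => ∫ x in Ω, m x * F.e i x * F.e l x

/-- The part of `m eᵢ` that is not in the span, summed over `i`. -/
def leak (F : Fam Ω n) (m : E → ℝ) : ℝ :=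
  ∑ i, ∫ x in Ω, (m x * F.e i x - ∑ l, gram F m i l * F.e l x) ^ 2

/-- The pointwise bound of the family. -/
def PB (F : Fam Ω n) (C : ℝ) : Prop :=
  ∀ᵐ x ∂(volume.restrict Ω), ∑ i, (F.e i x) ^ 2 ≤ C * n

/-- There are families with a pointwise bound and small leakage. -/
def Good (Ω : Set E) (C : ℝ) : Prop :=
  ∀ (S : Finset (Lp ℝ 2 (volume.restrict Ω))) (δ : ℝ), 0 < δ →
    ∃ n : ℕ, 0 < n ∧ ∃ F : Fam Ω n, PB F C ∧ ∀ m ∈ S, leak F m ≤ δ * n

/-- The velocity of the state with coordinates `z`. -/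
def zv (F : Fam Ω n) (z : Fin n ⊕ Fin n → ℝ) (x : E) : ℝ := ∑ i, z (Sum.inr i) * F.e i x

/-- The projection of `m ζ` on the span, `ζ = zv F z`. -/
def pz (F : Fam Ω n) (m : E → ℝ) (z : Fin n ⊕ Fin n → ℝ) (x : E) : ℝ :=
  ∑ i, z (Sum.inr i) * ∑ l, gram F m i l * F.e l x

/-- The state with coordinates `z`. -/
def Zst (F : Fam Ω n) (z : Fin n ⊕ Fin n → ℝ) : EnergySpace Ω :=
  WithLp.toLp 2 (∑ i, (z (Sum.inl i) / √(F.lam i)) • (⟨F.q i, (F.h10 i).grad_mem⟩ : GradSpace Ω),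
    ∑ i, z (Sum.inr i) • F.e i)

/-- The random initial state. -/
def z0 (n : ℕ) (ε : ℝ) (ξ : Fin n ⊕ Fin n → Bool) : Fin n ⊕ Fin n → ℝ :=
  fun i => ε / √(2 * n) * sg (ξ i)

/-- Resolvents of the operator. -/
def IsJ (Ω : Set E) (a α : ℝ) (J : ℝ → EnergySpace Ω → EnergySpace Ω) : Prop :=
  ∀ h > 0, ∀ x, EulerStep (WaveOp Ω a α) h x (J h x)

/-- The total damping along the scheme. -/
def Dsum (α : ℝ) (J : ℝ → EnergySpace Ω → EnergySpace Ω) (x : EnergySpace Ω) (T : ℝ) (M : ℕ) : ℝ :=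
  ∑ j ∈ Finset.range M, T / M * ∫ y in Ω, |((J (T / M))^[j + 1] x).snd y| ^ α

/-- `w - Δ w / l = h` in weak form. -/
def IsRes (Ω : Set E) (l : ℝ) (h w : Lp ℝ 2 (volume.restrict Ω))
    (r : Lp E 2 (volume.restrict Ω)) : Prop :=
  InH10 Ω w r ∧ ∀ w' r', InH10 Ω w' r' → inner ℝ w w' + l⁻¹ * inner ℝ r r' = inner ℝ h w'

end

/-- The cube. -/
def bx (N : ℕ) (R : ℝ) : Set (EuclideanSpace ℝ (Fin N)) := {x | ∀ i, |x i| < R}

/-- Eigenfunctions of the cube. -/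
def bf (N : ℕ) (R : ℝ) (k : Fin N → ℕ) (x : EuclideanSpace ℝ (Fin N)) : ℝ :=
  ∏ i, ((√R)⁻¹ * Real.sin (Real.pi * (k i + 1) * (x i + R) / (2 * R)))

/-- Eigenvalues of the cube. -/
def bm (N : ℕ) (R : ℝ) (k : Fin N → ℕ) : ℝ := ∑ i, (Real.pi * (k i + 1) / (2 * R)) ^ 2

/-- An orthonormal basis of Dirichlet eigenfunctions. -/
structure Bas (I : Type) {E : Type*} [NormedAddCommGroup E] [InnerProductSpace ℝ E]
    [FiniteDimensional ℝ E] [MeasurableSpace E] [BorelSpace E] (Ω : Set E) where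
  b : HilbertBasis I ℝ (Lp ℝ 2 (volume.restrict Ω))
  q : I → Lp E 2 (volume.restrict Ω)
  lam : I → ℝ
  pos : ∀ i, 0 < lam i
  h10 : ∀ i, InH10 Ω (b i) (q i)
  eig : ∀ i w r, InH10 Ω w r → inner ℝ (q i) r = lam i * inner ℝ (b i) w
  fin : ∀ c : ℝ, {i | lam i ≤ c}.Finite

/-- The indices with eigenvalue at most `c`. -/
def Bas.low {I : Type} {E : Type*} [NormedAddCommGroup E] [InnerProductSpace ℝ E]
    [FiniteDimensional ℝ E] [MeasurableSpace E] [BorelSpace E] {Ω : Set E} (B : Bas I Ω) (c : ℝ) :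
    Finset I := (B.fin c).toFinset

end

end Pool.Agent.MP_4c4330_an.Gen
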