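import Pool.Agent.MP_4c4330_an.Gen.Defs

/-! # GEN2: definitions -/

open MeasureTheory Set Filter Topology
open scoped ENNReal ContDiff

namespace Pool.Agent.MP_4c4330_an.Gen

noncomputable section

/-- Endpoints of the windows: `0, M, 2 M, 4 M, 8 M, …`. -/
def kap (M : ℕ) : ℕ → ℕ
  | 0 => 0
  | w + 1 => 2 ^ w * M

/-- Products of matrices. -/
def pm {ι : Type} [Fintype ι] [DecidableEq ι] (L : ℕ → Matrix ι ι ℝ) : ℕ → Matrix ι ι ℝ
  | 0 => 1
  | j + 1 => L j * pm L j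

section
variable {E : Type*} [NormedAddCommGroup E] [InnerProductSpace ℝ E] [FiniteDimensional ℝ E]
  [MeasurableSpace E] [BorelSpace E] {Ω : Set E} {n : ℕ}

/-- The linear scheme along the scheme of `x`. -/
def lx (F : Fam Ω n) (a α k : ℝ) (J : ℝ → EnergySpace Ω → EnergySpace Ω) (h : ℝ)
    (x : EnergySpace Ω) (j : ℕ) : Matrix (Fin n ⊕ Fin n) (Fin n ⊕ Fin n) ℝ :=
  lmat h F.lam (fun j => gram F (fun y => gk a α k (((J h)^[j] x).snd y))) j

/-- The damping along the steps `k₁ + 1, …, k₂`. -/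
def Dw (α : ℝ) (J : ℝ → EnergySpace Ω → EnergySpace Ω) (h : ℝ) (x : EnergySpace Ω)
    (k₁ k₂ : ℕ) : ℝ :=
  ∑ j ∈ Finset.Ico k₁ k₂, h * ∫ y in Ω, |((J h)^[j + 1] x).snd y| ^ α

end

/-- The time `2 ^ (j - 1) t₀` at the end of the window number `j - 1`. -/
def tj (t₀ : ℝ) (j : ℕ) : ℝ := 2 ^ (j - 1) * t₀

/-- The amplitude at the time `tj t₀ j`. -/
def hj (c₀ α t₀ : ℝ) (j : ℕ) : ℝ := c₀ * (tj t₀ j) ^ (-(1 / α))

end

end Pool.Agent.MP_4c4330_an.Gen
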