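import Pool.Agent.MP_4c4330_an.Gen.Defs
open MeasureTheory Set Filter Topology
open scoped ENNReal ContDiff
namespace Pool.Agent.MP_4c4330_an.Gen

variable {E : Type*} [NormedAddCommGroup E] [InnerProductSpace ℝ E] [FiniteDimensional ℝ E]
  [MeasurableSpace E] [BorelSpace E] {Ω : Set E} {a α : ℝ} {n : ℕ}

/-- [E1] dissipation along the scheme. -/
theorem diss (ha : 0 < a) (hα : 0 < α) {J : ℝ → EnergySpace Ω → EnergySpace Ω}
    (hJ : IsJ Ω a α J) (x : EnergySpace Ω) {h : ℝ} (hh : 0 < h) (M : ℕ) :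
    (∀ j, Integrable (fun y => |((J h)^[j + 1] x).snd y| ^ (α + 2)) (volume.restrict Ω)) ∧
    2 * a * (∑ j ∈ Finset.range M, h * ∫ y in Ω, |((J h)^[j + 1] x).snd y| ^ (α + 2))
      + ‖(J h)^[M] x‖ ^ 2 ≤ ‖x‖ ^ 2 := by
  have key : ∀ j, Integrable (fun y => |((J h)^[j + 1] x).snd y| ^ (α + 2)) (volume.restrict Ω) ∧
      2 * (h * a * ∫ y in Ω, |((J h)^[j + 1] x).snd y| ^ (α + 2)) + ‖(J h)^[j + 1] x‖ ^ 2
        ≤ ‖(J h)^[j] x‖ ^ 2 := by
    intro j
    have h1 := hJ h hh ((J h)^[j] x)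
    have h2 := step_energy hα hh h1
    rw [← Function.iterate_succ_apply' (J h) j x] at h2
    exact h2
  refine ⟨fun j => (key j).1, ?_⟩
  induction M with
  | zero => simp
  | succ M ih =>
    rw [Finset.sum_range_succ]
    have h2 := (key M).2
    nlinarith [h2, ih]

end Pool.Agent.MP_4c4330_an.Gen
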