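import Pool.Agent.MP_4c4330_an.Gen.Defs2
import Pool.Agent.MP_4c4330_an.Gen.A1
import Pool.Agent.MP_4c4330_an.Gen.B3
import Pool.Agent.MP_4c4330_an.Gen.C2
import Pool.Agent.MP_4c4330_an.Gen.C3
import Pool.Agent.MP_4c4330_an.Gen.C4
import Pool.Agent.MP_4c4330_an.Gen.D1
import Pool.Agent.MP_4c4330_an.Gen.E1
open MeasureTheory Set Filter Topology
open scoped ENNReal ContDiff
namespace Pool.Agent.MP_4c4330_an.Gen

set_option linter.unusedSectionVars false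

lemma E4_avg_sum {ι : Type} [Fintype ι] [DecidableEq ι] (M : ℕ) (f : ℕ → (ι → Bool) → ℝ) :
    avg (fun ξ => ∑ j ∈ Finset.range M, f j ξ) = ∑ j ∈ Finset.range M, avg (f j) := by
  unfold avg
  rw [Finset.sum_comm, Finset.sum_div]

lemma E4_avg_nonneg {ι : Type} [Fintype ι] [DecidableEq ι] (f : (ι → Bool) → ℝ)
    (hf : ∀ ξ, 0 ≤ f ξ) : 0 ≤ avg f := by
  unfold avg
  exact div_nonneg (Finset.sum_nonneg fun ξ _ => hf ξ) (by positivity)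

lemma E4_mink {ι : Type} [Fintype ι] [DecidableEq ι] (p q r : (ι → Bool) → ℝ)
    (hp : ∀ ξ, 0 ≤ p ξ) (hq : ∀ ξ, 0 ≤ q ξ) (hr : ∀ ξ, 0 ≤ r ξ) (h : ∀ ξ, p ξ ≤ q ξ + r ξ) :
    √(avg fun ξ => p ξ ^ 2) ≤ √(avg fun ξ => q ξ ^ 2) + √(avg fun ξ => r ξ ^ 2) := by
  have hA : 0 ≤ avg fun ξ => q ξ ^ 2 := E4_avg_nonneg _ fun ξ => sq_nonneg _
  have hB : 0 ≤ avg fun ξ => r ξ ^ 2 := E4_avg_nonneg _ fun ξ => sq_nonneg _
  rw [Real.sqrt_le_left (by positivity)]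
  have hcs : avg (fun ξ => q ξ * r ξ) ≤ √(avg fun ξ => q ξ ^ 2) * √(avg fun ξ => r ξ ^ 2) := by
    rw [← Real.sqrt_mul hA]
    refine Real.le_sqrt_of_sq_le ?_
    unfold avg
    rw [div_pow, div_mul_div_comm, ← sq]
    refine div_le_div_of_nonneg_right ?_ (by positivity)
    exact Finset.sum_mul_sq_le_sq_mul_sq _ _ _
  obtain ⟨hmono, hadd, hmul, -⟩ := avg_basic (ι := ι)
  have h1 : avg (fun ξ => p ξ ^ 2) ≤
      avg (fun ξ => (q ξ ^ 2 + 2 * (q ξ * r ξ)) + r ξ ^ 2) := by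
    refine hmono _ _ fun ξ => ?_
    have := pow_le_pow_left₀ (hp ξ) (h ξ) 2
    nlinarith
  rw [hadd, hadd, hmul] at h1
  have e1 := Real.sq_sqrt hA
  have e2 := Real.sq_sqrt hB
  nlinarith

/-- rescaling of the random data -/
lemma E4_scale {n : ℕ} (hn : 0 < n) {ε : ℝ} (hε : 0 < ε)
    (P : Matrix (Fin n ⊕ Fin n) (Fin n ⊕ Fin n) ℝ) (ξ : Fin n ⊕ Fin n → Bool) :
    ((√(2 * n) / ε) • P).mulVec (z0 n ε ξ) = P.mulVec fun i => sg (ξ i) := by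
  have hn0 : (0 : ℝ) < n := by exact_mod_cast hn
  have hs : 0 < √(2 * (n : ℝ)) := Real.sqrt_pos.2 (by positivity)
  have h1 : z0 n ε ξ = (ε / √(2 * n)) • (fun i => sg (ξ i)) := by
    funext i
    simp [z0]
  rw [h1, Matrix.smul_mulVec, Matrix.mulVec_smul, smul_smul]
  have h2 : √(2 * (n : ℝ)) / ε * (ε / √(2 * (n : ℝ))) = 1 := by field_simp
  rw [h2, one_smul]

section
variable {E : Type*} [NormedAddCommGroup E] [InnerProductSpace ℝ E] [FiniteDimensional ℝ E]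
  [MeasurableSpace E] [BorelSpace E] {Ω : Set E} {a α : ℝ} {n : ℕ}

/-- [E4] the estimate for a fixed number of steps, general random data, constants that depend on
the step. -/
theorem disc2 (ha : 0 < a) (hα : 0 < α) (hfin : volume Ω < ⊤) (hn : 0 < n) (F : Fam Ω n)
    {C : ℝ} (hC : 0 < C) (hP : PB F C) {J : ℝ → EnergySpace Ω → EnergySpace Ω}
    (hJ : IsJ Ω a α J) (x : EnergySpace Ω) {h : ℝ} (hh : 0 < h) {M : ℕ} (hM : 0 < M)
    {CY K₁ K₂ η k δ : ℝ} (hCY : 0 ≤ CY)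
    (hY : ∀ x y : ℝ, |x| * |y| ≤ a * (2 : ℝ) ^ (-α) * |y| ^ (α + 2) + CY * |x| ^ qe α)
    (hK₁ : ∀ (c : Fin n ⊕ Fin n → ℝ) (σ : ℝ), 0 ≤ σ → ∑ i, (c i) ^ 2 ≤ σ ^ 2 →
      avg (fun ξ => |∑ i, c i * sg (ξ i)| ^ (α + 2)) ≤ K₁ * σ ^ (α + 2))
    (hK₂ : ∀ (c : Fin n ⊕ Fin n → ℝ) (σ : ℝ), 0 ≤ σ → ∑ i, (c i) ^ 2 ≤ σ ^ 2 →
      avg (fun ξ => |∑ i, c i * sg (ξ i)| ^ qe α) ≤ K₂ * σ ^ qe α)
    (hη : 0 ≤ η) (hk : 0 < k) {ε μ c₁ : ℕ → ℝ} (hε : ∀ j, 0 < ε j) (hμ : ∀ j, 0 ≤ μ j)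
    (hc₁ : ∀ j, 0 ≤ c₁ j)
    (hr : ∀ j, ∀ v z : ℝ, |g a α (v + z) - g a α v - gk a α k v * z| ^ qe α
      ≤ μ j * (|v| ^ α * z ^ 2) + c₁ j * |z| ^ (α + 2) + η * (|v| ^ (α + 2) * |z| ^ qe α))
    (hδ : ∀ j ≤ M, leak F (fun y => gk a α k (((J h)^[j] x).snd y)) ≤ δ * n)
    {S : Matrix (Fin n ⊕ Fin n) (Fin n ⊕ Fin n) ℝ}
    (hS : ∀ j < M, ∀ y : Fin n ⊕ Fin n → ℝ,
      ∑ i, ((lx F a α k J h x (j + 1) * S).transpose.mulVec y i) ^ 2
        ≤ (ε (j + 1)) ^ 2 / (2 * n) * ∑ i, (y i) ^ 2) :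
    √(∑ i, ∑ m, ((lx F a α k J h x M * S) i m) ^ 2)
      ≤ √(avg (fun ξ => ‖(J h)^[M] (x + Zst F (S.mulVec fun i => sg (ξ i))) - (J h)^[M] x‖ ^ 2))
        + √(4 * CY * (∑ j ∈ Finset.range M, h *
            (μ (j + 1) * (C * ε (j + 1) ^ 2 * ∫ y in Ω, |((J h)^[j + 1] x).snd y| ^ α)
            + c₁ (j + 1) * (K₁ * (√C * ε (j + 1)) ^ (α + 2) * (volume Ω).toReal)
            + η * (K₂ * (√C * ε (j + 1)) ^ qe α
              * ∫ y in Ω, |((J h)^[j + 1] x).snd y| ^ (α + 2))))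
          + 4 * (M * h) * (h * ∑ j ∈ Finset.range M, ε (j + 1) ^ 2 * δ)) := by
  have hM0 : (0 : ℝ) < M := by exact_mod_cast hM
  have hn0 : (0 : ℝ) < n := by exact_mod_cast hn
  have hs0 : 0 < √(2 * (n : ℝ)) := Real.sqrt_pos.2 (by positivity)
  have hs2 : √(2 * (n : ℝ)) ^ 2 = 2 * n := Real.sq_sqrt (by positivity)
  have hmono := (avg_basic (ι := Fin n ⊕ Fin n)).1
  have hadd := (avg_basic (ι := Fin n ⊕ Fin n)).2.1
  have hmul := (avg_basic (ι := Fin n ⊕ Fin n)).2.2.1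
  -- the data
  let X : ℕ → EnergySpace Ω := fun j => (J h)^[j] x
  let v : ℕ → Lp ℝ 2 (volume.restrict Ω) := fun j => (X j).snd
  let m : ℕ → E → ℝ := fun j y => gk a α k (v j y)
  let G : ℕ → Matrix (Fin n) (Fin n) ℝ := fun j => gram F (m j)
  let L : ℕ → Matrix (Fin n ⊕ Fin n) (Fin n ⊕ Fin n) ℝ := lmat h F.lam G
  let Z : (Fin n ⊕ Fin n → Bool) → Fin n ⊕ Fin n → ℝ := fun ξ => S.mulVec fun i => sg (ξ i)
  let z : ℕ → (Fin n ⊕ Fin n → Bool) → Fin n ⊕ Fin n → ℝ := fun j ξ => (L j).mulVec (Z ξ)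
  let W : ℕ → (Fin n ⊕ Fin n → Bool) → EnergySpace Ω := fun j ξ => (J h)^[j] (x + Zst F (Z ξ))
  let e : ℕ → (Fin n ⊕ Fin n → Bool) → ℝ := fun j ξ => ‖W j ξ - X j - Zst F (z j ξ)‖
  let R : ℕ → (Fin n ⊕ Fin n → Bool) → ℝ := fun j ξ =>
    ∫ y in Ω, |g a α (v j y + zv F (z j ξ) y) - g a α (v j y)
      - gk a α k (v j y) * zv F (z j ξ) y| ^ qe α
  let b : ℕ → (Fin n ⊕ Fin n → Bool) → ℝ := fun j ξ =>
    ∫ y in Ω, (gk a α k (v j y) * zv F (z j ξ) y - pz F (m j) (z j ξ) y) ^ 2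
  have hlam : ∀ i, 0 ≤ F.lam i := fun i => (F.pos i).le
  have hmm : ∀ j, Measurable (m j) := fun j =>
    (continuous_gk hα k).measurable.comp (Lp.stronglyMeasurable (v j)).measurable
  have hgr : ∀ j, _ := fun j => gram_facts hfin F hC.le hP (hmm j)
    (fun y => gk_nonneg ha hα hk.le (v j y)) (fun y => gk_le k (v j y))
  have hG0 : ∀ j, ∀ β : Fin n → ℝ, 0 ≤ ∑ i, ∑ l, G j i l * β i * β l := fun j => (hgr j).1
  have hlf := fun j => lmat_facts hn hh F.lam hlam G hG0 j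
  have hdis := diss ha hα hJ x hh M
  have hvi : ∀ j, Integrable (fun y => |v (j + 1) y| ^ (α + 2)) (volume.restrict Ω) := hdis.1
  have hX : ∀ j, EulerStep (WaveOp Ω a α) h (X j) (X (j + 1)) := by
    intro j
    have h1 : X (j + 1) = J h (X j) := Function.iterate_succ_apply' _ _ _
    rw [h1]
    exact hJ h hh _
  have hW : ∀ j ξ, EulerStep (WaveOp Ω a α) h (W j ξ) (W (j + 1) ξ) := by
    intro j ξ
    have h1 : W (j + 1) ξ = J h (W j ξ) := Function.iterate_succ_apply' _ _ _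
    rw [h1]
    exact hJ h hh _
  have hz : ∀ j ξ, z j ξ = (bmat h F.lam (gram F fun y => gk a α k ((X (j + 1)).snd y))).mulVec
      (z (j + 1) ξ) := fun j ξ => (hlf j).2.1 _
  have hstep : ∀ ξ, ∀ j < M, (e (j + 1) ξ) ^ 2 ≤ (e j ξ) ^ 2 + 2 * h * CY * R (j + 1) ξ
      + 2 * h * √(b (j + 1) ξ) * e (j + 1) ξ := by
    intro ξ j _
    exact step_ineq ha hα hfin hY F hC.le hP hk hh (hW j ξ) (hX j) (hz j ξ)
  have hR0 : ∀ j ξ, 0 ≤ R j ξ := fun j ξ => integral_nonneg fun y => by positivity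
  have hb0 : ∀ j ξ, 0 ≤ b j ξ := fun j ξ => integral_nonneg fun y => sq_nonneg _
  have he0 : ∀ ξ, e 0 ξ = 0 := by
    intro ξ
    show ‖(x + Zst F (Z ξ)) - x - Zst F ((1 : Matrix (Fin n ⊕ Fin n) (Fin n ⊕ Fin n) ℝ).mulVec
      (Z ξ))‖ = 0
    rw [Matrix.one_mulVec, add_sub_cancel_left, sub_self, norm_zero]
  have hseq : ∀ ξ, (e M ξ) ^ 2 ≤ 4 * h * CY * (∑ j ∈ Finset.range M, R (j + 1) ξ)
      + 4 * (M * h) * (h * ∑ j ∈ Finset.range M, b (j + 1) ξ) := by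
    intro ξ
    exact seq_bound (e := fun j => e j ξ) (R := fun j => R j ξ) (b := fun j => b j ξ)
      hh.le hCY (fun j => norm_nonneg _) (fun j => hR0 j ξ) (fun j => hb0 j ξ) (he0 ξ) (hstep ξ)
  -- the rescaled matrices
  let P : ℕ → Matrix (Fin n ⊕ Fin n) (Fin n ⊕ Fin n) ℝ :=
    fun j => (√(2 * (n : ℝ)) / ε j) • (L j * S)
  have hPz : ∀ j ξ, (P j).mulVec (z0 n (ε j) ξ) = z j ξ := by
    intro j ξ
    show ((√(2 * (n : ℝ)) / ε j) • (L j * S)).mulVec (z0 n (ε j) ξ) = (L j).mulVec (Z ξ)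
    rw [E4_scale hn (hε j)]
    show (L j * S).mulVec _ = (L j).mulVec (S.mulVec _)
    rw [Matrix.mulVec_mulVec]
  have hPL : ∀ j < M, ∀ y : Fin n ⊕ Fin n → ℝ,
      ∑ i, ((P (j + 1)).transpose.mulVec y i) ^ 2 ≤ ∑ i, (y i) ^ 2 := by
    intro j hj y
    have h1 := hS j hj y
    have h2 : ∑ i, ((P (j + 1)).transpose.mulVec y i) ^ 2
        = 2 * n / (ε (j + 1)) ^ 2 * ∑ i, ((L (j + 1) * S).transpose.mulVec y i) ^ 2 := by
      rw [Finset.mul_sum]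
      refine Finset.sum_congr rfl fun i _ => ?_
      show (((√(2 * (n : ℝ)) / ε (j + 1)) • (L (j + 1) * S)).transpose.mulVec y i) ^ 2 = _
      rw [Matrix.transpose_smul, Matrix.smul_mulVec, Pi.smul_apply, smul_eq_mul, mul_pow, div_pow,
        hs2]
    have h3 : ∑ i, ((L (j + 1) * S).transpose.mulVec y i) ^ 2
        ≤ (ε (j + 1)) ^ 2 / (2 * n) * ∑ i, (y i) ^ 2 := h1
    have hε' := hε (j + 1)
    rw [h2]
    calc 2 * n / (ε (j + 1)) ^ 2 * ∑ i, ((L (j + 1) * S).transpose.mulVec y i) ^ 2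
        ≤ 2 * n / (ε (j + 1)) ^ 2 * ((ε (j + 1)) ^ 2 / (2 * n) * ∑ i, (y i) ^ 2) :=
          mul_le_mul_of_nonneg_left h3 (by positivity)
      _ = ∑ i, (y i) ^ 2 := by field_simp
  -- averages
  have hav : ∀ j < M, avg (R (j + 1)) ≤ μ (j + 1) * (C * ε (j + 1) ^ 2 * ∫ y in Ω, |v (j + 1) y| ^ α)
        + c₁ (j + 1) * (K₁ * (√C * ε (j + 1)) ^ (α + 2) * (volume Ω).toReal)
        + η * (K₂ * (√C * ε (j + 1)) ^ qe α * ∫ y in Ω, |v (j + 1) y| ^ (α + 2)) ∧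
      avg (b (j + 1)) ≤ ε (j + 1) ^ 2 / n * leak F (m (j + 1)) ∧
      avg (fun ξ => ‖Zst F (z (j + 1) ξ)‖ ^ 2)
        = ∑ i, ∑ l, ((L (j + 1) * S) i l) ^ 2 := by
    intro j hj
    obtain ⟨h1, h2, h3, -⟩ := avg_time ha hα hfin hn F hC hP (hPL j hj) (hε (j + 1))
      (v (j + 1)) (hvi j) hK₁ hK₂ (hμ (j + 1)) (hc₁ (j + 1)) hη hk (hr (j + 1))
    simp only [hPz] at h1 h2 h3
    refine ⟨h1, h2, ?_⟩
    rw [h3, Finset.mul_sum]
    refine Finset.sum_congr rfl fun i _ => ?_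
    rw [Finset.mul_sum]
    refine Finset.sum_congr rfl fun l _ => ?_
    show ε (j + 1) ^ 2 / (2 * n) * (((√(2 * (n : ℝ)) / ε (j + 1)) • (L (j + 1) * S)) i l) ^ 2 = _
    rw [Matrix.smul_apply, smul_eq_mul, mul_pow, div_pow, hs2]
    have hε' := hε (j + 1)
    field_simp
  have hemax : avg (fun ξ => (e M ξ) ^ 2) ≤ 4 * CY * (∑ j ∈ Finset.range M, h *
            (μ (j + 1) * (C * ε (j + 1) ^ 2 * ∫ y in Ω, |v (j + 1) y| ^ α)
            + c₁ (j + 1) * (K₁ * (√C * ε (j + 1)) ^ (α + 2) * (volume Ω).toReal)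
            + η * (K₂ * (√C * ε (j + 1)) ^ qe α * ∫ y in Ω, |v (j + 1) y| ^ (α + 2))))
          + 4 * (M * h) * (h * ∑ j ∈ Finset.range M, ε (j + 1) ^ 2 * δ) := by
    have h1 := hmono _ _ hseq
    rw [hadd, hmul] at h1
    have h2 : avg (fun ξ => 4 * (M * h) * (h * ∑ j ∈ Finset.range M, b (j + 1) ξ)) =
        4 * (M * h) * (h * ∑ j ∈ Finset.range M, avg (b (j + 1))) := by
      rw [hmul, hmul, E4_avg_sum]
    rw [h2, E4_avg_sum] at h1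
    refine h1.trans (add_le_add ?_ ?_)
    · have h3 : ∑ j ∈ Finset.range M, avg (R (j + 1)) ≤ ∑ j ∈ Finset.range M,
            (μ (j + 1) * (C * ε (j + 1) ^ 2 * ∫ y in Ω, |v (j + 1) y| ^ α)
            + c₁ (j + 1) * (K₁ * (√C * ε (j + 1)) ^ (α + 2) * (volume Ω).toReal)
            + η * (K₂ * (√C * ε (j + 1)) ^ qe α * ∫ y in Ω, |v (j + 1) y| ^ (α + 2))) :=
        Finset.sum_le_sum fun j hj => (hav j (Finset.mem_range.mp hj)).1
      rw [← Finset.mul_sum]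
      calc 4 * h * CY * ∑ j ∈ Finset.range M, avg (R (j + 1))
          ≤ 4 * h * CY * _ := mul_le_mul_of_nonneg_left h3 (by positivity)
        _ = _ := by ring
    · refine mul_le_mul_of_nonneg_left (mul_le_mul_of_nonneg_left ?_ hh.le) (by positivity)
      refine Finset.sum_le_sum fun j hj => ?_
      have h2 := (hav j (Finset.mem_range.mp hj)).2.1
      have h3 : leak F (m (j + 1)) ≤ δ * n := hδ (j + 1) (Finset.mem_range.mp hj)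
      have h4 : ε (j + 1) ^ 2 / n * leak F (m (j + 1)) ≤ ε (j + 1) ^ 2 / n * (δ * n) :=
        mul_le_mul_of_nonneg_left h3 (by positivity)
      have h5 : ε (j + 1) ^ 2 / n * (δ * n) = ε (j + 1) ^ 2 * δ := by field_simp
      rw [h5] at h4
      exact h2.trans h4
  -- Minkowski
  have hmk := E4_mink (fun ξ => ‖Zst F (z M ξ)‖)
    (fun ξ => ‖(J h)^[M] (x + Zst F (Z ξ)) - (J h)^[M] x‖) (fun ξ => e M ξ)
    (fun ξ => norm_nonneg _) (fun ξ => norm_nonneg _) (fun ξ => norm_nonneg _) (by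
      intro ξ
      have h1 : Zst F (z M ξ) = ((J h)^[M] (x + Zst F (Z ξ)) - (J h)^[M] x) -
          (W M ξ - X M - Zst F (z M ξ)) := by
        show Zst F (z M ξ) = (W M ξ - X M) - (W M ξ - X M - Zst F (z M ξ))
        abel
      rw [h1]
      exact norm_sub_le _ _)
  have hlow : avg (fun ξ => ‖Zst F (z M ξ)‖ ^ 2)
      = ∑ i, ∑ l, ((lx F a α k J h x M * S) i l) ^ 2 := by
    obtain ⟨M', rfl⟩ : ∃ M', M = M' + 1 := ⟨M - 1, by omega⟩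
    exact (hav M' (Nat.lt_succ_self _)).2.2
  rw [← hlow]
  refine hmk.trans (add_le_add le_rfl (Real.sqrt_le_sqrt hemax))

end

end Pool.Agent.MP_4c4330_an.Gen
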