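import Pool.Agent.MP_4c4330_an.Gen.Defs2
import Pool.Agent.MP_4c4330_an.Gen.B2
open MeasureTheory Set Filter Topology
open scoped ENNReal ContDiff
namespace Pool.Agent.MP_4c4330_an.Gen

theorem P3_transpose {ι : Type} [Fintype ι] (M : Matrix ι ι ℝ)
    (h : ∀ y : ι → ℝ, ∑ i, (M.transpose.mulVec y i) ^ 2 ≤ ∑ i, (y i) ^ 2) (y : ι → ℝ) :
    ∑ i, (M.mulVec y i) ^ 2 ≤ ∑ i, (y i) ^ 2 := by
  set w := M.mulVec y with hw
  have h1 : ∑ i, (w i) ^ 2 = ∑ i, M.transpose.mulVec w i * y i := by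
    have e : dotProduct w (M.mulVec y) = dotProduct (M.transpose.mulVec w) y := by
      rw [Matrix.dotProduct_mulVec, Matrix.mulVec_transpose]
    rw [← hw] at e
    simpa [dotProduct, sq] using e
  have h2 : (∑ i, M.transpose.mulVec w i * y i) ^ 2
      ≤ (∑ i, (M.transpose.mulVec w i) ^ 2) * ∑ i, (y i) ^ 2 :=
    Finset.sum_mul_sq_le_sq_mul_sq _ _ _
  have h3 := h w
  rw [← h1] at h2
  have h4 : 0 ≤ ∑ i, (w i) ^ 2 := Finset.sum_nonneg fun i _ => sq_nonneg _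
  have h5 : 0 ≤ ∑ i, (y i) ^ 2 := Finset.sum_nonneg fun i _ => sq_nonneg _
  rcases h4.eq_or_lt with h6 | h6
  · rw [← h6]; exact h5
  · have h7 : (∑ i, (w i) ^ 2) ^ 2 ≤ (∑ i, (w i) ^ 2) * ∑ i, (y i) ^ 2 :=
      h2.trans (mul_le_mul_of_nonneg_right h3 h5)
    rw [sq] at h7
    exact le_of_mul_le_mul_left h7 h6

/-- [P3] products of steps. -/
theorem win_det {n : ℕ} (hn : 0 < n) {h : ℝ} (hh : 0 < h) (lam : Fin n → ℝ)
    (hlam : ∀ i, 0 ≤ lam i) (G : ℕ → Matrix (Fin n) (Fin n) ℝ)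
    (hG : ∀ j, ∀ β : Fin n → ℝ, 0 ≤ ∑ i, ∑ l, G j i l * β i * β l) {k₁ k₂ : ℕ} (hk : k₁ ≤ k₂) :
    ∃ L : Matrix (Fin n ⊕ Fin n) (Fin n ⊕ Fin n) ℝ, lmat h lam G k₂ = L * lmat h lam G k₁ ∧
      (∀ y : Fin n ⊕ Fin n → ℝ, ∑ i, (L.mulVec y i) ^ 2 ≤ ∑ i, (y i) ^ 2) ∧
      (∀ y : Fin n ⊕ Fin n → ℝ, ∑ i, (L.transpose.mulVec y i) ^ 2 ≤ ∑ i, (y i) ^ 2) ∧
      L.det ≠ 0 ∧
      Real.exp (-(∑ j ∈ Finset.Ico k₁ k₂, (h * (∑ i, G (j + 1) i i) +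
        h ^ 2 / 2 * (2 * ∑ i, lam i + ∑ i, ∑ l, (G (j + 1) i l) ^ 2)))) ≤ |L.det| := by
  suffices H : ∃ L : Matrix (Fin n ⊕ Fin n) (Fin n ⊕ Fin n) ℝ,
      lmat h lam G k₂ = L * lmat h lam G k₁ ∧
      (∀ y : Fin n ⊕ Fin n → ℝ, ∑ i, (L.transpose.mulVec y i) ^ 2 ≤ ∑ i, (y i) ^ 2) ∧
      L.det ≠ 0 ∧
      Real.exp (-(∑ j ∈ Finset.Ico k₁ k₂, (h * (∑ i, G (j + 1) i i) +
        h ^ 2 / 2 * (2 * ∑ i, lam i + ∑ i, ∑ l, (G (j + 1) i l) ^ 2)))) ≤ |L.det| by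
    obtain ⟨L, h1, h2, h3, h4⟩ := H
    exact ⟨L, h1, P3_transpose L h2, h2, h3, h4⟩
  induction k₂, hk using Nat.le_induction with
  | base =>
    refine ⟨1, by rw [one_mul], fun y => by simp, by simp, by simp⟩
  | succ k hk ih =>
    obtain ⟨L, h1, h2, h3, h4⟩ := ih
    obtain ⟨b1, b2, b3⟩ := bmat_step hn hh lam hlam (G (k + 1)) (hG (k + 1))
    refine ⟨(bmat h lam (G (k + 1)))⁻¹ * L, ?_, ?_, ?_, ?_⟩
    · show (bmat h lam (G (k + 1)))⁻¹ * lmat h lam G k = _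
      rw [h1, Matrix.mul_assoc]
    · intro y
      rw [Matrix.transpose_mul, ← Matrix.mulVec_mulVec]
      exact (h2 _).trans (b2 y)
    · rw [Matrix.det_mul]
      refine mul_ne_zero ?_ h3
      rw [Matrix.det_nonsing_inv]
      simpa using b1
    · rw [Matrix.det_mul, abs_mul, Matrix.det_nonsing_inv, Finset.sum_Ico_succ_top hk,
        neg_add, Real.exp_add, mul_comm]
      refine mul_le_mul ?_ h4 (Real.exp_pos _).le (abs_nonneg _)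
      rw [Ring.inverse_eq_inv', abs_inv, Real.exp_neg]
      exact inv_anti₀ (abs_pos.2 b1) b3

end Pool.Agent.MP_4c4330_an.Gen
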