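import Pool.Agent.MP_4c4330_an.Gen.Defs2
import Pool.Agent.MP_4c4330_an.Gen.C2
import Pool.Agent.MP_4c4330_an.Gen.E1
import Pool.Agent.MP_4c4330_an.Gen.E4
import Pool.Agent.MP_4c4330_an.Gen.P3
open MeasureTheory Set Filter Topology
open scoped ENNReal ContDiff
namespace Pool.Agent.MP_4c4330_an.Gen

set_option linter.unusedSectionVars false

lemma E5_window {κ : ℕ → ℕ} (hκ0 : κ 0 = 0) :
    ∀ (j i : ℕ), i < κ j → ∃ w < j, κ w ≤ i ∧ i < κ (w + 1) := by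
  intro j
  induction j with
  | zero =>
    intro i hi
    rw [hκ0] at hi
    omega
  | succ j ih =>
    intro i hi
    by_cases h : i < κ j
    · obtain ⟨w, hw, h1⟩ := ih i h
      exact ⟨w, by omega, h1⟩
    · exact ⟨j, by omega, by omega, hi⟩

lemma E5_W {κ : ℕ → ℕ} (hκ : Monotone κ) {j w i : ℕ} (hw : w < j) (h1 : κ w < i)
    (h2 : i ≤ κ (w + 1)) : ((Finset.range j).filter fun w' => κ (w' + 1) < i).card = w := by
  have h3 : ((Finset.range j).filter fun w' => κ (w' + 1) < i) = Finset.range w := by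
    ext w'
    simp only [Finset.mem_filter, Finset.mem_range]
    constructor
    · rintro ⟨_, h⟩
      by_contra hc
      have h4 := hκ (show w + 1 ≤ w' + 1 by omega)
      omega
    · intro h
      refine ⟨by omega, ?_⟩
      have h4 := hκ (show w' + 1 ≤ w by omega)
      omega
  rw [h3, Finset.card_range]

lemma E5_regroup {κ : ℕ → ℕ} (hκ : Monotone κ) (hκ0 : κ 0 = 0) (g : ℕ → ℝ) (j : ℕ) :
    ∑ i ∈ Finset.range (κ j), g i
      = ∑ w ∈ Finset.range j, ∑ i ∈ Finset.Ico (κ w) (κ (w + 1)), g i := by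
  induction j with
  | zero => simp [hκ0]
  | succ j ih =>
    rw [Finset.sum_range_succ, ← ih, Finset.range_eq_Ico, Finset.range_eq_Ico,
      Finset.sum_Ico_consecutive _ (Nat.zero_le _) (hκ (Nat.le_succ j))]

section
variable {E : Type*} [NormedAddCommGroup E] [InnerProductSpace ℝ E] [FiniteDimensional ℝ E]
  [MeasurableSpace E] [BorelSpace E] {Ω : Set E} {a α : ℝ} {n : ℕ}

/-- [E5] the same, constants that depend on the window only. -/
theorem win_est (ha : 0 < a) (hα : 0 < α) (hfin : volume Ω < ⊤) (hn : 0 < n) (F : Fam Ω n)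
    {C : ℝ} (hC : 0 < C) (hP : PB F C) {J : ℝ → EnergySpace Ω → EnergySpace Ω}
    (hJ : IsJ Ω a α J) (x : EnergySpace Ω) {h : ℝ} (hh : 0 < h) {κ : ℕ → ℕ} (hκ : Monotone κ)
    (hκ0 : κ 0 = 0) {j : ℕ} (hj : 0 < κ j)
    {CY K₁ K₂ η k δ : ℝ} (hCY : 0 ≤ CY) (hK₁0 : 0 ≤ K₁) (hK₂0 : 0 ≤ K₂) (hδ0 : 0 ≤ δ)
    (hY : ∀ x y : ℝ, |x| * |y| ≤ a * (2 : ℝ) ^ (-α) * |y| ^ (α + 2) + CY * |x| ^ qe α)
    (hK₁ : ∀ (c : Fin n ⊕ Fin n → ℝ) (σ : ℝ), 0 ≤ σ → ∑ i, (c i) ^ 2 ≤ σ ^ 2 →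
      avg (fun ξ => |∑ i, c i * sg (ξ i)| ^ (α + 2)) ≤ K₁ * σ ^ (α + 2))
    (hK₂ : ∀ (c : Fin n ⊕ Fin n → ℝ) (σ : ℝ), 0 ≤ σ → ∑ i, (c i) ^ 2 ≤ σ ^ 2 →
      avg (fun ξ => |∑ i, c i * sg (ξ i)| ^ qe α) ≤ K₂ * σ ^ qe α)
    (hη : 0 ≤ η) (hk : 0 < k) {ε μ c₁ : ℕ → ℝ} (hε : ∀ w, 0 < ε w) (hε0 : ∀ w, ε w ≤ ε 0)
    (hμ : ∀ w, 0 ≤ μ w) (hc₁ : ∀ w, 0 ≤ c₁ w)
    (hr : ∀ w, ∀ v z : ℝ, |g a α (v + z) - g a α v - gk a α k v * z| ^ qe α
      ≤ μ w * (|v| ^ α * z ^ 2) + c₁ w * |z| ^ (α + 2) + η * (|v| ^ (α + 2) * |z| ^ qe α))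
    (hδ : ∀ i ≤ κ j, leak F (fun y => gk a α k (((J h)^[i] x).snd y)) ≤ δ * n)
    {S : Matrix (Fin n ⊕ Fin n) (Fin n ⊕ Fin n) ℝ}
    (hS : ∀ w < j, ∀ y : Fin n ⊕ Fin n → ℝ,
      ∑ i, ((lx F a α k J h x (κ w) * S).transpose.mulVec y i) ^ 2
        ≤ (ε w) ^ 2 / (2 * n) * ∑ i, (y i) ^ 2) :
    √(∑ i, ∑ m, ((lx F a α k J h x (κ j) * S) i m) ^ 2)
      ≤ √(avg (fun ξ => ‖(J h)^[κ j] (x + Zst F (S.mulVec fun i => sg (ξ i)))
          - (J h)^[κ j] x‖ ^ 2))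
        + √(4 * CY * (∑ w ∈ Finset.range j,
            (μ w * (C * ε w ^ 2 * Dw α J h x (κ w) (κ (w + 1)))
            + c₁ w * (K₁ * (√C * ε w) ^ (α + 2) * (volume Ω).toReal
              * (h * ((κ (w + 1) : ℝ) - κ w)))))
          + 4 * CY * (η * (K₂ * (√C * ε 0) ^ qe α * (‖x‖ ^ 2 / (2 * a))))
          + 4 * (κ j * h) ^ 2 * (ε 0 ^ 2 * δ)) := by
  have hn0 : (0 : ℝ) < n := by exact_mod_cast hn
  have hqe := qe_pos hα
  -- the window of a step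
  let W : ℕ → ℕ := fun i => ((Finset.range j).filter fun w' => κ (w' + 1) < i).card
  have hW : ∀ w < j, ∀ i ∈ Finset.Ico (κ w) (κ (w + 1)), W (i + 1) = w := by
    intro w hw i hi
    rw [Finset.mem_Ico] at hi
    exact E5_W hκ hw (by omega) (by omega)
  -- the linear scheme
  have hlam : ∀ i, 0 ≤ F.lam i := fun i => (F.pos i).le
  have hmm : ∀ j : ℕ, Measurable (fun y => gk a α k (((J h)^[j] x).snd y)) := fun j =>
    (continuous_gk hα k).measurable.comp (Lp.stronglyMeasurable ((J h)^[j] x).snd).measurable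
  have hG0 : ∀ j : ℕ, ∀ β : Fin n → ℝ,
      0 ≤ ∑ i, ∑ l, gram F (fun y => gk a α k (((J h)^[j] x).snd y)) i l * β i * β l := fun j =>
    (gram_facts hfin F hC.le hP (hmm j)
      (fun y => gk_nonneg ha hα hk.le _) (fun y => gk_le k _)).1
  have hS' : ∀ i < κ j, ∀ y : Fin n ⊕ Fin n → ℝ,
      ∑ i', ((lx F a α k J h x (i + 1) * S).transpose.mulVec y i') ^ 2
        ≤ (ε (W (i + 1))) ^ 2 / (2 * n) * ∑ i', (y i') ^ 2 := by
    intro i hi y
    obtain ⟨w, hw, h1, h2⟩ := E5_window hκ0 j i hi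
    rw [hW w hw i (Finset.mem_Ico.2 ⟨h1, h2⟩)]
    obtain ⟨L, hL, -, hL2, -, -⟩ := win_det hn hh F.lam hlam
      (fun j => gram F (fun y => gk a α k (((J h)^[j] x).snd y))) hG0 (k₁ := κ w) (k₂ := i + 1)
      (by omega)
    have hL' : lx F a α k J h x (i + 1) = L * lx F a α k J h x (κ w) := hL
    rw [hL', Matrix.mul_assoc, Matrix.transpose_mul, ← Matrix.mulVec_mulVec]
    refine (hS w hw _).trans ?_
    exact mul_le_mul_of_nonneg_left (hL2 y) (by positivity)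
  have hmain := disc2 ha hα hfin hn F hC hP hJ x hh hj hCY hY hK₁ hK₂ hη hk
    (ε := fun i => ε (W i)) (μ := fun i => μ (W i)) (c₁ := fun i => c₁ (W i))
    (fun i => hε _) (fun i => hμ _) (fun i => hc₁ _) (fun i => hr _) hδ hS'
  refine hmain.trans (add_le_add le_rfl (Real.sqrt_le_sqrt ?_))
  -- abbreviations
  set A : ℕ → ℝ := fun i => ∫ y in Ω, |((J h)^[i + 1] x).snd y| ^ α with hA
  set B : ℕ → ℝ := fun i => ∫ y in Ω, |((J h)^[i + 1] x).snd y| ^ (α + 2) with hB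
  have hB0 : ∀ i, 0 ≤ B i := fun i => integral_nonneg fun y => by positivity
  have hsum : ∑ i ∈ Finset.range (κ j), h * (μ (W (i + 1)) * (C * ε (W (i + 1)) ^ 2 * A i)
      + c₁ (W (i + 1)) * (K₁ * (√C * ε (W (i + 1))) ^ (α + 2) * (volume Ω).toReal)
      + η * (K₂ * (√C * ε (W (i + 1))) ^ qe α * B i))
      ≤ (∑ w ∈ Finset.range j, (μ w * (C * ε w ^ 2 * Dw α J h x (κ w) (κ (w + 1)))
            + c₁ w * (K₁ * (√C * ε w) ^ (α + 2) * (volume Ω).toReal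
              * (h * ((κ (w + 1) : ℝ) - κ w)))))
        + η * (K₂ * (√C * ε 0) ^ qe α * (‖x‖ ^ 2 / (2 * a))) := by
    have h1 : ∀ i ∈ Finset.range (κ j), h * (μ (W (i + 1)) * (C * ε (W (i + 1)) ^ 2 * A i)
      + c₁ (W (i + 1)) * (K₁ * (√C * ε (W (i + 1))) ^ (α + 2) * (volume Ω).toReal)
      + η * (K₂ * (√C * ε (W (i + 1))) ^ qe α * B i))
      ≤ (h * (μ (W (i + 1)) * (C * ε (W (i + 1)) ^ 2 * A i)
      + c₁ (W (i + 1)) * (K₁ * (√C * ε (W (i + 1))) ^ (α + 2) * (volume Ω).toReal)))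
      + η * (K₂ * (√C * ε 0) ^ qe α) * (h * B i) := by
      intro i _
      have h2 : (√C * ε (W (i + 1))) ^ qe α ≤ (√C * ε 0) ^ qe α :=
        Real.rpow_le_rpow (mul_nonneg (Real.sqrt_nonneg _) (hε _).le)
          (mul_le_mul_of_nonneg_left (hε0 _) (Real.sqrt_nonneg _)) hqe.le
      have h3 : η * (K₂ * (√C * ε (W (i + 1))) ^ qe α * B i)
          ≤ η * (K₂ * (√C * ε 0) ^ qe α * B i) :=
        mul_le_mul_of_nonneg_left (mul_le_mul_of_nonneg_right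
          (mul_le_mul_of_nonneg_left h2 hK₂0) (hB0 i)) hη
      have h4 := mul_le_mul_of_nonneg_left h3 hh.le
      rw [mul_add]
      refine add_le_add le_rfl (h4.trans (le_of_eq ?_))
      ring
    refine (Finset.sum_le_sum h1).trans ?_
    rw [Finset.sum_add_distrib]
    refine add_le_add (le_of_eq ?_) ?_
    · rw [E5_regroup hκ hκ0]
      refine Finset.sum_congr rfl fun w hw => ?_
      rw [Finset.mem_range] at hw
      have h5 : ∀ i ∈ Finset.Ico (κ w) (κ (w + 1)),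
          h * (μ (W (i + 1)) * (C * ε (W (i + 1)) ^ 2 * A i)
          + c₁ (W (i + 1)) * (K₁ * (√C * ε (W (i + 1))) ^ (α + 2) * (volume Ω).toReal))
          = μ w * (C * ε w ^ 2) * (h * A i)
            + h * (c₁ w * (K₁ * (√C * ε w) ^ (α + 2) * (volume Ω).toReal)) := by
        intro i hi
        rw [hW w hw i hi]
        ring
      rw [Finset.sum_congr rfl h5, Finset.sum_add_distrib, ← Finset.mul_sum, Finset.sum_const,
        Nat.card_Ico, nsmul_eq_mul, Nat.cast_sub (hκ (Nat.le_succ w))]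
      have h6 : Dw α J h x (κ w) (κ (w + 1)) = ∑ i ∈ Finset.Ico (κ w) (κ (w + 1)), h * A i := rfl
      rw [h6]
      ring
    · have h7 := (diss ha hα hJ x hh (κ j)).2
      have h8 : 0 ≤ ‖(J h)^[κ j] x‖ ^ 2 := sq_nonneg _
      have h9 : ∑ i ∈ Finset.range (κ j), h * B i ≤ ‖x‖ ^ 2 / (2 * a) := by
        rw [le_div_iff₀ (by positivity)]
        have h10 : ∑ i ∈ Finset.range (κ j), h * ∫ y in Ω, |((J h)^[i + 1] x).snd y| ^ (α + 2)
            = ∑ i ∈ Finset.range (κ j), h * B i := rfl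
        rw [h10] at h7
        linarith
      have hsq : 0 ≤ (√C * ε 0) ^ qe α :=
        Real.rpow_nonneg (mul_nonneg (Real.sqrt_nonneg _) (hε _).le) _
      rw [← Finset.mul_sum]
      calc η * (K₂ * (√C * ε 0) ^ qe α) * ∑ i ∈ Finset.range (κ j), h * B i
          ≤ η * (K₂ * (√C * ε 0) ^ qe α) * (‖x‖ ^ 2 / (2 * a)) :=
            mul_le_mul_of_nonneg_left h9 (mul_nonneg hη (mul_nonneg hK₂0 hsq))
        _ = _ := by ring
  have hleak : ∑ i ∈ Finset.range (κ j), ε (W (i + 1)) ^ 2 * δ ≤ κ j * (ε 0 ^ 2 * δ) := by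
    have h1 : ∀ i ∈ Finset.range (κ j), ε (W (i + 1)) ^ 2 * δ ≤ ε 0 ^ 2 * δ := by
      intro i _
      exact mul_le_mul_of_nonneg_right (pow_le_pow_left₀ (hε _).le (hε0 _) 2) hδ0
    refine (Finset.sum_le_sum h1).trans (le_of_eq ?_)
    rw [Finset.sum_const, Finset.card_range, nsmul_eq_mul]
  have h11 := mul_le_mul_of_nonneg_left hsum (show 0 ≤ 4 * CY by positivity)
  have h12 := mul_le_mul_of_nonneg_left (mul_le_mul_of_nonneg_left hleak hh.le)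
    (show 0 ≤ 4 * ((κ j : ℝ) * h) by positivity)
  refine (add_le_add h11 h12).trans (le_of_eq ?_)
  ring

end

end Pool.Agent.MP_4c4330_an.Gen
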