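import Pool.Agent.MP_4c4330_an.Gen.Defs2
import Pool.Agent.MP_4c4330_an.Gen.B1

set_option linter.unusedSectionVars false

open MeasureTheory Set Filter Topology
open scoped ENNReal ContDiff

namespace Pool.Agent.MP_4c4330_an.Gen

section
variable {ι : Type} [Fintype ι] [DecidableEq ι]

open Matrix in
lemma P2_form (P : Matrix ι ι ℝ) (x : ι → ℝ) :
    ∑ i, (P.mulVec x i) ^ 2 = x ⬝ᵥ (Pᵀ * P).mulVec x := by
  rw [← Matrix.mulVec_mulVec, Matrix.dotProduct_mulVec, Matrix.vecMul_transpose]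
  simp only [dotProduct, sq]

open Matrix in
lemma P2_conj (S G : Matrix ι ι ℝ) (x : ι → ℝ) :
    (S.mulVec x) ⬝ᵥ G.mulVec (S.mulVec x) = x ⬝ᵥ (Sᵀ * G * S).mulVec x := by
  rw [Matrix.mulVec_mulVec, Matrix.mul_assoc, ← Matrix.mulVec_mulVec x Sᵀ, Matrix.dotProduct_mulVec x,
    Matrix.vecMul_transpose]

/-- The norm of the transpose. -/
lemma P2_transpose {K : Matrix ι ι ℝ} {c : ℝ}
    (hK : ∀ u : ι → ℝ, ∑ i, (K.mulVec u i) ^ 2 ≤ c * ∑ i, (u i) ^ 2) (y : ι → ℝ) :
    ∑ i, (K.transpose.mulVec y i) ^ 2 ≤ c * ∑ i, (y i) ^ 2 := by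
  set u := K.transpose.mulVec y with hu
  have h1 : ∑ i, (u i) ^ 2 = ∑ i, y i * K.mulVec u i := by
    have h2 : dotProduct u u = dotProduct y (K.mulVec u) := by
      rw [Matrix.dotProduct_mulVec y K u, ← Matrix.mulVec_transpose]
    simp only [dotProduct] at h2
    rw [← h2]
    exact Finset.sum_congr rfl fun i _ => sq _
  have h3 := Finset.sum_mul_sq_le_sq_mul_sq Finset.univ y (K.mulVec u)
  rw [← h1] at h3
  have h4 : 0 ≤ ∑ i, (y i) ^ 2 := Finset.sum_nonneg fun i _ => sq_nonneg _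
  have h5 : 0 ≤ ∑ i, (u i) ^ 2 := Finset.sum_nonneg fun i _ => sq_nonneg _
  have h6 := mul_le_mul_of_nonneg_left (hK u) h4
  rcases h5.eq_or_lt with h | h
  · rw [← h]
    have h7 : 0 ≤ c * ∑ i, (y i) ^ 2 := by
      by_contra hcon
      push Not at hcon
      have h8 := hK y
      have h9 : 0 ≤ ∑ i, (K.mulVec y i) ^ 2 := Finset.sum_nonneg fun i _ => sq_nonneg _
      linarith
    exact h7
  · have h7 : (∑ i, (u i) ^ 2) * (∑ i, (u i) ^ 2) ≤ (c * ∑ i, (y i) ^ 2) * ∑ i, (u i) ^ 2 := by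
      nlinarith
    exact le_of_mul_le_mul_right h7 h

lemma P2_cols (P S : Matrix ι ι ℝ) :
    ∑ i, ∑ m, ((P * S) i m) ^ 2 = ∑ m, ∑ i, (P.mulVec (fun j => S j m) i) ^ 2 := by
  rw [Finset.sum_comm]
  rfl

/-- The Gram matrices. -/
noncomputable def P2_G (L : ℕ → Matrix ι ι ℝ) (l : ℝ) : ℕ → Matrix ι ι ℝ
  | 0 => 1
  | j + 1 => (l ^ 2)⁻¹ • P2_G L l j + (pm L (j + 1)).transpose * pm L (j + 1)

lemma P2_pos (L : ℕ → Matrix ι ι ℝ) {l : ℝ} (hl : 1 < l) (j : ℕ) : (P2_G L l j).PosDef := by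
  induction j with
  | zero => exact Matrix.PosDef.one
  | succ j ih =>
    have h1 : ((l ^ 2)⁻¹ • P2_G L l j).PosDef := ih.smul (by positivity)
    have h2 : ((pm L (j + 1)).transpose * pm L (j + 1)).PosSemidef := by
      have := Matrix.posSemidef_conjTranspose_mul_self (pm L (j + 1))
      rwa [Matrix.conjTranspose_eq_transpose_of_trivial] at this
    exact h1.add_posSemidef h2

open scoped MatrixOrder in
lemma P2_root {A : Matrix ι ι ℝ} (hA : A.PosSemidef) : ∃ B : Matrix ι ι ℝ, A = B.transpose * B := by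
  obtain ⟨B, hB⟩ := CStarAlgebra.nonneg_iff_eq_star_mul_self.mp hA.nonneg
  refine ⟨B, ?_⟩
  rw [hB, Matrix.star_eq_conjTranspose, Matrix.conjTranspose_eq_transpose_of_trivial]

lemma P2_S (L : ℕ → Matrix ι ι ℝ) {l : ℝ} (hl : 1 < l) (j : ℕ) :
    ∃ S : Matrix ι ι ℝ, S.transpose * P2_G L l j * S = 1 := by
  obtain ⟨B, hB⟩ := P2_root (P2_pos L hl j).posSemidef
  have h1 := (P2_pos L hl j).det_pos
  rw [hB, Matrix.det_mul, Matrix.det_transpose] at h1
  have h2 : B.det ≠ 0 := by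
    intro h
    rw [h, mul_zero] at h1
    exact lt_irrefl _ h1
  have h3 : B * B⁻¹ = 1 := Matrix.mul_nonsing_inv B (Ne.isUnit h2)
  refine ⟨B⁻¹, ?_⟩
  rw [hB]
  calc (B⁻¹).transpose * (B.transpose * B) * B⁻¹
      = ((B * B⁻¹).transpose) * (B * B⁻¹) := by
        rw [Matrix.transpose_mul]; simp only [Matrix.mul_assoc]
    _ = 1 := by rw [h3]; simp

/-- The Gram matrices dominate. -/
lemma P2_dom (L : ℕ → Matrix ι ι ℝ) {l : ℝ} (hl : 1 < l) (j : ℕ) : ∀ i ≤ j, ∀ x : ι → ℝ,
    ∑ m, ((pm L i).mulVec x m) ^ 2 ≤ l ^ (2 * (j - i)) * dotProduct x ((P2_G L l j).mulVec x) := by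
  have hl2 : 0 < l ^ 2 := by positivity
  induction j with
  | zero =>
    intro i hi x
    obtain rfl : i = 0 := by omega
    simp only [pm, P2_G, Matrix.one_mulVec, Nat.sub_self, mul_zero, pow_zero, one_mul, dotProduct]
    exact le_of_eq (Finset.sum_congr rfl fun i _ => sq _)
  | succ j ih =>
    intro i hi x
    have e1 : dotProduct x ((P2_G L l (j + 1)).mulVec x)
        = (l ^ 2)⁻¹ * dotProduct x ((P2_G L l j).mulVec x)
          + ∑ m, ((pm L (j + 1)).mulVec x m) ^ 2 := by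
      rw [P2_form, P2_G, Matrix.add_mulVec, dotProduct_add, Matrix.smul_mulVec, dotProduct_smul,
        smul_eq_mul]
    have h0 : 0 ≤ dotProduct x ((P2_G L l j).mulVec x) := by
      have h1 := ih j le_rfl x
      rw [Nat.sub_self, mul_zero, pow_zero, one_mul] at h1
      exact le_trans (Finset.sum_nonneg fun i _ => sq_nonneg _) h1
    have h1 : 0 ≤ ∑ m, ((pm L (j + 1)).mulVec x m) ^ 2 := Finset.sum_nonneg fun i _ => sq_nonneg _
    rw [e1]
    rcases Nat.lt_or_ge j i with h | h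
    · obtain rfl : i = j + 1 := by omega
      rw [Nat.sub_self, mul_zero, pow_zero, one_mul]
      have : 0 ≤ (l ^ 2)⁻¹ * dotProduct x ((P2_G L l j).mulVec x) := by positivity
      linarith
    · have h2 := ih i h x
      have e2 : 2 * (j + 1 - i) = 2 * (j - i) + 2 := by omega
      rw [e2, pow_add]
      have h3 : l ^ (2 * (j - i)) * l ^ 2 * ((l ^ 2)⁻¹ * dotProduct x ((P2_G L l j).mulVec x)
          + ∑ m, ((pm L (j + 1)).mulVec x m) ^ 2)
          = l ^ (2 * (j - i)) * dotProduct x ((P2_G L l j).mulVec x)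
            + l ^ (2 * (j - i)) * l ^ 2 * ∑ m, ((pm L (j + 1)).mulVec x m) ^ 2 := by
        field_simp
      rw [h3]
      have h4 : 0 ≤ l ^ (2 * (j - i)) * l ^ 2 * ∑ m, ((pm L (j + 1)).mulVec x m) ^ 2 := by
        positivity
      linarith

/-- AM-GM for positive semidefinite matrices. -/
lemma P2_amgm [Nonempty ι] {N : Matrix ι ι ℝ} (hN : N.PosSemidef) :
    N.det ≤ (N.trace / Fintype.card ι) ^ Fintype.card ι := by
  obtain ⟨B, hB⟩ := P2_root hN
  have h1 := det_amgm B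
  have h2 : N.trace = ∑ i, ∑ j, (B i j) ^ 2 := by
    rw [hB, Matrix.trace, Finset.sum_comm]
    refine Finset.sum_congr rfl fun i _ => ?_
    rw [Matrix.diag_apply, Matrix.mul_apply]
    exact Finset.sum_congr rfl fun j _ => by rw [Matrix.transpose_apply, sq]
  rw [h2, hB, Matrix.det_mul, Matrix.det_transpose, ← sq]
  exact h1

/-- The determinant step. -/
lemma P2_det [Nonempty ι] {l : ℝ} (hl : 1 < l) (K : Matrix ι ι ℝ) :
    ((l ^ 2)⁻¹ • (1 : Matrix ι ι ℝ) + K.transpose * K).det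
      ≤ (l ^ 2)⁻¹ ^ Fintype.card ι * Real.exp (l ^ 2 * ∑ i, ∑ m, (K i m) ^ 2) := by
  have hl2 : 0 < l ^ 2 := by positivity
  have hd : 0 < (Fintype.card ι : ℝ) := by exact_mod_cast Fintype.card_pos
  set d := Fintype.card ι with hdd
  set τ := ∑ i, ∑ m, (K i m) ^ 2 with hτ
  have hτ0 : 0 ≤ τ := Finset.sum_nonneg fun i _ => Finset.sum_nonneg fun m _ => sq_nonneg _
  have h1 : ((l ^ 2)⁻¹ • (1 : Matrix ι ι ℝ) + K.transpose * K).PosSemidef := by
    have h2 : ((l ^ 2)⁻¹ • (1 : Matrix ι ι ℝ)).PosDef := Matrix.PosDef.one.smul (by positivity)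
    have h3 : (K.transpose * K).PosSemidef := by
      have := Matrix.posSemidef_conjTranspose_mul_self K
      rwa [Matrix.conjTranspose_eq_transpose_of_trivial] at this
    exact (h2.add_posSemidef h3).posSemidef
  refine (P2_amgm h1).trans ?_
  have h2 : ((l ^ 2)⁻¹ • (1 : Matrix ι ι ℝ) + K.transpose * K).trace = (l ^ 2)⁻¹ * d + τ := by
    rw [Matrix.trace_add, Matrix.trace_smul, Matrix.trace_one, smul_eq_mul]
    congr 1
    rw [hτ, Matrix.trace, Finset.sum_comm]
    refine Finset.sum_congr rfl fun i _ => ?_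
    rw [Matrix.diag_apply, Matrix.mul_apply]
    exact Finset.sum_congr rfl fun j _ => by rw [Matrix.transpose_apply, sq]
  rw [h2]
  have h3 : ((l ^ 2)⁻¹ * d + τ) / d = (l ^ 2)⁻¹ * (l ^ 2 * τ / d + 1) := by
    field_simp
    ring
  rw [h3, mul_pow]
  refine mul_le_mul_of_nonneg_left ?_ (by positivity)
  have h4 := Real.add_one_le_exp (l ^ 2 * τ / d)
  have h5 : 0 ≤ l ^ 2 * τ / d + 1 := by positivity
  have h6 := pow_le_pow_left₀ h5 h4 d
  refine h6.trans (le_of_eq ?_)
  rw [← Real.exp_nat_mul]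
  congr 1
  field_simp

/-- Pliss lemma for products of contractions. -/
theorem pliss [Nonempty ι] {l : ℝ} (hl : 1 < l)
    {L : ℕ → Matrix ι ι ℝ} {J₁ J₂ : ℕ} {c : ℕ → ℝ} {θ : ℝ} (hθ : 0 < θ)
    (hL : ∀ j < J₂, ∀ y : ι → ℝ, ∑ i, ((L j).mulVec y i) ^ 2 ≤ ∑ i, (y i) ^ 2)
    (hdet : ∀ j < J₂, (L j).det ≠ 0 ∧ Real.exp (-(Fintype.card ι * c j)) ≤ |(L j).det|)
    (hsum : (J₁ : ℝ) + J₂ * θ < (l ^ 2)⁻¹ * (2 * J₂ * Real.log l
      - 2 * ∑ j ∈ Finset.range J₂, c j)) :
    ∃ j, J₁ ≤ j ∧ j < J₂ ∧ ∃ S : Matrix ι ι ℝ,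
      θ * Fintype.card ι ≤ ∑ i, ∑ m, ((pm L j * S) i m) ^ 2 ∧
      ∀ i ≤ j, ∀ y : ι → ℝ, ∑ m, ((pm L i * S).transpose.mulVec y m) ^ 2
        ≤ l ^ (2 * (j - i)) * ∑ m, (y m) ^ 2 := by
  choose S hS using fun j => P2_S L hl j
  have hl2 : 0 < l ^ 2 := by positivity
  have hd : 0 < (Fintype.card ι : ℝ) := by exact_mod_cast Fintype.card_pos
  set d := Fintype.card ι with hdd
  set τ : ℕ → ℝ := fun j => ∑ i, ∑ m, ((pm L j * S j) i m) ^ 2 with hτ
  have hform : ∀ j (x : ι → ℝ), dotProduct ((S j).mulVec x) ((P2_G L l j).mulVec ((S j).mulVec x))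
      = ∑ i, (x i) ^ 2 := by
    intro j x
    rw [P2_conj, hS j, Matrix.one_mulVec, dotProduct]
    exact Finset.sum_congr rfl fun i _ => (sq _).symm
  -- the final bound
  have hfin : ∀ j, ∀ i ≤ j, ∀ y : ι → ℝ, ∑ m, ((pm L i * S j).transpose.mulVec y m) ^ 2
        ≤ l ^ (2 * (j - i)) * ∑ m, (y m) ^ 2 := by
    intro j i hij y
    refine P2_transpose (fun u => ?_) y
    rw [← Matrix.mulVec_mulVec]
    have h1 := P2_dom L hl j i hij ((S j).mulVec u)
    rwa [hform] at h1
  -- the traces are at most d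
  have hτ1 : ∀ j, τ j ≤ d := by
    intro j
    have h1 : τ j = ∑ m, ∑ i, ((pm L j).mulVec (fun k => S j k m) i) ^ 2 := P2_cols _ _
    rw [h1]
    have h2 : ∀ m : ι, ∑ i, ((pm L j).mulVec (fun k => S j k m) i) ^ 2 ≤ 1 := by
      intro m
      have e : (fun k => S j k m) = (S j).mulVec (Pi.single m 1) := by
        rw [Matrix.mulVec_single_one]
        rfl
      have h3 := P2_dom L hl j j le_rfl (fun k => S j k m)
      rw [Nat.sub_self, mul_zero, pow_zero, one_mul] at h3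
      refine h3.trans ?_
      rw [e, hform]
      simp [Pi.single_apply]
    calc ∑ m, ∑ i, ((pm L j).mulVec (fun k => S j k m) i) ^ 2 ≤ ∑ m : ι, (1:ℝ) :=
          Finset.sum_le_sum fun m _ => h2 m
      _ = d := by simp [hdd]
  have hτ0 : ∀ j, 0 ≤ τ j := fun j =>
    Finset.sum_nonneg fun i _ => Finset.sum_nonneg fun m _ => sq_nonneg _
  -- determinants
  have hSd : ∀ j, (S j).det ^ 2 * (P2_G L l j).det = 1 := by
    intro j
    have h1 := congrArg Matrix.det (hS j)
    rw [Matrix.det_mul, Matrix.det_mul, Matrix.det_transpose, Matrix.det_one] at h1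
    rw [← h1]; ring
  have hSne : ∀ j, (S j).det ≠ 0 := by
    intro j h
    have := hSd j
    rw [h] at this
    norm_num at this
  have hSpos : ∀ j, 0 < (S j).det ^ 2 := fun j => by
    have := hSne j
    positivity
  have hstep : ∀ j < J₂, (S j).det ^ 2 / (S (j + 1)).det ^ 2
      ≤ (l ^ 2)⁻¹ ^ d * Real.exp (l ^ 2 * τ j) := by
    intro j hj
    have e1 : (S j).transpose * P2_G L l (j + 1) * S j
        = (l ^ 2)⁻¹ • (1 : Matrix ι ι ℝ)
          + (pm L (j + 1) * S j).transpose * (pm L (j + 1) * S j) := by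
      rw [P2_G, Matrix.mul_add, Matrix.add_mul, Matrix.mul_smul, Matrix.smul_mul, hS j,
        Matrix.transpose_mul]
      simp only [Matrix.mul_assoc]
    have e2 : ((S j).transpose * P2_G L l (j + 1) * S j).det
        = (S j).det ^ 2 / (S (j + 1)).det ^ 2 := by
      have h1 := hSd (j + 1)
      rw [Matrix.det_mul, Matrix.det_mul, Matrix.det_transpose, eq_div_iff (hSpos (j + 1)).ne']
      calc (S j).det * (P2_G L l (j + 1)).det * (S j).det * (S (j + 1)).det ^ 2
          = (S j).det ^ 2 * ((S (j + 1)).det ^ 2 * (P2_G L l (j + 1)).det) := by ring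
        _ = (S j).det ^ 2 := by rw [h1, mul_one]
    rw [← e2, e1]
    refine (P2_det hl _).trans ?_
    refine mul_le_mul_of_nonneg_left (Real.exp_le_exp.2 ?_) (by positivity)
    refine mul_le_mul_of_nonneg_left ?_ hl2.le
    have e3 : pm L (j + 1) * S j = L j * (pm L j * S j) := by
      rw [pm, Matrix.mul_assoc]
    rw [e3, P2_cols]
    show _ ≤ ∑ i, ∑ m, ((pm L j * S j) i m) ^ 2
    rw [Finset.sum_comm (f := fun i m => ((pm L j * S j) i m) ^ 2)]
    exact Finset.sum_le_sum fun m _ => hL j hj _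
  have hPne : ∀ j ≤ J₂, (pm L j).det ≠ 0 := by
    intro j
    induction j with
    | zero => intro _; simp [pm]
    | succ j ih =>
      intro hj
      rw [pm, Matrix.det_mul]
      exact mul_ne_zero (hdet j (by omega)).1 (ih (by omega))
  set b : ℕ → ℝ := fun j => Real.log ((S j).det ^ 2) + Real.log ((pm L j).det ^ 2) with hb
  have hb0 : b 0 = 0 := by
    have h1 := hSd 0
    simp only [P2_G, Matrix.det_one, mul_one] at h1
    show Real.log ((S 0).det ^ 2) + Real.log ((pm L 0).det ^ 2) = 0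
    rw [h1]
    simp [pm]
  have hbstep : ∀ j < J₂, b j - b (j + 1) ≤ -(2 * d * Real.log l) + l ^ 2 * τ j + 2 * d * c j := by
    intro j hj
    have h1 : Real.log ((S j).det ^ 2) - Real.log ((S (j + 1)).det ^ 2)
        ≤ -(2 * d * Real.log l) + l ^ 2 * τ j := by
      rw [← Real.log_div (hSpos j).ne' (hSpos (j + 1)).ne']
      have h2 := Real.log_le_log (by have := hSpos j; have := hSpos (j + 1); positivity)
        (hstep j hj)
      refine h2.trans (le_of_eq ?_)
      rw [Real.log_mul (by positivity) (Real.exp_ne_zero _), Real.log_exp, Real.log_pow,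
        Real.log_inv, Real.log_pow]
      push_cast
      ring
    have h2 : Real.log ((pm L (j + 1)).det ^ 2)
        = Real.log ((L j).det ^ 2) + Real.log ((pm L j).det ^ 2) := by
      rw [pm, Matrix.det_mul, mul_pow, Real.log_mul (pow_ne_zero 2 (hdet j hj).1)
        (pow_ne_zero 2 (hPne j hj.le))]
    have h3 : -(2 * d * c j) ≤ Real.log ((L j).det ^ 2) := by
      have h4 := Real.log_le_log (Real.exp_pos _) (hdet j hj).2
      rw [Real.log_exp, Real.log_abs] at h4
      rw [Real.log_pow]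
      push_cast
      linarith
    simp only [hb]
    rw [h2]
    linarith
  have hind : ∀ j ≤ J₂, -b j ≤ -(2 * d * j * Real.log l) + l ^ 2 * (∑ i ∈ Finset.range j, τ i)
      + 2 * d * ∑ i ∈ Finset.range j, c i := by
    intro j
    induction j with
    | zero => intro _; simp [hb0]
    | succ j ih =>
      intro hj
      have h1 := ih (by omega)
      have h2 := hbstep j (by omega)
      rw [Finset.sum_range_succ, Finset.sum_range_succ]
      push_cast
      linarith
  have hbJ : b J₂ ≤ 0 := by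
    have h1 := det_amgm (pm L J₂ * S J₂)
    have h2 : ((∑ i, ∑ m, ((pm L J₂ * S J₂) i m) ^ 2) / Fintype.card ι) ^ Fintype.card ι
        ≤ (1 : ℝ) := by
      refine pow_le_one₀ (div_nonneg (hτ0 J₂) hd.le) ?_
      rw [div_le_one hd]
      exact hτ1 J₂
    have h3 := h1.trans h2
    have h4 : b J₂ = Real.log ((pm L J₂ * S J₂).det ^ 2) := by
      rw [Matrix.det_mul, mul_pow, Real.log_mul (pow_ne_zero 2 (hPne J₂ le_rfl)) (hSpos J₂).ne']
      simp only [hb]
      ring
    rw [h4]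
    exact Real.log_nonpos (sq_nonneg _) h3
  have hmain := hind J₂ le_rfl
  have hτsum : (d : ℝ) * (J₁ + J₂ * θ) < ∑ i ∈ Finset.range J₂, τ i := by
    have h1 : (d : ℝ) * (2 * J₂ * Real.log l - 2 * ∑ j ∈ Finset.range J₂, c j)
        ≤ l ^ 2 * ∑ i ∈ Finset.range J₂, τ i := by linarith
    have h2 := mul_lt_mul_of_pos_left hsum hl2
    rw [mul_inv_cancel_left₀ hl2.ne'] at h2
    have h3 := mul_lt_mul_of_pos_left h2 hd
    have h4 : l ^ 2 * (d * (J₁ + J₂ * θ)) < l ^ 2 * ∑ i ∈ Finset.range J₂, τ i := by linarith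
    exact lt_of_mul_lt_mul_left h4 hl2.le
  by_contra hcon
  push Not at hcon
  have hsmall : ∀ j ∈ Finset.range J₂, τ j ≤ (if j < J₁ then (d:ℝ) else 0) + θ * d := by
    intro j hj
    rw [Finset.mem_range] at hj
    split_ifs with h
    · have := hτ1 j
      have : 0 ≤ θ * d := by positivity
      linarith
    · by_contra h2
      push Not at h2
      obtain ⟨i, hi, y, hy⟩ := hcon j (by omega) hj (S j) (by
        have : τ j = ∑ i, ∑ m, ((pm L j * S j) i m) ^ 2 := rfl
        linarith)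
      exact absurd (hfin j i hi y) (not_le.2 hy)
  have h5 := Finset.sum_le_sum hsmall
  rw [Finset.sum_add_distrib, Finset.sum_const, Finset.card_range, nsmul_eq_mul,
    ← Finset.sum_filter, Finset.sum_const, nsmul_eq_mul] at h5
  have h6 : (((Finset.range J₂).filter (fun j => j < J₁)).card : ℝ) ≤ J₁ := by
    have : ((Finset.range J₂).filter (fun j => j < J₁)) ⊆ Finset.range J₁ := by
      intro j hj
      rw [Finset.mem_filter] at hj
      exact Finset.mem_range.2 hj.2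
    have := Finset.card_le_card this
    rw [Finset.card_range] at this
    exact_mod_cast this
  have h7 := mul_le_mul_of_nonneg_right h6 hd.le
  linarith

end

end Pool.Agent.MP_4c4330_an.Gen
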