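import Pool.Agent.MP_4c4330_an.Gen.Defs2
import Pool.Agent.MP_4c4330_an.Gen.A1
import Pool.Agent.MP_4c4330_an.Gen.C1
import Pool.Agent.MP_4c4330_an.Gen.C2
import Pool.Agent.MP_4c4330_an.Gen.E1
import Pool.Agent.MP_4c4330_an.Gen.E5
import Pool.Agent.MP_4c4330_an.Gen.P2
import Pool.Agent.MP_4c4330_an.Gen.P3

/-! # GEN2 [E6]: the estimate for one scheme -/

open MeasureTheory Set Filter Topology
open scoped ENNReal ContDiff

namespace Pool.Agent.MP_4c4330_an.Gen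

lemma E6_kap_mono (M : ℕ) : Monotone (kap M) := by
  apply monotone_nat_of_le_succ
  intro w
  cases w with
  | zero => simp [kap]
  | succ w =>
    simp only [kap]
    exact Nat.mul_le_mul_right _ (Nat.pow_le_pow_right (by norm_num) (by omega))

lemma E6_kap_pos {M : ℕ} (hM : 0 < M) {j : ℕ} (hj : 1 ≤ j) : 0 < kap M j := by
  obtain ⟨i, rfl⟩ : ∃ i, j = i + 1 := ⟨j - 1, by omega⟩
  simp only [kap]
  positivity

lemma E6_kap_eq {M : ℕ} {j : ℕ} (hj : 1 ≤ j) : kap M j = 2 ^ (j - 1) * M := by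
  obtain ⟨i, rfl⟩ : ∃ i, j = i + 1 := ⟨j - 1, by omega⟩
  simp [kap]

lemma E6_transp {ι : Type} [Fintype ι] [DecidableEq ι] {S : Matrix ι ι ℝ} {c : ℝ} (hc : 0 ≤ c)
    (h : ∀ y : ι → ℝ, ∑ m, (S.transpose.mulVec y m) ^ 2 ≤ c * ∑ m, (y m) ^ 2) (v : ι → ℝ) :
    ∑ m, (S.mulVec v m) ^ 2 ≤ c * ∑ m, (v m) ^ 2 := by
  have h1 : ∑ m, (S.mulVec v m) ^ 2 = ∑ m, (S.transpose.mulVec (S.mulVec v) m) * v m := by
    have e : dotProduct (S.mulVec v) (S.mulVec v)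
        = dotProduct (S.transpose.mulVec (S.mulVec v)) v := by
      rw [Matrix.dotProduct_mulVec, Matrix.mulVec_transpose]
    simp only [dotProduct] at e
    rw [← e]
    exact Finset.sum_congr rfl fun m _ => by ring
  have h2 := Finset.sum_mul_sq_le_sq_mul_sq Finset.univ
    (fun m => S.transpose.mulVec (S.mulVec v) m) v
  have h3 := h (S.mulVec v)
  rw [← h1] at h2
  set A := ∑ m, (S.mulVec v m) ^ 2 with hA
  have hA0 : 0 ≤ A := Finset.sum_nonneg fun m _ => sq_nonneg _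
  have hV0 : 0 ≤ ∑ m, (v m) ^ 2 := Finset.sum_nonneg fun m _ => sq_nonneg _
  rcases hA0.eq_or_lt with h0 | h0
  · rw [← h0]; positivity
  · have h4 : A ^ 2 ≤ (c * A) * ∑ m, (v m) ^ 2 :=
      h2.trans (mul_le_mul_of_nonneg_right h3 hV0)
    have h5 : A * A ≤ A * (c * ∑ m, (v m) ^ 2) := by
      have : (c * A) * ∑ m, (v m) ^ 2 = A * (c * ∑ m, (v m) ^ 2) := by ring
      rw [← this, ← sq]; exact h4
    exact le_of_mul_le_mul_left h5 h0

lemma E6_geo {r : ℝ} (h0 : 0 ≤ r) (h1 : r < 1) (j : ℕ) :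
    ∑ w ∈ Finset.range j, r ^ (j - w) ≤ r / (1 - r) := by
  have h1' : 0 < 1 - r := by linarith
  induction j with
  | zero => simp; positivity
  | succ j ih =>
    rw [Finset.sum_range_succ]
    have e : ∑ w ∈ Finset.range j, r ^ (j + 1 - w) = r * ∑ w ∈ Finset.range j, r ^ (j - w) := by
      rw [Finset.mul_sum]
      refine Finset.sum_congr rfl fun w hw => ?_
      rw [Finset.mem_range] at hw
      rw [show j + 1 - w = (j - w) + 1 by omega, pow_succ]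
      ring
    rw [e, show j + 1 - j = 1 by omega, pow_one]
    have h2 := mul_le_mul_of_nonneg_left ih h0
    have e2 : r * (r / (1 - r)) + r = r / (1 - r) := by field_simp; ring
    linarith

lemma E6_tj_pos {t₀ : ℝ} (ht₀ : 0 < t₀) (j : ℕ) : 0 < tj t₀ j := by unfold tj; positivity

lemma E6_hj_pos {c₀ α t₀ : ℝ} (hc₀ : 0 < c₀) (ht₀ : 0 < t₀) (j : ℕ) : 0 < hj c₀ α t₀ j := by
  unfold hj
  exact mul_pos hc₀ (Real.rpow_pos_of_pos (E6_tj_pos ht₀ j) _)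

lemma E6_hj_pow {c₀ α t₀ : ℝ} (hα : 0 < α) (hc₀ : 0 < c₀) (ht₀ : 0 < t₀) (j : ℕ) :
    (hj c₀ α t₀ j) ^ (α + 2) * tj t₀ j = c₀ ^ α * (hj c₀ α t₀ j) ^ 2 := by
  have hT := E6_tj_pos ht₀ j
  have hH := E6_hj_pos (α := α) hc₀ ht₀ j
  have e1 : (hj c₀ α t₀ j) ^ (α + 2) = (hj c₀ α t₀ j) ^ α * (hj c₀ α t₀ j) ^ 2 := by
    rw [Real.rpow_add hH]
    norm_num
  have e2 : (hj c₀ α t₀ j) ^ α = c₀ ^ α * (tj t₀ j)⁻¹ := by
    unfold hj
    rw [Real.mul_rpow hc₀.le (Real.rpow_nonneg hT.le _), ← Real.rpow_mul hT.le]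
    have : -(1 / α) * α = -1 := by field_simp
    rw [this, Real.rpow_neg_one]
  rw [e1, e2]
  field_simp

/-- The term of the second sum. -/
lemma E6_termB {α l p H C : ℝ} (hα : 0 < α) (hl : 1 < l) (hp : 0 ≤ p)
    (hlp : l ^ (α + 2 + 3 * p) ≤ 3 / 2) (hH : 0 < H) (hC : 0 < C) (i : ℕ) :
    ((l ^ (3 * i))⁻¹) ^ (-p) * (√C * (H * l ^ i)) ^ (α + 2)
      ≤ √C ^ (α + 2) * H ^ (α + 2) * (3 / 2) ^ i := by
  have hl0 : 0 < l := by linarith
  have e1 : ((l ^ (3 * i))⁻¹) ^ (-p) = l ^ ((i : ℝ) * (3 * p)) := by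
    rw [Real.rpow_neg (by positivity), Real.inv_rpow (by positivity), inv_inv,
      ← Real.rpow_natCast l (3 * i), ← Real.rpow_mul hl0.le]
    congr 1
    push_cast
    ring
  have e2 : (√C * (H * l ^ i)) ^ (α + 2)
      = √C ^ (α + 2) * H ^ (α + 2) * l ^ ((i : ℝ) * (α + 2)) := by
    rw [Real.mul_rpow (by positivity) (by positivity), Real.mul_rpow hH.le (by positivity),
      ← Real.rpow_natCast l i, ← Real.rpow_mul hl0.le]
    ring
  have e3 : l ^ ((i : ℝ) * (3 * p)) * l ^ ((i : ℝ) * (α + 2)) = (l ^ (α + 2 + 3 * p)) ^ i := by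
    rw [← Real.rpow_add hl0, ← Real.rpow_natCast (l ^ (α + 2 + 3 * p)) i, ← Real.rpow_mul hl0.le]
    congr 1
    ring
  rw [e1, e2]
  calc l ^ ((i : ℝ) * (3 * p)) * (√C ^ (α + 2) * H ^ (α + 2) * l ^ ((i : ℝ) * (α + 2)))
      = √C ^ (α + 2) * H ^ (α + 2) * (l ^ ((i : ℝ) * (3 * p)) * l ^ ((i : ℝ) * (α + 2))) := by ring
    _ = √C ^ (α + 2) * H ^ (α + 2) * (l ^ (α + 2 + 3 * p)) ^ i := by rw [e3]
    _ ≤ √C ^ (α + 2) * H ^ (α + 2) * (3 / 2) ^ i := by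
        gcongr

/-- The length of the window. -/
lemma E6_len {t₀ : ℝ} (ht₀ : 0 < t₀) {M : ℕ} (hM : 0 < M) {w j : ℕ} (hw : w < j) :
    t₀ / M * ((kap M (w + 1) : ℝ) - kap M w) ≤ 2 * tj t₀ j * (1 / 2) ^ (j - w) := by
  have hM' : (0 : ℝ) < M := by exact_mod_cast hM
  obtain ⟨i, rfl⟩ : ∃ i, j = w + (i + 1) := ⟨j - w - 1, by omega⟩
  have e0 : 2 * tj t₀ (w + (i + 1)) * (1 / 2 : ℝ) ^ (w + (i + 1) - w) = 2 ^ w * t₀ := by
    unfold tj
    rw [show w + (i + 1) - w = i + 1 by omega, show w + (i + 1) - 1 = w + i by omega, pow_add]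
    have : (2 : ℝ) ^ i * (1 / 2) ^ i = 1 := by rw [← mul_pow]; norm_num
    calc 2 * (2 ^ w * 2 ^ i * t₀) * (1 / 2 : ℝ) ^ (i + 1)
        = 2 ^ w * t₀ * ((2 : ℝ) ^ i * (1 / 2) ^ i) := by rw [pow_succ]; ring
      _ = _ := by rw [this, mul_one]
  rw [e0]
  cases w with
  | zero =>
    simp only [kap]
    push_cast
    have : t₀ / M * (1 * (M : ℝ) - 0) = 2 ^ 0 * t₀ := by field_simp; ring
    exact this.le
  | succ w =>
    simp only [kap]
    push_cast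
    have : t₀ / M * ((2 ^ (w + 1) : ℝ) * M - 2 ^ w * M) = 2 ^ w * t₀ := by
      rw [pow_succ]; field_simp; ring
    rw [this]
    gcongr <;> norm_num

/-- The sum over the windows. -/
lemma E6_sum {α l p H C C₂ K₁ V ηD D₀ t₀ c₀ : ℝ} (hα : 0 < α) (hl : 1 < l) (hp : 0 ≤ p)
    (hlp : l ^ (α + 2 + 3 * p) ≤ 3 / 2) (hC : 0 < C) (hC₂ : 0 ≤ C₂)
    (hK₁0 : 0 ≤ K₁) (hV : 0 ≤ V) (hηD0 : 0 ≤ ηD) (hD₀0 : 0 ≤ D₀) (ht₀ : 0 < t₀) (hc₀ : 0 < c₀)
    {J₁ J₂ j : ℕ} (hJ₁ : 1 ≤ J₁) (hj₁ : J₁ ≤ j) (hj₂ : j < J₂)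
    (hHj : H = hj c₀ α t₀ j) {M : ℕ} (hM : 0 < M) {Dd : ℕ → ℝ} (hDd0 : Dd 0 ≤ D₀)
    (hDd : ∀ w, 1 ≤ w → w < J₂ → Dd w ≤ ηD) :
    ∑ w ∈ Finset.range j,
        ((l ^ (3 * (j - w)))⁻¹ * (C * (H * l ^ (j - w)) ^ 2 * Dd w)
        + C₂ * ((l ^ (3 * (j - w)))⁻¹) ^ (-p) * (K₁ * (√C * (H * l ^ (j - w))) ^ (α + 2) * V
          * (t₀ / M * ((kap M (w + 1) : ℝ) - kap M w))))
      ≤ C * (D₀ * (l ^ J₁)⁻¹) * H ^ 2 + C * (ηD / (1 - l⁻¹)) * H ^ 2
        + C₂ * (K₁ * √C ^ (α + 2) * V) * (6 * c₀ ^ α) * H ^ 2 := by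
  have hl0 : 0 < l := by linarith
  have hH : 0 < H := by rw [hHj]; exact E6_hj_pos hc₀ ht₀ j
  have hT := E6_tj_pos ht₀ j
  have hli1 : l⁻¹ < 1 := inv_lt_one_of_one_lt₀ hl
  have hli0 : 0 < l⁻¹ := by positivity
  rw [Finset.sum_add_distrib]
  -- first sum
  have hA : ∑ w ∈ Finset.range j, (l ^ (3 * (j - w)))⁻¹ * (C * (H * l ^ (j - w)) ^ 2 * Dd w)
      ≤ C * (D₀ * (l ^ J₁)⁻¹) * H ^ 2 + C * (ηD / (1 - l⁻¹)) * H ^ 2 := by
    have e1 : ∀ w, (l ^ (3 * (j - w)))⁻¹ * (C * (H * l ^ (j - w)) ^ 2 * Dd w)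
        = C * H ^ 2 * ((l⁻¹) ^ (j - w) * Dd w) := by
      intro w
      have : (l ^ (3 * (j - w)))⁻¹ * (l ^ (j - w)) ^ 2 = (l⁻¹) ^ (j - w) := by
        rw [inv_pow, mul_comm 3 (j - w), pow_mul]
        have hx : l ^ (j - w) ≠ 0 := by positivity
        field_simp
      calc (l ^ (3 * (j - w)))⁻¹ * (C * (H * l ^ (j - w)) ^ 2 * Dd w)
          = C * H ^ 2 * (((l ^ (3 * (j - w)))⁻¹ * (l ^ (j - w)) ^ 2) * Dd w) := by ring
        _ = _ := by rw [this]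
    have e2 : ∀ w ∈ Finset.range j, (l⁻¹) ^ (j - w) * Dd w
        ≤ (if w = 0 then (l⁻¹) ^ J₁ * D₀ else 0) + (l⁻¹) ^ (j - w) * ηD := by
      intro w hw
      rw [Finset.mem_range] at hw
      have hx : 0 < (l⁻¹) ^ (j - w) := by positivity
      by_cases h0 : w = 0
      · subst h0
        rw [if_pos rfl]
        have h1 : (l⁻¹) ^ (j - 0) ≤ (l⁻¹) ^ J₁ :=
          pow_le_pow_of_le_one hli0.le hli1.le (by omega)
        have h2 : (l⁻¹) ^ (j - 0) * Dd 0 ≤ (l⁻¹) ^ J₁ * D₀ :=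
          (mul_le_mul_of_nonneg_left hDd0 hx.le).trans (mul_le_mul_of_nonneg_right h1 hD₀0)
        have h3 : 0 ≤ (l⁻¹) ^ (j - 0) * ηD := by positivity
        linarith
      · rw [if_neg h0, zero_add]
        exact mul_le_mul_of_nonneg_left (hDd w (by omega) (by omega)) hx.le
    have e3 : ∑ w ∈ Finset.range j, (l⁻¹) ^ (j - w) * Dd w
        ≤ (l⁻¹) ^ J₁ * D₀ + (1 / (1 - l⁻¹)) * ηD := by
      refine (Finset.sum_le_sum e2).trans ?_
      rw [Finset.sum_add_distrib]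
      refine add_le_add ?_ ?_
      · rw [Finset.sum_ite_eq' (Finset.range j) 0 (fun _ => (l⁻¹) ^ J₁ * D₀)]
        rw [if_pos (Finset.mem_range.2 (by omega))]
      · rw [← Finset.sum_mul]
        refine mul_le_mul_of_nonneg_right ?_ hηD0
        refine (E6_geo hli0.le hli1 j).trans ?_
        have : 0 < 1 - l⁻¹ := by linarith
        gcongr
    calc ∑ w ∈ Finset.range j, (l ^ (3 * (j - w)))⁻¹ * (C * (H * l ^ (j - w)) ^ 2 * Dd w)
        = C * H ^ 2 * ∑ w ∈ Finset.range j, (l⁻¹) ^ (j - w) * Dd w := by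
          rw [Finset.mul_sum]; exact Finset.sum_congr rfl fun w _ => e1 w
      _ ≤ C * H ^ 2 * ((l⁻¹) ^ J₁ * D₀ + (1 / (1 - l⁻¹)) * ηD) := by gcongr
      _ = _ := by rw [inv_pow]; ring
  -- second sum
  have hB : ∑ w ∈ Finset.range j, C₂ * ((l ^ (3 * (j - w)))⁻¹) ^ (-p)
        * (K₁ * (√C * (H * l ^ (j - w))) ^ (α + 2) * V
          * (t₀ / M * ((kap M (w + 1) : ℝ) - kap M w)))
      ≤ C₂ * (K₁ * √C ^ (α + 2) * V) * (6 * c₀ ^ α) * H ^ 2 := by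
    have e1 : ∀ w ∈ Finset.range j, C₂ * ((l ^ (3 * (j - w)))⁻¹) ^ (-p)
        * (K₁ * (√C * (H * l ^ (j - w))) ^ (α + 2) * V
          * (t₀ / M * ((kap M (w + 1) : ℝ) - kap M w)))
        ≤ (C₂ * (K₁ * √C ^ (α + 2) * V) * (2 * (H ^ (α + 2) * tj t₀ j))) * (3 / 4) ^ (j - w) := by
      intro w hw
      rw [Finset.mem_range] at hw
      have h1 := E6_termB hα hl hp hlp hH hC (j - w)
      have h2 := E6_len ht₀ hM hw
      have h3 : 0 ≤ t₀ / M * ((kap M (w + 1) : ℝ) - kap M w) := by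
        have : (kap M w : ℝ) ≤ kap M (w + 1) := by exact_mod_cast E6_kap_mono M (Nat.le_succ w)
        have : 0 ≤ (kap M (w + 1) : ℝ) - kap M w := by linarith
        positivity
      have h4 : (0 : ℝ) ≤ √C ^ (α + 2) * H ^ (α + 2) * (3 / 2) ^ (j - w) := by positivity
      calc C₂ * ((l ^ (3 * (j - w)))⁻¹) ^ (-p)
        * (K₁ * (√C * (H * l ^ (j - w))) ^ (α + 2) * V
          * (t₀ / M * ((kap M (w + 1) : ℝ) - kap M w)))
          = (C₂ * K₁ * V) * ((((l ^ (3 * (j - w)))⁻¹) ^ (-p) * (√C * (H * l ^ (j - w))) ^ (α + 2))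
            * (t₀ / M * ((kap M (w + 1) : ℝ) - kap M w))) := by ring
        _ ≤ (C₂ * K₁ * V) * ((√C ^ (α + 2) * H ^ (α + 2) * (3 / 2) ^ (j - w))
            * (2 * tj t₀ j * (1 / 2) ^ (j - w))) := by
            refine mul_le_mul_of_nonneg_left ?_ (by positivity)
            exact mul_le_mul h1 h2 h3 h4
        _ = _ := by
            have : (3 / 4 : ℝ) ^ (j - w) = (3 / 2) ^ (j - w) * (1 / 2) ^ (j - w) := by
              rw [← mul_pow]; norm_num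
            rw [this]; ring
    refine (Finset.sum_le_sum e1).trans ?_
    rw [← Finset.mul_sum]
    have h2 := E6_geo (r := 3 / 4) (by norm_num) (by norm_num) j
    have h3 : (3 / 4 : ℝ) / (1 - 3 / 4) = 3 := by norm_num
    rw [h3] at h2
    have h4 := E6_hj_pow hα hc₀ ht₀ j
    rw [← hHj] at h4
    rw [h4]
    calc C₂ * (K₁ * √C ^ (α + 2) * V) * (2 * (c₀ ^ α * H ^ 2))
          * ∑ w ∈ Finset.range j, (3 / 4) ^ (j - w)
        ≤ C₂ * (K₁ * √C ^ (α + 2) * V) * (2 * (c₀ ^ α * H ^ 2)) * 3 := by gcongr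
      _ = _ := by ring
  exact add_le_add hA hB

section
variable {E : Type*} [NormedAddCommGroup E] [InnerProductSpace ℝ E] [FiniteDimensional ℝ E]
  [MeasurableSpace E] [BorelSpace E] {Ω : Set E} {a α : ℝ} {n : ℕ}

lemma E6_meas (ha : 0 < a) (hα : 0 < α) {k : ℝ} (hk : 0 < k) (v : Lp ℝ 2 (volume.restrict Ω)) :
    Measurable (fun y => gk a α k (v y)) :=
  (continuous_gk hα k).measurable.comp (Lp.stronglyMeasurable v).measurable

/-- The sum of the traces. -/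
lemma E6_trace (ha : 0 < a) (hα : 0 < α) (hfin : volume Ω < ⊤) (hn : 0 < n) (F : Fam Ω n)
    {C : ℝ} (hC : 0 < C) (hP : PB F C) {J : ℝ → EnergySpace Ω → EnergySpace Ω}
    (hJ : IsJ Ω a α J) (x : EnergySpace Ω) {h k : ℝ} (hh : 0 < h) (hk : 0 < k) (k₁ k₂ : ℕ)
    (hk12 : k₁ ≤ k₂) :
    ∑ j ∈ Finset.Ico k₁ k₂, (h * (∑ i, gram F (fun y => gk a α k (((J h)^[j + 1] x).snd y)) i i) +
        h ^ 2 / 2 * (2 * ∑ i, F.lam i
          + ∑ i, ∑ l, (gram F (fun y => gk a α k (((J h)^[j + 1] x).snd y)) i l) ^ 2))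
      ≤ 2 * n * (C / 2 * (a * (α + 1)) * Dw α J h x k₁ k₂
        + h * (h * ((k₂ : ℝ) - k₁)) / (4 * n) * (2 * ∑ i, F.lam i + n ^ 2 * k ^ 2)) := by
  have hn' : (0 : ℝ) < n := by exact_mod_cast hn
  have hv : ∀ j, Integrable (fun y => |((J h)^[j + 1] x).snd y| ^ α) (volume.restrict Ω) := by
    intro j
    have h1 := (diss ha hα hJ x hh (j + 1)).1 j
    have : IsFiniteMeasure (volume.restrict Ω) := ⟨by simpa using hfin⟩
    refine Integrable.mono' ((integrable_const (1 : ℝ)).add h1) ?_ ?_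
    · have : Continuous fun s : ℝ => |s| ^ α := continuous_abs.rpow_const fun _ => Or.inr hα.le
      exact this.comp_aestronglyMeasurable (Lp.aestronglyMeasurable _)
    · refine Filter.Eventually.of_forall fun y => ?_
      set s := |((J h)^[j + 1] x).snd y| with hs
      have hs0 : 0 ≤ s := abs_nonneg _
      rw [Real.norm_of_nonneg (by positivity)]
      simp only [Pi.add_apply]
      rcases le_total s 1 with h2 | h2
      · have := Real.rpow_le_one hs0 h2 hα.le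
        have : 0 ≤ s ^ (α + 2) := by positivity
        linarith
      · have := Real.rpow_le_rpow_of_exponent_le h2 (show α ≤ α + 2 by linarith)
        linarith
  have key : ∀ j ∈ Finset.Ico k₁ k₂,
      (h * (∑ i, gram F (fun y => gk a α k (((J h)^[j + 1] x).snd y)) i i) +
        h ^ 2 / 2 * (2 * ∑ i, F.lam i
          + ∑ i, ∑ l, (gram F (fun y => gk a α k (((J h)^[j + 1] x).snd y)) i l) ^ 2))
      ≤ C * n * (a * (α + 1)) * (h * ∫ y in Ω, |((J h)^[j + 1] x).snd y| ^ α)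
        + h ^ 2 / 2 * (2 * ∑ i, F.lam i + n ^ 2 * k ^ 2) := by
    intro j _
    have hg := gram_facts hfin F hC.le hP (E6_meas ha hα hk ((J h)^[j + 1] x).snd)
      (fun y => gk_nonneg ha hα hk.le _) (fun y => gk_le k _)
    have h1 : ∫ y in Ω, gk a α k (((J h)^[j + 1] x).snd y)
        ≤ a * (α + 1) * ∫ y in Ω, |((J h)^[j + 1] x).snd y| ^ α := by
      rw [← integral_const_mul]
      refine integral_mono_of_nonneg (Filter.Eventually.of_forall fun y => gk_nonneg ha hα hk.le _)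
        ((hv j).const_mul _) (Filter.Eventually.of_forall fun y => ?_)
      exact gk_le_gp k _
    have h2 : ∑ i, gram F (fun y => gk a α k (((J h)^[j + 1] x).snd y)) i i
        ≤ C * n * (a * (α + 1) * ∫ y in Ω, |((J h)^[j + 1] x).snd y| ^ α) :=
      hg.2.1.trans (mul_le_mul_of_nonneg_left h1 (by positivity))
    have h3 : ∑ i, ∑ l, (gram F (fun y => gk a α k (((J h)^[j + 1] x).snd y)) i l) ^ 2
        ≤ (n : ℝ) ^ 2 * k ^ 2 := by
      have h4 : ∀ i l, (gram F (fun y => gk a α k (((J h)^[j + 1] x).snd y)) i l) ^ 2 ≤ k ^ 2 :=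
        fun i l => sq_le_sq' (by linarith [(abs_le.1 (hg.2.2.1 i l)).1])
          (abs_le.1 (hg.2.2.1 i l)).2
      calc ∑ i, ∑ l, (gram F (fun y => gk a α k (((J h)^[j + 1] x).snd y)) i l) ^ 2
          ≤ ∑ _i : Fin n, ∑ _l : Fin n, k ^ 2 :=
            Finset.sum_le_sum fun i _ => Finset.sum_le_sum fun l _ => h4 i l
        _ = _ := by simp; ring
    have h5 := mul_le_mul_of_nonneg_left h2 hh.le
    have h6 : h ^ 2 / 2 * (2 * ∑ i, F.lam i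
          + ∑ i, ∑ l, (gram F (fun y => gk a α k (((J h)^[j + 1] x).snd y)) i l) ^ 2)
        ≤ h ^ 2 / 2 * (2 * ∑ i, F.lam i + n ^ 2 * k ^ 2) := by gcongr
    calc _ ≤ h * (C * n * (a * (α + 1) * ∫ y in Ω, |((J h)^[j + 1] x).snd y| ^ α))
          + h ^ 2 / 2 * (2 * ∑ i, F.lam i + n ^ 2 * k ^ 2) := add_le_add h5 h6
      _ = _ := by ring
  refine (Finset.sum_le_sum key).trans ?_
  rw [Finset.sum_add_distrib, ← Finset.mul_sum, Finset.sum_const, Nat.card_Ico, nsmul_eq_mul,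
    Nat.cast_sub hk12]
  have e : C * n * (a * (α + 1)) * ∑ j ∈ Finset.Ico k₁ k₂, (h * ∫ y in Ω, |((J h)^[j + 1] x).snd y| ^ α)
      = C * n * (a * (α + 1)) * Dw α J h x k₁ k₂ := rfl
  rw [e]
  apply le_of_eq
  field_simp
  ring

/-- [E6] the estimate for one scheme. -/
theorem one_scheme (ha : 0 < a) (hα : 0 < α) (hfin : volume Ω < ⊤) (hn : 0 < n) (F : Fam Ω n)
    {C : ℝ} (hC : 0 < C) (hP : PB F C) {J : ℝ → EnergySpace Ω → EnergySpace Ω}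
    (hJ : IsJ Ω a α J) (x : EnergySpace Ω)
    {CY K₁ K₂ C₂ p η k δ l θ c₀ t₀ D₀ ηD : ℝ}
    (hCY : 0 ≤ CY) (hK₁0 : 0 ≤ K₁) (hK₂0 : 0 ≤ K₂) (hC₂ : 0 ≤ C₂) (hp : 0 ≤ p) (hδ0 : 0 ≤ δ)
    (hY : ∀ x y : ℝ, |x| * |y| ≤ a * (2 : ℝ) ^ (-α) * |y| ^ (α + 2) + CY * |x| ^ qe α)
    (hK₁ : ∀ (c : Fin n ⊕ Fin n → ℝ) (σ : ℝ), 0 ≤ σ → ∑ i, (c i) ^ 2 ≤ σ ^ 2 →
      avg (fun ξ => |∑ i, c i * sg (ξ i)| ^ (α + 2)) ≤ K₁ * σ ^ (α + 2))
    (hK₂ : ∀ (c : Fin n ⊕ Fin n → ℝ) (σ : ℝ), 0 ≤ σ → ∑ i, (c i) ^ 2 ≤ σ ^ 2 →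
      avg (fun ξ => |∑ i, c i * sg (ξ i)| ^ qe α) ≤ K₂ * σ ^ qe α)
    (hη : 0 ≤ η) (hk : 0 < k)
    (hr : ∀ μ : ℝ, 0 < μ → μ ≤ 1 → ∀ v z : ℝ,
      |g a α (v + z) - g a α v - gk a α k v * z| ^ qe α
        ≤ μ * (|v| ^ α * z ^ 2) + C₂ * μ ^ (-p) * |z| ^ (α + 2)
          + η * (|v| ^ (α + 2) * |z| ^ qe α))
    (hl : 1 < l) (hlp : l ^ (α + 2 + 3 * p) ≤ 3 / 2) (hθ : θ = (l ^ 2)⁻¹ * Real.log l)
    (hc₀ : 0 < c₀) (ht₀ : 0 < t₀) (hηD0 : 0 ≤ ηD) (hD₀0 : 0 ≤ D₀)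
    (h1 : 4 * CY * (C * (ηD / (1 - l⁻¹))) ≤ θ / 96)
    (h2 : 4 * CY * (C₂ * (K₁ * √C ^ (α + 2) * (volume Ω).toReal) * (6 * c₀ ^ α)) ≤ θ / 48)
    (hηD : C / 2 * (a * (α + 1)) * ηD ≤ Real.log l / 8)
    {J₁ J₂ : ℕ} (hJ₁ : 1 ≤ J₁)
    (h3 : 4 * CY * (C * (D₀ * (l ^ J₁)⁻¹)) ≤ θ / 96)
    (h4 : (J₁ : ℝ) + J₂ * θ < (l ^ 2)⁻¹ * (2 * J₂ * Real.log l
      - 2 * (C / 2 * (a * (α + 1)) * D₀ + J₂ * (Real.log l / 4))))
    (h5 : ∀ j, J₁ ≤ j → j < J₂ → 4 * CY * (η * (K₂ * (√C * (hj c₀ α t₀ j * l ^ j)) ^ qe α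
      * (‖x‖ ^ 2 / (2 * a)))) ≤ θ / 96 * (hj c₀ α t₀ j) ^ 2)
    (h6 : ∀ j, J₁ ≤ j → j < J₂ → 4 * (tj t₀ j) ^ 2 * ((hj c₀ α t₀ j * l ^ j) ^ 2 * δ)
      ≤ θ / 96 * (hj c₀ α t₀ j) ^ 2)
    {M : ℕ} (hM : 0 < M) (hD0 : Dw α J (t₀ / M) x 0 M ≤ D₀)
    (hDw : ∀ w, 1 ≤ w → w < J₂ → Dw α J (t₀ / M) x (kap M w) (kap M (w + 1)) ≤ ηD)
    (hE : t₀ / M * (2 ^ J₂ * t₀) / (4 * n) * (2 * ∑ i, F.lam i + n ^ 2 * k ^ 2)
      ≤ Real.log l / 8)
    (hleak : ∀ i ≤ 2 ^ J₂ * M,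
      leak F (fun y => gk a α k (((J (t₀ / M))^[i] x).snd y)) ≤ δ * n) :
    ∃ j, J₁ ≤ j ∧ j < J₂ ∧ ∃ z : Fin n ⊕ Fin n → ℝ, ‖Zst F z‖ ≤ hj c₀ α t₀ j * l ^ j ∧
      3 / 4 * √θ * hj c₀ α t₀ j
        ≤ ‖(J (t₀ / M))^[kap M j] (x + Zst F z) - (J (t₀ / M))^[kap M j] x‖ := by
  have hn' : (0 : ℝ) < n := by exact_mod_cast hn
  have hM' : (0 : ℝ) < M := by exact_mod_cast hM
  have hl0 : 0 < l := by linarith
  have hlog : 0 < Real.log l := Real.log_pos hl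
  have hθ0 : 0 < θ := by rw [hθ]; positivity
  set h : ℝ := t₀ / M with hh_def
  have hh : 0 < h := by positivity
  have hhM : h * M = t₀ := by rw [hh_def]; field_simp
  have : Nonempty (Fin n ⊕ Fin n) := ⟨Sum.inl ⟨0, hn⟩⟩
  -- the windows
  have hG : ∀ j, ∀ β : Fin n → ℝ, 0 ≤ ∑ i, ∑ l,
      (fun j => gram F (fun y => gk a α k (((J h)^[j] x).snd y))) j i l * β i * β l := by
    intro j
    exact (gram_facts hfin F hC.le hP (E6_meas ha hα hk ((J h)^[j] x).snd)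
      (fun y => gk_nonneg ha hα hk.le _) (fun y => gk_le k _)).1
  have hwin := fun w => win_det hn hh F.lam (fun i => (F.pos i).le)
    (fun j => gram F (fun y => gk a α k (((J h)^[j] x).snd y))) hG
    (E6_kap_mono M (Nat.le_succ w))
  choose L hL1 hL2 hL3 hL4 hL5 using hwin
  have hpm : ∀ j, pm L j = lx F a α k J h x (kap M j) := by
    intro j
    induction j with
    | zero => simp [pm, lx, kap, lmat]
    | succ j ih =>
      rw [pm, ih]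
      exact (hL1 j).symm
  -- determinants
  set c : ℕ → ℝ := fun w => (if w = 0 then C / 2 * (a * (α + 1)) * D₀ else 0) + Real.log l / 4
    with hc
  have hΛ : 0 ≤ 2 * ∑ i, F.lam i + (n : ℝ) ^ 2 * k ^ 2 := by
    have : 0 ≤ ∑ i, F.lam i := Finset.sum_nonneg fun i _ => (F.pos i).le
    positivity
  have hlen : ∀ w < J₂, h * ((kap M (w + 1) : ℝ) - kap M w) ≤ 2 ^ J₂ * t₀ := by
    intro w hw
    have e1 : (kap M (w + 1) : ℝ) = 2 ^ w * M := by simp [kap]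
    have e2 : (0 : ℝ) ≤ kap M w := Nat.cast_nonneg _
    have e3 : (2 : ℝ) ^ w ≤ 2 ^ J₂ := pow_le_pow_right₀ (by norm_num) hw.le
    calc h * ((kap M (w + 1) : ℝ) - kap M w) ≤ h * (2 ^ w * M) := by
          rw [e1]; exact mul_le_mul_of_nonneg_left (by linarith) hh.le
      _ = 2 ^ w * (h * M) := by ring
      _ = 2 ^ w * t₀ := by rw [hhM]
      _ ≤ 2 ^ J₂ * t₀ := by gcongr
  have hcw : ∀ w < J₂, ∑ j ∈ Finset.Ico (kap M w) (kap M (w + 1)),
      (h * (∑ i, gram F (fun y => gk a α k (((J h)^[j + 1] x).snd y)) i i) +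
        h ^ 2 / 2 * (2 * ∑ i, F.lam i
          + ∑ i, ∑ l, (gram F (fun y => gk a α k (((J h)^[j + 1] x).snd y)) i l) ^ 2))
      ≤ 2 * n * c w := by
    intro w hw
    refine (E6_trace ha hα hfin hn F hC hP hJ x hh hk _ _ (E6_kap_mono M (Nat.le_succ w))).trans ?_
    refine mul_le_mul_of_nonneg_left ?_ (by positivity)
    have e1 : h * (h * ((kap M (w + 1) : ℝ) - kap M w)) / (4 * n)
        * (2 * ∑ i, F.lam i + n ^ 2 * k ^ 2) ≤ Real.log l / 8 := by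
      refine le_trans ?_ hE
      have := hlen w hw
      gcongr
    have hCa : 0 ≤ C / 2 * (a * (α + 1)) := by positivity
    simp only [hc]
    by_cases h0 : w = 0
    · subst h0
      rw [if_pos rfl]
      have e2 : Dw α J h x (kap M 0) (kap M (0 + 1)) ≤ D₀ := by
        simpa [kap] using hD0
      have := mul_le_mul_of_nonneg_left e2 hCa
      linarith
    · rw [if_neg h0]
      have := mul_le_mul_of_nonneg_left (hDw w (by omega) hw) hCa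
      linarith
  have hcard : (Fintype.card (Fin n ⊕ Fin n) : ℝ) = 2 * n := by
    simp [Fintype.card_sum]; ring
  have hdet : ∀ j < J₂, (L j).det ≠ 0 ∧
      Real.exp (-(Fintype.card (Fin n ⊕ Fin n) * c j)) ≤ |(L j).det| := by
    intro j hj
    refine ⟨hL4 j, le_trans ?_ (hL5 j)⟩
    rw [hcard]
    exact Real.exp_le_exp.2 (neg_le_neg (hcw j hj))
  have hsumc : ∑ j ∈ Finset.range J₂, c j ≤ C / 2 * (a * (α + 1)) * D₀
      + J₂ * (Real.log l / 4) := by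
    simp only [hc]
    rw [Finset.sum_add_distrib, Finset.sum_const, Finset.card_range, nsmul_eq_mul,
      Finset.sum_ite_eq' (Finset.range J₂) 0 (fun _ => C / 2 * (a * (α + 1)) * D₀)]
    have : 0 ≤ C / 2 * (a * (α + 1)) * D₀ := by positivity
    split_ifs <;> linarith
  have hsum : (J₁ : ℝ) + J₂ * θ < (l ^ 2)⁻¹ * (2 * J₂ * Real.log l
      - 2 * ∑ j ∈ Finset.range J₂, c j) := by
    refine h4.trans_le ?_
    refine mul_le_mul_of_nonneg_left ?_ (by positivity)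
    linarith
  obtain ⟨j, hj₁, hj₂, S, hS1, hS2⟩ := pliss hl hθ0 (fun j _ => hL2 j) hdet hsum
  have hj0 : 1 ≤ j := hJ₁.trans hj₁
  set H : ℝ := hj c₀ α t₀ j with hHdef
  have hH : 0 < H := E6_hj_pos hc₀ ht₀ j
  set b : ℝ := H / √(2 * n) with hb
  have hb0 : 0 < b := by positivity
  have hb2 : b ^ 2 = H ^ 2 / (2 * n) := by
    rw [hb, div_pow, Real.sq_sqrt (by positivity)]
  -- the family of initial data
  have hSm : ∀ w, lx F a α k J h x (kap M w) * (b • S) = b • (pm L w * S) := by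
    intro w
    rw [hpm, Matrix.mul_smul]
  have hmain := win_est ha hα hfin hn F hC hP hJ x hh (E6_kap_mono M) (by rfl)
    (E6_kap_pos hM hj0) hCY hK₁0 hK₂0 hδ0 hY hK₁ hK₂ hη hk
    (ε := fun w => H * l ^ (j - w)) (μ := fun w => (l ^ (3 * (j - w)))⁻¹)
    (c₁ := fun w => C₂ * ((l ^ (3 * (j - w)))⁻¹) ^ (-p))
    (fun w => by positivity)
    (fun w => by
      refine mul_le_mul_of_nonneg_left ?_ hH.le
      exact pow_le_pow_right₀ hl.le (by omega))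
    (fun w => by positivity) (fun w => by positivity)
    (fun w => hr _ (by positivity) (inv_le_one_of_one_le₀ (one_le_pow₀ hl.le)))
    (fun i hi => hleak i (by
      refine hi.trans ?_
      rw [E6_kap_eq hj0]
      exact Nat.mul_le_mul_right _ (Nat.pow_le_pow_right (by norm_num) (by omega))))
    (S := b • S)
    (fun w hw y => by
      rw [hSm]
      have e1 : ∀ m, ((b • (pm L w * S)).transpose.mulVec y m) ^ 2
          = b ^ 2 * ((pm L w * S).transpose.mulVec y m) ^ 2 := by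
        intro m
        rw [Matrix.transpose_smul, Matrix.smul_mulVec]
        simp only [Pi.smul_apply, smul_eq_mul]
        ring
      simp_rw [e1]
      rw [← Finset.mul_sum, hb2]
      have e2 := hS2 w hw.le y
      calc H ^ 2 / (2 * n) * ∑ m, ((pm L w * S).transpose.mulVec y m) ^ 2
          ≤ H ^ 2 / (2 * n) * (l ^ (2 * (j - w)) * ∑ m, (y m) ^ 2) := by gcongr
        _ = _ := by rw [mul_comm 2 (j - w), pow_mul]; ring)
  -- left side
  have hleft : √θ * H ≤ √(∑ i, ∑ m, ((lx F a α k J h x (kap M j) * (b • S)) i m) ^ 2) := by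
    rw [hSm]
    apply Real.le_sqrt_of_sq_le
    have e1 : ∀ i m, ((b • (pm L j * S)) i m) ^ 2 = b ^ 2 * ((pm L j * S) i m) ^ 2 := by
      intro i m
      simp only [Matrix.smul_apply, smul_eq_mul]
      ring
    simp_rw [e1, ← Finset.mul_sum]
    rw [hb2, mul_pow, Real.sq_sqrt hθ0.le]
    rw [hcard] at hS1
    calc θ * H ^ 2 = H ^ 2 / (2 * n) * (θ * (2 * n)) := by field_simp
      _ ≤ _ := by gcongr
  -- right side
  have hright := E6_sum (K₁ := K₁) (V := (volume Ω).toReal) hα hl hp hlp hC hC₂ hK₁0 (by positivity)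
    hηD0 hD₀0 ht₀ hc₀ hJ₁ hj₁ hj₂ hHdef hM
    (Dd := fun w => Dw α J h x (kap M w) (kap M (w + 1)))
    (by simpa [kap] using hD0) hDw
  have hkj : (kap M j : ℝ) * h = tj t₀ j := by
    rw [E6_kap_eq hj0]
    unfold tj
    push_cast
    rw [mul_assoc, mul_comm (M : ℝ) h, hhM]
  have hrem : √(4 * CY * (∑ w ∈ Finset.range j,
            ((l ^ (3 * (j - w)))⁻¹ * (C * (H * l ^ (j - w)) ^ 2
              * Dw α J h x (kap M w) (kap M (w + 1)))
            + C₂ * ((l ^ (3 * (j - w)))⁻¹) ^ (-p) * (K₁ * (√C * (H * l ^ (j - w))) ^ (α + 2)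
              * (volume Ω).toReal * (h * ((kap M (w + 1) : ℝ) - kap M w)))))
          + 4 * CY * (η * (K₂ * (√C * (H * l ^ (j - 0))) ^ qe α * (‖x‖ ^ 2 / (2 * a))))
          + 4 * (kap M j * h) ^ 2 * ((H * l ^ (j - 0)) ^ 2 * δ)) ≤ √θ * H / 4 := by
    apply Real.sqrt_le_iff.2
    refine ⟨by positivity, ?_⟩
    have e0 : (√θ * H / 4) ^ 2 = θ / 16 * H ^ 2 := by
      rw [div_pow, mul_pow, Real.sq_sqrt hθ0.le]; ring
    rw [e0, hkj, Nat.sub_zero]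
    have e1 := h5 j hj₁ hj₂
    have e2 := h6 j hj₁ hj₂
    have e3 := mul_le_mul_of_nonneg_left hright (show 0 ≤ 4 * CY by positivity)
    have hH2 : 0 ≤ H ^ 2 := by positivity
    have e4 := mul_le_mul_of_nonneg_right h1 hH2
    have e5 := mul_le_mul_of_nonneg_right h2 hH2
    have e6 := mul_le_mul_of_nonneg_right h3 hH2
    have e7 : 4 * CY * (C * (D₀ * (l ^ J₁)⁻¹) * H ^ 2 + C * (ηD / (1 - l⁻¹)) * H ^ 2
        + C₂ * (K₁ * √C ^ (α + 2) * (volume Ω).toReal) * (6 * c₀ ^ α) * H ^ 2)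
        = 4 * CY * (C * (D₀ * (l ^ J₁)⁻¹)) * H ^ 2 + 4 * CY * (C * (ηD / (1 - l⁻¹))) * H ^ 2
        + 4 * CY * (C₂ * (K₁ * √C ^ (α + 2) * (volume Ω).toReal) * (6 * c₀ ^ α)) * H ^ 2 := by
      ring
    rw [e7] at e3
    have e8 : θ / 16 * H ^ 2 = θ / 96 * H ^ 2 + θ / 96 * H ^ 2 + θ / 48 * H ^ 2
        + θ / 96 * H ^ 2 + θ / 96 * H ^ 2 := by ring
    rw [e8]
    linarith
  have havg : 3 / 4 * √θ * H ≤ √(avg (fun ξ => ‖(J h)^[kap M j]
      (x + Zst F ((b • S).mulVec fun i => sg (ξ i))) - (J h)^[kap M j] x‖ ^ 2)) := by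
    have := hleft.trans hmain
    linarith
  obtain ⟨ξ, hξ⟩ := (avg_basic (ι := Fin n ⊕ Fin n)).2.2.2.2.1 (fun ξ => ‖(J h)^[kap M j]
      (x + Zst F ((b • S).mulVec fun i => sg (ξ i))) - (J h)^[kap M j] x‖ ^ 2)
  refine ⟨j, hj₁, hj₂, (b • S).mulVec fun i => sg (ξ i), ?_, ?_⟩
  · -- size of the data
    have e1 := E6_transp (S := S) (c := l ^ (2 * j)) (by positivity)
      (fun y => by simpa [pm] using hS2 0 (Nat.zero_le j) y) (fun i => sg (ξ i))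
    have e2 : ∑ m : Fin n ⊕ Fin n, (sg (ξ m)) ^ 2 = 2 * n := by
      rw [← hcard]
      have : ∀ b : Bool, (sg b) ^ 2 = 1 := by intro b; cases b <;> simp [sg]
      simp [this]
    rw [e2] at e1
    apply le_of_sq_le_sq _ (by positivity)
    rw [(zst_facts F).1]
    have e3 : ∀ i, ((b • S).mulVec (fun i => sg (ξ i)) i) ^ 2
        = b ^ 2 * (S.mulVec (fun i => sg (ξ i)) i) ^ 2 := by
      intro i
      rw [Matrix.smul_mulVec]
      simp only [Pi.smul_apply, smul_eq_mul]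
      ring
    simp_rw [e3]
    rw [← Finset.mul_sum, hb2]
    calc H ^ 2 / (2 * n) * ∑ i, (S.mulVec (fun i => sg (ξ i)) i) ^ 2
        ≤ H ^ 2 / (2 * n) * (l ^ (2 * j) * (2 * n)) := by gcongr
      _ = (H * l ^ j) ^ 2 := by rw [mul_comm 2 j, pow_mul]; field_simp
  · refine havg.trans ?_
    rw [Real.sqrt_le_left (norm_nonneg _)]
    exact hξ

end

end Pool.Agent.MP_4c4330_an.Gen
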