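import Pool.Agent.MP_4c4330_an.Gen.Defs
open MeasureTheory Set Filter Topology
open scoped ENNReal ContDiff
namespace Pool.Agent.MP_4c4330_an.Gen

section
variable {E : Type*} [NormedAddCommGroup E] [InnerProductSpace ℝ E] [FiniteDimensional ℝ E]
  [MeasurableSpace E] [BorelSpace E] {Ω : Set E} {a α : ℝ} {n : ℕ}

theorem F1_iter (ha : 0 < a) (hα : 0 < α) {J : ℝ → EnergySpace Ω → EnergySpace Ω}
    (hJ : IsJ Ω a α J) {x : EnergySpace Ω} {h : ℝ} (hh : 0 < h) {y : ℕ → EnergySpace Ω}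
    (y0 : y 0 = x) (ys : ∀ k, EulerStep (WaveOp Ω a α) h (y k) (y (k + 1))) (k : ℕ) :
    y k = (J h)^[k] x := by
  induction k with
  | zero => simpa using y0
  | succ k ih =>
    rw [Function.iterate_succ_apply', ← ih]
    exact step_unique (mono_waveOp ha hα) hh (ys k) (hJ h hh (y k))

theorem F1_lim (ha : 0 < a) (hα : 0 < α) {J : ℝ → EnergySpace Ω → EnergySpace Ω}
    (hJ : IsJ Ω a α J) {U : ℝ → EnergySpace Ω} (hU : IsTrajectory Ω a α U) {T : ℝ}
    (hT : 0 < T) : Tendsto (fun M : ℕ => (J (T / M))^[M] (U 0)) atTop (𝓝 (U T)) := by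
  obtain ⟨y, y0, ys, yl⟩ := hU T hT
  refine yl.congr' ?_
  filter_upwards [eventually_gt_atTop 0] with n hn
  have hn' : (0 : ℝ) < n := by exact_mod_cast hn
  exact F1_iter ha hα hJ (by positivity) (y0 n) (ys n hn) n

theorem F1_norm (ha : 0 < a) (hα : 0 < α) {J : ℝ → EnergySpace Ω → EnergySpace Ω}
    (hJ : IsJ Ω a α J) (x : EnergySpace Ω) {h : ℝ} (hh : 0 < h) :
    Antitone fun k : ℕ => ‖(J h)^[k] x‖ := by
  apply antitone_nat_of_succ_le
  intro k
  rw [Function.iterate_succ_apply']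
  obtain ⟨h1, h2⟩ := step_energy hα hh (hJ h hh ((J h)^[k] x))
  have h3 : 0 ≤ 2 * (h * a * ∫ z in Ω, |(J h ((J h)^[k] x)).snd z| ^ (α + 2)) := by
    have : 0 ≤ ∫ z in Ω, |(J h ((J h)^[k] x)).snd z| ^ (α + 2) :=
      integral_nonneg fun z => by positivity
    positivity
  exact (sq_le_sq₀ (norm_nonneg _) (norm_nonneg _)).1 (by linarith)

theorem F1_mid (hΩ : IsOpen Ω) (ha : 0 < a) (hα : 0 < α)
    {J : ℝ → EnergySpace Ω → EnergySpace Ω} (hJ : IsJ Ω a α J) (x : EnergySpace Ω) {s t : ℝ}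
    (hs : 0 < s) (hst : s ≤ t) :
    Tendsto (fun n : ℕ => (J (t / n))^[⌊n * s / t⌋₊] x - (J (s / n))^[n] x) atTop (𝓝 0) := by
  have ht : 0 < t := hs.trans_le hst
  rw [Metric.tendsto_nhds]
  intro ε hε
  obtain ⟨y, ⟨ξ, hξ⟩, hy⟩ := Metric.mem_closure_iff.1 (dense_domain hΩ ha hα x) (ε / 4)
    (by positivity)
  rw [dist_eq_norm] at hy
  have hb : Tendsto (fun n : ℕ => ‖ξ‖ * √(3 * t ^ 2 / n)) atTop (𝓝 0) := by
    have h1 : Tendsto (fun n : ℕ => 3 * t ^ 2 / (n : ℝ)) atTop (𝓝 0) :=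
      tendsto_const_nhds.div_atTop tendsto_natCast_atTop_atTop
    have h2 := (Real.continuous_sqrt.tendsto 0).comp h1
    rw [Real.sqrt_zero] at h2
    simpa using h2.const_mul ‖ξ‖
  filter_upwards [hb.eventually (gt_mem_nhds (by positivity : 0 < ε / 2)),
    eventually_gt_atTop 0] with n h1 hn
  have hn' : (0 : ℝ) < n := by exact_mod_cast hn
  have hn1 : (1 : ℝ) ≤ n := by exact_mod_cast hn
  set k := ⌊n * s / t⌋₊ with hk
  have hk1 : (k : ℝ) ≤ n * s / t := Nat.floor_le (by positivity)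
  have hk2 : n * s / t < k + 1 := Nat.lt_floor_add_one _
  have hk3 : (k : ℝ) ≤ n := hk1.trans (by
    rw [div_le_iff₀ ht]
    exact mul_le_mul_of_nonneg_left hst hn'.le)
  have htn : 0 < t / n := by positivity
  have hsn : 0 < s / n := by positivity
  have hkob := kobayashi (mono_waveOp ha hα) hJ htn hsn hξ k n
  have hsq : √((k * (t / n) - n * (s / n)) ^ 2 + k * (t / n) ^ 2 + n * (s / n) ^ 2) ≤
      √(3 * t ^ 2 / n) := by
    apply Real.sqrt_le_sqrt
    have e1 : (n : ℝ) * (s / n) = s := by field_simp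
    have e2 : (n : ℝ) * (s / n) ^ 2 = s ^ 2 / n := by field_simp
    have e3 : (k : ℝ) * (t / n) ^ 2 ≤ t ^ 2 / n := by
      calc (k : ℝ) * (t / n) ^ 2 ≤ n * (t / n) ^ 2 :=
            mul_le_mul_of_nonneg_right hk3 (by positivity)
        _ = t ^ 2 / n := by field_simp
    have e4 : s ^ 2 / n ≤ t ^ 2 / n :=
      div_le_div_of_nonneg_right (pow_le_pow_left₀ hs.le hst 2) hn'.le
    have e5 : (k * (t / n) - s) ^ 2 ≤ t ^ 2 / n := by
      have f1 : k * (t / n) ≤ s := by
        calc k * (t / n) ≤ n * s / t * (t / n) := mul_le_mul_of_nonneg_right hk1 htn.le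
          _ = s := by field_simp
      have f2 : s ≤ k * (t / n) + t / n := by
        have : n * s / t * (t / n) ≤ (k + 1) * (t / n) :=
          mul_le_mul_of_nonneg_right hk2.le htn.le
        have e : n * s / t * (t / n) = s := by field_simp
        rw [e] at this
        linarith
      have f3 : (k * (t / n) - s) ^ 2 ≤ (t / n) ^ 2 := by
        apply sq_le_sq'
        · linarith
        · linarith
      have f4 : (t / n) ^ 2 ≤ t ^ 2 / n := by
        rw [div_pow]
        apply div_le_div_of_nonneg_left (by positivity) hn'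
        nlinarith
      exact f3.trans f4
    rw [e1, e2]
    have e6 : 3 * t ^ 2 / (n : ℝ) = t ^ 2 / n + t ^ 2 / n + t ^ 2 / n := by ring
    rw [e6]
    linarith
  have hA := iter_le (mono_waveOp ha hα) hJ htn x y k
  have hB := iter_le (mono_waveOp ha hα) hJ hsn y x n
  rw [dist_zero_right]
  have hyx : ‖y - x‖ < ε / 4 := by rwa [norm_sub_rev]
  calc ‖(J (t / n))^[k] x - (J (s / n))^[n] x‖
      = ‖((J (t / n))^[k] x - (J (t / n))^[k] y) + ((J (t / n))^[k] y - (J (s / n))^[n] y) +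
        ((J (s / n))^[n] y - (J (s / n))^[n] x)‖ := by congr 1; abel
    _ ≤ ‖(J (t / n))^[k] x - (J (t / n))^[k] y‖ + ‖(J (t / n))^[k] y - (J (s / n))^[n] y‖ +
        ‖(J (s / n))^[n] y - (J (s / n))^[n] x‖ := norm_add₃_le
    _ < ε / 4 + ε / 2 + ε / 4 := by
        have h2 : ‖(J (t / n))^[k] y - (J (s / n))^[n] y‖ < ε / 2 :=
          (hkob.trans (mul_le_mul_of_nonneg_left hsq (norm_nonneg _))).trans_lt h1
        linarith
    _ = ε := by ring

/-- [F1] basic properties of trajectories and of the scheme. -/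
theorem traj_facts (hΩ : IsOpen Ω) (ha : 0 < a) (hα : 0 < α)
    {J : ℝ → EnergySpace Ω → EnergySpace Ω} (hJ : IsJ Ω a α J) {U : ℝ → EnergySpace Ω}
    (hU : IsTrajectory Ω a α U) :
    (∀ s t, 0 ≤ s → s ≤ t → ‖U t‖ ≤ ‖U s‖) ∧
    (∀ T > 0, Tendsto (fun M : ℕ => (J (T / M))^[M] (U 0)) atTop (𝓝 (U T))) ∧
    ∀ ζ, WaveOp Ω a α (U 0) ζ → ∀ T > 0, ∀ M : ℕ, 0 < M → ∀ j ≤ M,
      ‖(J (T / M))^[j] (U 0) - U (j * (T / M))‖ ≤ ‖ζ‖ * (T / √M) := by
  refine ⟨?_, fun T hT => F1_lim ha hα hJ hU hT, ?_⟩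
  · intro s t hs hst
    rcases hs.eq_or_lt with h0 | h0
    · rcases hst.eq_or_lt with h1 | h1
      · rw [h1]
      · have ht : 0 < t := hs.trans_lt h1
        rw [← h0]
        apply le_of_tendsto (F1_lim ha hα hJ hU ht).norm
        filter_upwards [eventually_gt_atTop 0] with n hn
        have hn' : (0 : ℝ) < n := by exact_mod_cast hn
        have := F1_norm ha hα hJ (U 0) (h := t / n) (by positivity) (Nat.zero_le n)
        simpa using this
    · have ht : 0 < t := h0.trans_le hst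
      have h1 : Tendsto (fun n : ℕ => (J (t / n))^[⌊n * s / t⌋₊] (U 0)) atTop (𝓝 (U s)) := by
        have h2 := (F1_mid hΩ ha hα hJ (U 0) h0 hst).add (F1_lim ha hα hJ hU h0)
        rw [zero_add] at h2
        refine h2.congr fun n => ?_
        abel
      apply le_of_tendsto_of_tendsto (F1_lim ha hα hJ hU ht).norm h1.norm
      filter_upwards [eventually_gt_atTop 0] with n hn
      have hn' : (0 : ℝ) < n := by exact_mod_cast hn
      have hk : ⌊n * s / t⌋₊ ≤ n := by
        apply Nat.floor_le_of_le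
        rw [div_le_iff₀ ht]
        exact mul_le_mul_of_nonneg_left hst hn'.le
      exact F1_norm ha hα hJ (U 0) (h := t / n) (by positivity) hk
  · intro ζ hζ T hT M hM j hj
    have hM' : (0 : ℝ) < M := by exact_mod_cast hM
    have hTM : 0 < T / M := by positivity
    rcases Nat.eq_zero_or_pos j with h0 | h0
    · subst h0
      simp only [Function.iterate_zero, id, Nat.cast_zero, zero_mul, sub_self, norm_zero]
      positivity
    · have hj' : (0 : ℝ) < j := by exact_mod_cast h0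
      set τ := (j : ℝ) * (T / M) with hτ
      have hτ0 : 0 < τ := by positivity
      have h1 : Tendsto (fun n : ℕ => ‖(J (T / M))^[j] (U 0) - (J (τ / n))^[n] (U 0)‖) atTop
          (𝓝 ‖(J (T / M))^[j] (U 0) - U τ‖) :=
        (tendsto_const_nhds.sub (F1_lim ha hα hJ hU hτ0)).norm
      have h2 : Tendsto (fun n : ℕ => ‖ζ‖ * √(j * (T / M) ^ 2 + τ ^ 2 / n)) atTop
          (𝓝 (‖ζ‖ * √(j * (T / M) ^ 2 + 0))) := by
        apply Tendsto.const_mul
        apply (Real.continuous_sqrt.tendsto _).comp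
        apply Tendsto.const_add
        exact tendsto_const_nhds.div_atTop tendsto_natCast_atTop_atTop
      have h3 : ‖(J (T / M))^[j] (U 0) - U τ‖ ≤ ‖ζ‖ * √(j * (T / M) ^ 2 + 0) := by
        apply le_of_tendsto_of_tendsto h1 h2
        filter_upwards [eventually_gt_atTop 0] with n hn
        have hn' : (0 : ℝ) < n := by exact_mod_cast hn
        have hkob := kobayashi (mono_waveOp ha hα) hJ hTM (m := τ / n) (by positivity) hζ j n
        have e : ((j : ℝ) * (T / M) - n * (τ / n)) ^ 2 + j * (T / M) ^ 2 + n * (τ / n) ^ 2 =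
            j * (T / M) ^ 2 + τ ^ 2 / n := by
          have e1 : (n : ℝ) * (τ / n) = τ := by field_simp
          have e2 : (n : ℝ) * (τ / n) ^ 2 = τ ^ 2 / n := by field_simp
          rw [e1, e2, hτ]
          ring
        rw [e] at hkob
        exact hkob
      refine h3.trans (mul_le_mul_of_nonneg_left ?_ (norm_nonneg _))
      rw [add_zero]
      apply Real.sqrt_le_iff.2
      constructor
      · positivity
      · rw [div_pow, div_pow, Real.sq_sqrt hM'.le]
        have hjM : (j : ℝ) ≤ M := by exact_mod_cast hj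
        rw [mul_div_assoc', div_le_div_iff₀ (by positivity) hM']
        nlinarith [mul_le_mul_of_nonneg_right hjM (by positivity : 0 ≤ T ^ 2 * M)]

end

end Pool.Agent.MP_4c4330_an.Gen
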