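import Pool.Agent.MP_4c4330_an.Gen.Defs2
import Pool.Agent.MP_4c4330_an.Gen.E1
open MeasureTheory Set Filter Topology
open scoped ENNReal ContDiff
namespace Pool.Agent.MP_4c4330_an.Gen

set_option linter.unusedSectionVars false

section
variable {E : Type*} [NormedAddCommGroup E] [InnerProductSpace ℝ E] [FiniteDimensional ℝ E]
  [MeasurableSpace E] [BorelSpace E] {Ω : Set E} {a α : ℝ} {n : ℕ}

theorem F4_norm (ha : 0 < a) (hα : 0 < α) {J : ℝ → EnergySpace Ω → EnergySpace Ω}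
    (hJ : IsJ Ω a α J) (x : EnergySpace Ω) {h : ℝ} (hh : 0 < h) (j : ℕ) :
    ∫ y in Ω, (((J h)^[j] x).snd y) ^ 2 ≤ ‖x‖ ^ 2 := by
  have h1 := (diss ha hα hJ x hh j).2
  have h2 : ‖((J h)^[j] x)‖ ^ 2 = ‖((J h)^[j] x).fst‖ ^ 2 + ‖((J h)^[j] x).snd‖ ^ 2 :=
    WithLp.prod_norm_sq_eq_of_L2 _
  have h3 := norm_sq_Lp (((J h)^[j] x).snd)
  simp only [Real.norm_eq_abs, sq_abs] at h3
  have h4 : 0 ≤ ∑ i ∈ Finset.range j, h * ∫ y in Ω, |((J h)^[i + 1] x).snd y| ^ (α + 2) :=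
    Finset.sum_nonneg fun i _ => mul_nonneg hh.le (integral_nonneg fun y => by positivity)
  have h5 : 0 ≤ 2 * a * ∑ i ∈ Finset.range j,
      h * ∫ y in Ω, |((J h)^[i + 1] x).snd y| ^ (α + 2) := by positivity
  have h6 := sq_nonneg ‖((J h)^[j] x).fst‖
  linarith

theorem F4_gen (ha : 0 < a) (hα : 0 < α) (hfin : volume Ω < ⊤)
    {J : ℝ → EnergySpace Ω → EnergySpace Ω}
    (hJ : IsJ Ω a α J) (x : EnergySpace Ω) {h : ℝ} (hh : 0 < h) {c₀ c₁ c₂ : ℝ} (hc₀ : 0 ≤ c₀)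
    (hc₁ : 0 ≤ c₁) (hc₂ : 0 ≤ c₂)
    (hu : ∀ u : ℝ, 0 ≤ u → u ^ α ≤ c₀ + c₁ * u ^ 2 + c₂ * u ^ (α + 2)) {k₁ k₂ : ℕ}
    (hk : k₁ ≤ k₂) :
    Dw α J h x k₁ k₂ ≤ (h * ((k₂ : ℝ) - k₁)) * (c₀ * (volume Ω).toReal) +
      (h * ((k₂ : ℝ) - k₁)) * (c₁ * ‖(J h)^[k₁] x‖ ^ 2) +
      c₂ * (‖(J h)^[k₁] x‖ ^ 2 / (2 * a)) := by
  have : IsFiniteMeasure (volume.restrict Ω) := ⟨by rwa [Measure.restrict_apply_univ]⟩
  set z := (J h)^[k₁] x with hz
  have hit : ∀ j, (J h)^[k₁ + j + 1] x = (J h)^[j + 1] z := fun j => by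
    rw [hz, ← Function.iterate_add_apply]
    congr 1
    omega
  unfold Dw
  rw [Finset.sum_Ico_eq_sum_range]
  simp only [hit]
  have hd := diss ha hα hJ z hh (k₂ - k₁)
  have hterm : ∀ j, h * ∫ y in Ω, |((J h)^[j + 1] z).snd y| ^ α ≤
      h * (c₀ * (volume Ω).toReal) + h * (c₁ * ‖z‖ ^ 2) +
      c₂ * (h * ∫ y in Ω, |((J h)^[j + 1] z).snd y| ^ (α + 2)) := by
    intro j
    have hi2 : Integrable (fun y => (((J h)^[j + 1] z).snd y) ^ 2) (volume.restrict Ω) :=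
      (Lp.memLp (((J h)^[j + 1] z).snd)).integrable_sq
    have hi3 := hd.1 j
    have hI : ∫ y in Ω, |((J h)^[j + 1] z).snd y| ^ α ≤
        ∫ y in Ω, (c₀ + c₁ * (((J h)^[j + 1] z).snd y) ^ 2 +
          c₂ * |((J h)^[j + 1] z).snd y| ^ (α + 2)) := by
      apply integral_mono_of_nonneg
      · exact Eventually.of_forall fun y => by positivity
      · exact ((integrable_const c₀).add (hi2.const_mul c₁)).add (hi3.const_mul c₂)
      · refine Eventually.of_forall fun y => ?_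
        have := hu |((J h)^[j + 1] z).snd y| (abs_nonneg _)
        rw [sq_abs] at this
        exact this
    have hE : ∫ y in Ω, (c₀ + c₁ * (((J h)^[j + 1] z).snd y) ^ 2 +
          c₂ * |((J h)^[j + 1] z).snd y| ^ (α + 2)) =
        (volume.restrict Ω).real univ • c₀ + c₁ * (∫ y in Ω, (((J h)^[j + 1] z).snd y) ^ 2) +
          c₂ * ∫ y in Ω, |((J h)^[j + 1] z).snd y| ^ (α + 2) := by
      have hi12 : Integrable (fun y => c₀ + c₁ * (((J h)^[j + 1] z).snd y) ^ 2)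
          (volume.restrict Ω) := (integrable_const c₀).add (hi2.const_mul c₁)
      rw [integral_add hi12 (hi3.const_mul c₂),
        integral_add (integrable_const c₀) (hi2.const_mul c₁), integral_const, integral_const_mul,
        integral_const_mul]
    have h7 : (volume.restrict Ω).real univ = (volume Ω).toReal := by
      simp [Measure.real]
    rw [hE, h7, smul_eq_mul] at hI
    have h8 := F4_norm ha hα hJ z hh (j + 1)
    have h9 : c₁ * ∫ y in Ω, (((J h)^[j + 1] z).snd y) ^ 2 ≤ c₁ * ‖z‖ ^ 2 :=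
      mul_le_mul_of_nonneg_left h8 hc₁
    have h10 : ∫ y in Ω, |((J h)^[j + 1] z).snd y| ^ α ≤
        c₀ * (volume Ω).toReal + c₁ * ‖z‖ ^ 2 +
          c₂ * ∫ y in Ω, |((J h)^[j + 1] z).snd y| ^ (α + 2) := by
      linarith [mul_comm c₀ (volume Ω).toReal]
    calc h * ∫ y in Ω, |((J h)^[j + 1] z).snd y| ^ α
        ≤ h * (c₀ * (volume Ω).toReal + c₁ * ‖z‖ ^ 2 +
          c₂ * ∫ y in Ω, |((J h)^[j + 1] z).snd y| ^ (α + 2)) :=
          mul_le_mul_of_nonneg_left h10 hh.le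
      _ = _ := by ring
  refine (Finset.sum_le_sum fun j _ => hterm j).trans ?_
  rw [Finset.sum_add_distrib, Finset.sum_add_distrib, Finset.sum_const, Finset.sum_const,
    Finset.card_range, nsmul_eq_mul, nsmul_eq_mul, ← Finset.mul_sum, Nat.cast_sub hk]
  have h11 : c₂ * ∑ j ∈ Finset.range (k₂ - k₁),
      h * ∫ y in Ω, |((J h)^[j + 1] z).snd y| ^ (α + 2) ≤ c₂ * (‖z‖ ^ 2 / (2 * a)) := by
    apply mul_le_mul_of_nonneg_left _ hc₂
    rw [le_div_iff₀ (by positivity)]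
    have := hd.2
    have h12 := sq_nonneg ‖(J h)^[k₂ - k₁] z‖
    linarith [mul_comm (2 * a) (∑ j ∈ Finset.range (k₂ - k₁),
      h * ∫ y in Ω, |((J h)^[j + 1] z).snd y| ^ (α + 2))]
  have e1 : ((k₂ : ℝ) - k₁) * (h * (c₀ * (volume Ω).toReal)) =
    (h * ((k₂ : ℝ) - k₁)) * (c₀ * (volume Ω).toReal) := by ring
  have e2 : ((k₂ : ℝ) - k₁) * (h * (c₁ * ‖z‖ ^ 2)) =
    (h * ((k₂ : ℝ) - k₁)) * (c₁ * ‖z‖ ^ 2) := by ring
  rw [e1, e2]
  linarith

theorem F4_lo (hα : 0 < α) (hα2 : α ≤ 2) {l : ℝ} (hl : 0 < l) (u : ℝ) (hu : 0 ≤ u) :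
    u ^ α ≤ l ^ α + l ^ (α - 2) * u ^ 2 := by
  rcases le_or_gt u l with h | h
  · have h1 : u ^ α ≤ l ^ α := Real.rpow_le_rpow hu h hα.le
    have h2 : 0 ≤ l ^ (α - 2) * u ^ 2 := by positivity
    linarith
  · have hu0 : 0 < u := hl.trans h
    have h1 : u ^ α = u ^ (α - 2) * u ^ 2 := by
      rw [← Real.rpow_natCast u 2, ← Real.rpow_add hu0]
      congr 1
      push_cast
      ring
    have h2 : u ^ (α - 2) ≤ l ^ (α - 2) :=
      Real.rpow_le_rpow_of_nonpos hl h.le (by linarith)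
    have h3 : u ^ (α - 2) * u ^ 2 ≤ l ^ (α - 2) * u ^ 2 :=
      mul_le_mul_of_nonneg_right h2 (sq_nonneg u)
    have h4 : 0 ≤ l ^ α := by positivity
    linarith

theorem F4_hi (hα : 0 < α) (hα2 : 2 ≤ α) {l : ℝ} (hl : 0 < l) (u : ℝ) (hu : 0 ≤ u) :
    u ^ α ≤ l ^ (α - 2) * u ^ 2 + l ^ (-2 : ℝ) * u ^ (α + 2) := by
  rcases hu.eq_or_lt with h0 | hu0
  · rw [← h0, Real.zero_rpow hα.ne', Real.zero_rpow (by positivity)]
    simp
  rcases le_or_gt u l with h | h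
  · have h1 : u ^ α = u ^ (α - 2) * u ^ 2 := by
      rw [← Real.rpow_natCast u 2, ← Real.rpow_add hu0]
      congr 1
      push_cast
      ring
    have h2 : u ^ (α - 2) ≤ l ^ (α - 2) := Real.rpow_le_rpow hu h (by linarith)
    have h3 : u ^ (α - 2) * u ^ 2 ≤ l ^ (α - 2) * u ^ 2 :=
      mul_le_mul_of_nonneg_right h2 (sq_nonneg u)
    have h4 : 0 ≤ l ^ (-2 : ℝ) * u ^ (α + 2) := by positivity
    linarith
  · have h1 : u ^ α = u ^ (-2 : ℝ) * u ^ (α + 2) := by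
      rw [← Real.rpow_add hu0]
      congr 1
      ring
    have h2 : u ^ (-2 : ℝ) ≤ l ^ (-2 : ℝ) :=
      Real.rpow_le_rpow_of_nonpos hl h.le (by norm_num)
    have h3 : u ^ (-2 : ℝ) * u ^ (α + 2) ≤ l ^ (-2 : ℝ) * u ^ (α + 2) :=
      mul_le_mul_of_nonneg_right h2 (by positivity)
    have h4 : 0 ≤ l ^ (α - 2) * u ^ 2 := by positivity
    linarith

/-- [F4] the damping in one window. -/
theorem dwin (ha : 0 < a) (hα : 0 < α) (hfin : volume Ω < ⊤) :
    (∀ η : ℝ, 0 < η → ∃ δ : ℝ, 0 < δ ∧ ∀ J : ℝ → EnergySpace Ω → EnergySpace Ω, IsJ Ω a α J →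
      ∀ (x : EnergySpace Ω) (h : ℝ) (k₁ k₂ : ℕ), 0 < h → k₁ < k₂ →
        (h * ((k₂ : ℝ) - k₁)) ^ (2 / α) * ‖(J h)^[k₁] x‖ ^ 2 ≤ δ → Dw α J h x k₁ k₂ ≤ η) ∧
    ∀ τ R : ℝ, 0 < τ → 0 ≤ R → ∃ D : ℝ, 0 ≤ D ∧
      ∀ J : ℝ → EnergySpace Ω → EnergySpace Ω, IsJ Ω a α J →
      ∀ (x : EnergySpace Ω) (h : ℝ) (M : ℕ), 0 < h → h * M ≤ τ → ‖x‖ ≤ R → Dw α J h x 0 M ≤ D := by
  have hV : 0 ≤ (volume Ω).toReal := ENNReal.toReal_nonneg
  constructor
  · intro η hη
    rcases le_or_gt α 2 with hα2 | hα2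
    · -- `α ≤ 2`
      set V := (volume Ω).toReal with hVdef
      set m : ℝ := (η / (2 * (V + 1))) ^ (1 / α) with hm
      have hm0 : 0 < m := by positivity
      have hmα : m ^ α = η / (2 * (V + 1)) := by
        rw [hm, ← Real.rpow_mul (by positivity), one_div_mul_cancel hα.ne', Real.rpow_one]
      refine ⟨η / 2 * m ^ (2 - α), by positivity, ?_⟩
      intro J hJ x h k₁ k₂ hh hk hδ
      have hk' : (0 : ℝ) < (k₂ : ℝ) - k₁ := sub_pos.mpr (by exact_mod_cast hk)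
      set t : ℝ := h * ((k₂ : ℝ) - k₁) with ht
      have ht0 : 0 < t := by positivity
      set l : ℝ := t ^ (-(1 / α)) * m with hl
      have hl0 : 0 < l := by positivity
      have hg := F4_gen ha hα hfin hJ x hh (c₀ := l ^ α) (c₁ := l ^ (α - 2)) (c₂ := 0)
        (by positivity) (by positivity) le_rfl (fun u hu => by
          have := F4_lo hα hα2 hl0 u hu
          linarith [zero_mul (u ^ (α + 2))]) hk.le
      rw [← ht, ← hVdef] at hg
      have h1 : t * l ^ α = m ^ α := by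
        rw [hl, Real.mul_rpow (by positivity) hm0.le, ← Real.rpow_mul ht0.le,
          show -(1 / α) * α = -1 from by field_simp, Real.rpow_neg_one, ← mul_assoc,
          mul_inv_cancel₀ ht0.ne', one_mul]
      have h2 : t * l ^ (α - 2) = t ^ (2 / α) * m ^ (α - 2) := by
        rw [hl, Real.mul_rpow (by positivity) hm0.le, ← Real.rpow_mul ht0.le, ← mul_assoc]
        congr 1
        nth_rewrite 1 [← Real.rpow_one t]
        rw [← Real.rpow_add ht0]
        congr 1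
        field_simp
        ring
      have h3 : t * (l ^ α * V) ≤ η / 2 := by
        rw [← mul_assoc, h1, hmα, div_mul_eq_mul_div, div_le_div_iff₀ (by positivity) (by positivity)]
        nlinarith
      have h4 : t * (l ^ (α - 2) * ‖(J h)^[k₁] x‖ ^ 2) ≤ η / 2 := by
        rw [← mul_assoc, h2]
        have e : m ^ (α - 2) * m ^ (2 - α) = 1 := by
          rw [← Real.rpow_add hm0]; simp
        calc t ^ (2 / α) * m ^ (α - 2) * ‖(J h)^[k₁] x‖ ^ 2
            = m ^ (α - 2) * (t ^ (2 / α) * ‖(J h)^[k₁] x‖ ^ 2) := by ring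
          _ ≤ m ^ (α - 2) * (η / 2 * m ^ (2 - α)) :=
            mul_le_mul_of_nonneg_left hδ (by positivity)
          _ = (m ^ (α - 2) * m ^ (2 - α)) * (η / 2) := by ring
          _ = η / 2 := by rw [e, one_mul]
      linarith [zero_mul (‖(J h)^[k₁] x‖ ^ 2 / (2 * a))]
    · -- `α > 2`
      refine ⟨η / (1 + 1 / (2 * a)), by positivity, ?_⟩
      intro J hJ x h k₁ k₂ hh hk hδ
      have hk' : (0 : ℝ) < (k₂ : ℝ) - k₁ := sub_pos.mpr (by exact_mod_cast hk)
      set t : ℝ := h * ((k₂ : ℝ) - k₁) with ht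
      have ht0 : 0 < t := by positivity
      set l : ℝ := t ^ (-(1 / α)) with hl
      have hl0 : 0 < l := by positivity
      have hg := F4_gen ha hα hfin hJ x hh (c₀ := 0) (c₁ := l ^ (α - 2)) (c₂ := l ^ (-2 : ℝ))
        le_rfl (by positivity) (by positivity) (fun u hu => by
          have := F4_hi hα hα2.le hl0 u hu
          linarith) hk.le
      rw [← ht] at hg
      have h2 : t * l ^ (α - 2) = t ^ (2 / α) := by
        rw [hl, ← Real.rpow_mul ht0.le]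
        nth_rewrite 1 [← Real.rpow_one t]
        rw [← Real.rpow_add ht0]
        congr 1
        field_simp
        ring
      have h3 : l ^ (-2 : ℝ) = t ^ (2 / α) := by
        rw [hl, ← Real.rpow_mul ht0.le]
        congr 1
        field_simp
      have h4 : t * (l ^ (α - 2) * ‖(J h)^[k₁] x‖ ^ 2) = t ^ (2 / α) * ‖(J h)^[k₁] x‖ ^ 2 := by
        rw [← mul_assoc, h2]
      have h5 : l ^ (-2 : ℝ) * (‖(J h)^[k₁] x‖ ^ 2 / (2 * a)) =
          (t ^ (2 / α) * ‖(J h)^[k₁] x‖ ^ 2) * (1 / (2 * a)) := by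
        rw [h3]; ring
      rw [h4, h5] at hg
      have h6 : (t ^ (2 / α) * ‖(J h)^[k₁] x‖ ^ 2) * (1 + 1 / (2 * a)) ≤ η := by
        rwa [le_div_iff₀ (by positivity)] at hδ
      linarith [zero_mul (volume Ω).toReal, mul_zero t]
  · intro τ R hτ hR
    refine ⟨τ * (1 * (volume Ω).toReal) + τ * (1 * R ^ 2) + 1 * (R ^ 2 / (2 * a)),
      by positivity, ?_⟩
    intro J hJ x h M hh hM hx
    have hg := F4_gen ha hα hfin hJ x hh (c₀ := 1) (c₁ := 1) (c₂ := 1)
        zero_le_one zero_le_one zero_le_one (fun u hu => by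
          have h0 : 0 ≤ u ^ (α + 2) := by positivity
          have h0' : 0 ≤ u ^ 2 := by positivity
          rcases le_or_gt α 2 with hα2 | hα2
          · have := F4_lo hα hα2 one_pos u hu
            simp only [Real.one_rpow, one_mul] at this
            linarith
          · have := F4_hi hα hα2.le one_pos u hu
            simp only [Real.one_rpow, one_mul] at this
            linarith) (Nat.zero_le M)
    refine hg.trans ?_
    simp only [Nat.cast_zero, sub_zero, Function.iterate_zero, id_eq]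
    have hx2 : ‖x‖ ^ 2 ≤ R ^ 2 := pow_le_pow_left₀ (norm_nonneg _) hx 2
    gcongr

end

end Pool.Agent.MP_4c4330_an.Gen
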