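import Pool.Agent.MP_4c4330_an.Gen.Defs2
open MeasureTheory Set Filter Topology
open scoped ENNReal ContDiff
namespace Pool.Agent.MP_4c4330_an.Gen

theorem P1_growth {α b : ℝ} (hb : 0 ≤ b) (hbα : b < α) :
    ∃ C : ℝ, 0 < C ∧ ∀ μ : ℝ, 0 < μ → μ ≤ 1 → ∀ t : ℝ, 0 ≤ t →
      (1 + t) ^ b ≤ μ * t ^ α + C * μ ^ (-(b / (α - b))) := by
  have hab : 0 < α - b := by linarith
  refine ⟨2 ^ b * (2 ^ b) ^ (b / (α - b)), by positivity, fun μ hμ hμ1 t ht => ?_⟩
  set T : ℝ := (2 ^ b / μ) ^ (1 / (α - b)) with hT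
  have h2b : (1:ℝ) ≤ 2 ^ b := Real.one_le_rpow (by norm_num) hb
  have hq1 : 1 ≤ 2 ^ b / μ := by
    rw [le_div_iff₀ hμ]; linarith
  have hT1 : 1 ≤ T := Real.one_le_rpow hq1 (by positivity)
  have hTb0 : T ^ b = (2 ^ b / μ) ^ (b / (α - b)) := by
    rw [hT, ← Real.rpow_mul (by positivity)]
    congr 1
    ring
  have hTb : 2 ^ b * (2 ^ b) ^ (b / (α - b)) * μ ^ (-(b / (α - b))) = 2 ^ b * T ^ b := by
    rw [hTb0, Real.div_rpow (by positivity) hμ.le, Real.rpow_neg hμ.le]
    ring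
  rw [hTb]
  rcases le_total t T with h | h
  · have h1 : (1 + t) ^ b ≤ (2 * T) ^ b := Real.rpow_le_rpow (by linarith) (by linarith) hb
    rw [Real.mul_rpow (by norm_num) (by linarith)] at h1
    have h2 : 0 ≤ μ * t ^ α := by positivity
    linarith
  · have ht1 : 1 ≤ t := hT1.trans h
    have ht0 : 0 < t := by linarith
    have h1 : (1 + t) ^ b ≤ 2 ^ b * t ^ b := by
      rw [← Real.mul_rpow (by norm_num) ht0.le]
      exact Real.rpow_le_rpow (by linarith) (by linarith) hb
    have h2 : 2 ^ b / μ ≤ t ^ (α - b) := by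
      have h3 : ((2 ^ b / μ) ^ (1 / (α - b))) ^ (α - b) ≤ t ^ (α - b) :=
        Real.rpow_le_rpow (by positivity) h (by linarith)
      rw [← Real.rpow_mul (by positivity)] at h3
      have h4 : 1 / (α - b) * (α - b) = 1 := by field_simp
      rwa [h4, Real.rpow_one] at h3
    have h5 : t ^ α = t ^ (α - b) * t ^ b := by
      rw [← Real.rpow_add ht0]; ring_nf
    have h6 : 0 < t ^ b := Real.rpow_pos_of_pos ht0 _
    rw [div_le_iff₀ hμ] at h2
    have h7 : 0 ≤ 2 ^ b * T ^ b := by positivity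
    rw [h5]
    nlinarith

theorem P1_bound {a α : ℝ} (ha : 0 < a) (hα : 0 < α) : ∃ C p : ℝ, 0 < C ∧ 0 ≤ p ∧
    ∀ μ : ℝ, 0 < μ → μ ≤ 1 → ∀ v z : ℝ,
    |g a α (v + z) - g a α v - gp a α v * z| ^ qe α
      ≤ μ * (|v| ^ α * z ^ 2) + C * μ ^ (-p) * |z| ^ (α + 2) := by
  set C0 : ℝ := a * (α + 1) ^ 2 with hC0
  have hC0p : 0 < C0 := by positivity
  have hq := qe_pos hα
  set b : ℝ := max (α - 1) 0 * qe α with hb
  have hb0 : 0 ≤ b := mul_nonneg (le_max_right _ _) hq.le
  obtain ⟨C, hC, hgr⟩ := P1_growth (α := α) hb0 (gq_lt hα)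
  have hK : 0 < C0 ^ qe α := by positivity
  set D : ℝ := max (C0 ^ qe α) 1 with hD
  have hD1 : 1 ≤ D := le_max_right _ _
  have hD0 : 0 < D := by linarith
  have hDK : C0 ^ qe α ≤ D := le_max_left _ _
  set p : ℝ := b / (α - b) with hp
  have hp0 : 0 ≤ p := div_nonneg hb0 (by linarith [gq_lt hα])
  refine ⟨C0 ^ qe α * C * D ^ p, p, by positivity, hp0, fun μ hμ hμ1 v z => ?_⟩
  rcases eq_or_ne z 0 with h | h
  · rw [h]
    simp only [add_zero, sub_self, mul_zero, abs_zero]
    rw [Real.zero_rpow hq.ne', Real.zero_rpow (by linarith)]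
    simp
  · have hz : 0 < |z| := abs_pos.2 h
    have hom : ∀ s : ℝ, g a α (z * s) = |z| ^ α * z * g a α s := by
      intro s
      unfold g
      rw [abs_mul, Real.mul_rpow (abs_nonneg _) (abs_nonneg _)]
      ring
    have e1 : v + z = z * (v / z + 1) := by field_simp
    have e2 : g a α v = |z| ^ α * z * g a α (v / z) := by
      rw [← hom]; congr 1; field_simp
    have e3 : gp a α v * z = |z| ^ α * z * gp a α (v / z) := by
      unfold gp
      rw [abs_div, Real.div_rpow (abs_nonneg _) (abs_nonneg _)]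
      have : |z| ^ α ≠ 0 := (Real.rpow_pos_of_pos hz _).ne'
      field_simp
    have e4 : g a α (v + z) - g a α v - gp a α v * z
        = |z| ^ α * z * (g a α (v / z + 1) - g a α (v / z) - gp a α (v / z)) := by
      rw [e1, hom, e2, e3]; ring
    rw [e4, abs_mul]
    have e5 : |(|z| ^ α) * z| = |z| ^ (α + 1) := by
      rw [abs_mul, abs_of_nonneg (by positivity : 0 ≤ |z| ^ α), Real.rpow_add_one hz.ne']
    rw [e5, Real.mul_rpow (by positivity) (abs_nonneg _), ← Real.rpow_mul hz.le, qe_mul hα]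
    have h1 : |g a α (v / z + 1) - g a α (v / z) - gp a α (v / z)| ^ qe α
        ≤ μ * |v / z| ^ α + C0 ^ qe α * C * D ^ p * μ ^ (-p) := by
      have h2 := Real.rpow_le_rpow (abs_nonneg _) (rem_one ha hα (v / z)) hq.le
      rw [Real.mul_rpow hC0p.le (by positivity), ← Real.rpow_mul (by positivity)] at h2
      refine h2.trans ?_
      have hμD : μ / D ≤ 1 := by rw [div_le_one hD0]; linarith
      have h3 := mul_le_mul_of_nonneg_left
        (hgr (μ / D) (by positivity) hμD |v / z| (abs_nonneg _)) hK.le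
      refine h3.trans ?_
      rw [Real.div_rpow hμ.le hD0.le, Real.rpow_neg hD0.le]
      have h4 : 0 ≤ |v / z| ^ α := by positivity
      have h5 : C0 ^ qe α * (μ / D * |v / z| ^ α) ≤ μ * |v / z| ^ α := by
        have : C0 ^ qe α / D ≤ 1 := by rw [div_le_one hD0]; exact hDK
        calc C0 ^ qe α * (μ / D * |v / z| ^ α) = (C0 ^ qe α / D) * (μ * |v / z| ^ α) := by ring
          _ ≤ 1 * (μ * |v / z| ^ α) := mul_le_mul_of_nonneg_right this (by positivity)
          _ = _ := one_mul _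
      have h6 : C0 ^ qe α * (C * (μ ^ (-p) / (D ^ p)⁻¹)) = C0 ^ qe α * C * D ^ p * μ ^ (-p) := by
        field_simp
      rw [mul_add]
      linarith
    have h6 : 0 ≤ |z| ^ (α + 2) := by positivity
    refine (mul_le_mul_of_nonneg_left h1 h6).trans (le_of_eq ?_)
    have e6 : |z| ^ (α + 2) * |v / z| ^ α = |v| ^ α * z ^ 2 := by
      rw [abs_div, Real.div_rpow (abs_nonneg _) (abs_nonneg _),
        show α + 2 = α + (2:ℕ) by norm_num, Real.rpow_add_natCast hz.ne', sq_abs]
      have : |z| ^ α ≠ 0 := (Real.rpow_pos_of_pos hz _).ne'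
      field_simp
    calc |z| ^ (α + 2) * (μ * |v / z| ^ α + C0 ^ qe α * C * D ^ p * μ ^ (-p))
        = μ * (|z| ^ (α + 2) * |v / z| ^ α)
          + C0 ^ qe α * C * D ^ p * μ ^ (-p) * |z| ^ (α + 2) := by ring
      _ = _ := by rw [e6]

/-- [P1] the remainder with a polynomial constant; `k` does not depend on `μ`. -/
theorem rem2 {a α : ℝ} (ha : 0 < a) (hα : 0 < α) : ∃ C₂ p : ℝ, 0 < C₂ ∧ 0 ≤ p ∧
    ∀ η : ℝ, 0 < η → ∃ k : ℝ, 0 < k ∧ ∀ μ : ℝ, 0 < μ → μ ≤ 1 → ∀ v z : ℝ,
      |g a α (v + z) - g a α v - gk a α k v * z| ^ qe α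
        ≤ μ * (|v| ^ α * z ^ 2) + C₂ * μ ^ (-p) * |z| ^ (α + 2)
          + η * (|v| ^ (α + 2) * |z| ^ qe α) := by
  obtain ⟨C, p, hC, hp, hr⟩ := P1_bound ha hα
  have hq := qe_pos hα
  refine ⟨4 * C * 4 ^ p, p, by positivity, hp, fun η hη => ?_⟩
  set c : ℝ := a * (α + 1) with hc
  have hc0 : 0 < c := by positivity
  have hex : 0 < α + 2 - α * qe α := by
    have := qe_mul hα
    nlinarith [one_lt_qe hα]
  set T : ℝ := (c ^ qe α / (η / 4)) ^ (1 / (α + 2 - α * qe α)) with hT
  have hT0 : 0 < T := by positivity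
  refine ⟨c * T ^ α, by positivity, fun μ hμ hμ1 v z => ?_⟩
  set k : ℝ := c * T ^ α with hk
  have h1 : (gp a α v - gk a α k v) ^ qe α ≤ η / 4 * |v| ^ (α + 2) := by
    rcases le_or_gt (gp a α v) k with h | h
    · have : gk a α k v = gp a α v := min_eq_left h
      rw [this, sub_self, Real.zero_rpow hq.ne']
      positivity
    · have e1 : gk a α k v = k := min_eq_right h.le
      have hk0 : 0 < k := by positivity
      rw [e1]
      have h2 : (gp a α v - k) ^ qe α ≤ (gp a α v) ^ qe α :=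
        Real.rpow_le_rpow (by linarith) (by linarith) hq.le
      refine h2.trans ?_
      have h3 : T ^ α < |v| ^ α := by
        have : c * T ^ α < c * |v| ^ α := h
        exact lt_of_mul_lt_mul_left this hc0.le
      have h4 : T < |v| := by
        by_contra hcon
        push Not at hcon
        have := Real.rpow_le_rpow (abs_nonneg v) hcon hα.le
        linarith
      have hv0 : 0 < |v| := hT0.trans h4
      have e2 : gp a α v = c * |v| ^ α := rfl
      rw [e2, Real.mul_rpow hc0.le (by positivity), ← Real.rpow_mul hv0.le]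
      have h5 : c ^ qe α / (η / 4) ≤ |v| ^ (α + 2 - α * qe α) := by
        have h6 : T ^ (α + 2 - α * qe α) ≤ |v| ^ (α + 2 - α * qe α) :=
          Real.rpow_le_rpow hT0.le h4.le hex.le
        rw [hT, ← Real.rpow_mul (by positivity)] at h6
        have h7 : 1 / (α + 2 - α * qe α) * (α + 2 - α * qe α) = 1 := by field_simp
        rwa [h7, Real.rpow_one] at h6
      rw [div_le_iff₀ (by positivity)] at h5
      have e3 : |v| ^ (α + 2) = |v| ^ (α + 2 - α * qe α) * |v| ^ (α * qe α) := by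
        rw [← Real.rpow_add hv0]; ring_nf
      rw [e3]
      have h8 : 0 ≤ |v| ^ (α * qe α) := by positivity
      calc c ^ qe α * |v| ^ (α * qe α)
          ≤ |v| ^ (α + 2 - α * qe α) * (η / 4) * |v| ^ (α * qe α) :=
            mul_le_mul_of_nonneg_right h5 h8
        _ = _ := by ring
  have hgk : 0 ≤ gp a α v - gk a α k v := sub_nonneg.2 (gk_le_gp _ _)
  have h9 : |g a α (v + z) - g a α v - gk a α k v * z|
      ≤ |g a α (v + z) - g a α v - gp a α v * z| + (gp a α v - gk a α k v) * |z| := by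
    have e : g a α (v + z) - g a α v - gk a α k v * z
        = (g a α (v + z) - g a α v - gp a α v * z) + (gp a α v - gk a α k v) * z := by ring
    rw [e]
    refine (abs_add_le _ _).trans ?_
    rw [abs_mul (gp a α v - gk a α k v), abs_of_nonneg hgk]
  have h10 := Real.rpow_le_rpow (abs_nonneg _) h9 hq.le
  refine h10.trans ((four_pow hα (abs_nonneg _) (by positivity)).trans ?_)
  rw [Real.mul_rpow hgk (abs_nonneg z)]
  have h11 := hr (μ / 4) (by positivity) (by linarith) v z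
  have h12 : (gp a α v - gk a α k v) ^ qe α * |z| ^ qe α
      ≤ η / 4 * |v| ^ (α + 2) * |z| ^ qe α := mul_le_mul_of_nonneg_right h1 (by positivity)
  have h13 : (μ / 4) ^ (-p) = 4 ^ p * μ ^ (-p) := by
    rw [Real.div_rpow hμ.le (by norm_num), Real.rpow_neg (by norm_num : (0:ℝ) ≤ 4)]
    field_simp
  rw [h13] at h11
  nlinarith

end Pool.Agent.MP_4c4330_an.Gen
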