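import Pool.Agent.MP_4c4330_an.Gen.Defs2
import Pool.Agent.MP_4c4330_an.Gen.A3
import Pool.Agent.MP_4c4330_an.Gen.C1
import Pool.Agent.MP_4c4330_an.Gen.D5
import Pool.Agent.MP_4c4330_an.Gen.E6
import Pool.Agent.MP_4c4330_an.Gen.F1
import Pool.Agent.MP_4c4330_an.Gen.F4
import Pool.Agent.MP_4c4330_an.Gen.P1
open MeasureTheory Set Filter Topology
open scoped ENNReal ContDiff
namespace Pool.Agent.MP_4c4330_an.Gen

/-- finitely many linear constraints -/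
theorem E7_fin (s : Finset ℕ) (A B : ℕ → ℝ) (hA : ∀ j ∈ s, 0 ≤ A j) (hB : ∀ j ∈ s, 0 < B j) :
    ∃ η : ℝ, 0 < η ∧ ∀ j ∈ s, A j * η ≤ B j := by
  classical
  induction s using Finset.induction_on with
  | empty => exact ⟨1, one_pos, fun j hj => absurd hj (Finset.notMem_empty j)⟩
  | insert i s hi ih =>
    obtain ⟨η, hη, h⟩ := ih (fun j hj => hA j (Finset.mem_insert_of_mem hj)) (fun j hj => hB j (Finset.mem_insert_of_mem hj))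
    have hAi := hA i (Finset.mem_insert_self i s)
    have hBi := hB i (Finset.mem_insert_self i s)
    refine ⟨min η (B i / (A i + 1)), lt_min hη (by positivity), fun j hj => ?_⟩
    rcases Finset.mem_insert.1 hj with rfl | hj'
    · calc A j * min η (B j / (A j + 1)) ≤ A j * (B j / (A j + 1)) := mul_le_mul_of_nonneg_left (min_le_right _ _) hAi
        _ = B j * (A j / (A j + 1)) := by ring
        _ ≤ B j * 1 := by
          apply mul_le_mul_of_nonneg_left _ hBi.le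
          rw [div_le_one (by positivity)]
          linarith
        _ = B j := mul_one _
    · exact (mul_le_mul_of_nonneg_left (min_le_left _ _) (hA j hj)).trans (h j hj')

/-- the choice of `l` -/
theorem E7_l {α q : ℝ} (hα : 0 < α) (hq : 0 < q) : ∃ l : ℝ, 1 < l ∧ l ^ q ≤ 3 / 2 ∧ l < (2 : ℝ) ^ (1 / α) := by
  have h1 : (1 : ℝ) < (3 / 2 : ℝ) ^ (1 / q) := Real.one_lt_rpow (by norm_num) (by positivity)
  have h2 : (1 : ℝ) < (2 : ℝ) ^ (1 / α) := Real.one_lt_rpow (by norm_num) (by positivity)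
  refine ⟨min ((3 / 2 : ℝ) ^ (1 / q)) ((1 + (2 : ℝ) ^ (1 / α)) / 2), lt_min h1 (by linarith), ?_, ?_⟩
  · have h3 : (0 : ℝ) ≤ min ((3 / 2 : ℝ) ^ (1 / q)) ((1 + (2 : ℝ) ^ (1 / α)) / 2) :=
      le_min (by linarith) (by linarith)
    calc (min ((3 / 2 : ℝ) ^ (1 / q)) ((1 + (2 : ℝ) ^ (1 / α)) / 2)) ^ q ≤ ((3 / 2 : ℝ) ^ (1 / q)) ^ q :=
        Real.rpow_le_rpow h3 (min_le_left _ _) hq.le
      _ = 3 / 2 := by
        rw [← Real.rpow_mul (by norm_num), one_div_mul_cancel hq.ne', Real.rpow_one]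
  · exact lt_of_le_of_lt (min_le_right _ _) (by linarith)

theorem E7_tj_pos {t₀ : ℝ} (ht₀ : 0 < t₀) (j : ℕ) : 0 < tj t₀ j := by
  unfold tj; positivity

theorem E7_hj_pos {c₀ α t₀ : ℝ} (hc₀ : 0 < c₀) (ht₀ : 0 < t₀) (j : ℕ) : 0 < hj c₀ α t₀ j := by
  unfold hj
  have := E7_tj_pos ht₀ j
  positivity

/-- the amplitudes tend to zero -/
theorem E7_small {α l c₀ t₀ : ℝ} (hα : 0 < α) (hl : 1 < l) (hl2 : l < (2 : ℝ) ^ (1 / α)) (hc₀ : 0 < c₀) (ht₀ : 0 < t₀) :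
    Tendsto (fun j : ℕ => hj c₀ α t₀ (j + 1) * l ^ (j + 1)) atTop (𝓝 0) := by
  have h1 : ∀ j : ℕ, hj c₀ α t₀ (j + 1) * l ^ (j + 1) =
      (c₀ * t₀ ^ (-(1 / α)) * l) * (((2 : ℝ) ^ (1 / α))⁻¹ * l) ^ j := by
    intro j
    unfold hj tj
    rw [Nat.add_sub_cancel, Real.mul_rpow (by positivity) ht₀.le, ← Real.rpow_natCast 2 j,
      ← Real.rpow_mul (by norm_num), mul_pow, ← Real.rpow_neg (by norm_num), ← Real.rpow_natCast ((2 : ℝ) ^ (-(1 / α))) j,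
      ← Real.rpow_mul (by norm_num), mul_comm (-(1 / α)) (j : ℝ), pow_succ]
    ring
  have h2 : Tendsto (fun j : ℕ => (((2 : ℝ) ^ (1 / α))⁻¹ * l) ^ j) atTop (𝓝 0) := by
    have h3 : (0 : ℝ) < (2 : ℝ) ^ (1 / α) := by positivity
    apply tendsto_pow_atTop_nhds_zero_of_lt_one (by positivity)
    rw [inv_mul_lt_iff₀ h3, mul_one]
    exact hl2
  have h4 := h2.const_mul (c₀ * t₀ ^ (-(1 / α)) * l)
  rw [mul_zero] at h4
  exact h4.congr fun j => (h1 j).symm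

theorem E7_kap {j : ℕ} (hj : 1 ≤ j) (M : ℕ) : kap M j = 2 ^ (j - 1) * M := by
  obtain ⟨i, rfl⟩ := Nat.exists_eq_add_of_le' hj
  rfl

section
variable {E : Type*} [NormedAddCommGroup E] [InnerProductSpace ℝ E] [FiniteDimensional ℝ E]
  [MeasurableSpace E] [BorelSpace E] {Ω : Set E} {a α : ℝ} {n : ℕ}

/-- convergence of the schemes -/
theorem E7_lim (hΩ : IsOpen Ω) (ha : 0 < a) (hα : 0 < α) {J : ℝ → EnergySpace Ω → EnergySpace Ω}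
    (hJ : IsJ Ω a α J) {V : ℝ → EnergySpace Ω} (hV : IsTrajectory Ω a α V) {t₀ : ℝ} (ht₀ : 0 < t₀) {j : ℕ} (hj : 1 ≤ j) :
    Tendsto (fun M : ℕ => (J (t₀ / M))^[kap M j] (V 0)) atTop (𝓝 (V (tj t₀ j))) := by
  have h1 := (traj_facts hΩ ha hα hJ hV).2.1 (tj t₀ j) (E7_tj_pos ht₀ j)
  have h2 : Tendsto (fun M : ℕ => 2 ^ (j - 1) * M) atTop atTop :=
    tendsto_id.const_mul_atTop' (by positivity)
  have h3 := h1.comp h2
  refine h3.congr fun M => ?_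
  rw [Function.comp_apply, E7_kap hj]
  unfold tj
  push_cast
  rw [mul_div_mul_left _ _ (by positivity)]

/-- the damping in the windows -/
theorem E7_dw (hΩ : IsOpen Ω) (ha : 0 < a) (hα : 0 < α) {J : ℝ → EnergySpace Ω → EnergySpace Ω}
    (hJ : IsJ Ω a α J) {U : ℝ → EnergySpace Ω} (hU : IsTrajectory Ω a α U) {ζ : EnergySpace Ω}
    (hζ : WaveOp Ω a α (U 0) ζ) {t₀ δ δD ηD : ℝ} (ht₀ : 0 < t₀) (hδ : 4 * δ ≤ δD) (hδD : 0 < δD)
    (hdec : ∀ t ≥ t₀, t ^ (2 / α) * ‖U t‖ ^ 2 ≤ δ)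
    (hdw : ∀ J : ℝ → EnergySpace Ω → EnergySpace Ω, IsJ Ω a α J →
      ∀ (x : EnergySpace Ω) (h : ℝ) (k₁ k₂ : ℕ), 0 < h → k₁ < k₂ →
        (h * ((k₂ : ℝ) - k₁)) ^ (2 / α) * ‖(J h)^[k₁] x‖ ^ 2 ≤ δD → Dw α J h x k₁ k₂ ≤ ηD) (J₂ : ℕ) :
    ∀ᶠ M : ℕ in atTop, ∀ w, 1 ≤ w → w < J₂ →
      Dw α J (t₀ / M) (U 0) (kap M w) (kap M (w + 1)) ≤ ηD := by
  have hT : (0 : ℝ) < 2 ^ J₂ * t₀ := by positivity
  have h1 := tendsto_const_div_atTop_nhds_zero_nat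
    (2 * (2 ^ J₂ * t₀) ^ (2 / α) * (‖ζ‖ ^ 2 * (2 ^ J₂ * t₀) ^ 2 / 2 ^ J₂))
  have h2 := h1.eventually (ge_mem_nhds (show (0 : ℝ) < δD / 2 by positivity))
  filter_upwards [h2, eventually_gt_atTop 0] with M hM hM0 w hw1 hw2
  have hMr : (0 : ℝ) < M := by exact_mod_cast hM0
  have hk1 : kap M w = 2 ^ (w - 1) * M := E7_kap hw1 M
  have hk2 : kap M (w + 1) = 2 ^ w * M := rfl
  have hpow : (2 : ℕ) ^ w = 2 * 2 ^ (w - 1) := by
    rw [← pow_succ', Nat.sub_add_cancel hw1]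
  have hpowr : (2 : ℝ) ^ w = 2 * 2 ^ (w - 1) := by
    rw [← pow_succ', Nat.sub_add_cancel hw1]
  have hp : 0 < 2 ^ (w - 1) * M := by positivity
  refine hdw J hJ (U 0) (t₀ / M) (kap M w) (kap M (w + 1)) (by positivity) ?_ ?_
  · rw [hk1, hk2, hpow, mul_assoc]
    omega
  · have e1 : t₀ / M * (((kap M (w + 1) : ℕ) : ℝ) - (kap M w : ℕ)) = 2 ^ (w - 1) * t₀ := by
      rw [hk1, hk2]
      push_cast
      rw [hpowr]
      field_simp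
      ring
    rw [e1]
    set s : ℝ := 2 ^ (w - 1) * t₀ with hs
    have hst : t₀ ≤ s := by
      have : (1 : ℝ) ≤ 2 ^ (w - 1) := one_le_pow₀ (by norm_num)
      rw [hs]
      nlinarith
    have hs0 : 0 < s := lt_of_lt_of_le ht₀ hst
    have hsT : s ≤ 2 ^ J₂ * t₀ := by
      have : (2 : ℝ) ^ (w - 1) ≤ 2 ^ J₂ := pow_le_pow_right₀ (by norm_num) (by omega)
      rw [hs]
      exact mul_le_mul_of_nonneg_right this ht₀.le
    have f := (traj_facts hΩ ha hα hJ hU).2.2 ζ hζ (2 ^ J₂ * t₀) hT (2 ^ J₂ * M) (by positivity) (kap M w) (by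
      rw [hk1]
      exact Nat.mul_le_mul_right M (Nat.pow_le_pow_right (by norm_num) (by omega)))
    have e2 : 2 ^ J₂ * t₀ / ((2 ^ J₂ * M : ℕ) : ℝ) = t₀ / M := by
      push_cast
      rw [mul_div_mul_left _ _ (by positivity)]
    rw [e2] at f
    have e3 : ((kap M w : ℕ) : ℝ) * (t₀ / M) = s := by
      rw [hk1, hs]
      push_cast
      field_simp
    rw [e3] at f
    set e : ℝ := ‖ζ‖ * (2 ^ J₂ * t₀ / √((2 ^ J₂ * M : ℕ) : ℝ)) with he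
    have hee : e ^ 2 = ‖ζ‖ ^ 2 * (2 ^ J₂ * t₀) ^ 2 / 2 ^ J₂ / M := by
      rw [he, mul_pow, div_pow, Real.sq_sqrt (Nat.cast_nonneg _)]
      push_cast
      field_simp
    have h3 : ‖(J (t₀ / M))^[kap M w] (U 0)‖ ≤ ‖U s‖ + e := by
      have := norm_sub_norm_le ((J (t₀ / M))^[kap M w] (U 0)) (U s)
      linarith
    have h4 : ‖(J (t₀ / M))^[kap M w] (U 0)‖ ^ 2 ≤ 2 * ‖U s‖ ^ 2 + 2 * e ^ 2 := by
      have h5 : ‖(J (t₀ / M))^[kap M w] (U 0)‖ ^ 2 ≤ (‖U s‖ + e) ^ 2 := pow_le_pow_left₀ (norm_nonneg _) h3 2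
      nlinarith [sq_nonneg (‖U s‖ - e)]
    have h5 := hdec s hst
    have h6 : (0 : ℝ) < s ^ (2 / α) := by positivity
    have h7 : s ^ (2 / α) ≤ (2 ^ J₂ * t₀) ^ (2 / α) := Real.rpow_le_rpow hs0.le hsT (by positivity)
    have h8 : s ^ (2 / α) * e ^ 2 ≤ (2 ^ J₂ * t₀) ^ (2 / α) * e ^ 2 := mul_le_mul_of_nonneg_right h7 (sq_nonneg _)
    have h9 : 2 * ((2 ^ J₂ * t₀) ^ (2 / α) * e ^ 2) ≤ δD / 2 := by
      rw [hee]
      refine le_trans (le_of_eq ?_) hM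
      ring
    calc s ^ (2 / α) * ‖(J (t₀ / M))^[kap M w] (U 0)‖ ^ 2 ≤ s ^ (2 / α) * (2 * ‖U s‖ ^ 2 + 2 * e ^ 2) :=
        mul_le_mul_of_nonneg_left h4 h6.le
      _ = 2 * (s ^ (2 / α) * ‖U s‖ ^ 2) + 2 * (s ^ (2 / α) * e ^ 2) := by ring
      _ ≤ δD := by linarith

/-- extraction of a limit -/
theorem E7_extract (F : Fam Ω n) {R : ℕ → ℝ} {c : ℕ → ℝ} {J₁ J₂ : ℕ} {Q : ℕ → ℕ → EnergySpace Ω → ℝ}
    (hQ : ∀ M j X Y, Q M j X ≤ Q M j Y + ‖X - Y‖)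
    (h : ∀ᶠ M : ℕ in atTop, ∃ j, J₁ ≤ j ∧ j < J₂ ∧ ∃ z : Fin n ⊕ Fin n → ℝ, ‖Zst F z‖ ≤ R j ∧ c j ≤ Q M j (Zst F z)) :
    ∃ j, J₁ ≤ j ∧ j < J₂ ∧ ∃ X : EnergySpace Ω, ‖X‖ ≤ R j ∧ ∃ φ : ℕ → ℕ, Tendsto φ atTop atTop ∧
      ∀ L, Tendsto (fun i => Q (φ i) j X) atTop (𝓝 L) → c j ≤ L := by
  classical
  obtain ⟨hz1, hz2, hz3, -⟩ := zst_facts F
  -- constant j
  have h1 : ∃ j ∈ Finset.range J₂, ∃ᶠ M : ℕ in atTop, J₁ ≤ j ∧ ∃ z : Fin n ⊕ Fin n → ℝ, ‖Zst F z‖ ≤ R j ∧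
      c j ≤ Q M j (Zst F z) := by
    by_contra hcon
    push Not at hcon
    have h2 : ∀ᶠ M : ℕ in atTop, ∀ j ∈ Finset.range J₂, ¬ (J₁ ≤ j ∧ ∃ z : Fin n ⊕ Fin n → ℝ, ‖Zst F z‖ ≤ R j ∧
      c j ≤ Q M j (Zst F z)) := by
      rw [Filter.eventually_all_finset]
      intro j hj
      exact (hcon j hj).mono fun M hM h' => by
        obtain ⟨h1, z, h2, h3⟩ := h'
        exact absurd (hM h1 z h2) (not_lt.2 h3)
    obtain ⟨M, hM1, hM2⟩ := (h.and h2).exists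
    obtain ⟨j, hj1, hj2, z, hz, hc⟩ := hM1
    exact hM2 j (Finset.mem_range.2 hj2) ⟨hj1, z, hz, hc⟩
  obtain ⟨j, hj, hfr⟩ := h1
  obtain ⟨φ, hφ, hall⟩ := Filter.extraction_of_frequently_atTop hfr
  have hJ₁ : J₁ ≤ j := (hall 0).1
  choose z hzR hzc using fun i => (hall i).2
  have hb : ∀ i, z i ∈ Metric.closedBall (0 : Fin n ⊕ Fin n → ℝ) (R j) := by
    intro i
    have hR : 0 ≤ R j := (norm_nonneg _).trans (hzR i)
    rw [mem_closedBall_zero_iff, pi_norm_le_iff_of_nonneg hR]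
    intro m
    have e1 : (z i m) ^ 2 ≤ R j ^ 2 := by
      have e2 : (z i m) ^ 2 ≤ ∑ m, (z i m) ^ 2 := Finset.single_le_sum (fun m _ => sq_nonneg (z i m)) (Finset.mem_univ m)
      rw [← hz1 (z i)] at e2
      exact e2.trans (pow_le_pow_left₀ (norm_nonneg _) (hzR i) 2)
    rw [Real.norm_eq_abs]
    exact abs_le_of_sq_le_sq e1 hR
  obtain ⟨zs, -, ψ, hψ, hlim⟩ := (isCompact_closedBall (0 : Fin n ⊕ Fin n → ℝ) (R j)).tendsto_subseq hb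
  have hnorm : Tendsto (fun i => ‖Zst F (z (ψ i)) - Zst F zs‖) atTop (𝓝 0) := by
    have e1 : ∀ i, ‖Zst F (z (ψ i)) - Zst F zs‖ = √(∑ m, (z (ψ i) m - zs m) ^ 2) := by
      intro i
      rw [← hz2, ← Real.sqrt_sq (norm_nonneg (Zst F (z (ψ i) - zs))), hz1]
      rfl
    have e2 : Tendsto (fun i => √(∑ m, (z (ψ i) m - zs m) ^ 2)) atTop (𝓝 √(∑ m, (zs m - zs m) ^ 2)) := by
      apply (Real.continuous_sqrt.tendsto _).comp
      apply tendsto_finsetSum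
      intro m _
      exact (((tendsto_pi_nhds.1 hlim m).sub_const (zs m)).pow 2)
    have e3 : √(∑ m, (zs m - zs m) ^ 2) = 0 := by simp
    rw [e3] at e2
    exact e2.congr fun i => (e1 i).symm
  refine ⟨j, hJ₁, Finset.mem_range.1 hj, Zst F zs, ?_, φ ∘ ψ, hφ.tendsto_atTop.comp hψ.tendsto_atTop, ?_⟩
  · have e1 : ∀ i, ‖Zst F zs‖ ≤ R j + ‖Zst F (z (ψ i)) - Zst F zs‖ := by
      intro i
      have e2 := norm_sub_norm_le (Zst F zs) (Zst F (z (ψ i)))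
      rw [norm_sub_rev] at e2
      have e3 := hzR (ψ i)
      linarith
    have e4 : Tendsto (fun i => R j + ‖Zst F (z (ψ i)) - Zst F zs‖) atTop (𝓝 (R j + 0)) := hnorm.const_add _
    rw [add_zero] at e4
    exact ge_of_tendsto' e4 e1
  · intro L hL
    have e1 : ∀ i, c j ≤ Q (φ (ψ i)) j (Zst F zs) + ‖Zst F (z (ψ i)) - Zst F zs‖ := fun i =>
      (hzc (ψ i)).trans (hQ _ _ _ _)
    have e4 : Tendsto (fun i => Q (φ (ψ i)) j (Zst F zs) + ‖Zst F (z (ψ i)) - Zst F zs‖) atTop (𝓝 (L + 0)) := hL.add hnorm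
    rw [add_zero] at e4
    exact ge_of_tendsto' e4 e1

/-- the last step -/
theorem E7_final {θ c₀ δ α T hT u v : ℝ} (hα : 0 < α) (hθ : 0 < θ) (hc₀ : 0 < c₀) (hT0 : 0 < T)
    (hδ0 : 0 ≤ δ) (hδ : δ < 9 / 256 * θ * c₀ ^ 2)
    (hh : hT = c₀ * T ^ (-(1 / α))) (hu : T ^ (2 / α) * u ^ 2 ≤ δ) (hu0 : 0 ≤ u) (hv0 : 0 ≤ v)
    (h : 3 / 4 * √θ * hT ≤ v + u) : δ < T ^ (2 / α) * v ^ 2 := by
  have hP : 0 < T ^ (1 / α) := by positivity
  have hP2 : T ^ (2 / α) = (T ^ (1 / α)) ^ 2 := by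
    rw [← Real.rpow_natCast, ← Real.rpow_mul hT0.le]
    congr 1
    push_cast
    ring
  have hPn : T ^ (1 / α) * T ^ (-(1 / α)) = 1 := by
    rw [← Real.rpow_add hT0, add_neg_cancel, Real.rpow_zero]
  set P := T ^ (1 / α) with hPd
  have hsθ : 0 < √θ := Real.sqrt_pos.2 hθ
  have h1 : √δ < 3 / 16 * √θ * c₀ := by
    rw [Real.sqrt_lt' (by positivity), mul_pow, mul_pow, Real.sq_sqrt hθ.le]
    refine lt_of_lt_of_eq hδ ?_
    ring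
  have h2 : P * u ≤ √δ := by
    apply Real.le_sqrt_of_sq_le
    rw [mul_pow, ← hP2]
    exact hu
  have h3 : 3 / 4 * √θ * c₀ ≤ P * v + P * u := by
    have h4 := mul_le_mul_of_nonneg_left h hP.le
    have h5 : P * (3 / 4 * √θ * hT) = 3 / 4 * √θ * c₀ := by
      rw [hh]
      calc P * (3 / 4 * √θ * (c₀ * T ^ (-(1 / α)))) = 3 / 4 * √θ * c₀ * (P * T ^ (-(1 / α))) := by ring
        _ = 3 / 4 * √θ * c₀ := by rw [hPn, mul_one]
    rw [h5] at h4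
    linarith
  have h6 : √δ < P * v := by
    have : 0 < √θ * c₀ := by positivity
    linarith
  have h7 : √δ ^ 2 < (P * v) ^ 2 := pow_lt_pow_left₀ h6 (Real.sqrt_nonneg _) two_ne_zero
  rw [Real.sq_sqrt hδ0, mul_pow, ← hP2] at h7
  exact h7

/-- [E7] THEOREM B. -/
theorem thmB (hΩ : IsOpen Ω) (ha : 0 < a) (hα : 0 < α) (hfin : volume Ω < ⊤) {C : ℝ}
    (hC : 0 < C) (hG : Good Ω C) : ∃ δ : ℝ, 0 < δ ∧ ∀ U : ℝ → EnergySpace Ω,
      IsTrajectory Ω a α U → ∀ ζ, WaveOp Ω a α (U 0) ζ → ∀ t₀ > 0,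
      (∀ t ≥ t₀, t ^ (2 / α) * ‖U t‖ ^ 2 ≤ δ) → ∀ ρ > 0, ∃ X : EnergySpace Ω, ‖X‖ ≤ ρ ∧
      ∃ T ≥ t₀, ∀ V : ℝ → EnergySpace Ω, IsTrajectory Ω a α V → V 0 = U 0 + X →
        δ < T ^ (2 / α) * ‖V T‖ ^ 2 := by
  -- constants
  obtain ⟨CY, hCY, hY⟩ := young_q hα (c := a * (2 : ℝ) ^ (-α)) (by positivity)
  obtain ⟨C₂, p, hC₂, hp, hrem⟩ := rem2 ha hα
  obtain ⟨K₁, hK₁p, hK₁⟩ := khin (α + 2) (by positivity)
  obtain ⟨K₂, hK₂p, hK₂⟩ := khin (qe α) (qe_pos hα).le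
  obtain ⟨l, hl, hlp, hl2⟩ := E7_l (q := α + 2 + 3 * p) hα (by positivity)
  have hll : 0 < Real.log l := Real.log_pos hl
  have hl0 : 0 < l := by linarith
  set θ : ℝ := (l ^ 2)⁻¹ * Real.log l with hθd
  have hθ : 0 < θ := by positivity
  set B : ℝ := C₂ * (K₁ * √C ^ (α + 2) * (volume Ω).toReal) with hBd
  have hB : 0 ≤ B := by positivity
  obtain ⟨y, hy0, hy1⟩ : ∃ y : ℝ, 0 < y ∧ 4 * CY * (B * (6 * y)) ≤ θ / 48 := by
    refine ⟨θ / 48 / (24 * CY * B + 1), by positivity, ?_⟩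
    have e1 : 4 * CY * (B * (6 * (θ / 48 / (24 * CY * B + 1)))) = θ / 48 * (24 * CY * B / (24 * CY * B + 1)) := by ring
    rw [e1]
    have e2 : 24 * CY * B / (24 * CY * B + 1) ≤ 1 := by
      rw [div_le_one (by positivity)]
      linarith
    exact (mul_le_mul_of_nonneg_left e2 (by positivity)).trans (le_of_eq (mul_one _))
  set c₀ : ℝ := y ^ (1 / α) with hc₀d
  have hc₀ : 0 < c₀ := by positivity
  have hc₀α : c₀ ^ α = y := by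
    rw [hc₀d, ← Real.rpow_mul hy0.le, one_div_mul_cancel hα.ne', Real.rpow_one]
  have hli : 0 < 1 - l⁻¹ := by
    have : l⁻¹ < 1 := inv_lt_one_of_one_lt₀ hl
    linarith
  obtain ⟨ηD, hηD, hηD1, hηD2⟩ : ∃ ηD : ℝ, 0 < ηD ∧ 4 * CY * (C * (ηD / (1 - l⁻¹))) ≤ θ / 96 ∧
      C / 2 * (a * (α + 1)) * ηD ≤ Real.log l / 8 := by
    obtain ⟨η, hη, h⟩ := E7_fin {0, 1} (fun j => if j = 0 then 4 * CY * (C * (1 - l⁻¹)⁻¹) else C / 2 * (a * (α + 1)))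
      (fun j => if j = 0 then θ / 96 else Real.log l / 8) (fun j _ => by
        show 0 ≤ if j = 0 then 4 * CY * (C * (1 - l⁻¹)⁻¹) else C / 2 * (a * (α + 1))
        split_ifs <;> positivity) (fun j _ => by
        show 0 < if j = 0 then θ / 96 else Real.log l / 8
        split_ifs <;> positivity)
    have g0 := h 0 (by simp)
    have g1 := h 1 (by simp)
    simp only [if_true] at g0
    rw [if_neg one_ne_zero, if_neg one_ne_zero] at g1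
    refine ⟨η, hη, le_trans (le_of_eq ?_) g0, g1⟩
    rw [div_eq_mul_inv]
    ring
  obtain ⟨δD, hδD, hdw⟩ := (dwin ha hα hfin).1 ηD hηD
  set δ : ℝ := min (δD / 4) (9 / 256 * θ * c₀ ^ 2 / 2) with hδd
  have hδ : 0 < δ := lt_min (by positivity) (by positivity)
  have hδ1 : 4 * δ ≤ δD := by
    have := min_le_left (δD / 4) (9 / 256 * θ * c₀ ^ 2 / 2)
    linarith
  have hδ2 : δ < 9 / 256 * θ * c₀ ^ 2 := by
    have h1 := min_le_right (δD / 4) (9 / 256 * θ * c₀ ^ 2 / 2)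
    have h2 : 0 < 9 / 256 * θ * c₀ ^ 2 := by positivity
    linarith
  refine ⟨δ, hδ, fun U hU ζ hζ t₀ ht₀ hdec ρ hρ => ?_⟩
  obtain ⟨J, hJ'⟩ := exists_J (Ω := Ω) ha hα
  have hJ : IsJ Ω a α J := hJ'
  obtain ⟨D₀, hD₀, hD₀'⟩ := (dwin ha hα hfin).2 t₀ ‖U 0‖ ht₀ (norm_nonneg _)
  -- J₁
  obtain ⟨J₁, hJ₁, hJ₁ρ, hJ₁D⟩ : ∃ J₁ : ℕ, 1 ≤ J₁ ∧ (∀ j ≥ J₁, hj c₀ α t₀ j * l ^ j ≤ ρ) ∧
      4 * CY * (C * (D₀ * (l ^ J₁)⁻¹)) ≤ θ / 96 := by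
    have h1 := (E7_small hα hl hl2 hc₀ ht₀).eventually (ge_mem_nhds hρ)
    have h2 : Tendsto (fun J₁ : ℕ => 4 * CY * (C * (D₀ * (l ^ J₁)⁻¹))) atTop (𝓝 (4 * CY * (C * (D₀ * 0)))) := by
      have h3 : Tendsto (fun J₁ : ℕ => (l ^ J₁)⁻¹) atTop (𝓝 0) :=
        (tendsto_pow_atTop_atTop_of_one_lt hl).inv_tendsto_atTop
      exact ((h3.const_mul D₀).const_mul C).const_mul (4 * CY)
    rw [mul_zero, mul_zero, mul_zero] at h2
    have h3 := h2.eventually (ge_mem_nhds (show (0 : ℝ) < θ / 96 by positivity))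
    obtain ⟨N₁, hN₁⟩ := Filter.eventually_atTop.1 h1
    obtain ⟨N₂, hN₂⟩ := Filter.eventually_atTop.1 h3
    refine ⟨max (N₁ + 1) N₂, by omega, fun j hj' => ?_, hN₂ _ (le_max_right _ _)⟩
    have h4 : N₁ + 1 ≤ j := (le_max_left _ _).trans hj'
    obtain ⟨i, rfl⟩ := Nat.exists_eq_add_of_le' (show 1 ≤ j by omega)
    exact hN₁ i (by omega)
  -- J₂
  obtain ⟨J₂, hJ₂⟩ : ∃ J₂ : ℕ, (J₁ : ℝ) + J₂ * θ < (l ^ 2)⁻¹ * (2 * J₂ * Real.log l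
      - 2 * (C / 2 * (a * (α + 1)) * D₀ + J₂ * (Real.log l / 4))) := by
    obtain ⟨J₂, hJ₂⟩ := exists_nat_gt (((J₁ : ℝ) + (l ^ 2)⁻¹ * (2 * (C / 2 * (a * (α + 1)) * D₀))) / (θ / 2))
    refine ⟨J₂, ?_⟩
    rw [div_lt_iff₀ (by positivity)] at hJ₂
    have e1 : (l ^ 2)⁻¹ * (2 * J₂ * Real.log l - 2 * (C / 2 * (a * (α + 1)) * D₀ + J₂ * (Real.log l / 4))) =
        J₂ * (3 / 2 * θ) - (l ^ 2)⁻¹ * (2 * (C / 2 * (a * (α + 1)) * D₀)) := by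
      rw [hθd]
      ring
    rw [e1]
    linarith
  -- η
  obtain ⟨η, hη, h5⟩ := E7_fin (Finset.range J₂)
    (fun j => 4 * CY * (K₂ * (√C * (hj c₀ α t₀ j * l ^ j)) ^ qe α * (‖U 0‖ ^ 2 / (2 * a))))
    (fun j => θ / 96 * (hj c₀ α t₀ j) ^ 2) (fun j _ => by
      have := E7_hj_pos (α := α) hc₀ ht₀ j
      positivity) (fun j _ => by
      have := E7_hj_pos (α := α) hc₀ ht₀ j
      positivity)
  obtain ⟨k, hk, hr⟩ := hrem η hη
  obtain ⟨δL, hδL, h6⟩ := E7_fin (Finset.range J₂)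
    (fun j => 4 * (tj t₀ j) ^ 2 * (hj c₀ α t₀ j * l ^ j) ^ 2)
    (fun j => θ / 96 * (hj c₀ α t₀ j) ^ 2) (fun j _ => by positivity) (fun j _ => by
      have := E7_hj_pos (α := α) hc₀ ht₀ j
      positivity)
  have hTT : (0 : ℝ) < 2 ^ J₂ * t₀ := by positivity
  obtain ⟨n, hn, F, hP, M₀, hM₀, hleak⟩ := fam_scheme ha hα hfin hC hG hJ hζ hTT hk hδL
  -- the estimate for large M
  have hE : ∀ᶠ M : ℕ in atTop, t₀ / M * (2 ^ J₂ * t₀) / (4 * n) * (2 * ∑ i, F.lam i + n ^ 2 * k ^ 2)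
      ≤ Real.log l / 8 := by
    have h1 := tendsto_const_div_atTop_nhds_zero_nat
      (t₀ * (2 ^ J₂ * t₀) / (4 * n) * (2 * ∑ i, F.lam i + n ^ 2 * k ^ 2))
    have h2 := h1.eventually (ge_mem_nhds (show (0 : ℝ) < Real.log l / 8 by positivity))
    filter_upwards [h2] with M hM
    refine le_trans (le_of_eq ?_) hM
    ring
  have hev : ∀ᶠ M : ℕ in atTop, ∃ j, J₁ ≤ j ∧ j < J₂ ∧ ∃ z : Fin n ⊕ Fin n → ℝ,
      ‖Zst F z‖ ≤ hj c₀ α t₀ j * l ^ j ∧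
      3 / 4 * √θ * hj c₀ α t₀ j
        ≤ ‖(J (t₀ / M))^[kap M j] (U 0 + Zst F z) - (J (t₀ / M))^[kap M j] (U 0)‖ := by
    filter_upwards [hE, E7_dw hΩ ha hα hJ hU hζ ht₀ hδ1 hδD hdec hdw J₂, eventually_gt_atTop 0,
      eventually_ge_atTop M₀] with M hM1 hM2 hM3 hM4
    have hMr : (0 : ℝ) < M := by exact_mod_cast hM3
    refine one_scheme ha hα hfin hn F hC hP hJ (U 0) (CY := CY) (K₁ := K₁) (K₂ := K₂) (C₂ := C₂) (p := p)
      (η := η) (k := k) (δ := δL) (l := l) (θ := θ) (c₀ := c₀) (t₀ := t₀) (D₀ := D₀) (ηD := ηD) hCY.le hK₁p.le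
      hK₂p.le hC₂.le hp hδL.le hY (fun c σ hσ hc => hK₁ _ c σ hσ hc) (fun c σ hσ hc => hK₂ _ c σ hσ hc) hη.le hk hr
      hl hlp rfl hc₀ ht₀ hηD.le hD₀ hηD1 ?_ hηD2 hJ₁ hJ₁D hJ₂ ?_ ?_ hM3 ?_ hM2 hM1 ?_
    · rw [hc₀α]
      exact hy1
    · intro j _ hj2
      refine le_trans (le_of_eq ?_) (h5 j (Finset.mem_range.2 hj2))
      ring
    · intro j _ hj2
      refine le_trans (le_of_eq ?_) (h6 j (Finset.mem_range.2 hj2))
      ring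
    · refine hD₀' J hJ (U 0) (t₀ / M) M (by positivity) (le_of_eq ?_) le_rfl
      field_simp
    · intro i hi
      have h1 := hleak (2 ^ J₂ * M) (hM4.trans (Nat.le_mul_of_pos_left M (by positivity))) i hi
      have e2 : 2 ^ J₂ * t₀ / ((2 ^ J₂ * M : ℕ) : ℝ) = t₀ / M := by
        push_cast
        rw [mul_div_mul_left _ _ (by positivity)]
      rw [e2] at h1
      exact h1
  obtain ⟨j, hj1, hj2, X, hX, φ, hφ, hlim⟩ := E7_extract F (R := fun j => hj c₀ α t₀ j * l ^ j)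
    (c := fun j => 3 / 4 * √θ * hj c₀ α t₀ j)
    (Q := fun M j X => if 0 < M then ‖(J (t₀ / M))^[kap M j] (U 0 + X) - (J (t₀ / M))^[kap M j] (U 0)‖ else 0) (by
      intro M j X Y
      show (if 0 < M then ‖(J (t₀ / M))^[kap M j] (U 0 + X) - (J (t₀ / M))^[kap M j] (U 0)‖ else 0) ≤
        (if 0 < M then ‖(J (t₀ / M))^[kap M j] (U 0 + Y) - (J (t₀ / M))^[kap M j] (U 0)‖ else 0) + ‖X - Y‖
      split_ifs with hM
      · have hMr : (0 : ℝ) < M := by exact_mod_cast hM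
        have h1 := iter_le (mono_waveOp ha hα) hJ' (show 0 < t₀ / M by positivity) (U 0 + X) (U 0 + Y) (kap M j)
        have h2 : (U 0 + X) - (U 0 + Y) = X - Y := by abel
        rw [h2] at h1
        have h3 := norm_sub_le_norm_sub_add_norm_sub ((J (t₀ / M))^[kap M j] (U 0 + X))
          ((J (t₀ / M))^[kap M j] (U 0 + Y)) ((J (t₀ / M))^[kap M j] (U 0))
        linarith
      · positivity) (by
      filter_upwards [hev, eventually_gt_atTop 0] with M hM hM0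
      obtain ⟨j, h1, h2, z, h3, h4⟩ := hM
      refine ⟨j, h1, h2, z, h3, ?_⟩
      show _ ≤ (if 0 < M then ‖(J (t₀ / M))^[kap M j] (U 0 + Zst F z) - (J (t₀ / M))^[kap M j] (U 0)‖ else 0)
      rw [if_pos hM0]
      exact h4)
  have hj1' : 1 ≤ j := hJ₁.trans hj1
  have hTt : t₀ ≤ tj t₀ j := by
    unfold tj
    have : (1 : ℝ) ≤ 2 ^ (j - 1) := one_le_pow₀ (by norm_num)
    nlinarith
  refine ⟨X, hX.trans (hJ₁ρ j hj1), tj t₀ j, hTt, fun V hV hV0 => ?_⟩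
  have l1 := (E7_lim hΩ ha hα hJ hV ht₀ hj1').comp hφ
  have l2 := (E7_lim hΩ ha hα hJ hU ht₀ hj1').comp hφ
  have l3 := (l1.sub l2).norm
  have l4 := hlim ‖V (tj t₀ j) - U (tj t₀ j)‖ (by
    refine l3.congr' ?_
    filter_upwards [hφ.eventually (eventually_gt_atTop 0)] with i hi
    show _ = (if 0 < φ i then ‖(J (t₀ / (φ i : ℕ)))^[kap (φ i) j] (U 0 + X) - (J (t₀ / (φ i : ℕ)))^[kap (φ i) j] (U 0)‖ else 0)
    rw [if_pos hi, ← hV0]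
    rfl)
  have l5 := norm_sub_le (V (tj t₀ j)) (U (tj t₀ j))
  exact E7_final (u := ‖U (tj t₀ j)‖) hα hθ hc₀ (E7_tj_pos ht₀ j) hδ.le hδ2 rfl (hdec _ hTt) (norm_nonneg _) (norm_nonneg _) (l4.trans l5)

end

end Pool.Agent.MP_4c4330_an.Gen
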