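import Pool.Agent.MP_4c4330_an.FDefs

open MeasureTheory

namespace Pool.Agent.MP_4c4330_an.Fn

variable {E : Type*} [NormedAddCommGroup E] [InnerProductSpace ℝ E] [FiniteDimensional ℝ E]
  [MeasurableSpace E] [BorelSpace E]

/-- `G` is an open and dense set of the energy space (with the energy norm). -/
def IsOpenDense (Ω : Set E) (G : Set ((E → E) × (E → ℝ))) : Prop :=
  (∀ x ∈ G, InEnergySpace Ω x → ∃ ε > 0, ∀ y, InEnergySpace Ω y → energy Ω (y - x) < ε → y ∈ G) ∧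
  ∀ x, InEnergySpace Ω x → ∀ ε > 0, ∃ y ∈ G, InEnergySpace Ω y ∧ energy Ω (y - x) < ε

/-- There are `δ > 0` and open dense sets `G 0, G 1, …` of the energy space such that for all
initial data `x` in all the `G n` there is a trajectory `U` with `U 0 = x`, and every such
trajectory satisfies `t ^ (2 / α) E(t) > δ` for arbitrarily large `t`. -/
def GenericLimsup (Ω : Set E) (a α : ℝ) : Prop :=
  ∃ δ : ℝ, 0 < δ ∧ ∃ G : ℕ → Set ((E → E) × (E → ℝ)), (∀ n, IsOpenDense Ω (G n)) ∧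
    ∀ x, InEnergySpace Ω x → (∀ n, x ∈ G n) →
      (∃ U, IsTrajectory Ω a α U ∧ U 0 = x) ∧
      ∀ U, IsTrajectory Ω a α U → U 0 = x →
        ∀ T₀ : ℝ, ∃ t ≥ T₀, 0 < t ∧ δ < t ^ (2 / α) * energy Ω (U t)

end Pool.Agent.MP_4c4330_an.Fn
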