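import Pool.Agent.MP_4c4330_an.Gen.Defs2
import Pool.Agent.MP_4c4330_an.Gen.E7
open MeasureTheory Set Filter Topology
open scoped ENNReal ContDiff
namespace Pool.Agent.MP_4c4330_an.Gen

set_option linter.unusedSectionVars false

section
variable {E : Type*} [NormedAddCommGroup E] [InnerProductSpace ℝ E] [FiniteDimensional ℝ E]
  [MeasurableSpace E] [BorelSpace E] {Ω : Set E} {a α : ℝ} {n : ℕ}

/-- [G3] the generic statement. -/
theorem generic_lim (hΩ : IsOpen Ω) (ha : 0 < a) (hα : 0 < α) (hfin : volume Ω < ⊤) {C : ℝ}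
    (hC : 0 < C) (hG : Good Ω C) : ∃ δ : ℝ, 0 < δ ∧
    ∀ᶠ x in residual (EnergySpace Ω), ∀ U : ℝ → EnergySpace Ω, IsTrajectory Ω a α U → U 0 = x →
      ∀ T₀ : ℝ, ∃ t ≥ T₀, 0 < t ∧ δ < t ^ (2 / α) * ‖U t‖ ^ 2 := by
  obtain ⟨δ, hδ, hB⟩ := thmB hΩ ha hα hfin hC hG
  refine ⟨δ, hδ, ?_⟩
  choose S hS0 hS using fun x : EnergySpace Ω => traj_exists (a := a) (α := α) hΩ ha hα x
  have hcont : ∀ t : ℝ, 0 ≤ t → Continuous fun x => S x t := by
    intro t ht
    refine LipschitzWith.continuous (K := 1) (LipschitzWith.of_dist_le_mul fun x y => ?_)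
    rw [dist_eq_norm, dist_eq_norm]
    have := traj_le ha hα (hS x) (hS y) ht
    rw [hS0, hS0] at this
    simpa using this
  have hall : ∀ᶠ x in residual (EnergySpace Ω), ∀ n : ℕ,
      ∃ t : ℝ, (n : ℝ) ≤ t ∧ 0 < t ∧ δ < t ^ (2 / α) * ‖S x t‖ ^ 2 := by
    rw [eventually_countable_forall]
    intro n
    apply residual_of_dense_open
    · have : {x : EnergySpace Ω | ∃ t : ℝ, (n : ℝ) ≤ t ∧ 0 < t ∧ δ < t ^ (2 / α) * ‖S x t‖ ^ 2} =
          ⋃ t : ℝ, ⋃ _ : (n : ℝ) ≤ t ∧ 0 < t, {x | δ < t ^ (2 / α) * ‖S x t‖ ^ 2} := by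
        ext x
        simp only [mem_setOf_eq, mem_iUnion, exists_prop, and_assoc]
      change IsOpen {x : EnergySpace Ω | ∃ t : ℝ, (n : ℝ) ≤ t ∧ 0 < t ∧
        δ < t ^ (2 / α) * ‖S x t‖ ^ 2}
      rw [this]
      refine isOpen_iUnion fun t => isOpen_iUnion fun ht => ?_
      exact isOpen_lt continuous_const (continuous_const.mul ((hcont t ht.2.le).norm.pow 2))
    · intro x
      change x ∈ closure {x : EnergySpace Ω | ∃ t : ℝ, (n : ℝ) ≤ t ∧ 0 < t ∧
        δ < t ^ (2 / α) * ‖S x t‖ ^ 2}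
      rw [Metric.mem_closure_iff]
      intro r hr
      have hx := dense_domain hΩ ha hα x
      rw [Metric.mem_closure_iff] at hx
      obtain ⟨y, ⟨ζ, hζ⟩, hy⟩ := hx (r / 2) (by linarith)
      by_cases hyO : ∃ t : ℝ, (n : ℝ) ≤ t ∧ 0 < t ∧ δ < t ^ (2 / α) * ‖S y t‖ ^ 2
      · exact ⟨y, hyO, by linarith⟩
      · push Not at hyO
        have ht0 : (0 : ℝ) < max (n : ℝ) 1 := lt_of_lt_of_le one_pos (le_max_right _ _)
        obtain ⟨X, hX, T, hT, hV⟩ := hB (S y) (hS y) ζ (by rw [hS0]; exact hζ) (max (n : ℝ) 1) ht0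
          (fun t ht => hyO t ((le_max_left _ _).trans ht) (lt_of_lt_of_le ht0 ht)) (r / 4)
          (by linarith)
        refine ⟨y + X, ⟨T, (le_max_left _ _).trans hT, lt_of_lt_of_le ht0 hT,
          hV (S (y + X)) (hS _) (by rw [hS0, hS0])⟩, ?_⟩
        calc dist x (y + X) ≤ dist x y + dist y (y + X) := dist_triangle _ _ _
          _ = dist x y + ‖X‖ := by rw [dist_eq_norm y (y + X)]; congr 1; rw [← norm_neg]; simp
          _ < r := by linarith
  filter_upwards [hall] with x hx U hU hU0 T₀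
  obtain ⟨n, hn⟩ := exists_nat_ge T₀
  obtain ⟨t, h1, h2, h3⟩ := hx n
  refine ⟨t, hn.trans h1, h2, ?_⟩
  have : U t = S x t := traj_unique ha hα hU (hS x) (by rw [hU0, hS0]) h2.le
  rw [this]
  exact h3

end

end Pool.Agent.MP_4c4330_an.Gen
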