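import Pool.Agent.MP_4c4330_an.Gen.Defs

open MeasureTheory Set Filter Topology
open scoped ENNReal ContDiff

namespace Pool.Agent.MP_4c4330_an.Gen

section
variable {E : Type*} [NormedAddCommGroup E] [InnerProductSpace ℝ E] [FiniteDimensional ℝ E]
  [MeasurableSpace E] [BorelSpace E] {Ω : Set E}

theorem H1_exists {l : ℝ} (hl : 0 < l) (h : Lp ℝ 2 (volume.restrict Ω)) : ∃ w r, IsRes Ω l h w r := by
  let H := Lp ℝ 2 (volume.restrict Ω)
  let G := Lp E 2 (volume.restrict Ω)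
  let c : ℝ := √l
  have hc : 0 < c := Real.sqrt_pos.2 hl
  have hcc : c * c = l := Real.mul_self_sqrt hl.le
  let L1 : WithLp 2 (H × G) →L[ℝ] H × G := (WithLp.prodContinuousLinearEquiv 2 ℝ H G : WithLp 2 (H × G) →L[ℝ] H × G)
  let L2 : H × G →L[ℝ] H × G := ContinuousLinearMap.prodMap (ContinuousLinearMap.id ℝ H) (c • ContinuousLinearMap.id ℝ G)
  let K : Submodule ℝ (WithLp 2 (H × G)) := (testPairs Ω).topologicalClosure.comap (L2.comp L1 : WithLp 2 (H × G) →ₗ[ℝ] H × G)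
  have hKmem : ∀ z : WithLp 2 (H × G), z ∈ K ↔ InH10 Ω z.fst (c • z.snd) := fun z => Iff.rfl
  have hK : IsClosed (K : Set (WithLp 2 (H × G))) :=
    (Submodule.isClosed_topologicalClosure (testPairs Ω)).preimage (L2.comp L1).continuous
  let z0 : WithLp 2 (H × G) := WithLp.toLp 2 (h, 0)
  obtain ⟨p, hpK, hp⟩ := Submodule.exists_norm_eq_iInf_of_complete_subspace K hK.isComplete z0
  have hp' := (Submodule.norm_eq_iInf_iff_real_inner_eq_zero K hpK).1 hp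
  refine ⟨p.fst, c • p.snd, (hKmem p).1 hpK, ?_⟩
  intro w' r' hw'
  let y : WithLp 2 (H × G) := WithLp.toLp 2 (w', c⁻¹ • r')
  have hyK : y ∈ K := by
    rw [hKmem]
    show InH10 Ω w' (c • (c⁻¹ • r'))
    rw [smul_smul, mul_inv_cancel₀ hc.ne', one_smul]
    exact hw'
  have h1 := hp' y hyK
  rw [WithLp.prod_inner_apply] at h1
  have h2 : inner ℝ (h - p.fst) w' + inner ℝ (0 - p.snd) (c⁻¹ • r') = 0 := h1
  rw [inner_sub_left, zero_sub, inner_neg_left, inner_smul_right] at h2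
  rw [inner_smul_left]
  simp only [conj_trivial]
  have h3 : l⁻¹ * (c * inner ℝ p.snd r') = c⁻¹ * inner ℝ p.snd r' := by
    rw [← hcc]
    field_simp
  rw [h3]
  linarith

theorem H1_self {l : ℝ} {h w : Lp ℝ 2 (volume.restrict Ω)} {r : Lp E 2 (volume.restrict Ω)}
    (H : IsRes Ω l h w r) : ‖w‖ ^ 2 + l⁻¹ * ‖r‖ ^ 2 = inner ℝ h w := by
  have h1 := H.2 w r H.1
  rw [real_inner_self_eq_norm_sq, real_inner_self_eq_norm_sq] at h1
  exact h1

theorem H1_add {l : ℝ} {h w h' w' : Lp ℝ 2 (volume.restrict Ω)} {r r' : Lp E 2 (volume.restrict Ω)}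
    (H : IsRes Ω l h w r) (H' : IsRes Ω l h' w' r') : IsRes Ω l (h + h') (w + w') (r + r') := by
  refine ⟨H.1.add H'.1, fun w'' r'' hw => ?_⟩
  rw [inner_add_left, inner_add_left, inner_add_left, ← H.2 w'' r'' hw, ← H'.2 w'' r'' hw]
  ring

theorem H1_smul {l : ℝ} (c : ℝ) {h w : Lp ℝ 2 (volume.restrict Ω)} {r : Lp E 2 (volume.restrict Ω)}
    (H : IsRes Ω l h w r) : IsRes Ω l (c • h) (c • w) (c • r) := by
  refine ⟨H.1.smul c, fun w'' r'' hw => ?_⟩
  rw [inner_smul_left, inner_smul_left, inner_smul_left, ← H.2 w'' r'' hw]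
  simp only [conj_trivial]
  ring

theorem H1_zero {l : ℝ} (hl : 0 < l) {w : Lp ℝ 2 (volume.restrict Ω)} {r : Lp E 2 (volume.restrict Ω)}
    (H : IsRes Ω l 0 w r) : w = 0 ∧ r = 0 := by
  have h1 := H1_self H
  rw [inner_zero_left] at h1
  have h2 : 0 ≤ ‖w‖ ^ 2 := by positivity
  have h3 : 0 ≤ l⁻¹ * ‖r‖ ^ 2 := by positivity
  have h4 : ‖w‖ ^ 2 = 0 := by linarith
  have h5 : l⁻¹ * ‖r‖ ^ 2 = 0 := by linarith
  have h6 : ‖r‖ ^ 2 = 0 := by
    rcases mul_eq_zero.1 h5 with h | h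
    · exact absurd h (inv_pos.2 hl).ne'
    · exact h
  exact ⟨norm_eq_zero.1 (pow_eq_zero_iff (two_ne_zero)|>.1 h4), norm_eq_zero.1 (pow_eq_zero_iff (two_ne_zero)|>.1 h6)⟩

/-- [H1] resolvents. -/
theorem res_facts (hΩ : IsOpen Ω) {l : ℝ} (hl : 0 < l) :
    (∀ h, ∃ w r, IsRes Ω l h w r) ∧
    (∀ h w r w' r', IsRes Ω l h w r → IsRes Ω l h w' r' → w = w' ∧ r = r') ∧
    (∀ h w r, IsRes Ω l h w r → ‖w‖ ≤ ‖h‖ ∧ ‖r‖ ^ 2 ≤ l * ‖h‖ ^ 2) ∧
    (∀ h w r h' w' r', IsRes Ω l h w r → IsRes Ω l h' w' r' → IsRes Ω l (h + h') (w + w') (r + r')) ∧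
    (∀ (c : ℝ) h w r, IsRes Ω l h w r → IsRes Ω l (c • h) (c • w) (c • r)) ∧
    (∀ h w r h' w' r', IsRes Ω l h w r → IsRes Ω l h' w' r' → inner ℝ w h' = inner ℝ h w') ∧
    (∀ h r, IsRes Ω l h 0 r → h = 0) := by
  refine ⟨fun h => H1_exists hl h, ?_, ?_, fun h w r h' w' r' H H' => H1_add H H', fun c h w r H => H1_smul c H, ?_, ?_⟩
  · intro h w r w' r' H H'
    have h1 := H1_add H (H1_smul (-1) H')
    rw [neg_one_smul, neg_one_smul, neg_one_smul, add_neg_cancel] at h1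
    obtain ⟨h2, h3⟩ := H1_zero hl h1
    exact ⟨by rw [← sub_eq_add_neg, sub_eq_zero] at h2; exact h2, by rw [← sub_eq_add_neg, sub_eq_zero] at h3; exact h3⟩
  · intro h w r H
    have h1 := H1_self H
    have h2 : inner ℝ h w ≤ ‖h‖ * ‖w‖ := real_inner_le_norm h w
    have h3 : 0 ≤ l⁻¹ * ‖r‖ ^ 2 := by positivity
    have hw : ‖w‖ ≤ ‖h‖ := by
      by_contra hc
      have hc' : ‖h‖ < ‖w‖ := not_le.1 hc
      have h4 : 0 ≤ ‖h‖ := norm_nonneg h
      nlinarith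
    refine ⟨hw, ?_⟩
    have h4 : l⁻¹ * ‖r‖ ^ 2 ≤ ‖h‖ * ‖h‖ := by
      have h5 : ‖h‖ * ‖w‖ ≤ ‖h‖ * ‖h‖ := mul_le_mul_of_nonneg_left hw (norm_nonneg h)
      have h6 : 0 ≤ ‖w‖ ^ 2 := by positivity
      linarith
    have h5 := mul_le_mul_of_nonneg_left h4 hl.le
    rw [← mul_assoc, mul_inv_cancel₀ hl.ne', one_mul] at h5
    rw [sq ‖h‖]
    exact h5
  · intro h w r h' w' r' H H'
    have h1 := H.2 w' r' H'.1
    have h2 := H'.2 w r H.1
    rw [← h1, real_inner_comm h' w, ← h2, real_inner_comm w' w, real_inner_comm r' r]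
  · intro h r H
    have h1 := H1_self H
    rw [inner_zero_right, norm_zero] at h1
    have h2 : l⁻¹ * ‖r‖ ^ 2 = 0 := by linarith
    have h3 : ‖r‖ ^ 2 = 0 := by
      rcases mul_eq_zero.1 h2 with h | h
      · exact absurd h (inv_pos.2 hl).ne'
      · exact h
    have hr : r = 0 := norm_eq_zero.1 (pow_eq_zero_iff (two_ne_zero)|>.1 h3)
    subst hr
    have h4 : ∀ w' r', InH10 Ω w' r' → inner ℝ h w' = 0 := by
      intro w' r' hw
      have h5 := H.2 w' r' hw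
      rw [inner_zero_left, inner_zero_left, mul_zero, add_zero] at h5
      exact h5.symm
    have h5 : IsClosed {x : Lp ℝ 2 (volume.restrict Ω) | inner ℝ h x = 0} :=
      isClosed_eq (continuous_const.inner continuous_id) continuous_const
    have h6 : (((testPairs Ω).map (LinearMap.fst ℝ (Lp ℝ 2 (volume.restrict Ω)) (Lp E 2 (volume.restrict Ω))) : Submodule ℝ _) : Set _) ⊆
        {x : Lp ℝ 2 (volume.restrict Ω) | inner ℝ h x = 0} := by
      rintro _ ⟨z, hz, rfl⟩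
      exact h4 z.1 z.2 (Submodule.le_topologicalClosure _ hz)
    have h7 := closure_minimal h6 h5
    have h8 : h ∈ ((testPairs Ω).map (LinearMap.fst ℝ (Lp ℝ 2 (volume.restrict Ω))
      (Lp E 2 (volume.restrict Ω)))).topologicalClosure := by rw [dense_test hΩ]; trivial
    have h9 : inner ℝ h h = 0 := h7 h8
    exact inner_self_eq_zero.1 h9

end

end Pool.Agent.MP_4c4330_an.Gen
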