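import Pool.Agent.MP_4c4330_an.Gen.Defs
open MeasureTheory Set Filter Topology
open scoped ENNReal ContDiff
namespace Pool.Agent.MP_4c4330_an.Gen

/-- Integrals over the cube of products. -/
theorem H10_prod {N : ℕ} {R : ℝ} (f : Fin N → ℝ → ℝ) :
    ∫ x in bx N R, ∏ i, f i (x i) = ∏ i, ∫ t in Ioo (-R) R, f i t := by
  have h1 := (PiLp.volume_preserving_ofLp (Fin N)).setIntegral_preimage_emb
    (MeasurableEquiv.toLp 2 (Fin N → ℝ)).symm.measurableEmbedding
    (fun x : Fin N → ℝ => ∏ i, f i (x i)) (Set.univ.pi fun _ => Ioo (-R) R)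
  have h2 : (WithLp.ofLp : EuclideanSpace ℝ (Fin N) → (Fin N → ℝ)) ⁻¹'
      (Set.univ.pi fun _ => Ioo (-R) R) = bx N R := by
    ext x
    simp only [bx, mem_preimage, Set.mem_pi, mem_univ, true_implies, mem_Ioo, mem_ofPred_eq, abs_lt]
  rw [h2] at h1
  rw [h1, volume_pi, Measure.restrict_pi_pi]
  exact integral_fintype_prod_eq_prod _

/-- The integral of a cosine with an integer frequency. -/
theorem H10_cos (m : ℤ) :
    ∫ t in (0:ℝ)..Real.pi, Real.cos (m * t) = if m = 0 then Real.pi else 0 := by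
  split_ifs with h
  · subst h; simp
  · have hm : (m : ℝ) ≠ 0 := by exact_mod_cast h
    rw [intervalIntegral.integral_comp_mul_left (fun t => Real.cos t) hm, integral_cos]
    simp [Real.sin_int_mul_pi]

theorem H10_sin (m n : ℕ) :
    ∫ t in (0:ℝ)..Real.pi, Real.sin ((m + 1) * t) * Real.sin ((n + 1) * t) =
    if m = n then Real.pi / 2 else 0 := by
  have h1 : ∀ t : ℝ, Real.sin ((m + 1) * t) * Real.sin ((n + 1) * t) =
      (1 / 2) * (Real.cos (((m : ℤ) - (n : ℤ) : ℤ) * t) -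
        Real.cos (((m : ℤ) + (n : ℤ) + 2 : ℤ) * t)) := by
    intro t
    push_cast
    rw [show ((m : ℝ) - n) * t = (m + 1) * t - (n + 1) * t by ring,
      show ((m : ℝ) + n + 2) * t = (m + 1) * t + (n + 1) * t by ring, Real.cos_sub, Real.cos_add]
    ring
  simp_rw [h1]
  rw [intervalIntegral.integral_const_mul, intervalIntegral.integral_sub, H10_cos, H10_cos]
  · rw [if_neg (show ¬ ((m : ℤ) + (n : ℤ) + 2 = 0) by omega)]
    by_cases h : m = n
    · rw [if_pos (show (m : ℤ) - (n : ℤ) = 0 by omega), if_pos h]; ring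
    · rw [if_neg (show ¬ ((m : ℤ) - (n : ℤ) = 0) by omega), if_neg h]; ring
  · exact (by fun_prop :
      Continuous fun t : ℝ => Real.cos (((m : ℤ) - (n : ℤ) : ℤ) * t)).intervalIntegrable _ _
  · exact (by fun_prop :
      Continuous fun t : ℝ => Real.cos (((m : ℤ) + (n : ℤ) + 2 : ℤ) * t)).intervalIntegrable _ _

theorem H10_one {R : ℝ} (hR : 0 < R) (m n : ℕ) :
    ∫ t in Ioo (-R) R, ((√R)⁻¹ * Real.sin (Real.pi * (m + 1) * (t + R) / (2 * R))) *
      ((√R)⁻¹ * Real.sin (Real.pi * (n + 1) * (t + R) / (2 * R))) = if m = n then 1 else 0 := by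
  rw [← integral_Ioc_eq_integral_Ioo, ← intervalIntegral.integral_of_le (by linarith)]
  have hsq : (√R)⁻¹ * (√R)⁻¹ = R⁻¹ := by
    rw [← mul_inv, Real.mul_self_sqrt hR.le]
  have h1 : ∀ t : ℝ, ((√R)⁻¹ * Real.sin (Real.pi * (m + 1) * (t + R) / (2 * R))) *
      ((√R)⁻¹ * Real.sin (Real.pi * (n + 1) * (t + R) / (2 * R))) =
      R⁻¹ * (Real.sin ((m + 1) * (Real.pi / (2 * R) * t + Real.pi / 2)) *
        Real.sin ((n + 1) * (Real.pi / (2 * R) * t + Real.pi / 2))) := by
    intro t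
    have h2 : Real.pi * (m + 1) * (t + R) / (2 * R) =
        (m + 1) * (Real.pi / (2 * R) * t + Real.pi / 2) := by field_simp
    have h3 : Real.pi * (n + 1) * (t + R) / (2 * R) =
        (n + 1) * (Real.pi / (2 * R) * t + Real.pi / 2) := by field_simp
    rw [h2, h3, ← hsq]
    ring
  simp_rw [h1]
  rw [intervalIntegral.integral_const_mul,
    intervalIntegral.integral_comp_mul_add
      (fun s => Real.sin ((m + 1) * s) * Real.sin ((n + 1) * s))
      (by positivity : Real.pi / (2 * R) ≠ 0)]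
  have h4 : Real.pi / (2 * R) * (-R) + Real.pi / 2 = 0 := by field_simp; ring
  have h5 : Real.pi / (2 * R) * R + Real.pi / 2 = Real.pi := by field_simp; ring
  rw [h4, h5, H10_sin]
  split_ifs
  · simp only [smul_eq_mul]; field_simp
  · simp

theorem bf_orth {N : ℕ} {R : ℝ} (hR : 0 < R) (k k' : Fin N → ℕ) :
    ∫ x in bx N R, bf N R k x * bf N R k' x = if k = k' then 1 else 0 := by
  have h1 : ∀ x : EuclideanSpace ℝ (Fin N), bf N R k x * bf N R k' x =
      ∏ i, ((√R)⁻¹ * Real.sin (Real.pi * (k i + 1) * (x i + R) / (2 * R))) *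
        ((√R)⁻¹ * Real.sin (Real.pi * (k' i + 1) * (x i + R) / (2 * R))) := by
    intro x
    simp only [bf]
    rw [← Finset.prod_mul_distrib]
  simp_rw [h1]
  rw [H10_prod (fun i t => ((√R)⁻¹ * Real.sin (Real.pi * (k i + 1) * (t + R) / (2 * R))) *
        ((√R)⁻¹ * Real.sin (Real.pi * (k' i + 1) * (t + R) / (2 * R))))]
  simp_rw [H10_one hR]
  by_cases h : k = k'
  · subst h; simp
  · rw [if_neg h]
    obtain ⟨i, hi⟩ := Function.ne_iff.1 h
    exact Finset.prod_eq_zero (Finset.mem_univ i) (if_neg hi)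

end Pool.Agent.MP_4c4330_an.Gen
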