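import Pool.Agent.MP_4c4330_an.Gen.Defs
open MeasureTheory Set Filter Topology
open scoped ENNReal ContDiff
namespace Pool.Agent.MP_4c4330_an.Gen

/-- The angles. -/
noncomputable def H11_th {N : ℕ} (R : ℝ) (i : Fin N) (x : EuclideanSpace ℝ (Fin N)) : ℝ :=
  Real.pi * (x i + R) / (2 * R)

/-- Products of Chebyshev polynomials of the cosines. -/
noncomputable def H11_U {N : ℕ} (R : ℝ) (k : Fin N → ℕ) (x : EuclideanSpace ℝ (Fin N)) : ℝ :=
  ∏ i, (Polynomial.Chebyshev.U ℝ (k i)).eval (Real.cos (H11_th R i x))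

/-- The weight. -/
noncomputable def H11_s {N : ℕ} (R : ℝ) (x : EuclideanSpace ℝ (Fin N)) : ℝ :=
  ∏ i, ((√R)⁻¹ * Real.sin (H11_th R i x))

theorem H11_cth {N : ℕ} (R : ℝ) (i : Fin N) : Continuous (H11_th R i) := by
  unfold H11_th
  fun_prop

theorem H11_cU {N : ℕ} (R : ℝ) (k : Fin N → ℕ) : Continuous (H11_U R k) := by
  unfold H11_U
  refine continuous_finsetProd _ fun i _ => ?_
  exact (Polynomial.continuous _).comp (Real.continuous_cos.comp (H11_cth R i))

theorem H11_cs {N : ℕ} (R : ℝ) : Continuous (H11_s (N := N) R) := by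
  unfold H11_s
  refine continuous_finsetProd _ fun i _ => ?_
  exact continuous_const.mul (Real.continuous_sin.comp (H11_cth R i))

theorem H11_bf {N : ℕ} (R : ℝ) (k : Fin N → ℕ) (x : EuclideanSpace ℝ (Fin N)) :
    bf N R k x = H11_s R x * H11_U R k x := by
  unfold bf H11_s H11_U
  rw [← Finset.prod_mul_distrib]
  refine Finset.prod_congr rfl fun i _ => ?_
  have h := Polynomial.Chebyshev.U_real_cos (H11_th R i x) (k i)
  have e : Real.pi * (k i + 1) * (x i + R) / (2 * R) =
      (((k i : ℤ) : ℝ) + 1) * H11_th R i x := by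
    unfold H11_th; push_cast; ring
  rw [e, ← h]
  ring

/-- multiplication by a cosine -/
theorem H11_mul {N : ℕ} (R : ℝ) (k : Fin N → ℕ) (i : Fin N) :
    ∃ k₁ k₂ : Fin N → ℕ, ∃ c : ℝ, ∀ x : EuclideanSpace ℝ (Fin N),
      Real.cos (H11_th R i x) * H11_U R k x = 1 / 2 * H11_U R k₁ x + c * H11_U R k₂ x := by
  classical
  have key : ∀ (m : ℕ) (x : EuclideanSpace ℝ (Fin N)), H11_U R (Function.update k i m) x =
      (Polynomial.Chebyshev.U ℝ m).eval (Real.cos (H11_th R i x)) *
        ∏ j ∈ Finset.univ.erase i,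
          (Polynomial.Chebyshev.U ℝ (k j)).eval (Real.cos (H11_th R j x)) := by
    intro m x
    unfold H11_U
    rw [← Finset.mul_prod_erase Finset.univ _ (Finset.mem_univ i), Function.update_self]
    congr 1
    refine Finset.prod_congr rfl fun j hj => ?_
    rw [Function.update_of_ne (Finset.ne_of_mem_erase hj)]
  have hk : k = Function.update k i (k i) := (Function.update_eq_self i k).symm
  rcases Nat.eq_zero_or_pos (k i) with h | h
  · refine ⟨Function.update k i 1, k, 0, fun x => ?_⟩
    rw [key 1 x]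
    conv_lhs => rw [hk, key, h]
    have h0 : Polynomial.Chebyshev.U ℝ ((0 : ℕ) : ℤ) = 1 := by simp
    have h1 : Polynomial.Chebyshev.U ℝ ((1 : ℕ) : ℤ) = 2 * Polynomial.X := by simp
    rw [h0, h1]
    simp
    ring
  · obtain ⟨m, hm⟩ : ∃ m, k i = m + 1 := ⟨k i - 1, by omega⟩
    refine ⟨Function.update k i (m + 2), Function.update k i m, 1 / 2, fun x => ?_⟩
    rw [key (m + 2) x, key m x]
    conv_lhs => rw [hk, key, hm]
    have h2 : Polynomial.Chebyshev.U ℝ ((m + 2 : ℕ) : ℤ) =
        2 * Polynomial.X * Polynomial.Chebyshev.U ℝ ((m + 1 : ℕ) : ℤ) -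
          Polynomial.Chebyshev.U ℝ (m : ℤ) := by
      have := Polynomial.Chebyshev.U_add_two ℝ (m : ℤ)
      push_cast
      exact this
    rw [h2]
    simp
    ring

theorem H11_open {N : ℕ} (R : ℝ) : IsOpen (bx N R) := by
  have : bx N R = ⋂ i, {x : EuclideanSpace ℝ (Fin N) | |x i| < R} := by
    ext x; simp [bx]
  rw [this]
  exact isOpen_iInter_of_finite fun i => isOpen_lt (by fun_prop) continuous_const

/-- The closed cube. -/
def H11_K (N : ℕ) (R : ℝ) : Set (EuclideanSpace ℝ (Fin N)) := {x | ∀ i, |x i| ≤ R}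

theorem H11_sub {N : ℕ} {R : ℝ} : bx N R ⊆ H11_K N R := fun _ hx i => (hx i).le

theorem H11_compact {N : ℕ} {R : ℝ} (hR : 0 < R) : IsCompact (H11_K N R) := by
  refine Metric.isCompact_of_isClosed_isBounded ?_ ?_
  · have : H11_K N R = ⋂ i, {x : EuclideanSpace ℝ (Fin N) | |x i| ≤ R} := by
      ext x; simp [H11_K]
    rw [this]
    exact isClosed_iInter fun i => isClosed_le (by fun_prop) continuous_const
  · rw [isBounded_iff_forall_norm_le]
    refine ⟨√(N * R ^ 2), fun x hx => ?_⟩
    rw [EuclideanSpace.norm_eq]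
    apply Real.sqrt_le_sqrt
    calc ∑ i, ‖x i‖ ^ 2 ≤ ∑ _i : Fin N, R ^ 2 := by
          refine Finset.sum_le_sum fun i _ => ?_
          have := hx i
          rw [Real.norm_eq_abs]
          exact pow_le_pow_left₀ (abs_nonneg _) this 2
      _ = N * R ^ 2 := by simp

theorem H11_finite {N : ℕ} {R : ℝ} (hR : 0 < R) : volume (bx N R) < ⊤ :=
  (measure_mono H11_sub).trans_lt (H11_compact hR).measure_lt_top

theorem H11_spos {N : ℕ} {R : ℝ} (hR : 0 < R) {x : EuclideanSpace ℝ (Fin N)} (hx : x ∈ bx N R) :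
    0 < H11_s R x := by
  refine Finset.prod_pos fun i _ => ?_
  have h := abs_lt.1 (hx i)
  have : 0 < Real.sin (H11_th R i x) := by
    apply Real.sin_pos_of_pos_of_lt_pi
    · unfold H11_th
      have := Real.pi_pos
      have h3 : 0 < x i + R := by linarith
      positivity
    · unfold H11_th
      rw [div_lt_iff₀ (by positivity)]
      have := Real.pi_pos
      nlinarith
  have h2 : 0 < √R := Real.sqrt_pos.2 hR
  positivity

/-- the cosines separate the points of the closed cube -/
theorem H11_sep {N : ℕ} {R : ℝ} (hR : 0 < R) {x y : EuclideanSpace ℝ (Fin N)}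
    (hx : x ∈ H11_K N R) (hy : y ∈ H11_K N R) (hxy : x ≠ y) :
    ∃ i, Real.cos (H11_th R i x) ≠ Real.cos (H11_th R i y) := by
  by_contra h
  push Not at h
  apply hxy
  ext i
  have mem : ∀ z ∈ H11_K N R, H11_th R i z ∈ Icc 0 Real.pi := by
    intro z hz
    have h1 := abs_le.1 (hz i)
    have := Real.pi_pos
    unfold H11_th
    constructor
    · have h3 : 0 ≤ z i + R := by linarith
      positivity
    · rw [div_le_iff₀ (by positivity)]
      nlinarith
  have h2 := Real.injOn_cos (mem x hx) (mem y hy) (h i)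
  unfold H11_th at h2
  have := Real.pi_pos
  field_simp at h2
  linarith

/-- The main step: orthogonality to all continuous functions. -/
theorem H11_cont {N : ℕ} {R : ℝ} (hR : 0 < R) (f : Lp ℝ 2 (volume.restrict (bx N R)))
    (hf : ∀ k : Fin N → ℕ, ∫ x in bx N R, bf N R k x * f x = 0)
    (h : EuclideanSpace ℝ (Fin N) → ℝ) (hh : Continuous h) :
    ∫ x in bx N R, h x * (H11_s R x * f x) = 0 := by
  have hK := H11_compact (N := N) hR
  haveI : IsFiniteMeasure (volume.restrict (bx N R)) := ⟨by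
    rw [Measure.restrict_apply_univ]; exact H11_finite hR⟩
  have hbd : ∀ u : EuclideanSpace ℝ (Fin N) → ℝ, Continuous u →
      ∃ C : ℝ, ∀ᵐ x ∂(volume.restrict (bx N R)), ‖u x‖ ≤ C := by
    intro u hu
    obtain ⟨C, hC⟩ := hK.exists_bound_of_continuousOn hu.continuousOn
    refine ⟨C, ?_⟩
    filter_upwards [ae_restrict_mem (H11_open R).measurableSet] with x hx
    exact hC x (H11_sub hx)
  have hint0 : Integrable (fun x => f x) (volume.restrict (bx N R)) :=
    (Lp.memLp f).integrable (by norm_num)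
  have hint : ∀ u : EuclideanSpace ℝ (Fin N) → ℝ, Continuous u →
      Integrable (fun x => u x * (H11_s R x * f x)) (volume.restrict (bx N R)) := by
    intro u hu
    have h1 : Integrable (fun x => H11_s R x * f x) (volume.restrict (bx N R)) := by
      obtain ⟨C, hC⟩ := hbd _ (H11_cs R)
      exact hint0.bdd_mul (H11_cs R).aestronglyMeasurable hC
    obtain ⟨C, hC⟩ := hbd _ hu
    exact h1.bdd_mul hu.aestronglyMeasurable hC
  -- the predicate
  let P : (EuclideanSpace ℝ (Fin N) → ℝ) → Prop := fun u =>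
    ∀ k : Fin N → ℕ, ∫ x in bx N R, (u x * H11_U R k x) * (H11_s R x * f x) = 0
  have hP1 : P (fun _ => 1) := by
    intro k
    have := hf k
    simp_rw [H11_bf] at this
    rw [← this]
    refine integral_congr_ae (Eventually.of_forall fun x => ?_)
    simp only
    ring
  let c : Fin N → C(EuclideanSpace ℝ (Fin N), ℝ) := fun i =>
    ⟨fun x => Real.cos (H11_th R i x), Real.continuous_cos.comp (H11_cth R i)⟩
  let A : Subalgebra ℝ C(EuclideanSpace ℝ (Fin N), ℝ) := Algebra.adjoin ℝ (range c)
  have hQ : ∀ φ ∈ A, ∀ ψ : C(EuclideanSpace ℝ (Fin N), ℝ), P ψ → P (ψ * φ : C(_, ℝ)) := by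
    intro φ hφ
    induction hφ using Algebra.adjoin_induction with
    | mem φ hφ =>
      obtain ⟨i, rfl⟩ := hφ
      intro ψ hψ k
      obtain ⟨k₁, k₂, d, hd⟩ := H11_mul R k i
      have h1 : ∀ x : EuclideanSpace ℝ (Fin N),
          ((ψ * c i : C(_, ℝ)) x * H11_U R k x) * (H11_s R x * f x) =
          1 / 2 * ((ψ x * H11_U R k₁ x) * (H11_s R x * f x)) +
            d * ((ψ x * H11_U R k₂ x) * (H11_s R x * f x)) := by
        intro x
        have h2 := hd x
        have h3 : (ψ * c i : C(_, ℝ)) x = ψ x * Real.cos (H11_th R i x) := rfl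
        rw [h3]
        linear_combination (ψ x * (H11_s R x * f x)) * h2
      simp_rw [h1]
      rw [integral_add, integral_const_mul, integral_const_mul, hψ k₁, hψ k₂]
      · simp
      · exact (hint _ (ψ.continuous.mul (H11_cU R k₁))).const_mul _
      · exact (hint _ (ψ.continuous.mul (H11_cU R k₂))).const_mul _
    | algebraMap r =>
      intro ψ hψ k
      have h1 : ∀ x : EuclideanSpace ℝ (Fin N),
          ((ψ * algebraMap ℝ C(EuclideanSpace ℝ (Fin N), ℝ) r : C(_, ℝ)) x * H11_U R k x) *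
            (H11_s R x * f x) = r * ((ψ x * H11_U R k x) * (H11_s R x * f x)) := by
        intro x
        have h3 : (ψ * algebraMap ℝ C(EuclideanSpace ℝ (Fin N), ℝ) r : C(_, ℝ)) x = ψ x * r := by
          simp [algebraMap_apply]
        rw [h3]; ring
      simp_rw [h1]
      rw [integral_const_mul, hψ k, mul_zero]
    | add φ₁ φ₂ _ _ h1 h2 =>
      intro ψ hψ k
      have h3 : ∀ x : EuclideanSpace ℝ (Fin N),
          ((ψ * (φ₁ + φ₂) : C(_, ℝ)) x * H11_U R k x) * (H11_s R x * f x) =
          (((ψ * φ₁ : C(_, ℝ)) x * H11_U R k x) * (H11_s R x * f x)) +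
            (((ψ * φ₂ : C(_, ℝ)) x * H11_U R k x) * (H11_s R x * f x)) := by
        intro x
        simp only [ContinuousMap.mul_apply, ContinuousMap.add_apply]
        ring
      simp_rw [h3]
      rw [integral_add, h1 ψ hψ k, h2 ψ hψ k, add_zero]
      · exact hint _ ((ψ * φ₁).continuous.mul (H11_cU R k))
      · exact hint _ ((ψ * φ₂).continuous.mul (H11_cU R k))
    | mul φ₁ φ₂ _ _ h1 h2 =>
      intro ψ hψ
      have := h2 (ψ * φ₁) (h1 ψ hψ)
      rwa [mul_assoc] at this
  have hA : ∀ φ ∈ A, ∫ x in bx N R, φ x * (H11_s R x * f x) = 0 := by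
    intro φ hφ
    have h1 := hQ φ hφ 1 hP1 (fun _ => 0)
    rw [← h1]
    refine integral_congr_ae (Eventually.of_forall fun x => ?_)
    have h2 : H11_U R (fun _ : Fin N => 0) x = 1 := by
      unfold H11_U; simp
    simp only [h2, one_mul, mul_one]
  -- Stone-Weierstrass
  haveI : CompactSpace (H11_K N R) := isCompact_iff_compactSpace.1 hK
  let rs : C(EuclideanSpace ℝ (Fin N), ℝ) →ₐ[ℝ] C(H11_K N R, ℝ) :=
    ContinuousMap.compRightAlgHom ℝ ℝ ⟨Subtype.val, continuous_subtype_val⟩
  have hsep : (A.map rs).SeparatesPoints := by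
    intro x y hxy
    obtain ⟨i, hi⟩ := H11_sep hR x.2 y.2 (fun h => hxy (Subtype.ext h))
    refine ⟨rs (c i), ⟨rs (c i), ?_, rfl⟩, hi⟩
    exact ⟨c i, Algebra.subset_adjoin ⟨i, rfl⟩, rfl⟩
  have hI : Integrable (fun x => H11_s R x * f x) (volume.restrict (bx N R)) := by
    have := hint (fun _ => 1) continuous_const
    simpa using this
  set G := ∫ x in bx N R, ‖H11_s R x * f x‖ with hG
  have hG0 : 0 ≤ G := integral_nonneg fun _ => norm_nonneg _
  have hfin : ∀ ε > 0, ‖∫ x in bx N R, h x * (H11_s R x * f x)‖ ≤ ε * G := by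
    intro ε hε
    obtain ⟨⟨g, g', hg', hgg⟩, hg⟩ :=
      ContinuousMap.exists_mem_subalgebra_near_continuousMap_of_separatesPoints (A.map rs) hsep
        (rs ⟨h, hh⟩) ε hε
    have h1 := hA g' hg'
    have h2 : ∫ x in bx N R, h x * (H11_s R x * f x) =
        ∫ x in bx N R, (h x - g' x) * (H11_s R x * f x) := by
      have h3 : ∀ x, (h x - g' x) * (H11_s R x * f x) =
          h x * (H11_s R x * f x) - g' x * (H11_s R x * f x) := fun x => by ring
      simp_rw [h3]
      rw [integral_sub (hint _ hh) (hint _ g'.continuous), h1, sub_zero]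
    rw [h2, hG, ← integral_const_mul]
    refine (norm_integral_le_integral_norm _).trans ?_
    refine integral_mono_ae ?_ (hI.norm.const_mul _) ?_
    · exact (hint _ (hh.sub g'.continuous)).norm
    · filter_upwards [ae_restrict_mem (H11_open R).measurableSet] with x hx
      rw [norm_mul]
      refine mul_le_mul_of_nonneg_right ?_ (norm_nonneg _)
      have h4 := ContinuousMap.norm_coe_le_norm ((g : C(H11_K N R, ℝ)) - rs ⟨h, hh⟩)
        ⟨x, H11_sub hx⟩
      have h5 : ((g : C(H11_K N R, ℝ)) - rs ⟨h, hh⟩) ⟨x, H11_sub hx⟩ = g' x - h x := by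
        rw [← hgg]; rfl
      rw [h5, norm_sub_rev] at h4
      exact h4.trans hg.le
  have : ‖∫ x in bx N R, h x * (H11_s R x * f x)‖ ≤ 0 := by
    apply le_of_forall_pos_le_add
    intro δ hδ
    refine (hfin (δ / (G + 1)) (by positivity)).trans ?_
    rw [zero_add, div_mul_eq_mul_div, div_le_iff₀ (by positivity)]
    nlinarith
  exact norm_le_zero_iff.1 this

theorem bf_complete {N : ℕ} (hN : 0 < N) {R : ℝ} (hR : 0 < R)
    (f : Lp ℝ 2 (volume.restrict (bx N R)))
    (hf : ∀ k : Fin N → ℕ, ∫ x in bx N R, bf N R k x * f x = 0) : f = 0 := by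
  have hK := H11_compact (N := N) hR
  haveI : IsFiniteMeasure (volume.restrict (bx N R)) := ⟨by
    rw [Measure.restrict_apply_univ]; exact H11_finite hR⟩
  have hI : Integrable (fun x => H11_s R x * f x) (volume.restrict (bx N R)) := by
    obtain ⟨C, hC⟩ := hK.exists_bound_of_continuousOn (H11_cs R).continuousOn
    refine ((Lp.memLp f).integrable (by norm_num)).bdd_mul (c := C)
      (H11_cs R).aestronglyMeasurable ?_
    filter_upwards [ae_restrict_mem (H11_open R).measurableSet] with x hx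
    exact hC x (H11_sub hx)
  have h1 : ∀ᵐ x : EuclideanSpace ℝ (Fin N), x ∈ bx N R → H11_s R x * f x = 0 := by
    refine (H11_open R).ae_eq_zero_of_integral_contDiff_smul_eq_zero
      (f := fun x => H11_s R x * f x) ?_ ?_
    · exact IntegrableOn.locallyIntegrableOn hI
    · intro g hg hgc hgs
      rw [← H11_cont hR f hf g hg.continuous, ← setIntegral_eq_integral_of_forall_compl_eq_zero]
      · rfl
      · intro x hx
        have : g x = 0 := by
          by_contra h0
          exact hx (hgs (subset_tsupport _ h0))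
        rw [this, zero_smul]
  rw [Lp.eq_zero_iff_ae_eq_zero]
  have h2 := (ae_restrict_iff' (H11_open R).measurableSet).2 h1
  filter_upwards [h2, ae_restrict_mem (H11_open R).measurableSet] with x hx hx'
  rcases mul_eq_zero.1 hx with h | h
  · exact absurd h (H11_spos hR hx').ne'
  · exact h

end Pool.Agent.MP_4c4330_an.Gen
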