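import Pool.Agent.MP_4c4330_an.Gen.Defs
open MeasureTheory Set Filter Topology
open scoped ENNReal ContDiff
namespace Pool.Agent.MP_4c4330_an.Gen

set_option linter.unusedSectionVars false

/-- the bump -/
noncomputable def H8_b : ContDiffBump (0 : ℝ) := ⟨1, 2, by norm_num, by norm_num⟩

/-- the cut-off near zero -/
noncomputable def H8_th (δ s : ℝ) : ℝ := s * (1 - H8_b (s / δ))

lemma H8_th_smooth (δ : ℝ) : ContDiff ℝ ∞ (H8_th δ) := by
  unfold H8_th
  exact contDiff_id.mul (contDiff_const.sub (H8_b.contDiff.comp (contDiff_id.div_const δ)))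

lemma H8_th_small {δ s : ℝ} (hδ : 0 < δ) (hs : |s| ≤ δ) : H8_th δ s = 0 := by
  have : H8_b (s / δ) = 1 := by
    apply H8_b.one_of_mem_closedBall
    rw [mem_closedBall_zero_iff, Real.norm_eq_abs, abs_div, abs_of_pos hδ]
    change |s| / δ ≤ 1
    rw [div_le_one hδ]; exact hs
  simp [H8_th, this]

lemma H8_th_large {δ s : ℝ} (hδ : 0 < δ) (hs : 2 * δ ≤ |s|) : H8_th δ s = s := by
  have : H8_b (s / δ) = 0 := by
    apply H8_b.zero_of_le_dist
    rw [dist_zero_right, Real.norm_eq_abs, abs_div, abs_of_pos hδ]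
    change 2 ≤ |s| / δ
    rw [le_div_iff₀ hδ]; exact hs
  simp [H8_th, this]

lemma H8_th_abs (δ s : ℝ) : |H8_th δ s| ≤ |s| := by
  unfold H8_th
  rw [abs_mul]
  have h1 := H8_b.nonneg (x := s / δ)
  have h2 := H8_b.le_one (x := s / δ)
  have : |1 - H8_b (s / δ)| ≤ 1 := by rw [abs_le]; constructor <;> linarith
  calc |s| * |1 - H8_b (s / δ)| ≤ |s| * 1 := mul_le_mul_of_nonneg_left this (abs_nonneg s)
    _ = |s| := mul_one _

lemma H8_deriv : ∃ M : ℝ, 0 ≤ M ∧ ∀ δ > 0, ∀ s, |deriv (H8_th δ) s| ≤ M := by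
  have hc : Continuous fun t : ℝ => t * deriv H8_b t :=
    continuous_id.mul (H8_b.contDiff.continuous_deriv (n := ∞) (by simp))
  have hs : HasCompactSupport fun t : ℝ => t * deriv H8_b t :=
    (H8_b.hasCompactSupport.deriv).mul_left
  obtain ⟨M, hM⟩ := hc.bounded_above_of_compact_support hs
  have hM0 : 0 ≤ M := (norm_nonneg _).trans (hM 0)
  refine ⟨1 + M, by linarith, ?_⟩
  intro δ hδ s
  have hb : HasDerivAt H8_b (deriv H8_b (s / δ)) (s / δ) :=
    ((H8_b.contDiff : ContDiff ℝ ∞ H8_b).differentiable (by simp) _).hasDerivAt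
  have h1 : HasDerivAt (fun s => H8_b (s / δ)) (deriv H8_b (s / δ) * (1 / δ)) s := by
    have := hb.comp s ((hasDerivAt_id s).div_const δ)
    exact this
  have h2 : HasDerivAt (H8_th δ) (1 * (1 - H8_b (s / δ)) + s * (0 - deriv H8_b (s / δ) * (1 / δ))) s :=
    (hasDerivAt_id s).mul ((hasDerivAt_const s (1 : ℝ)).sub h1)
  rw [h2.deriv]
  have h3 := H8_b.nonneg (x := s / δ)
  have h4 := H8_b.le_one (x := s / δ)
  have h5 := hM (s / δ)
  rw [Real.norm_eq_abs] at h5
  have h6 : 1 * (1 - H8_b (s / δ)) + s * (0 - deriv H8_b (s / δ) * (1 / δ)) =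
      (1 - H8_b (s / δ)) - s / δ * deriv H8_b (s / δ) := by ring
  rw [h6]
  refine (abs_sub _ _).trans ?_
  have : |1 - H8_b (s / δ)| ≤ 1 := by rw [abs_le]; constructor <;> linarith
  linarith

section
variable {N : ℕ} {Ω : Set (EuclideanSpace ℝ (Fin N))}

open Classical in
/-- the test functions -/
noncomputable def H8_phi (Ω : Set (EuclideanSpace ℝ (Fin N))) (f : EuclideanSpace ℝ (Fin N) → ℝ)
    (δ : ℝ) (x : EuclideanSpace ℝ (Fin N)) : ℝ := if x ∈ Ω then H8_th δ (f x) else 0

lemma H8_test (hΩ : IsOpen Ω)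
    (hb : Bornology.IsBounded Ω) {f : EuclideanSpace ℝ (Fin N) → ℝ} (hf : ContDiff ℝ ∞ f)
    (h0 : ∀ x ∈ frontier Ω, f x = 0) {δ : ℝ} (hδ : 0 < δ) : IsTest Ω (H8_phi Ω f δ) := by
  set K : Set (EuclideanSpace ℝ (Fin N)) := closure Ω ∩ {x | δ ≤ |f x|} with hK
  have hKc : IsClosed K := isClosed_closure.inter (isClosed_le continuous_const hf.continuous.abs)
  have hKcomp : IsCompact K :=
    (hb.isCompact_closure).of_isClosed_subset hKc inter_subset_left
  have hKΩ : K ⊆ Ω := by
    intro x hx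
    by_contra hxΩ
    have : x ∈ frontier Ω := by
      rw [hΩ.frontier_eq]
      exact ⟨hx.1, hxΩ⟩
    have h1 := h0 x this
    have h2 := hx.2
    simp only [mem_setOf_eq, h1, abs_zero] at h2
    linarith
  have hout : ∀ x ∉ K, H8_phi Ω f δ x = 0 := by
    intro x hx
    unfold H8_phi
    split_ifs with hxΩ
    · apply H8_th_small hδ
      by_contra hcon
      push Not at hcon
      exact hx ⟨subset_closure hxΩ, hcon.le⟩
    · rfl
  have hts : tsupport (H8_phi Ω f δ) ⊆ K := by
    apply closure_minimal _ hKc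
    intro x hx
    by_contra hxK
    exact hx (hout x hxK)
  refine ⟨?_, HasCompactSupport.of_support_subset_isCompact hKcomp (fun x hx => ?_), hts.trans hKΩ⟩
  · rw [contDiff_iff_contDiffAt]
    intro x
    by_cases hx : x ∈ Ω
    · have : H8_phi Ω f δ =ᶠ[𝓝 x] fun y => H8_th δ (f y) := by
        filter_upwards [hΩ.mem_nhds hx] with y hy
        simp [H8_phi, hy]
      exact (((H8_th_smooth δ).comp hf).contDiffAt).congr_of_eventuallyEq this
    · have hxK : x ∉ K := fun h => hx (hKΩ h)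
      have : H8_phi Ω f δ =ᶠ[𝓝 x] fun _ => (0 : ℝ) := by
        filter_upwards [hKc.isOpen_compl.mem_nhds hxK] with y hy
        exact hout y hy
      exact contDiffAt_const.congr_of_eventuallyEq this
  · by_contra hxK
    exact hx (hout x hxK)

lemma H8_grad (hΩ : IsOpen Ω) {f : EuclideanSpace ℝ (Fin N) → ℝ} (hf : ContDiff ℝ ∞ f)
    (δ : ℝ) {x : EuclideanSpace ℝ (Fin N)} (hx : x ∈ Ω) :
    gradient (H8_phi Ω f δ) x = deriv (H8_th δ) (f x) • gradient f x := by
  have h1 : H8_phi Ω f δ =ᶠ[𝓝 x] fun y => H8_th δ (f y) := by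
    filter_upwards [hΩ.mem_nhds hx] with y hy
    simp [H8_phi, hy]
  have h2 : HasFDerivAt (fun y => H8_th δ (f y)) (deriv (H8_th δ) (f x) • fderiv ℝ f x) x := by
    have ht : HasDerivAt (H8_th δ) (deriv (H8_th δ) (f x)) (f x) :=
      ((H8_th_smooth δ).differentiable (by simp) _).hasDerivAt
    have hfx : HasFDerivAt f (fderiv ℝ f x) x := (hf.differentiable (by simp) x).hasFDerivAt
    exact ht.comp_hasFDerivAt x hfx
  unfold gradient
  rw [h1.fderiv_eq, h2.fderiv, map_smul]

lemma H8_lim {F : Type*} [NormedAddCommGroup F] [InnerProductSpace ℝ F] [SecondCountableTopology F]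
    {μ : Measure (EuclideanSpace ℝ (Fin N))} [IsFiniteMeasure μ] {g : EuclideanSpace ℝ (Fin N) → F}
    {gn : ℕ → EuclideanSpace ℝ (Fin N) → F} (hg : MemLp g 2 μ) (hgn : ∀ n, MemLp (gn n) 2 μ)
    {B : ℝ} (hB : ∀ n, ∀ᵐ x ∂μ, ‖gn n x - g x‖ ≤ B)
    (hlim : ∀ᵐ x ∂μ, Tendsto (fun n => gn n x) atTop (𝓝 (g x))) :
    Tendsto (fun n => (hgn n).toLp (gn n)) atTop (𝓝 (hg.toLp g)) := by
  rw [tendsto_iff_norm_sub_tendsto_zero]
  have h1 : Tendsto (fun n => ∫ x, ‖gn n x - g x‖ ^ 2 ∂μ) atTop (𝓝 (∫ _, (0 : ℝ) ∂μ)) := by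
    apply tendsto_integral_of_dominated_convergence (fun _ => B ^ 2)
    · intro n
      exact (((hgn n).1.sub hg.1).norm.pow 2)
    · exact integrable_const _
    · intro n
      filter_upwards [hB n] with x hx
      rw [Real.norm_eq_abs, abs_of_nonneg (by positivity)]
      exact pow_le_pow_left₀ (norm_nonneg _) hx 2
    · filter_upwards [hlim] with x hx
      have := (tendsto_iff_norm_sub_tendsto_zero.1 hx).pow 2
      simpa using this
  rw [integral_zero] at h1
  have h2 : ∀ n, ‖(hgn n).toLp (gn n) - hg.toLp g‖ ^ 2 = ∫ x, ‖gn n x - g x‖ ^ 2 ∂μ := by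
    intro n
    rw [← MemLp.toLp_sub, norm_sq_Lp]
    apply integral_congr_ae
    filter_upwards [((hgn n).sub hg).coeFn_toLp] with x hx
    rw [hx]; rfl
  have h3 := (h1.congr fun n => (h2 n).symm).sqrt
  simpa [Real.sqrt_sq] using h3

/-- [H8] smooth functions that vanish on the boundary. -/
theorem h10_frontier {N : ℕ} {Ω : Set (EuclideanSpace ℝ (Fin N))} (hΩ : IsOpen Ω)
    (hb : Bornology.IsBounded Ω) {f : EuclideanSpace ℝ (Fin N) → ℝ} (hf : ContDiff ℝ ∞ f)
    (h0 : ∀ x ∈ frontier Ω, f x = 0) (hz : volume (Ω ∩ {x | f x = 0}) = 0) :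
    ∃ w r, InH10 Ω w r ∧ (w =ᵐ[volume.restrict Ω] f) ∧ (r =ᵐ[volume.restrict Ω] gradient f) := by
  have hfin : volume Ω < ⊤ := hb.measure_lt_top
  have : IsFiniteMeasure (volume.restrict Ω) := ⟨by rwa [Measure.restrict_apply_univ]⟩
  have hgc : Continuous (gradient f) := by
    unfold gradient
    exact (InnerProductSpace.toDual ℝ _).symm.continuous.comp (hf.continuous_fderiv (by simp))
  have hcomp := hb.isCompact_closure
  obtain ⟨B1, hB1⟩ := hcomp.exists_bound_of_continuousOn hf.continuous.continuousOn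
  obtain ⟨B2, hB2⟩ := hcomp.exists_bound_of_continuousOn hgc.continuousOn
  have hae : ∀ᵐ x ∂(volume.restrict Ω), x ∈ Ω := ae_restrict_mem hΩ.measurableSet
  have hne : ∀ᵐ x ∂(volume.restrict Ω), f x ≠ 0 := by
    rw [ae_iff]
    have hms : MeasurableSet {x | ¬ f x ≠ 0} := by
      simp only [not_not, ne_eq]
      exact (isClosed_eq hf.continuous continuous_const).measurableSet
    rw [Measure.restrict_apply hms]
    simp only [not_not, ne_eq]
    rw [inter_comm]
    exact hz
  have hfm : MemLp f 2 (volume.restrict Ω) := by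
    refine MemLp.of_bound hf.continuous.aestronglyMeasurable B1 ?_
    filter_upwards [hae] with x hx using hB1 x (subset_closure hx)
  have hgm : MemLp (gradient f) 2 (volume.restrict Ω) := by
    refine MemLp.of_bound hgc.aestronglyMeasurable B2 ?_
    filter_upwards [hae] with x hx using hB2 x (subset_closure hx)
  have hT : ∀ n : ℕ, IsTest Ω (H8_phi Ω f (1 / ((n : ℝ) + 1))) := fun n =>
    H8_test hΩ hb hf h0 (by positivity)
  obtain ⟨M, hM0, hM⟩ := H8_deriv
  refine ⟨hfm.toLp f, hgm.toLp _, ?_, hfm.coeFn_toLp, hgm.coeFn_toLp⟩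
  have hl1 : Tendsto (fun n => ((hT n).memLp 2).toLp (H8_phi Ω f (1 / ((n : ℝ) + 1)))) atTop
      (𝓝 (hfm.toLp f)) := by
    apply H8_lim (B := 2 * B1)
    · intro n
      filter_upwards [hae] with x hx
      have h1 := hB1 x (subset_closure hx)
      have h2 := H8_th_abs (1 / ((n : ℝ) + 1)) (f x)
      simp only [H8_phi, hx, if_true]
      rw [Real.norm_eq_abs] at h1
      refine (norm_sub_le _ _).trans ?_
      rw [Real.norm_eq_abs, Real.norm_eq_abs]
      linarith
    · filter_upwards [hae, hne] with x hx hx0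
      apply tendsto_const_nhds.congr'
      have hpos : 0 < |f x| := abs_pos.2 hx0
      have ht : Tendsto (fun n : ℕ => 2 * (1 / ((n : ℝ) + 1))) atTop (𝓝 0) := by
        have := (tendsto_one_div_add_atTop_nhds_zero_nat (𝕜 := ℝ)).const_mul 2
        simpa using this
      filter_upwards [ht.eventually (gt_mem_nhds hpos)] with n hn
      simp only [H8_phi, hx, if_true]
      exact (H8_th_large (by positivity) hn.le).symm
  have hl2 : Tendsto (fun n => ((hT n).grad_memLp 2).toLp (gradient (H8_phi Ω f (1 / ((n : ℝ) + 1)))))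
      atTop (𝓝 (hgm.toLp (gradient f))) := by
    apply H8_lim (B := M * B2 + B2)
    · intro n
      filter_upwards [hae] with x hx
      have h1 := hB2 x (subset_closure hx)
      have h2 := hM (1 / ((n : ℝ) + 1)) (by positivity) (f x)
      rw [H8_grad hΩ hf _ hx]
      refine (norm_sub_le _ _).trans ?_
      rw [norm_smul, Real.norm_eq_abs]
      have : |deriv (H8_th (1 / ((n : ℝ) + 1))) (f x)| * ‖gradient f x‖ ≤ M * B2 :=
        mul_le_mul h2 h1 (norm_nonneg _) hM0
      linarith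
    · filter_upwards [hae, hne] with x hx hx0
      apply tendsto_const_nhds.congr'
      have hpos : 0 < |f x| := abs_pos.2 hx0
      have ht : Tendsto (fun n : ℕ => 2 * (1 / ((n : ℝ) + 1))) atTop (𝓝 0) := by
        have := (tendsto_one_div_add_atTop_nhds_zero_nat (𝕜 := ℝ)).const_mul 2
        simpa using this
      filter_upwards [ht.eventually (gt_mem_nhds hpos)] with n hn
      rw [H8_grad hΩ hf _ hx]
      have hd : deriv (H8_th (1 / ((n : ℝ) + 1))) (f x) = 1 := by
        have he : H8_th (1 / ((n : ℝ) + 1)) =ᶠ[𝓝 (f x)] id := by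
          have hopen : IsOpen {s : ℝ | 2 * (1 / ((n : ℝ) + 1)) < |s|} :=
            isOpen_lt continuous_const continuous_abs
          filter_upwards [hopen.mem_nhds hn] with s hs
          exact H8_th_large (by positivity) hs.le
        rw [he.deriv_eq, deriv_id]
      rw [hd, one_smul]
  have hl := hl1.prodMk_nhds hl2
  exact isClosed_InH10.mem_of_tendsto hl (Eventually.of_forall fun n => (hT n).inH10)

end

end Pool.Agent.MP_4c4330_an.Gen
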