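import Pool.Agent.MP_4c4330_an.Gen.Defs
import Pool.Agent.MP_4c4330_an.Gen.H8
open MeasureTheory Set Filter Topology
open scoped ENNReal ContDiff
namespace Pool.Agent.MP_4c4330_an.Gen

/-- Products of functions of one variable. -/
noncomputable def H9_P {N : ℕ} (v : Fin N → ℝ → ℝ) (x : EuclideanSpace ℝ (Fin N)) : ℝ :=
  ∏ j, v j (x j)

lemma H9_coord {N : ℕ} (j : Fin N) : ContDiff ℝ ∞ (fun x : EuclideanSpace ℝ (Fin N) => x j) :=
  (EuclideanSpace.proj (𝕜 := ℝ) j).contDiff

lemma H9_P_smooth {N : ℕ} (v : Fin N → ℝ → ℝ) (hv : ∀ j, ContDiff ℝ ∞ (v j)) :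
    ContDiff ℝ ∞ (H9_P v) := by
  unfold H9_P
  apply contDiff_prod
  intro j _
  exact (hv j).comp (H9_coord j)

lemma H9_deriv {N : ℕ} (v : Fin N → ℝ → ℝ) (hv : ∀ j, ContDiff ℝ ∞ (v j)) (i : Fin N)
    (x : EuclideanSpace ℝ (Fin N)) :
    fderiv ℝ (H9_P v) x (EuclideanSpace.single i 1) =
      H9_P (Function.update v i (deriv (v i))) x := by
  have hd : DifferentiableAt ℝ (H9_P v) x := (H9_P_smooth v hv).differentiable (by simp) x
  rw [← hd.lineDeriv_eq_fderiv]
  unfold lineDeriv
  have e : (fun t : ℝ => H9_P v (x + t • EuclideanSpace.single i (1:ℝ))) =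
      fun t => v i (x i + t) * ∏ j ∈ Finset.univ.erase i, v j (x j) := by
    funext t
    unfold H9_P
    rw [← Finset.mul_prod_erase Finset.univ _ (Finset.mem_univ i)]
    congr 1
    · simp
    · apply Finset.prod_congr rfl
      intro j hj
      have := Finset.ne_of_mem_erase hj
      simp [this]
  rw [e]
  have h1 : HasDerivAt (fun t => v i (x i + t)) (deriv (v i) (x i)) 0 := by
    have h2 : HasDerivAt (v i) (deriv (v i) (x i)) (x i + 0) := by
      rw [add_zero]
      exact ((hv i).differentiable (by simp) (x i)).hasDerivAt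
    exact h2.comp_const_add (x i) 0
  rw [(h1.mul_const _).deriv]
  unfold H9_P
  rw [← Finset.mul_prod_erase Finset.univ _ (Finset.mem_univ i), Function.update_self]
  congr 1
  apply Finset.prod_congr rfl
  intro j hj
  rw [Function.update_of_ne (Finset.ne_of_mem_erase hj)]

/-- The factors. -/
noncomputable def H9_v {N : ℕ} (R : ℝ) (k : Fin N → ℕ) (j : Fin N) (t : ℝ) : ℝ :=
  (√R)⁻¹ * Real.sin (Real.pi * (k j + 1) * (t + R) / (2 * R))

lemma H9_bf {N : ℕ} (R : ℝ) (k : Fin N → ℕ) : bf N R k = H9_P (H9_v R k) := rfl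

lemma H9_v_smooth {N : ℕ} (R : ℝ) (k : Fin N → ℕ) (j : Fin N) : ContDiff ℝ ∞ (H9_v R k j) := by
  unfold H9_v
  apply contDiff_const.mul
  apply Real.contDiff_sin.comp
  exact (contDiff_const.mul (contDiff_id.add contDiff_const)).div_const _

lemma H9_v_deriv {N : ℕ} (R : ℝ) (k : Fin N → ℕ) (j : Fin N) (t : ℝ) :
    HasDerivAt (H9_v R k j) ((√R)⁻¹ * (Real.cos (Real.pi * (k j + 1) * (t + R) / (2 * R)) *
      (Real.pi * (k j + 1) / (2 * R)))) t := by
  unfold H9_v
  apply HasDerivAt.const_mul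
  have h1 : HasDerivAt (fun t : ℝ => Real.pi * (k j + 1) * (t + R) / (2 * R))
      (Real.pi * (k j + 1) / (2 * R)) t := by
    have := (((hasDerivAt_id t).add_const R).const_mul (Real.pi * (k j + 1))).div_const (2 * R)
    simpa using this
  exact h1.sin

lemma H9_v_deriv2 {N : ℕ} (R : ℝ) (k : Fin N → ℕ) (j : Fin N) (t : ℝ) :
    deriv (deriv (H9_v R k j)) t = -(Real.pi * (k j + 1) / (2 * R)) ^ 2 * H9_v R k j t := by
  have e : deriv (H9_v R k j) = fun t => (√R)⁻¹ * (Real.cos (Real.pi * (k j + 1) * (t + R) / (2 * R)) *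
      (Real.pi * (k j + 1) / (2 * R))) := funext fun t => (H9_v_deriv R k j t).deriv
  rw [e]
  have h1 : HasDerivAt (fun t : ℝ => Real.pi * (k j + 1) * (t + R) / (2 * R))
      (Real.pi * (k j + 1) / (2 * R)) t := by
    have := (((hasDerivAt_id t).add_const R).const_mul (Real.pi * (k j + 1))).div_const (2 * R)
    simpa using this
  have h2 := ((h1.cos).mul_const (Real.pi * (k j + 1) / (2 * R))).const_mul ((√R)⁻¹)
  rw [h2.deriv]
  unfold H9_v
  ring

lemma H9_second {N : ℕ} (R : ℝ) (k : Fin N → ℕ) (i : Fin N) (x : EuclideanSpace ℝ (Fin N)) :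
    fderiv ℝ (fun y => fderiv ℝ (bf N R k) y (EuclideanSpace.single i 1)) x
      (EuclideanSpace.single i 1) = -(Real.pi * (k i + 1) / (2 * R)) ^ 2 * bf N R k x := by
  rw [H9_bf]
  have e : (fun y => fderiv ℝ (H9_P (H9_v R k)) y (EuclideanSpace.single i 1)) =
      H9_P (Function.update (H9_v R k) i (deriv (H9_v R k i))) :=
    funext fun y => H9_deriv _ (H9_v_smooth R k) i y
  have hs : ∀ j, ContDiff ℝ ∞ (Function.update (H9_v R k) i (deriv (H9_v R k i)) j) := by
    intro j
    by_cases hj : j = i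
    · subst hj
      rw [Function.update_self]
      exact (contDiff_infty_iff_deriv.1 (H9_v_smooth R k j)).2
    · rw [Function.update_of_ne hj]
      exact H9_v_smooth R k j
  rw [e, H9_deriv _ hs i x, Function.update_idem, Function.update_self]
  unfold H9_P
  rw [← Finset.mul_prod_erase Finset.univ _ (Finset.mem_univ i), Function.update_self,
    ← Finset.mul_prod_erase Finset.univ (fun j => H9_v R k j (x j)) (Finset.mem_univ i),
    H9_v_deriv2, mul_assoc]
  congr 2
  apply Finset.prod_congr rfl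
  intro j hj
  rw [Function.update_of_ne (Finset.ne_of_mem_erase hj)]

lemma H9_open (N : ℕ) (R : ℝ) : IsOpen (bx N R) := by
  have : bx N R = ⋂ i : Fin N, {x : EuclideanSpace ℝ (Fin N) | |x i| < R} := by
    ext x
    simp [bx]
  rw [this]
  apply isOpen_iInter_of_finite
  intro i
  exact isOpen_lt (H9_coord i).continuous.abs continuous_const

lemma H9_bdd (N : ℕ) (R : ℝ) : Bornology.IsBounded (bx N R) := by
  rw [isBounded_iff_forall_norm_le]
  refine ⟨√(∑ _i : Fin N, R ^ 2), fun x hx => ?_⟩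
  rw [EuclideanSpace.norm_eq]
  apply Real.sqrt_le_sqrt
  apply Finset.sum_le_sum
  intro i _
  rw [Real.norm_eq_abs]
  have := hx i
  nlinarith [abs_nonneg (x i)]

lemma H9_front {N : ℕ} {R : ℝ} (hR : 0 < R) (k : Fin N → ℕ) (x : EuclideanSpace ℝ (Fin N))
    (hx : x ∈ frontier (bx N R)) : bf N R k x = 0 := by
  rw [(H9_open N R).frontier_eq] at hx
  have hcl : ∀ i, |x i| ≤ R := by
    have h1 : IsClosed {x : EuclideanSpace ℝ (Fin N) | ∀ i, |x i| ≤ R} := by
      have : {x : EuclideanSpace ℝ (Fin N) | ∀ i, |x i| ≤ R} =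
          ⋂ i : Fin N, {x : EuclideanSpace ℝ (Fin N) | |x i| ≤ R} := by
        ext x
        simp
      rw [this]
      exact isClosed_iInter fun i => isClosed_le (H9_coord i).continuous.abs continuous_const
    have h2 : bx N R ⊆ {x : EuclideanSpace ℝ (Fin N) | ∀ i, |x i| ≤ R} :=
      fun y hy i => (hy i).le
    exact closure_minimal h2 h1 hx.1
  have h3 : ∃ i, |x i| = R := by
    by_contra hc
    push Not at hc
    exact hx.2 fun i => lt_of_le_of_ne (hcl i) (hc i)
  obtain ⟨i, hi⟩ := h3
  unfold bf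
  apply Finset.prod_eq_zero (Finset.mem_univ i)
  rcases abs_eq hR.le |>.1 hi with h | h
  · rw [h, show Real.pi * ((k i : ℝ) + 1) * (R + R) / (2 * R) = ((k i + 1 : ℕ) : ℝ) * Real.pi by
      push_cast
      field_simp
      ring, Real.sin_nat_mul_pi, mul_zero]
  · rw [h]
    simp

lemma H9_hyper {N : ℕ} (i : Fin N) (c : ℝ) :
    volume {x : EuclideanSpace ℝ (Fin N) | x i = c} = 0 := by
  have h1 : volume {f : Fin N → ℝ | f i = c} = 0 := by
    rw [volume_pi]
    exact Measure.pi_hyperplane (fun _ : Fin N => (volume : Measure ℝ)) i c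
  have h2 := (PiLp.volume_preserving_ofLp (Fin N)).quasiMeasurePreserving.preimage_null h1
  exact h2

lemma H9_null {N : ℕ} {R : ℝ} (hR : 0 < R) (k : Fin N → ℕ) :
    volume (bx N R ∩ {x | bf N R k x = 0}) = 0 := by
  have hsub : (bx N R ∩ {x | bf N R k x = 0}) ⊆ ⋃ i : Fin N, ⋃ n : ℤ,
      {x : EuclideanSpace ℝ (Fin N) | x i = n * (2 * R) / (k i + 1) - R} := by
    rintro x ⟨_, hx⟩
    have hx' : ∏ i, ((√R)⁻¹ * Real.sin (Real.pi * (k i + 1) * (x i + R) / (2 * R))) = 0 := hx
    rw [Finset.prod_eq_zero_iff] at hx'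
    obtain ⟨i, _, hi⟩ := hx'
    have hs : (√R)⁻¹ ≠ 0 := inv_ne_zero (Real.sqrt_ne_zero'.2 hR)
    have h0 : Real.sin (Real.pi * (k i + 1) * (x i + R) / (2 * R)) = 0 := by
      rcases mul_eq_zero.1 hi with h | h
      · exact absurd h hs
      · exact h
    rw [Real.sin_eq_zero_iff] at h0
    obtain ⟨n, hn⟩ := h0
    simp only [mem_iUnion, mem_setOf_eq]
    refine ⟨i, n, ?_⟩
    have hk : (0:ℝ) < (k i : ℝ) + 1 := by positivity
    have hp := Real.pi_pos
    have h1 : (n : ℝ) = ((k i : ℝ) + 1) * (x i + R) / (2 * R) := by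
      have : (n : ℝ) * Real.pi = (((k i : ℝ) + 1) * (x i + R) / (2 * R)) * Real.pi := by
        rw [hn]
        ring
      exact mul_right_cancel₀ hp.ne' this
    rw [h1]
    field_simp
    ring
  refine measure_mono_null hsub ?_
  rw [measure_iUnion_null_iff]
  intro i
  rw [measure_iUnion_null_iff]
  intro n
  exact H9_hyper i _

/-- Integration by parts against a test function. -/
lemma H9_parts {N : ℕ} {Ω : Set (EuclideanSpace ℝ (Fin N))} {φ f : EuclideanSpace ℝ (Fin N) → ℝ}
    (hφ : IsTest Ω φ) (hf : ContDiff ℝ ∞ f) (e : EuclideanSpace ℝ (Fin N)) :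
    Integrable (fun x => fderiv ℝ f x e * fderiv ℝ φ x e) ∧
    ∫ x, fderiv ℝ f x e * fderiv ℝ φ x e =
      - ∫ x, φ x * fderiv ℝ (fun y => fderiv ℝ f y e) x e := by
  have c1 : ContDiff ℝ ∞ (fun y => fderiv ℝ f y e) :=
    (hf.fderiv_right (m := ∞) (by simp)).clm_apply contDiff_const
  have c2 : ContDiff ℝ ∞ (fun x => fderiv ℝ (fun y => fderiv ℝ f y e) x e) :=
    (c1.fderiv_right (m := ∞) (by simp)).clm_apply contDiff_const
  have i1 : Integrable (fun x => fderiv ℝ φ x e * fderiv ℝ f x e) := by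
    apply Continuous.integrable_of_hasCompactSupport
    · exact (hφ.dir _).cont.mul c1.continuous
    · exact (hφ.dir _).2.1.mul_right
  have i2 : Integrable (fun x => φ x * fderiv ℝ (fun y => fderiv ℝ f y e) x e) := by
    apply Continuous.integrable_of_hasCompactSupport
    · exact hφ.cont.mul c2.continuous
    · exact hφ.2.1.mul_right
  have i3 : Integrable (fun x => φ x * fderiv ℝ f x e) := by
    apply Continuous.integrable_of_hasCompactSupport
    · exact hφ.cont.mul c1.continuous
    · exact hφ.2.1.mul_right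
  have h := integral_mul_fderiv_eq_neg_fderiv_mul_of_integrable
    (μ := (volume : Measure (EuclideanSpace ℝ (Fin N))))
    (f := φ) (g := fun y => fderiv ℝ f y e) (v := e) i1 i2 i3
    (fun x _ => hφ.differentiable x) (fun x _ => c1.differentiable (by simp) x)
  constructor
  · exact i1.congr (Eventually.of_forall fun x => mul_comm _ _)
  · rw [h, neg_neg]
    exact integral_congr_ae (Eventually.of_forall fun x => mul_comm _ _)

lemma H9_inner {N : ℕ} (f φ : EuclideanSpace ℝ (Fin N) → ℝ) (x : EuclideanSpace ℝ (Fin N)) :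
    inner ℝ (gradient f x) (gradient φ x) = ∑ i, fderiv ℝ f x (EuclideanSpace.single i 1) *
      fderiv ℝ φ x (EuclideanSpace.single i 1) := by
  set b := EuclideanSpace.basisFun (Fin N) ℝ with hb
  rw [← b.sum_inner_mul_inner (gradient f x) (gradient φ x)]
  apply Finset.sum_congr rfl
  intro i _
  have e0 : b i = EuclideanSpace.single i 1 := EuclideanSpace.basisFun_apply _ _ i
  have e1 : inner ℝ (gradient f x) (b i) = fderiv ℝ f x (b i) := by
    unfold gradient; rw [InnerProductSpace.toDual_symm_apply]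
  have e2 : inner ℝ (b i) (gradient φ x) = fderiv ℝ φ x (b i) := by
    rw [real_inner_comm]; unfold gradient; rw [InnerProductSpace.toDual_symm_apply]
  rw [e1, e2, e0]

/-- [H9] eigenfunctions of the cube: equation. -/
theorem bf_eig {N : ℕ} (hN : 0 < N) {R : ℝ} (hR : 0 < R) (k : Fin N → ℕ) :
    ∃ w r, InH10 (bx N R) w r ∧ (w =ᵐ[volume.restrict (bx N R)] bf N R k) ∧
      ∀ w' r', InH10 (bx N R) w' r' → inner ℝ r r' = bm N R k * inner ℝ w w' := by
  have hs : ContDiff ℝ ∞ (bf N R k) := by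
    rw [H9_bf]
    exact H9_P_smooth _ (H9_v_smooth R k)
  obtain ⟨w, r, hin, hw, hr⟩ := h10_frontier (H9_open N R) (H9_bdd N R) hs (H9_front hR k)
    (H9_null hR k)
  refine ⟨w, r, hin, hw, ?_⟩
  have hcl : IsClosed {z : Lp ℝ 2 (volume.restrict (bx N R)) ×
      Lp (EuclideanSpace ℝ (Fin N)) 2 (volume.restrict (bx N R)) |
      inner ℝ r z.2 = bm N R k * inner ℝ w z.1} := by
    apply isClosed_eq
    · exact continuous_const.inner continuous_snd
    · exact continuous_const.mul (continuous_const.inner continuous_fst)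
  have hsub : (testPairs (bx N R) : Set _) ⊆ {z : Lp ℝ 2 (volume.restrict (bx N R)) ×
      Lp (EuclideanSpace ℝ (Fin N)) 2 (volume.restrict (bx N R)) |
      inner ℝ r z.2 = bm N R k * inner ℝ w z.1} := by
    rintro z ⟨φ, hφ, h1, h2⟩
    show inner ℝ r z.2 = bm N R k * inner ℝ w z.1
    rw [L2.inner_def, inner_Lp_real]
    have e1 : ∫ x in bx N R, inner ℝ (r x) (z.2 x)
        = ∫ x in bx N R, inner ℝ (gradient (bf N R k) x) (gradient φ x) := by
      apply integral_congr_ae
      filter_upwards [h2, hr] with x hx1 hx2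
      rw [hx1, hx2]
    have e2 : ∫ x in bx N R, w x * z.1 x = ∫ x in bx N R, bf N R k x * φ x := by
      apply integral_congr_ae
      filter_upwards [h1, hw] with x hx1 hx2
      rw [hx1, hx2]
    have e3 : ∫ x in bx N R, inner ℝ (gradient (bf N R k) x) (gradient φ x)
        = ∫ x, inner ℝ (gradient (bf N R k) x) (gradient φ x) := by
      apply setIntegral_eq_integral_of_forall_compl_eq_zero
      intro x hx
      have : gradient φ x = 0 := by
        unfold gradient
        have h2 : fderiv ℝ φ x = 0 := by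
          by_contra h
          exact hx (hφ.2.2 (support_fderiv_subset ℝ h))
        rw [h2, map_zero]
      rw [this, inner_zero_right]
    have e4 : ∫ x in bx N R, bf N R k x * φ x = ∫ x, bf N R k x * φ x :=
      setInt_eq hφ (fun x hx => by rw [hx, mul_zero])
    rw [e1, e2, e3, e4]
    simp only [H9_inner]
    rw [integral_finsetSum _ (fun i _ => (H9_parts hφ hs (EuclideanSpace.single i 1)).1)]
    unfold bm
    rw [Finset.sum_mul]
    apply Finset.sum_congr rfl
    intro i _
    rw [(H9_parts hφ hs (EuclideanSpace.single i 1)).2]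
    simp only [H9_second]
    rw [← integral_neg, ← integral_const_mul]
    apply integral_congr_ae
    exact Eventually.of_forall fun x => by
      show -(φ x * (-(Real.pi * (k i + 1) / (2 * R)) ^ 2 * bf N R k x)) =
        (Real.pi * (k i + 1) / (2 * R)) ^ 2 * (bf N R k x * φ x)
      ring
  intro w' r' h'
  exact (closure_minimal hsub hcl) h'

end Pool.Agent.MP_4c4330_an.Gen
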