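import Pool.Agent.MP_4c4330_an.Gen.Defs
import Pool.Agent.MP_4c4330_an.Gen.H10
import Pool.Agent.MP_4c4330_an.Gen.H11
import Pool.Agent.MP_4c4330_an.Gen.H9

open MeasureTheory Set Filter Topology
open scoped ENNReal ContDiff

namespace Pool.Agent.MP_4c4330_an.Gen

theorem H12_pos {N : ℕ} (hN : 0 < N) {R : ℝ} (hR : 0 < R) (k : Fin N → ℕ) : 0 < bm N R k := by
  unfold bm
  haveI : Nonempty (Fin N) := ⟨⟨0, hN⟩⟩
  refine Finset.sum_pos (fun i _ => ?_) Finset.univ_nonempty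
  have := Real.pi_pos
  positivity

theorem H12_fin {N : ℕ} {R : ℝ} (hR : 0 < R) (c : ℝ) : {k : Fin N → ℕ | bm N R k ≤ c}.Finite := by
  refine (Set.finite_Icc (0 : Fin N → ℕ) (fun _ => ⌈4 * R ^ 2 * c / Real.pi ^ 2⌉₊)).subset ?_
  intro k hk
  have hk' : bm N R k ≤ c := hk
  refine ⟨fun i => Nat.zero_le _, fun i => ?_⟩
  have hpi := Real.pi_pos
  have h1 : (Real.pi * (k i + 1) / (2 * R)) ^ 2 ≤ c := by
    refine le_trans ?_ hk'
    unfold bm
    exact Finset.single_le_sum (f := fun i => (Real.pi * ((k i : ℝ) + 1) / (2 * R)) ^ 2) (fun j _ => by positivity) (Finset.mem_univ i)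
  have h2 : (k i : ℝ) ≤ ⌈4 * R ^ 2 * c / Real.pi ^ 2⌉₊ := by
    refine le_trans ?_ (Nat.le_ceil _)
    rw [le_div_iff₀ (by positivity)]
    rw [div_pow, div_le_iff₀ (by positivity)] at h1
    have h3 : (0 : ℝ) ≤ (k i : ℝ) := Nat.cast_nonneg _
    have h4 : (k i : ℝ) * Real.pi ^ 2 ≤ (Real.pi * (k i + 1)) ^ 2 := by
      have h5 : (k i : ℝ) ≤ ((k i : ℝ) + 1) ^ 2 := by nlinarith
      calc (k i : ℝ) * Real.pi ^ 2 ≤ ((k i : ℝ) + 1) ^ 2 * Real.pi ^ 2 := mul_le_mul_of_nonneg_right h5 (by positivity)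
        _ = (Real.pi * (k i + 1)) ^ 2 := by ring
    calc (k i : ℝ) * Real.pi ^ 2 ≤ (Real.pi * (k i + 1)) ^ 2 := h4
      _ ≤ c * (2 * R) ^ 2 := h1
      _ = 4 * R ^ 2 * c := by ring
  exact_mod_cast h2

theorem H12_bd {N : ℕ} {R : ℝ} (k : Fin N → ℕ) (x : EuclideanSpace ℝ (Fin N)) : |bf N R k x| ≤ (√R)⁻¹ ^ N := by
  unfold bf
  rw [Finset.abs_prod]
  have h0 : 0 ≤ (√R)⁻¹ := inv_nonneg.2 (Real.sqrt_nonneg R)
  have h1 : ∏ i : Fin N, |(√R)⁻¹ * Real.sin (Real.pi * (k i + 1) * (x i + R) / (2 * R))| ≤ ∏ _i : Fin N, (√R)⁻¹ := by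
    refine Finset.prod_le_prod (fun i _ => abs_nonneg _) (fun i _ => ?_)
    rw [abs_mul, abs_of_nonneg h0]
    calc (√R)⁻¹ * |Real.sin (Real.pi * (k i + 1) * (x i + R) / (2 * R))| ≤ (√R)⁻¹ * 1 :=
          mul_le_mul_of_nonneg_left (Real.abs_sin_le_one _) h0
      _ = (√R)⁻¹ := mul_one _
  refine h1.trans ?_
  rw [Finset.prod_const, Finset.card_univ, Fintype.card_fin]

/-- [H12] the eigenbasis of the cube. -/
theorem bx_basis {N : ℕ} (hN : 0 < N) {R : ℝ} (hR : 0 < R) : ∃ B : Bas (Fin N → ℕ) (bx N R),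
    (∀ k, B.lam k = bm N R k) ∧ ∀ k, ∀ᵐ x ∂(volume.restrict (bx N R)), |B.b k x| ≤ (√R)⁻¹ ^ N := by
  choose w r hw hwe hwr using (fun k => bf_eig hN hR k)
  have horth : Orthonormal ℝ w := by
    rw [orthonormal_iff_ite]
    intro k k'
    rw [inner_Lp_real, ← bf_orth hR k k']
    refine integral_congr_ae ?_
    filter_upwards [hwe k, hwe k'] with x h1 h2
    rw [h1, h2]
  have hbot : (Submodule.span ℝ (Set.range w))ᗮ = ⊥ := by
    rw [Submodule.eq_bot_iff]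
    intro f hf
    refine bf_complete hN hR f (fun k => ?_)
    have h1 : inner ℝ (w k) f = 0 := (Submodule.mem_orthogonal _ f).1 hf (w k) (Submodule.subset_span ⟨k, rfl⟩)
    rw [inner_Lp_real] at h1
    rw [← h1]
    refine integral_congr_ae ?_
    filter_upwards [hwe k] with x h2
    rw [h2]
  have hb : ∀ k, (HilbertBasis.mkOfOrthogonalEqBot horth hbot) k = w k := fun k => by
    rw [HilbertBasis.coe_mkOfOrthogonalEqBot]
  refine ⟨⟨HilbertBasis.mkOfOrthogonalEqBot horth hbot, r, bm N R, fun k => H12_pos hN hR k, ?_, ?_, fun c => H12_fin hR c⟩, fun k => rfl, ?_⟩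
  · intro k
    rw [hb]
    exact hw k
  · intro k w' r' h'
    rw [hb]
    exact hwr k w' r' h'
  · intro k
    show ∀ᵐ x ∂(volume.restrict (bx N R)), |(HilbertBasis.mkOfOrthogonalEqBot horth hbot) k x| ≤ (√R)⁻¹ ^ N
    rw [hb]
    filter_upwards [hwe k] with x h1
    rw [h1]
    exact H12_bd k x

end Pool.Agent.MP_4c4330_an.Gen
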