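import Pool.Agent.MP_4c4330_an.Gen.Defs
open MeasureTheory Set Filter Topology
open scoped ENNReal ContDiff
namespace Pool.Agent.MP_4c4330_an.Gen

theorem H13_one {c : ℝ} (hc : 0 < c) {s : ℝ} (hs : 1 ≤ s) (m : ℕ) :
    ∑ j ∈ Finset.range m, (1 + c * ((j : ℝ) + 1) ^ 2 / s ^ 2)⁻¹ ≤ 2 * (1 + 1 / c) * (s * m / (s + m)) := by
  have hs0 : 0 < s := by linarith
  induction m with
  | zero => simp
  | succ m ih =>
    rw [Finset.sum_range_succ]
    have hm : (0 : ℝ) ≤ m := Nat.cast_nonneg m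
    have h1 : 0 < s + m := by linarith
    have h2 : 0 < s + (m + 1) := by linarith
    have e : s * (m + 1) / (s + (m + 1)) = s * m / (s + m) + s ^ 2 / ((s + m) * (s + (m + 1))) := by
      field_simp
      ring
    have hk : (1 + c * ((m : ℝ) + 1) ^ 2 / s ^ 2)⁻¹ ≤ 2 * (1 + 1 / c) * (s ^ 2 / ((s + m) * (s + (m + 1)))) := by
      have h3 : 0 < 1 + c * ((m : ℝ) + 1) ^ 2 / s ^ 2 := by positivity
      rw [inv_le_iff_one_le_mul₀ h3]
      have e2 : 2 * (1 + 1 / c) * (s ^ 2 / ((s + m) * (s + (m + 1)))) * (1 + c * ((m : ℝ) + 1) ^ 2 / s ^ 2) =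
          (2 * (1 + 1 / c) * (s ^ 2 + c * ((m : ℝ) + 1) ^ 2)) / ((s + m) * (s + (m + 1))) := by
        field_simp
      rw [e2, le_div_iff₀ (mul_pos h1 h2), one_mul]
      have h4 : 2 * (1 + 1 / c) * (s ^ 2 + c * ((m : ℝ) + 1) ^ 2) =
          2 * s ^ 2 + 2 * ((m : ℝ) + 1) ^ 2 + 2 * (1 / c) * s ^ 2 + 2 * c * ((m : ℝ) + 1) ^ 2 := by
        field_simp
        ring
      rw [h4]
      have h5 : 0 ≤ 2 * (1 / c) * s ^ 2 := by positivity
      have h6 : 0 ≤ 2 * c * ((m : ℝ) + 1) ^ 2 := by positivity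
      nlinarith [sq_nonneg (s - (m + 1))]
    push_cast
    rw [e, mul_add]
    linarith

theorem H13_two {c : ℝ} (hc : 0 < c) {l : ℝ} (hl : 1 ≤ l) (m : ℕ) :
    ∑ j ∈ Finset.range m, (1 + c * ((j : ℝ) + 1) ^ 2 / l)⁻¹ ≤ 2 * (1 + 1 / c) * √l := by
  have hs : 1 ≤ √l := Real.one_le_sqrt.2 hl
  have h := H13_one hc hs m
  rw [Real.sq_sqrt (by linarith)] at h
  refine h.trans (mul_le_mul_of_nonneg_left ?_ (by positivity))
  have hm : (0 : ℝ) ≤ m := Nat.cast_nonneg m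
  rw [div_le_iff₀ (by linarith)]
  nlinarith

theorem bm_sum {N : ℕ} {R : ℝ} (hR : 0 < R) : ∃ C : ℝ, 0 < C ∧ ∀ l ≥ 1,
    ∀ S : Finset (Fin N → ℕ), ∑ k ∈ S, ((1 + bm N R k / l)⁻¹ ^ N) ^ 2 ≤ C * l ^ ((N : ℝ) / 2) := by
  classical
  obtain ⟨c, hc⟩ : ∃ c : ℝ, c = (Real.pi / (2 * R)) ^ 2 := ⟨_, rfl⟩
  have hc0 : 0 < c := by rw [hc]; have := Real.pi_pos; positivity
  refine ⟨(2 * (1 + 1 / c)) ^ N, by positivity, fun l hl S => ?_⟩
  have hl0 : 0 < l := by linarith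
  obtain ⟨m, hm⟩ : ∃ m : ℕ, ∀ k ∈ S, ∀ i, k i < m := by
    refine ⟨(S.sup fun k => Finset.univ.sup k) + 1, fun k hk i => ?_⟩
    have h1 : k i ≤ Finset.univ.sup k := Finset.le_sup (Finset.mem_univ i)
    have h2 : Finset.univ.sup k ≤ S.sup fun k => Finset.univ.sup k := Finset.le_sup (f := fun k : Fin N → ℕ => Finset.univ.sup k) hk
    omega
  have hterm : ∀ k : Fin N → ℕ, ((1 + bm N R k / l)⁻¹ ^ N) ^ 2 ≤ ∏ i, (1 + c * ((k i : ℝ) + 1) ^ 2 / l)⁻¹ := by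
    intro k
    have hb : bm N R k / l = ∑ i, c * ((k i : ℝ) + 1) ^ 2 / l := by
      unfold bm
      rw [Finset.sum_div]
      refine Finset.sum_congr rfl fun i _ => ?_
      rw [hc]
      ring
    have hnn : ∀ i, 0 ≤ c * ((k i : ℝ) + 1) ^ 2 / l := fun i => by positivity
    have hsum : 0 ≤ ∑ i, c * ((k i : ℝ) + 1) ^ 2 / l := Finset.sum_nonneg fun i _ => hnn i
    rw [hb]
    have h1 : (1 + ∑ i, c * ((k i : ℝ) + 1) ^ 2 / l)⁻¹ ^ N ≤ ∏ i, (1 + c * ((k i : ℝ) + 1) ^ 2 / l)⁻¹ := by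
      calc (1 + ∑ i, c * ((k i : ℝ) + 1) ^ 2 / l)⁻¹ ^ N
          = ∏ _i : Fin N, (1 + ∑ i, c * ((k i : ℝ) + 1) ^ 2 / l)⁻¹ := by
            rw [Finset.prod_const, Finset.card_univ, Fintype.card_fin]
        _ ≤ _ := by
            refine Finset.prod_le_prod (fun i _ => by positivity) fun i _ => ?_
            refine inv_anti₀ (by have := hnn i; positivity) ?_
            have := Finset.single_le_sum (f := fun i => c * ((k i : ℝ) + 1) ^ 2 / l)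
              (fun i _ => hnn i) (Finset.mem_univ i)
            linarith
    have h2 : (1 + ∑ i, c * ((k i : ℝ) + 1) ^ 2 / l)⁻¹ ^ N ≤ 1 := by
      refine pow_le_one₀ (by positivity) ?_
      exact inv_le_one_of_one_le₀ (by linarith)
    have h0 : 0 ≤ (1 + ∑ i, c * ((k i : ℝ) + 1) ^ 2 / l)⁻¹ ^ N := by positivity
    rw [sq]
    calc _ ≤ (1 + ∑ i, c * ((k i : ℝ) + 1) ^ 2 / l)⁻¹ ^ N * 1 := mul_le_mul_of_nonneg_left h2 h0
      _ ≤ _ := by rw [mul_one]; exact h1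
  calc ∑ k ∈ S, ((1 + bm N R k / l)⁻¹ ^ N) ^ 2
      ≤ ∑ k ∈ S, ∏ i, (1 + c * ((k i : ℝ) + 1) ^ 2 / l)⁻¹ := Finset.sum_le_sum fun k _ => hterm k
    _ ≤ ∑ k ∈ Fintype.piFinset (fun _ : Fin N => Finset.range m), ∏ i, (1 + c * ((k i : ℝ) + 1) ^ 2 / l)⁻¹ := by
        refine Finset.sum_le_sum_of_subset_of_nonneg ?_ ?_
        · intro k hk
          rw [Fintype.mem_piFinset]
          exact fun i => Finset.mem_range.2 (hm k hk i)
        · intro k _ _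
          exact Finset.prod_nonneg fun i _ => by positivity
    _ = ∏ _i : Fin N, ∑ j ∈ Finset.range m, (1 + c * ((j : ℝ) + 1) ^ 2 / l)⁻¹ := by
        rw [Finset.prod_univ_sum]
    _ = (∑ j ∈ Finset.range m, (1 + c * ((j : ℝ) + 1) ^ 2 / l)⁻¹) ^ N := by
        rw [Finset.prod_const, Finset.card_univ, Fintype.card_fin]
    _ ≤ (2 * (1 + 1 / c) * √l) ^ N := by
        refine pow_le_pow_left₀ (Finset.sum_nonneg fun j _ => by positivity) (H13_two hc0 hl m) N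
    _ = (2 * (1 + 1 / c)) ^ N * l ^ ((N : ℝ) / 2) := by
        rw [mul_pow, Real.sqrt_eq_rpow, ← Real.rpow_natCast (l ^ (1 / 2 : ℝ)) N, ← Real.rpow_mul hl0.le]
        congr 2
        ring

end Pool.Agent.MP_4c4330_an.Gen
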