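import Pool.Agent.MP_4c4330_an.Gen.Defs
import Pool.Agent.MP_4c4330_an.Gen.H12
import Pool.Agent.MP_4c4330_an.Gen.H13

/-! # [GEN-H14] sup bound in the cube -/

set_option linter.unusedSectionVars false

open MeasureTheory Set Filter Topology
open scoped ENNReal ContDiff

namespace Pool.Agent.MP_4c4330_an.Gen

/-- finite sums in `L²` -/
lemma H14_coe_sum {E : Type*} [MeasurableSpace E] {μ : Measure E} {ι : Type*} (s : Finset ι)
    (c : ι → ℝ) (f : ι → Lp ℝ 2 μ) :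
    ((∑ i ∈ s, c i • f i : Lp ℝ 2 μ) : E → ℝ) =ᵐ[μ] fun x => ∑ i ∈ s, c i * f i x := by
  classical
  induction s using Finset.induction_on with
  | empty =>
    simp only [Finset.sum_empty]
    exact Lp.coeFn_zero _ _ _
  | insert i s hi ih =>
    rw [Finset.sum_insert hi]
    filter_upwards [Lp.coeFn_add (c i • f i) (∑ i ∈ s, c i • f i), Lp.coeFn_smul (c i) (f i), ih]
      with x h1 h2 h3
    rw [h1, Pi.add_apply, h2, h3, Finset.sum_insert hi, Pi.smul_apply, smul_eq_mul]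

/-- a bound almost everywhere passes to limits in `L²` -/
lemma H14_bound {E : Type*} [MeasurableSpace E] {μ : Measure E} (f : Lp ℝ 2 μ) (M : ℝ)
    (h : ∀ ε > 0, ∃ g : Lp ℝ 2 μ, ‖g - f‖ < ε ∧ ∀ᵐ x ∂μ, |g x| ≤ M) :
    ∀ᵐ x ∂μ, |f x| ≤ M := by
  choose! G hG1 hG2 using h
  have hpos : ∀ n : ℕ, (0 : ℝ) < 1 / (n + 1) := fun n => by positivity
  have ht : Tendsto (fun n : ℕ => G (1 / (n + 1))) atTop (𝓝 f) := by
    rw [tendsto_iff_norm_sub_tendsto_zero]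
    exact squeeze_zero (fun n => norm_nonneg _) (fun n => (hG1 _ (hpos n)).le)
      tendsto_one_div_add_atTop_nhds_zero_nat
  have hm := tendstoInMeasure_of_tendsto_Lp ht
  obtain ⟨ns, -, hns⟩ := hm.exists_seq_tendsto_ae
  have hb : ∀ᵐ x ∂μ, ∀ n : ℕ, |G (1 / ((ns n : ℝ) + 1)) x| ≤ M :=
    ae_all_iff.2 fun n => hG2 _ (hpos (ns n))
  filter_upwards [hns, hb] with x h1 h2
  exact le_of_tendsto (h1.abs) (Eventually.of_forall h2)

/-- [H14] sup bound in the cube. -/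
theorem bx_sup {N : ℕ} (hN : 0 < N) {R : ℝ} (hR : 0 < R) : ∃ C : ℝ, 0 < C ∧ ∀ l ≥ 1,
    ∀ (h : ℕ → Lp ℝ 2 (volume.restrict (bx N R)))
      (r : ℕ → Lp (EuclideanSpace ℝ (Fin N)) 2 (volume.restrict (bx N R))),
      (∀ i < N, IsRes (bx N R) l (h i) (h (i + 1)) (r i)) →
      ∀ᵐ x ∂(volume.restrict (bx N R)), |h N x| ≤ C * l ^ ((N : ℝ) / 4) * ‖h 0‖ := by
  obtain ⟨B, hlam, hBb⟩ := bx_basis hN hR
  obtain ⟨C₀, hC₀, hsum⟩ := bm_sum (N := N) hR
  have hRs : 0 < √R := Real.sqrt_pos.2 hR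
  refine ⟨(√R)⁻¹ ^ N * √C₀, by positivity, ?_⟩
  intro l hl h r hres
  have hl0 : (0 : ℝ) < l := by linarith
  -- the coefficients
  have hbm : ∀ k, 0 < 1 + bm N R k / l := by
    intro k
    have h1 := B.pos k
    rw [hlam] at h1
    positivity
  have hc1 : ∀ i < N, ∀ k, inner ℝ (B.b k) (h (i + 1)) =
      (1 + bm N R k / l)⁻¹ * inner ℝ (B.b k) (h i) := by
    intro i hi k
    obtain ⟨h1, h2⟩ := hres i hi
    have h3 := h2 (B.b k) (B.q k) (B.h10 k)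
    have h4 := B.eig k _ _ h1
    rw [hlam] at h4
    rw [real_inner_comm (B.q k) (r i), h4, real_inner_comm (B.b k) (h (i + 1)),
      real_inner_comm (B.b k) (h i)] at h3
    rw [← h3, inv_mul_eq_div, eq_div_iff (hbm k).ne']
    field_simp
  have hcN : ∀ i ≤ N, ∀ k, inner ℝ (B.b k) (h i) =
      ((1 + bm N R k / l)⁻¹) ^ i * inner ℝ (B.b k) (h 0) := by
    intro i
    induction i with
    | zero =>
      intro _ k
      rw [pow_zero, one_mul]
    | succ i ih =>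
      intro hi k
      rw [hc1 i (by omega) k, ih (by omega) k, pow_succ]
      ring
  -- the bound of the partial sums
  have hbd : ∀ S : Finset (Fin N → ℕ), ∀ᵐ x ∂(volume.restrict (bx N R)),
      |(∑ k ∈ S, B.b.repr (h N) k • B.b k : Lp ℝ 2 (volume.restrict (bx N R))) x| ≤
        (√R)⁻¹ ^ N * √C₀ * l ^ ((N : ℝ) / 4) * ‖h 0‖ := by
    intro S
    filter_upwards [H14_coe_sum S (fun k => B.b.repr (h N) k) (fun k => B.b k),
      ae_all_iff.2 hBb] with x h1 h2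
    rw [h1]
    have h3 : ∀ k ∈ S, |B.b.repr (h N) k * B.b k x| ≤
        (√R)⁻¹ ^ N * ((1 + bm N R k / l)⁻¹ ^ N * |inner ℝ (B.b k) (h 0)|) := by
      intro k _
      rw [HilbertBasis.repr_apply_apply, hcN N le_rfl k, abs_mul, abs_mul,
        abs_of_pos (show 0 < (1 + bm N R k / l)⁻¹ ^ N from pow_pos (inv_pos.2 (hbm k)) N)]
      have h4 := h2 k
      have h5 : 0 ≤ (1 + bm N R k / l)⁻¹ ^ N * |inner ℝ (B.b k) (h 0)| :=
        mul_nonneg (pow_pos (inv_pos.2 (hbm k)) N).le (abs_nonneg _)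
      calc (1 + bm N R k / l)⁻¹ ^ N * |inner ℝ (B.b k) (h 0)| * |B.b k x|
          ≤ (1 + bm N R k / l)⁻¹ ^ N * |inner ℝ (B.b k) (h 0)| * (√R)⁻¹ ^ N :=
            mul_le_mul_of_nonneg_left h4 h5
        _ = _ := by ring
    have h6 : ∑ k ∈ S, (1 + bm N R k / l)⁻¹ ^ N * |inner ℝ (B.b k) (h 0)| ≤
        √(C₀ * l ^ ((N : ℝ) / 2)) * ‖h 0‖ := by
      refine (Real.sum_mul_le_sqrt_mul_sqrt _ _ _).trans ?_
      refine mul_le_mul (Real.sqrt_le_sqrt (hsum l hl S)) ?_ (Real.sqrt_nonneg _)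
        (Real.sqrt_nonneg _)
      rw [Real.sqrt_le_left (norm_nonneg _)]
      have h7 := B.b.orthonormal.sum_inner_products_le (h 0) (s := S)
      simp only [Real.norm_eq_abs] at h7
      exact h7
    have h8 : √(C₀ * l ^ ((N : ℝ) / 2)) = √C₀ * l ^ ((N : ℝ) / 4) := by
      rw [Real.sqrt_mul hC₀.le, Real.sqrt_eq_rpow (l ^ ((N : ℝ) / 2)), ← Real.rpow_mul hl0.le]
      congr 2
      ring
    calc |∑ k ∈ S, B.b.repr (h N) k * B.b k x|
        ≤ ∑ k ∈ S, |B.b.repr (h N) k * B.b k x| := Finset.abs_sum_le_sum_abs _ _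
      _ ≤ ∑ k ∈ S, (√R)⁻¹ ^ N * ((1 + bm N R k / l)⁻¹ ^ N * |inner ℝ (B.b k) (h 0)|) :=
          Finset.sum_le_sum h3
      _ = (√R)⁻¹ ^ N * ∑ k ∈ S, (1 + bm N R k / l)⁻¹ ^ N * |inner ℝ (B.b k) (h 0)| := by
          rw [Finset.mul_sum]
      _ ≤ (√R)⁻¹ ^ N * (√(C₀ * l ^ ((N : ℝ) / 2)) * ‖h 0‖) :=
          mul_le_mul_of_nonneg_left h6 (by positivity)
      _ = _ := by rw [h8]; ring
  -- the limit
  refine H14_bound (h N) _ fun ε hε => ?_
  have hs := B.b.hasSum_repr (h N)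
  obtain ⟨S, hS⟩ := (Metric.tendsto_atTop.1 hs) ε hε
  refine ⟨∑ k ∈ S, B.b.repr (h N) k • B.b k, ?_, hbd S⟩
  have h9 := hS S le_rfl
  rwa [dist_eq_norm] at h9

end Pool.Agent.MP_4c4330_an.Gen
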