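import Pool.Agent.MP_4c4330_an.Gen.Defs
open MeasureTheory Set Filter Topology
open scoped ENNReal ContDiff
namespace Pool.Agent.MP_4c4330_an.Gen

section
variable {E : Type*} [NormedAddCommGroup E] [InnerProductSpace ℝ E] [FiniteDimensional ℝ E]
  [MeasurableSpace E] [BorelSpace E] {Ω : Set E}

theorem H3_test {β : ℝ → ℝ} (hβ : ContDiff ℝ ∞ β) (h0 : β 0 = 0) {φ : E → ℝ}
    (hφ : IsTest Ω φ) :
    IsTest Ω (β ∘ φ) ∧ ∀ x, gradient (β ∘ φ) x = deriv β (φ x) • gradient φ x := by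
  refine ⟨⟨hβ.comp hφ.1, hφ.2.1.comp_left h0, ?_⟩, fun x => ?_⟩
  · exact (closure_mono (Function.support_comp_subset h0 φ)).trans hφ.2.2
  · have h1 : HasDerivAt β (deriv β (φ x)) (φ x) :=
      ((hβ.differentiable (by simp)) (φ x)).hasDerivAt
    have h2 : HasFDerivAt φ (fderiv ℝ φ x) x := (hφ.differentiable x).hasFDerivAt
    unfold gradient
    rw [(h1.comp_hasFDerivAt x h2).fderiv, map_smul]

theorem H3_mem {β : ℝ → ℝ} (hc : Continuous (deriv β)) {B : ℝ} (hB : ∀ s, |deriv β s| ≤ B)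
    (f : Lp ℝ 2 (volume.restrict Ω)) (q : Lp E 2 (volume.restrict Ω)) :
    MemLp (fun x => deriv β (f x) • q x) 2 (volume.restrict Ω) := by
  refine (Lp.memLp q).of_le_mul (c := B)
    ((hc.comp_aestronglyMeasurable (Lp.aestronglyMeasurable f)).smul (Lp.aestronglyMeasurable q)) ?_
  refine Eventually.of_forall fun x => ?_
  rw [norm_smul, Real.norm_eq_abs]
  exact mul_le_mul_of_nonneg_right (hB _) (norm_nonneg _)

/-- [H3] chain rule. -/
theorem chain {β : ℝ → ℝ} (hβ : ContDiff ℝ ∞ β) (h0 : β 0 = 0) {B : ℝ} (hB : ∀ s, |deriv β s| ≤ B)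
    {w : Lp ℝ 2 (volume.restrict Ω)} {r : Lp E 2 (volume.restrict Ω)} (h : InH10 Ω w r) :
    ∃ w' r', InH10 Ω w' r' ∧ (w' =ᵐ[volume.restrict Ω] fun x => β (w x)) ∧
      (r' =ᵐ[volume.restrict Ω] fun x => deriv β (w x) • r x) := by
  have hc : Continuous (deriv β) := hβ.continuous_deriv (by simp)
  have hB0 : 0 ≤ B := (abs_nonneg _).trans (hB 0)
  have hL : LipschitzWith ⟨B, hB0⟩ β :=
    lipschitzWith_of_nnnorm_deriv_le (hβ.differentiable (by simp)) fun x => by
      rw [← NNReal.coe_le_coe, coe_nnnorm, Real.norm_eq_abs]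
      exact hB x
  let G : Lp ℝ 2 (volume.restrict Ω) → Lp E 2 (volume.restrict Ω) → Lp E 2 (volume.restrict Ω) :=
    fun f q => (H3_mem hc hB f q).toLp _
  have hG : ∀ f q, G f q =ᵐ[volume.restrict Ω] fun x => deriv β (f x) • q x := fun f q =>
    (H3_mem hc hB f q).coeFn_toLp
  have hmem : (w, r) ∈ closure ((testPairs Ω : Submodule ℝ _) :
      Set (Lp ℝ 2 (volume.restrict Ω) × Lp E 2 (volume.restrict Ω))) := h
  obtain ⟨u, hu, hlim⟩ := mem_closure_iff_seq_limit.1 hmem
  have hlim1 : Tendsto (fun n => (u n).1) atTop (𝓝 w) := (continuous_fst.tendsto _).comp hlim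
  obtain ⟨ns, hns, hae⟩ := (tendstoInMeasure_of_tendsto_Lp hlim1).exists_seq_tendsto_ae
  have hl1 : Tendsto (fun k => (u (ns k)).1) atTop (𝓝 w) := hlim1.comp hns.tendsto_atTop
  have hl2 : Tendsto (fun k => (u (ns k)).2) atTop (𝓝 r) :=
    ((continuous_snd.tendsto _).comp hlim).comp hns.tendsto_atTop
  refine ⟨hL.compLp h0 w, G w r, ?_, hL.coeFn_compLp h0 w, hG w r⟩
  have hz : ∀ k, (hL.compLp h0 (u (ns k)).1, G (u (ns k)).1 (u (ns k)).2) ∈
      ((testPairs Ω : Submodule ℝ _) :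
        Set (Lp ℝ 2 (volume.restrict Ω) × Lp E 2 (volume.restrict Ω))) := by
    intro k
    obtain ⟨φ, hφ, h1, h2⟩ := hu (ns k)
    obtain ⟨h3, h4⟩ := H3_test hβ h0 hφ
    refine ⟨β ∘ φ, h3, ?_, ?_⟩
    · filter_upwards [hL.coeFn_compLp h0 (u (ns k)).1, h1] with x hx1 hx2
      change (hL.compLp h0 (u (ns k)).1) x = β (φ x)
      rw [hx1, Function.comp_apply, hx2]
    · filter_upwards [hG (u (ns k)).1 (u (ns k)).2, h1, h2] with x hx1 hx2 hx3
      change (G (u (ns k)).1 (u (ns k)).2) x = gradient (β ∘ φ) x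
      rw [hx1, hx2, hx3, h4 x]
  have hfin : Tendsto (fun k => (hL.compLp h0 (u (ns k)).1, G (u (ns k)).1 (u (ns k)).2)) atTop
      (𝓝 (hL.compLp h0 w, G w r)) := by
    refine Tendsto.prodMk_nhds (((hL.continuous_compLp h0).tendsto w).comp hl1) ?_
    -- the two parts
    have hp1 : ∀ k, ‖G (u (ns k)).1 (u (ns k)).2 - G (u (ns k)).1 r‖ ≤
        B * ‖(u (ns k)).2 - r‖ := by
      intro k
      refine Lp.norm_le_mul_norm_of_ae_le_mul ?_
      filter_upwards [hG (u (ns k)).1 (u (ns k)).2, hG (u (ns k)).1 r,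
        Lp.coeFn_sub (G (u (ns k)).1 (u (ns k)).2) (G (u (ns k)).1 r),
        Lp.coeFn_sub (u (ns k)).2 r] with x e1 e2 e3 e4
      rw [e3, e4, Pi.sub_apply, Pi.sub_apply, e1, e2, ← smul_sub, norm_smul, Real.norm_eq_abs]
      exact mul_le_mul_of_nonneg_right (hB _) (norm_nonneg _)
    have hp2 : Tendsto (fun k => ‖G (u (ns k)).1 r - G w r‖ ^ 2) atTop (𝓝 0) := by
      have e0 : ∀ k, ‖G (u (ns k)).1 r - G w r‖ ^ 2 =
          ∫ x in Ω, ‖(deriv β ((u (ns k)).1 x) - deriv β (w x)) • r x‖ ^ 2 := by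
        intro k
        rw [norm_sq_Lp]
        refine integral_congr_ae ?_
        filter_upwards [hG (u (ns k)).1 r, hG w r, Lp.coeFn_sub (G (u (ns k)).1 r) (G w r)]
          with x e1 e2 e3
        rw [e3, Pi.sub_apply, e1, e2, ← sub_smul]
      have e1 : (0 : ℝ) = ∫ x in Ω, (0 : ℝ) := by simp
      rw [e1]
      simp only [e0]
      refine tendsto_integral_of_dominated_convergence (fun x => (2 * B) ^ 2 * ‖r x‖ ^ 2) ?_ ?_ ?_ ?_
      · intro k
        exact ((((hc.comp_aestronglyMeasurable (Lp.aestronglyMeasurable (u (ns k)).1)).sub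
          (hc.comp_aestronglyMeasurable (Lp.aestronglyMeasurable w))).smul
          (Lp.aestronglyMeasurable r)).norm.pow 2)
      · exact ((Lp.memLp r).integrable_norm_pow (by norm_num)).const_mul _
      · intro k
        refine Eventually.of_forall fun x => ?_
        rw [Real.norm_eq_abs, abs_of_nonneg (sq_nonneg _), norm_smul, mul_pow]
        refine mul_le_mul_of_nonneg_right ?_ (sq_nonneg _)
        rw [Real.norm_eq_abs]
        refine pow_le_pow_left₀ (abs_nonneg _) ?_ 2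
        have := hB ((u (ns k)).1 x)
        have := hB (w x)
        exact (abs_sub _ _).trans (by linarith)
      · filter_upwards [hae] with x hx
        have e2 : Tendsto (fun k => deriv β ((u (ns k)).1 x)) atTop (𝓝 (deriv β (w x))) :=
          (hc.tendsto _).comp hx
        have e3 : Tendsto (fun k => ‖(deriv β ((u (ns k)).1 x) - deriv β (w x)) • r x‖ ^ 2) atTop
            (𝓝 (‖(deriv β (w x) - deriv β (w x)) • r x‖ ^ 2)) :=
          (((e2.sub_const _).smul_const _).norm).pow 2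
        rw [sub_self, zero_smul, norm_zero] at e3
        simpa using e3
    have hp3 : Tendsto (fun k => ‖G (u (ns k)).1 r - G w r‖) atTop (𝓝 0) := by
      have e1 := (Real.continuous_sqrt.tendsto 0).comp hp2
      rw [Real.sqrt_zero] at e1
      refine e1.congr fun k => ?_
      exact Real.sqrt_sq (norm_nonneg _)
    have hp4 : Tendsto (fun k => B * ‖(u (ns k)).2 - r‖) atTop (𝓝 0) := by
      have e1 := (tendsto_iff_norm_sub_tendsto_zero.1 hl2).const_mul B
      rwa [mul_zero] at e1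
    rw [tendsto_iff_norm_sub_tendsto_zero]
    refine squeeze_zero (fun _ => norm_nonneg _) (fun k => ?_)
      (by have e1 := hp4.add hp3; rwa [add_zero] at e1)
    have e2 : G (u (ns k)).1 (u (ns k)).2 - G w r =
        (G (u (ns k)).1 (u (ns k)).2 - G (u (ns k)).1 r) + (G (u (ns k)).1 r - G w r) := by abel
    rw [e2]
    exact (norm_add_le _ _).trans (add_le_add (hp1 k) le_rfl)
  exact mem_closure_of_tendsto hfin (Eventually.of_forall hz)

end

end Pool.Agent.MP_4c4330_an.Gen
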