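import Pool.Agent.MP_4c4330_an.Gen.Defs
open MeasureTheory Set Filter Topology
open scoped ENNReal ContDiff
namespace Pool.Agent.MP_4c4330_an.Gen

lemma H4_prim {f : ℝ → ℝ} (hf : ContDiff ℝ ∞ f) (a : ℝ) :
    (∀ s, HasDerivAt (fun s => ∫ t in a..s, f t) (f s) s) ∧
      ContDiff ℝ ∞ (fun s => ∫ t in a..s, f t) := by
  have h1 : ∀ s, HasDerivAt (fun s => ∫ t in a..s, f t) (f s) s := fun s =>
    intervalIntegral.integral_hasDerivAt_right (hf.continuous.intervalIntegrable _ _)
      (hf.continuous.stronglyMeasurableAtFilter _ _) hf.continuous.continuousAt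
  refine ⟨h1, ?_⟩
  rw [contDiff_infty_iff_deriv]
  refine ⟨fun s => (h1 s).differentiableAt, ?_⟩
  have : deriv (fun s => ∫ t in a..s, f t) = f := funext fun s => (h1 s).deriv
  rw [this]
  exact hf

theorem pos_part {δ : ℝ} (hδ : 0 < δ) : ∃ γ : ℝ → ℝ, ∃ c : ℝ, ContDiff ℝ ∞ γ ∧ (∀ s, 0 ≤ γ s) ∧
    0 < c ∧ c ≤ δ ∧ (∀ s, 0 ≤ s → γ s = s + c) ∧ (∀ s, 0 ≤ s → deriv γ s = 1) ∧
    (∀ s, 0 ≤ deriv γ s ∧ deriv γ s ≤ 1) ∧ ∃ β : ℝ → ℝ, ContDiff ℝ ∞ β ∧ (∀ s ≤ 0, β s = 0) ∧
    (∀ s > 0, 0 < β s) ∧ (∀ s, 0 ≤ deriv β s ∧ deriv β s ≤ 2) := by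
  have hχ : ContDiff ℝ ∞ Real.smoothTransition := Real.smoothTransition.contDiff
  set f : ℝ → ℝ := fun t => Real.smoothTransition (t / δ + 1) with hfdef
  have hf : ContDiff ℝ ∞ f := by
    apply hχ.comp
    exact (contDiff_id.div_const δ).add contDiff_const
  have f0 : ∀ t, 0 ≤ f t := fun t => Real.smoothTransition.nonneg _
  have f1 : ∀ t, f t ≤ 1 := fun t => Real.smoothTransition.le_one _
  have fz : ∀ t, t ≤ -δ → f t = 0 := by
    intro t ht
    apply Real.smoothTransition.zero_of_nonpos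
    have : t / δ ≤ -1 := by
      rw [div_le_iff₀ hδ]
      linarith
    linarith
  have fo : ∀ t, 0 ≤ t → f t = 1 := by
    intro t ht
    apply Real.smoothTransition.one_of_one_le
    have : 0 ≤ t / δ := by positivity
    linarith
  have fp : ∀ t, -δ < t → 0 < f t := by
    intro t ht
    apply Real.smoothTransition.pos_of_pos
    have : -1 < t / δ := by
      rw [lt_div_iff₀ hδ]
      linarith
    linarith
  obtain ⟨hd, hc⟩ := H4_prim hf (-δ)
  obtain ⟨hd', hc'⟩ := H4_prim hχ 0
  have fi : ∀ a b, IntervalIntegrable f volume a b := fun a b => hf.continuous.intervalIntegrable _ _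
  have χi : ∀ a b, IntervalIntegrable Real.smoothTransition volume a b :=
    fun a b => hχ.continuous.intervalIntegrable _ _
  refine ⟨fun s => ∫ t in (-δ)..s, f t, ∫ t in (-δ)..0, f t, hc, ?_, ?_, ?_, ?_, ?_, ?_,
    fun s => ∫ t in (0:ℝ)..s, Real.smoothTransition t, hc', ?_, ?_, ?_⟩
  · intro s
    rcases le_total (-δ) s with h | h
    · exact intervalIntegral.integral_nonneg h (fun t _ => f0 t)
    · show 0 ≤ ∫ t in (-δ)..s, f t
      rw [intervalIntegral.integral_symm]
      have : ∫ t in s..(-δ), f t = 0 := by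
        rw [intervalIntegral.integral_congr (g := fun _ => (0:ℝ))]
        · simp
        · intro t ht
          rw [uIcc_of_le h] at ht
          exact fz t ht.2
      rw [this]
      simp
  · apply intervalIntegral.intervalIntegral_pos_of_pos_on (fi _ _)
    · intro t ht
      exact fp t ht.1
    · linarith
  · calc ∫ t in (-δ)..0, f t ≤ ∫ t in (-δ)..0, (1:ℝ) :=
        intervalIntegral.integral_mono_on (by linarith) (fi _ _) (by simp) (fun t _ => f1 t)
      _ = δ := by simp
  · intro s hs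
    show ∫ t in (-δ)..s, f t = s + ∫ t in (-δ)..0, f t
    rw [← intervalIntegral.integral_add_adjacent_intervals (fi (-δ) 0) (fi 0 s)]
    have : ∫ t in (0:ℝ)..s, f t = s := by
      rw [intervalIntegral.integral_congr (g := fun _ => (1:ℝ))]
      · simp
      · intro t ht
        rw [uIcc_of_le hs] at ht
        exact fo t ht.1
    rw [this]
    ring
  · intro s hs
    rw [(hd s).deriv]
    exact fo s hs
  · intro s
    rw [(hd s).deriv]
    exact ⟨f0 s, f1 s⟩
  · intro s hs
    show ∫ t in (0:ℝ)..s, Real.smoothTransition t = 0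
    rw [intervalIntegral.integral_symm, intervalIntegral.integral_congr (g := fun _ => (0:ℝ))]
    · simp
    · intro t ht
      rw [uIcc_of_le hs] at ht
      exact Real.smoothTransition.zero_of_nonpos ht.2
  · intro s hs
    show 0 < ∫ t in (0:ℝ)..s, Real.smoothTransition t
    apply intervalIntegral.intervalIntegral_pos_of_pos_on (χi _ _)
    · intro t ht
      exact Real.smoothTransition.pos_of_pos ht.1
    · exact hs
  · intro s
    rw [(hd' s).deriv]
    exact ⟨Real.smoothTransition.nonneg s, (Real.smoothTransition.le_one s).trans (by norm_num)⟩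

end Pool.Agent.MP_4c4330_an.Gen
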