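import Pool.Agent.MP_4c4330_an.Gen.Defs
open MeasureTheory Set Filter Topology
open scoped ENNReal ContDiff
namespace Pool.Agent.MP_4c4330_an.Gen

section
variable {E : Type*} [NormedAddCommGroup E] [InnerProductSpace ℝ E] [FiniteDimensional ℝ E]
  [MeasurableSpace E] [BorelSpace E] {Ω : Set E}

/-- the test function of the comparison -/
theorem H5_test {Q : Set E} {γ β : ℝ → ℝ} (hγ : ContDiff ℝ ∞ γ) (hγ0 : ∀ s, 0 ≤ γ s)
    (hβ : ContDiff ℝ ∞ β) (hβ0 : ∀ s ≤ 0, β s = 0) {φ ψ : E → ℝ} (hφ : IsTest Ω φ)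
    (hψ : IsTest Q ψ) :
    IsTest Ω (fun x => β (φ x - γ (ψ x))) ∧
      ∀ x, gradient (fun x => β (φ x - γ (ψ x))) x =
        deriv β (φ x - γ (ψ x)) • gradient φ x -
          (deriv β (φ x - γ (ψ x)) * deriv γ (ψ x)) • gradient ψ x := by
  have hsupp : Function.support (fun x => β (φ x - γ (ψ x))) ⊆ Function.support φ := by
    intro x hx hx0
    apply hx
    show β (φ x - γ (ψ x)) = 0
    apply hβ0
    have : φ x = 0 := hx0
    rw [this]
    linarith [hγ0 (ψ x)]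
  refine ⟨⟨hβ.comp (hφ.1.sub (hγ.comp hψ.1)), hφ.2.1.mono hsupp, ?_⟩, fun x => ?_⟩
  · exact (closure_mono hsupp).trans hφ.2.2
  · have h1 : HasDerivAt β (deriv β (φ x - γ (ψ x))) (φ x - γ (ψ x)) :=
      ((hβ.differentiable (by simp)) _).hasDerivAt
    have h2 : HasFDerivAt φ (fderiv ℝ φ x) x := (hφ.differentiable x).hasFDerivAt
    have h3 : HasFDerivAt ψ (fderiv ℝ ψ x) x := (hψ.differentiable x).hasFDerivAt
    have h4 : HasDerivAt γ (deriv γ (ψ x)) (ψ x) :=
      ((hγ.differentiable (by simp)) _).hasDerivAt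
    have h5 := h1.comp_hasFDerivAt x (h2.sub (h4.comp_hasFDerivAt x h3))
    have h6 : fderiv ℝ (fun x => β (φ x - γ (ψ x))) x =
        deriv β (φ x - γ (ψ x)) • (fderiv ℝ φ x - deriv γ (ψ x) • fderiv ℝ ψ x) := h5.fderiv
    unfold gradient
    rw [h6, map_smul, map_sub, map_smul, smul_sub, smul_smul]

/-- restriction to a smaller set -/
theorem H5_res {Q : Set E} (hΩQ : Ω ⊆ Q) {F : Type*} [NormedAddCommGroup F] :
    ∃ S : Lp F 2 (volume.restrict Q) → Lp F 2 (volume.restrict Ω),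
      (∀ f, S f =ᵐ[volume.restrict Ω] f) ∧ ∀ f g, ‖S f - S g‖ ≤ ‖f - g‖ := by
  have hle : (volume : Measure E).restrict Ω ≤ volume.restrict Q := Measure.restrict_mono hΩQ le_rfl
  have hS : ∀ f : Lp F 2 ((volume : Measure E).restrict Q),
      MemLp f 2 ((volume : Measure E).restrict Ω) := fun f => (Lp.memLp f).mono_measure hle
  refine ⟨fun f => (hS f).toLp f, fun f => (hS f).coeFn_toLp, fun f g => ?_⟩
  rw [Lp.norm_def, Lp.norm_def]
  refine ENNReal.toReal_mono (Lp.memLp (f - g)).2.ne ?_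
  have h1 : ((hS f).toLp f - (hS g).toLp g : Lp F 2 ((volume : Measure E).restrict Ω))
      =ᵐ[volume.restrict Ω] (f - g : Lp F 2 ((volume : Measure E).restrict Q)) := by
    have h2 : (f - g : Lp F 2 ((volume : Measure E).restrict Q)) =ᵐ[volume.restrict Ω]
        (fun x => f x - g x) := (Lp.coeFn_sub f g).filter_mono (ae_mono hle)
    refine (Lp.coeFn_sub _ _).trans ?_
    filter_upwards [(hS f).coeFn_toLp, (hS g).coeFn_toLp, h2] with x e1 e2 e3
    rw [Pi.sub_apply, e1, e2, e3]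
  rw [eLpNorm_congr_ae h1]
  exact eLpNorm_mono_measure _ hle

/-- multiplication by bounded functions that converge almost everywhere -/
theorem H5_mul {μ : Measure E} {c : ℕ → E → ℝ} {c0 : E → ℝ} {B : ℝ}
    (hm : ∀ k, AEStronglyMeasurable (c k) μ) (hm0 : AEStronglyMeasurable c0 μ)
    (hB : ∀ k x, |c k x| ≤ B) (hB0 : ∀ x, |c0 x| ≤ B)
    (hl : ∀ᵐ x ∂μ, Tendsto (fun k => c k x) atTop (𝓝 (c0 x)))
    {q : ℕ → Lp E 2 μ} {r : Lp E 2 μ} (hq : Tendsto q atTop (𝓝 r)) :
    ∃ (y : ℕ → Lp E 2 μ) (y0 : Lp E 2 μ), (∀ k, y k =ᵐ[μ] fun x => c k x • q k x) ∧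
      (y0 =ᵐ[μ] fun x => c0 x • r x) ∧ Tendsto y atTop (𝓝 y0) := by
  have hmem : ∀ (b : E → ℝ), AEStronglyMeasurable b μ → (∀ x, |b x| ≤ B) → ∀ p : Lp E 2 μ,
      MemLp (fun x => b x • p x) 2 μ := by
    intro b hb hbB p
    refine (Lp.memLp p).of_le_mul (c := B) (hb.smul (Lp.aestronglyMeasurable p)) ?_
    refine Eventually.of_forall fun x => ?_
    rw [norm_smul, Real.norm_eq_abs]
    exact mul_le_mul_of_nonneg_right (hbB x) (norm_nonneg _)
  let y : ℕ → Lp E 2 μ := fun k => (hmem (c k) (hm k) (hB k) (q k)).toLp _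
  let z : ℕ → Lp E 2 μ := fun k => (hmem (c k) (hm k) (hB k) r).toLp _
  let y0 : Lp E 2 μ := (hmem c0 hm0 hB0 r).toLp _
  have hy : ∀ k, y k =ᵐ[μ] fun x => c k x • q k x := fun k => MemLp.coeFn_toLp _
  have hz : ∀ k, z k =ᵐ[μ] fun x => c k x • r x := fun k => MemLp.coeFn_toLp _
  have hy0 : y0 =ᵐ[μ] fun x => c0 x • r x := MemLp.coeFn_toLp _
  refine ⟨y, y0, hy, hy0, ?_⟩
  have hp1 : ∀ k, ‖y k - z k‖ ≤ B * ‖q k - r‖ := by
    intro k
    refine Lp.norm_le_mul_norm_of_ae_le_mul ?_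
    filter_upwards [hy k, hz k, Lp.coeFn_sub (y k) (z k), Lp.coeFn_sub (q k) r] with x e1 e2 e3 e4
    rw [e3, e4, Pi.sub_apply, Pi.sub_apply, e1, e2, ← smul_sub, norm_smul, Real.norm_eq_abs]
    exact mul_le_mul_of_nonneg_right (hB _ _) (norm_nonneg _)
  have hp2 : Tendsto (fun k => ‖z k - y0‖ ^ 2) atTop (𝓝 0) := by
    have e0 : ∀ k, ‖z k - y0‖ ^ 2 = ∫ x, ‖(c k x - c0 x) • r x‖ ^ 2 ∂μ := by
      intro k
      rw [norm_sq_Lp]
      refine integral_congr_ae ?_
      filter_upwards [hz k, hy0, Lp.coeFn_sub (z k) y0] with x e1 e2 e3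
      rw [e3, Pi.sub_apply, e1, e2, ← sub_smul]
    have e1 : (0 : ℝ) = ∫ x, (0 : ℝ) ∂μ := by simp
    rw [e1]
    simp only [e0]
    refine tendsto_integral_of_dominated_convergence (fun x => (2 * B) ^ 2 * ‖r x‖ ^ 2) ?_ ?_ ?_ ?_
    · intro k
      exact ((((hm k).sub hm0).smul (Lp.aestronglyMeasurable r)).norm.pow 2)
    · exact ((Lp.memLp r).integrable_norm_pow (by norm_num)).const_mul _
    · intro k
      refine Eventually.of_forall fun x => ?_
      rw [Real.norm_eq_abs, abs_of_nonneg (sq_nonneg _), norm_smul, mul_pow]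
      refine mul_le_mul_of_nonneg_right ?_ (sq_nonneg _)
      rw [Real.norm_eq_abs]
      refine pow_le_pow_left₀ (abs_nonneg _) ?_ 2
      have := hB k x
      have := hB0 x
      exact (abs_sub _ _).trans (by linarith)
    · filter_upwards [hl] with x hx
      have e3 : Tendsto (fun k => ‖(c k x - c0 x) • r x‖ ^ 2) atTop
          (𝓝 (‖(c0 x - c0 x) • r x‖ ^ 2)) :=
        (((hx.sub_const _).smul_const _).norm).pow 2
      rw [sub_self, zero_smul, norm_zero] at e3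
      simpa using e3
  have hp3 : Tendsto (fun k => ‖z k - y0‖) atTop (𝓝 0) := by
    have e1 := (Real.continuous_sqrt.tendsto 0).comp hp2
    rw [Real.sqrt_zero] at e1
    refine e1.congr fun k => ?_
    exact Real.sqrt_sq (norm_nonneg _)
  have hp4 : Tendsto (fun k => B * ‖q k - r‖) atTop (𝓝 0) := by
    have e1 := (tendsto_iff_norm_sub_tendsto_zero.1 hq).const_mul B
    rwa [mul_zero] at e1
  rw [tendsto_iff_norm_sub_tendsto_zero]
  refine squeeze_zero (fun _ => norm_nonneg _) (fun k => ?_)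
    (by have e1 := hp4.add hp3; rwa [add_zero] at e1)
  have e2 : y k - y0 = (y k - z k) + (z k - y0) := by abel
  rw [e2]
  exact (norm_add_le _ _).trans (add_le_add (hp1 k) le_rfl)

/-- [H5] test functions for the comparison of two domains. -/
theorem chain2 {Q : Set E} (hΩQ : Ω ⊆ Q) {γ β : ℝ → ℝ} {c : ℝ} (hγ : ContDiff ℝ ∞ γ)
    (hγ0 : ∀ s, 0 ≤ γ s) (hγc : ∀ s, 0 ≤ s → γ s = s + c) (hγd : ∀ s, 0 ≤ s → deriv γ s = 1)
    (hγ1 : ∀ s, 0 ≤ deriv γ s ∧ deriv γ s ≤ 1) (hβ : ContDiff ℝ ∞ β) (hβ0 : ∀ s ≤ 0, β s = 0)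
    (hβ1 : ∀ s, 0 ≤ deriv β s ∧ deriv β s ≤ 2)
    {w : Lp ℝ 2 (volume.restrict Ω)} {r : Lp E 2 (volume.restrict Ω)} (h : InH10 Ω w r)
    {W : Lp ℝ 2 (volume.restrict Q)} {R : Lp E 2 (volume.restrict Q)} (h' : InH10 Q W R)
    (hW : ∀ᵐ x ∂(volume.restrict Q), 0 ≤ W x) :
    ∃ w' r', InH10 Ω w' r' ∧ (w' =ᵐ[volume.restrict Ω] fun x => β (w x - (W x + c))) ∧
      (r' =ᵐ[volume.restrict Ω] fun x => deriv β (w x - (W x + c)) • (r x - R x)) := by
  have hle : (volume : Measure E).restrict Ω ≤ volume.restrict Q := Measure.restrict_mono hΩQ le_rfl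
  have hcβ : Continuous (deriv β) := hβ.continuous_deriv (by simp)
  have hcγ : Continuous (deriv γ) := hγ.continuous_deriv (by simp)
  have hLβ : ∀ s t, |β s - β t| ≤ 2 * |s - t| := by
    intro s t
    have h1 : LipschitzWith 2 β :=
      lipschitzWith_of_nnnorm_deriv_le (hβ.differentiable (by simp)) fun x => by
        rw [← NNReal.coe_le_coe, coe_nnnorm, Real.norm_eq_abs, abs_of_nonneg (hβ1 x).1]
        exact (hβ1 x).2
    have h2 := h1.dist_le_mul s t
    rwa [Real.dist_eq, Real.dist_eq] at h2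
  have hLγ : ∀ s t, |γ s - γ t| ≤ |s - t| := by
    intro s t
    have h1 : LipschitzWith 1 γ :=
      lipschitzWith_of_nnnorm_deriv_le (hγ.differentiable (by simp)) fun x => by
        rw [← NNReal.coe_le_coe, coe_nnnorm, Real.norm_eq_abs, abs_of_nonneg (hγ1 x).1]
        exact (hγ1 x).2
    have h2 := h1.dist_le_mul s t
    rw [Real.dist_eq, Real.dist_eq] at h2
    simpa using h2
  have hβnn : ∀ s, |β s| ≤ 2 * max s 0 := by
    intro s
    rcases le_total s 0 with hs | hs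
    · rw [hβ0 s hs, max_eq_right hs]
      simp
    · have h1 := hLβ s 0
      rw [hβ0 0 le_rfl, sub_zero, sub_zero, abs_of_nonneg hs] at h1
      rw [max_eq_left hs]
      exact h1
  obtain ⟨S, hS, hSn⟩ := H5_res (Ω := Ω) hΩQ (F := ℝ)
  obtain ⟨S', hS', hSn'⟩ := H5_res (Ω := Ω) hΩQ (F := E)
  -- the functions
  have hmem : ∀ f p : Lp ℝ 2 ((volume : Measure E).restrict Ω),
      MemLp (fun x => β (f x - γ (p x))) 2 (volume.restrict Ω) := by
    intro f p
    refine (Lp.memLp f).of_le_mul (c := 2) ?_ ?_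
    · exact hβ.continuous.comp_aestronglyMeasurable ((Lp.aestronglyMeasurable f).sub
        (hγ.continuous.comp_aestronglyMeasurable (Lp.aestronglyMeasurable p)))
    · refine Eventually.of_forall fun x => ?_
      rw [Real.norm_eq_abs, Real.norm_eq_abs]
      refine (hβnn _).trans ?_
      refine mul_le_mul_of_nonneg_left (max_le ?_ (abs_nonneg _)) (by norm_num)
      have := hγ0 (p x)
      have := le_abs_self (f x)
      linarith
  let G : Lp ℝ 2 ((volume : Measure E).restrict Ω) → Lp ℝ 2 ((volume : Measure E).restrict Ω) →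
      Lp ℝ 2 ((volume : Measure E).restrict Ω) := fun f p => (hmem f p).toLp _
  have hG : ∀ f p, G f p =ᵐ[volume.restrict Ω] fun x => β (f x - γ (p x)) :=
    fun f p => (hmem f p).coeFn_toLp
  have hG1 : ∀ f f' p, ‖G f p - G f' p‖ ≤ 2 * ‖f - f'‖ := by
    intro f f' p
    refine Lp.norm_le_mul_norm_of_ae_le_mul ?_
    filter_upwards [hG f p, hG f' p, Lp.coeFn_sub (G f p) (G f' p), Lp.coeFn_sub f f']
      with x e1 e2 e3 e4
    rw [e3, e4, Pi.sub_apply, Pi.sub_apply, e1, e2, Real.norm_eq_abs, Real.norm_eq_abs]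
    refine (hLβ _ _).trans (le_of_eq ?_)
    congr 2
    ring
  have hG2 : ∀ f p p', ‖G f p - G f p'‖ ≤ 2 * ‖p - p'‖ := by
    intro f p p'
    refine Lp.norm_le_mul_norm_of_ae_le_mul ?_
    filter_upwards [hG f p, hG f p', Lp.coeFn_sub (G f p) (G f p'), Lp.coeFn_sub p p']
      with x e1 e2 e3 e4
    rw [e3, e4, Pi.sub_apply, Pi.sub_apply, e1, e2, Real.norm_eq_abs, Real.norm_eq_abs]
    refine (hLβ _ _).trans ?_
    refine mul_le_mul_of_nonneg_left ?_ (by norm_num)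
    have h1 : f x - γ (p x) - (f x - γ (p' x)) = -(γ (p x) - γ (p' x)) := by ring
    rw [h1, abs_neg]
    exact hLγ _ _
  -- the approximations
  have hm1 : (w, r) ∈ closure ((testPairs Ω : Submodule ℝ _) :
      Set (Lp ℝ 2 (volume.restrict Ω) × Lp E 2 (volume.restrict Ω))) := h
  have hm2 : (W, R) ∈ closure ((testPairs Q : Submodule ℝ _) :
      Set (Lp ℝ 2 (volume.restrict Q) × Lp E 2 (volume.restrict Q))) := h'
  obtain ⟨u, hu, hlim⟩ := mem_closure_iff_seq_limit.1 hm1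
  obtain ⟨v, hv, hlimv⟩ := mem_closure_iff_seq_limit.1 hm2
  have hu1 : Tendsto (fun n => (u n).1) atTop (𝓝 w) := (continuous_fst.tendsto _).comp hlim
  have hu2 : Tendsto (fun n => (u n).2) atTop (𝓝 r) := (continuous_snd.tendsto _).comp hlim
  have hv1 : Tendsto (fun n => S (v n).1) atTop (𝓝 (S W)) := by
    have h1 : Tendsto (fun n => (v n).1) atTop (𝓝 W) := (continuous_fst.tendsto _).comp hlimv
    rw [tendsto_iff_norm_sub_tendsto_zero] at h1 ⊢
    exact squeeze_zero (fun _ => norm_nonneg _) (fun n => hSn _ _) h1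
  have hv2 : Tendsto (fun n => S' (v n).2) atTop (𝓝 (S' R)) := by
    have h1 : Tendsto (fun n => (v n).2) atTop (𝓝 R) := (continuous_snd.tendsto _).comp hlimv
    rw [tendsto_iff_norm_sub_tendsto_zero] at h1 ⊢
    exact squeeze_zero (fun _ => norm_nonneg _) (fun n => hSn' _ _) h1
  obtain ⟨ns, hns, hae⟩ := (tendstoInMeasure_of_tendsto_Lp hu1).exists_seq_tendsto_ae
  have hv1' : Tendsto (fun k => S (v (ns k)).1) atTop (𝓝 (S W)) := hv1.comp hns.tendsto_atTop
  obtain ⟨ms, hms, hae'⟩ := (tendstoInMeasure_of_tendsto_Lp hv1').exists_seq_tendsto_ae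
  let j : ℕ → ℕ := fun k => ns (ms k)
  have hj : Tendsto j atTop atTop := hns.tendsto_atTop.comp hms.tendsto_atTop
  have ku1 : Tendsto (fun k => (u (j k)).1) atTop (𝓝 w) := hu1.comp hj
  have ku2 : Tendsto (fun k => (u (j k)).2) atTop (𝓝 r) := hu2.comp hj
  have kv1 : Tendsto (fun k => S (v (j k)).1) atTop (𝓝 (S W)) := hv1.comp hj
  have kv2 : Tendsto (fun k => S' (v (j k)).2) atTop (𝓝 (S' R)) := hv2.comp hj
  have ka1 : ∀ᵐ x ∂(volume.restrict Ω), Tendsto (fun k => (u (j k)).1 x) atTop (𝓝 (w x)) := by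
    filter_upwards [hae] with x hx
    exact hx.comp hms.tendsto_atTop
  have ka2 : ∀ᵐ x ∂(volume.restrict Ω), Tendsto (fun k => S (v (j k)).1 x) atTop (𝓝 (S W x)) :=
    hae'
  -- the coefficients
  have hmeas : ∀ f p : Lp ℝ 2 ((volume : Measure E).restrict Ω),
      AEStronglyMeasurable (fun x => deriv β (f x - γ (p x))) (volume.restrict Ω) :=
    fun f p => hcβ.comp_aestronglyMeasurable ((Lp.aestronglyMeasurable f).sub
        (hγ.continuous.comp_aestronglyMeasurable (Lp.aestronglyMeasurable p)))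
  have hmeas' : ∀ f p : Lp ℝ 2 ((volume : Measure E).restrict Ω),
      AEStronglyMeasurable (fun x => deriv β (f x - γ (p x)) * deriv γ (p x))
        (volume.restrict Ω) :=
    fun f p => (hmeas f p).mul (hcγ.comp_aestronglyMeasurable (Lp.aestronglyMeasurable p))
  have hb1 : ∀ s, |deriv β s| ≤ 2 := fun s => by
    rw [abs_of_nonneg (hβ1 s).1]
    exact (hβ1 s).2
  have hb2 : ∀ s t, |deriv β s * deriv γ t| ≤ 2 := fun s t => by
    rw [abs_mul, abs_of_nonneg (hβ1 s).1, abs_of_nonneg (hγ1 t).1]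
    have h1 := mul_le_mul (hβ1 s).2 (hγ1 t).2 (hγ1 t).1 (by norm_num)
    linarith
  obtain ⟨y, y0, hy, hy0, hyl⟩ := H5_mul (μ := volume.restrict Ω)
    (c := fun k x => deriv β ((u (j k)).1 x - γ (S (v (j k)).1 x)))
    (c0 := fun x => deriv β (w x - γ (S W x))) (B := 2) (fun k => hmeas _ _) (hmeas _ _)
    (fun k x => hb1 _) (fun x => hb1 _)
    (by
      filter_upwards [ka1, ka2] with x e1 e2
      exact (hcβ.tendsto _).comp (e1.sub ((hγ.continuous.tendsto _).comp e2))) ku2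
  obtain ⟨z, z0, hz, hz0, hzl⟩ := H5_mul (μ := volume.restrict Ω)
    (c := fun k x => deriv β ((u (j k)).1 x - γ (S (v (j k)).1 x)) *
      deriv γ (S (v (j k)).1 x))
    (c0 := fun x => deriv β (w x - γ (S W x)) * deriv γ (S W x)) (B := 2)
    (fun k => hmeas' _ _) (hmeas' _ _) (fun k x => hb2 _ _) (fun x => hb2 _ _)
    (by
      filter_upwards [ka1, ka2] with x e1 e2
      exact ((hcβ.tendsto _).comp (e1.sub ((hγ.continuous.tendsto _).comp e2))).mul
        ((hcγ.tendsto _).comp e2)) kv2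
  have hWΩ : ∀ᵐ x ∂(volume.restrict Ω), 0 ≤ W x := hW.filter_mono (ae_mono hle)
  refine ⟨G w (S W), y0 - z0, ?_, ?_, ?_⟩
  · have hzk : ∀ k, (G (u (j k)).1 (S (v (j k)).1), y k - z k) ∈
        ((testPairs Ω : Submodule ℝ _) :
          Set (Lp ℝ 2 (volume.restrict Ω) × Lp E 2 (volume.restrict Ω))) := by
      intro k
      obtain ⟨φ, hφ, h1, h2⟩ := hu (j k)
      obtain ⟨ψ, hψ, h3, h4⟩ := hv (j k)
      obtain ⟨h5, h6⟩ := H5_test hγ hγ0 hβ hβ0 hφ hψ
      have h3' : (v (j k)).1 =ᵐ[volume.restrict Ω] ψ := h3.filter_mono (ae_mono hle)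
      have h4' : (v (j k)).2 =ᵐ[volume.restrict Ω] gradient ψ := h4.filter_mono (ae_mono hle)
      refine ⟨_, h5, ?_, ?_⟩
      · filter_upwards [hG (u (j k)).1 (S (v (j k)).1), h1, h3', hS (v (j k)).1]
          with x e1 e2 e3 e4
        change (G (u (j k)).1 (S (v (j k)).1)) x = β (φ x - γ (ψ x))
        rw [e1, e2, e4, e3]
      · filter_upwards [hy k, hz k, Lp.coeFn_sub (y k) (z k), h1, h2, h3', h4', hS (v (j k)).1,
          hS' (v (j k)).2] with x e1 e2 e3 e4 e5 e6 e7 e8 e9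
        change (y k - z k : Lp E 2 (volume.restrict Ω)) x = gradient (fun x => β (φ x - γ (ψ x))) x
        rw [e3, Pi.sub_apply, e1, e2, h6 x, e4, e5, e8, e6, e9, e7]
    have hfin : Tendsto (fun k => (G (u (j k)).1 (S (v (j k)).1), y k - z k)) atTop
        (𝓝 (G w (S W), y0 - z0)) := by
      refine Tendsto.prodMk_nhds ?_ (hyl.sub hzl)
      rw [tendsto_iff_norm_sub_tendsto_zero]
      have e1 := (tendsto_iff_norm_sub_tendsto_zero.1 ku1).const_mul 2
      have e2 := (tendsto_iff_norm_sub_tendsto_zero.1 kv1).const_mul 2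
      refine squeeze_zero (fun _ => norm_nonneg _) (fun k => ?_)
        (by have e3 := e1.add e2; rwa [mul_zero, add_zero] at e3)
      have e4 : G (u (j k)).1 (S (v (j k)).1) - G w (S W) =
          (G (u (j k)).1 (S (v (j k)).1) - G w (S (v (j k)).1)) +
            (G w (S (v (j k)).1) - G w (S W)) := by abel
      rw [e4]
      exact (norm_add_le _ _).trans (add_le_add (hG1 _ _ _) (hG2 _ _ _))
    exact mem_closure_of_tendsto hfin (Eventually.of_forall hzk)
  · filter_upwards [hG w (S W), hS W, hWΩ] with x e1 e2 e3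
    rw [e1, e2, hγc _ e3]
  · filter_upwards [hy0, hz0, Lp.coeFn_sub y0 z0, hS W, hS' R, hWΩ] with x e1 e2 e3 e4 e5 e6
    rw [e3, Pi.sub_apply, e1, e2, e4, e5, hγc _ e6, hγd _ e6, mul_one, smul_sub]

end

end Pool.Agent.MP_4c4330_an.Gen
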