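import Pool.Agent.MP_4c4330_an.Gen.Defs
open MeasureTheory Set Filter Topology
open scoped ENNReal ContDiff
namespace Pool.Agent.MP_4c4330_an.Gen

section
variable {E : Type*} [NormedAddCommGroup E] [InnerProductSpace ℝ E] [FiniteDimensional ℝ E]
  [MeasurableSpace E] [BorelSpace E] {Ω : Set E}
  {F : Type*} [NormedAddCommGroup F]

lemma H6_res {Q : Set E} (hΩQ : Ω ⊆ Q) :
    ((volume : Measure E).restrict Q).restrict Ω = volume.restrict Ω :=
  Measure.restrict_restrict_of_subset hΩQ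

lemma H6_mem {Q : Set E} (hΩm : MeasurableSet Ω) (hΩQ : Ω ⊆ Q) (w : Lp F 2 (volume.restrict Ω)) :
    MemLp (Ω.indicator w) 2 (volume.restrict Q) := by
  rw [memLp_indicator_iff_restrict hΩm, H6_res hΩQ]
  exact Lp.memLp w

/-- Extension by zero. -/
noncomputable def H6_ext {Q : Set E} (hΩm : MeasurableSet Ω) (hΩQ : Ω ⊆ Q)
    (w : Lp F 2 (volume.restrict Ω)) : Lp F 2 (volume.restrict Q) :=
  (H6_mem hΩm hΩQ w).toLp _

lemma H6_ext_ae {Q : Set E} (hΩm : MeasurableSet Ω) (hΩQ : Ω ⊆ Q)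
    (w : Lp F 2 (volume.restrict Ω)) :
    H6_ext hΩm hΩQ w =ᵐ[volume.restrict Q] Ω.indicator w :=
  (H6_mem hΩm hΩQ w).coeFn_toLp

lemma H6_ext_in {Q : Set E} (hΩm : MeasurableSet Ω) (hΩQ : Ω ⊆ Q)
    (w : Lp F 2 (volume.restrict Ω)) :
    H6_ext hΩm hΩQ w =ᵐ[volume.restrict Ω] w := by
  have h1 : H6_ext hΩm hΩQ w =ᵐ[volume.restrict Ω] Ω.indicator w :=
    ae_restrict_of_ae_restrict_of_subset hΩQ (H6_ext_ae hΩm hΩQ w)
  exact h1.trans (indicator_ae_eq_restrict hΩm)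

lemma H6_norm {Q : Set E} (hΩm : MeasurableSet Ω) (hΩQ : Ω ⊆ Q)
    (w : Lp F 2 (volume.restrict Ω)) : ‖H6_ext hΩm hΩQ w‖ = ‖w‖ := by
  unfold H6_ext
  rw [Lp.norm_toLp, eLpNorm_indicator_eq_eLpNorm_restrict hΩm, H6_res hΩQ]
  rfl

lemma H6_sub {Q : Set E} (hΩm : MeasurableSet Ω) (hΩQ : Ω ⊆ Q)
    (w w' : Lp F 2 (volume.restrict Ω)) :
    H6_ext hΩm hΩQ (w - w') = H6_ext hΩm hΩQ w - H6_ext hΩm hΩQ w' := by
  apply Lp.ext
  have h1 := H6_ext_ae hΩm hΩQ (w - w')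
  have h2 := H6_ext_ae hΩm hΩQ w
  have h3 := H6_ext_ae hΩm hΩQ w'
  have h4 := Lp.coeFn_sub (H6_ext hΩm hΩQ w) (H6_ext hΩm hΩQ w')
  have h5 : Ω.indicator (w - w' : Lp F 2 (volume.restrict Ω)) =ᵐ[volume.restrict Q]
      Ω.indicator (fun x => w x - w' x) := by
    rw [← ae_eq_restrict_iff_indicator_ae_eq hΩm, H6_res hΩQ]
    exact Lp.coeFn_sub w w'
  filter_upwards [h1, h2, h3, h4, h5] with x k1 k2 k3 k4 k5
  rw [k1, k4, k5, Pi.sub_apply, k2, k3]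
  by_cases hx : x ∈ Ω
  · simp [hx]
  · simp [hx]

lemma H6_cont {Q : Set E} (hΩm : MeasurableSet Ω) (hΩQ : Ω ⊆ Q) :
    Continuous (H6_ext (F := F) (Q := Q) hΩm hΩQ) := by
  apply Isometry.continuous
  apply Isometry.of_dist_eq
  intro w w'
  rw [dist_eq_norm, dist_eq_norm, ← H6_sub, H6_norm]

/-- [H6] extension by zero. -/
theorem ext_zero {Q : Set E} (hΩm : MeasurableSet Ω) (hΩQ : Ω ⊆ Q)
    {w : Lp ℝ 2 (volume.restrict Ω)} {r : Lp E 2 (volume.restrict Ω)} (h : InH10 Ω w r) :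
    ∃ w' r', InH10 Q w' r' ∧ (w' =ᵐ[volume.restrict Ω] w) ∧ (r' =ᵐ[volume.restrict Ω] r) ∧
      (∀ᵐ x ∂(volume.restrict Q), x ∉ Ω → w' x = 0 ∧ r' x = 0) ∧ ‖w'‖ = ‖w‖ ∧ ‖r'‖ = ‖r‖ := by
  refine ⟨H6_ext hΩm hΩQ w, H6_ext hΩm hΩQ r, ?_, H6_ext_in hΩm hΩQ w, H6_ext_in hΩm hΩQ r, ?_,
    H6_norm hΩm hΩQ w, H6_norm hΩm hΩQ r⟩
  · have hc : Continuous (fun z : Lp ℝ 2 (volume.restrict Ω) × Lp E 2 (volume.restrict Ω) =>
        (H6_ext hΩm hΩQ z.1, H6_ext hΩm hΩQ z.2) :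
        _ → Lp ℝ 2 (volume.restrict Q) × Lp E 2 (volume.restrict Q)) :=
      ((H6_cont hΩm hΩQ).comp continuous_fst).prodMk ((H6_cont hΩm hΩQ).comp continuous_snd)
    have h1 : (w, r) ∈ closure (testPairs Ω : Set _) := h
    have h2 := image_closure_subset_closure_image hc ⟨_, h1, rfl⟩
    have h3 : (fun z : Lp ℝ 2 (volume.restrict Ω) × Lp E 2 (volume.restrict Ω) =>
        (H6_ext hΩm hΩQ z.1, H6_ext hΩm hΩQ z.2)) '' (testPairs Ω : Set _) ⊆
        (testPairs Q : Set _) := by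
      rintro _ ⟨z, ⟨φ, hφ, e1, e2⟩, rfl⟩
      refine ⟨φ, ⟨hφ.1, hφ.2.1, hφ.2.2.trans hΩQ⟩, ?_, ?_⟩
      · have k1 := H6_ext_ae hΩm hΩQ z.1
        have k2 : Ω.indicator z.1 =ᵐ[volume.restrict Q] Ω.indicator φ := by
          rw [← ae_eq_restrict_iff_indicator_ae_eq hΩm, H6_res hΩQ]
          exact e1
        have k3 : Ω.indicator φ = φ := by
          apply indicator_eq_self.mpr
          exact (subset_tsupport φ).trans hφ.2.2
        rw [k3] at k2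
        exact k1.trans k2
      · have k1 := H6_ext_ae hΩm hΩQ z.2
        have k2 : Ω.indicator z.2 =ᵐ[volume.restrict Q] Ω.indicator (gradient φ) := by
          rw [← ae_eq_restrict_iff_indicator_ae_eq hΩm, H6_res hΩQ]
          exact e2
        have k3 : Ω.indicator (gradient φ) = gradient φ := by
          apply indicator_eq_self.mpr
          intro x hx
          apply hφ.2.2
          apply support_fderiv_subset ℝ
          intro h0
          apply hx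
          unfold gradient
          rw [h0, map_zero]
        rw [k3] at k2
        exact k1.trans k2
    exact closure_mono h3 h2
  · filter_upwards [H6_ext_ae hΩm hΩQ w, H6_ext_ae hΩm hΩQ r] with x k1 k2 hx
    rw [k1, k2]
    simp [hx]

end

end Pool.Agent.MP_4c4330_an.Gen
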