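import Pool.Agent.MP_4c4330_an.Gen.Defs
import Pool.Agent.MP_4c4330_an.Gen.H3
import Pool.Agent.MP_4c4330_an.Gen.H4
import Pool.Agent.MP_4c4330_an.Gen.H5
import Pool.Agent.MP_4c4330_an.Gen.H6

set_option linter.unusedSectionVars false

open MeasureTheory Set Filter Topology
open scoped ENNReal ContDiff

namespace Pool.Agent.MP_4c4330_an.Gen

section
variable {E : Type*} [NormedAddCommGroup E] [InnerProductSpace ℝ E] [FiniteDimensional ℝ E]
  [MeasurableSpace E] [BorelSpace E] {Ω : Set E} {a α : ℝ} {n : ℕ}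

lemma H7_eq {l : ℝ} {h w : Lp ℝ 2 (volume.restrict Ω)} {r : Lp E 2 (volume.restrict Ω)}
    (hw : IsRes Ω l h w r) {w' : Lp ℝ 2 (volume.restrict Ω)} {r' : Lp E 2 (volume.restrict Ω)}
    (h' : InH10 Ω w' r') :
    (∫ x in Ω, w x * w' x) + l⁻¹ * ∫ x in Ω, inner ℝ (r x) (r' x) = ∫ x in Ω, h x * w' x := by
  have h1 := hw.2 w' r' h'
  rwa [inner_Lp_real, inner_Lp_real, L2.inner_def] at h1

lemma H7_mul {μ : Measure E} {f g : E → ℝ} (hf : MemLp f 2 μ) (hg : MemLp g 2 μ) :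
    Integrable (fun x => f x * g x) μ := MemLp.integrable_mul hf hg

lemma H7_inner {μ : Measure E} {f g : E → E} (hf : MemLp f 2 μ) (hg : MemLp g 2 μ) :
    Integrable (fun x => (inner ℝ (f x) (g x) : ℝ)) μ := by
  have h1 := L2.integrable_inner (𝕜 := ℝ) (hf.toLp f) (hg.toLp g)
  refine h1.congr ?_
  filter_upwards [hf.coeFn_toLp, hg.coeFn_toLp] with x h2 h3
  rw [h2, h3]

lemma H7_pos {Q : Set E} {l : ℝ} (hl : 0 < l)
    {H W : Lp ℝ 2 (volume.restrict Q)} {R : Lp E 2 (volume.restrict Q)} (hW : IsRes Q l H W R)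
    (hH : ∀ᵐ x ∂(volume.restrict Q), 0 ≤ H x) : ∀ᵐ x ∂(volume.restrict Q), 0 ≤ W x := by
  obtain ⟨γ, c, -, -, -, -, -, -, -, β, hβ, hβ0, hβp, hβ1⟩ := pos_part (δ := 1) one_pos
  have hd : ∀ s, deriv (fun s => β (-s)) s = - deriv β (-s) := fun s => deriv_comp_neg β s
  obtain ⟨w', r', h1, h2, h3⟩ := chain (Ω := Q) (β := fun s => β (-s))
    (hβ.comp contDiff_neg) (by simp [hβ0 0 le_rfl]) (B := 2)
    (fun s => by rw [hd, abs_neg, abs_of_nonneg (hβ1 _).1]; exact (hβ1 _).2) hW.1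
  have hβn : ∀ s, 0 ≤ β s := by
    intro s
    rcases le_or_gt s 0 with h | h
    · exact (hβ0 s h).ge
    · exact (hβp s h).le
  have e := H7_eq hW h1
  have hlt : ∀ s : ℝ, s * β (-s) ≤ 0 := by
    intro s
    rcases le_or_gt s 0 with h | h
    · exact mul_nonpos_of_nonpos_of_nonneg h (hβn _)
    · rw [hβ0 (-s) (by linarith), mul_zero]
  have p1 : ∫ x in Q, W x * w' x ≤ 0 := by
    refine integral_nonpos_of_ae ?_
    filter_upwards [h2] with x hx
    rw [hx]
    exact hlt _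
  have p2 : ∫ x in Q, inner ℝ (R x) (r' x) ≤ 0 := by
    refine integral_nonpos_of_ae ?_
    filter_upwards [h3] with x hx
    rw [hx, hd, real_inner_smul_right, real_inner_self_eq_norm_sq]
    have := (hβ1 (-(W x))).1
    show -deriv β (-(W x)) * ‖R x‖ ^ 2 ≤ 0
    nlinarith [sq_nonneg ‖R x‖, mul_nonneg this (sq_nonneg ‖R x‖)]
  have p3 : 0 ≤ ∫ x in Q, H x * w' x := by
    refine integral_nonneg_of_ae ?_
    filter_upwards [h2, hH] with x hx hx2
    rw [hx]
    exact mul_nonneg hx2 (hβn _)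
  have hl' : 0 < l⁻¹ := by positivity
  have p4 : ∫ x in Q, W x * w' x = 0 := by nlinarith
  have p5 : ∫ x in Q, -(W x * w' x) = 0 := by rw [integral_neg, p4, neg_zero]
  have p6 : 0 ≤ᵐ[volume.restrict Q] fun x => -(W x * w' x) := by
    filter_upwards [h2] with x hx
    rw [hx]
    have := hlt (W x)
    show 0 ≤ -(W x * β (-(W x)))
    linarith
  have p7 := (integral_eq_zero_iff_of_nonneg_ae p6
    (H7_mul (Lp.memLp W) (Lp.memLp w')).neg).1 p5
  filter_upwards [p7, h2] with x hx hx2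
  by_contra hcon
  push Not at hcon
  have h4 : -(W x * w' x) = 0 := hx
  rw [hx2] at h4
  have h5 := hβp (-(W x)) (by linarith)
  nlinarith [mul_pos (show 0 < -(W x) by linarith) h5]

lemma H7_ext {Q : Set E} (hΩ : IsOpen Ω) (hQ : IsOpen Q) (hΩQ : Ω ⊆ Q) {f : E → ℝ}
    (h0 : ∀ᵐ x ∂(volume.restrict Q), x ∉ Ω → f x = 0) :
    ∫ x in Q, f x = ∫ x in Ω, f x := by
  refine setIntegral_eq_of_subset_of_ae_diff_eq_zero hQ.measurableSet.nullMeasurableSet hΩQ ?_
  rw [ae_restrict_iff' hQ.measurableSet] at h0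
  filter_upwards [h0] with x hx hx2
  exact hx hx2.1 hx2.2

lemma H7_half {Q : Set E} (hΩ : IsOpen Ω) (hQ : IsOpen Q) (hΩQ : Ω ⊆ Q) {l : ℝ} (hl : 0 < l)
    {h w : Lp ℝ 2 (volume.restrict Ω)} {r : Lp E 2 (volume.restrict Ω)} (hw : IsRes Ω l h w r)
    {H W : Lp ℝ 2 (volume.restrict Q)} {R : Lp E 2 (volume.restrict Q)} (hW : IsRes Q l H W R)
    (hWn : ∀ᵐ x ∂(volume.restrict Q), 0 ≤ W x)
    (hle : ∀ᵐ x ∂(volume.restrict Ω), h x ≤ H x) :
    ∀ᵐ x ∂(volume.restrict Ω), w x ≤ W x := by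
  have hmono : volume.restrict Ω ≤ volume.restrict Q := Measure.restrict_mono hΩQ le_rfl
  have key : ∀ δ : ℝ, 0 < δ → ∀ᵐ x ∂(volume.restrict Ω), w x ≤ W x + δ := by
    intro δ hδ
    obtain ⟨γ, c, hγ, hγ0, hc0, hcδ, hγc, hγd, hγ1, β, hβ, hβ0, hβp, hβ1⟩ :=
      pos_part hδ
    obtain ⟨w', r', h1, h2, h3⟩ := chain2 hΩQ hγ hγ0 hγc hγd hγ1 hβ hβ0 hβ1 hw.1 hW.1 hWn
    obtain ⟨w2, r2, k1, k2, k3, k4, -, -⟩ := ext_zero hΩ.measurableSet hΩQ h1
    have hβn : ∀ s, 0 ≤ β s := by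
      intro s
      rcases le_or_gt s 0 with h | h
      · exact (hβ0 s h).ge
      · exact (hβp s h).le
    have e1 := H7_eq hw h1
    have e2 := H7_eq hW k1
    have mW : MemLp W 2 (volume.restrict Ω) := (Lp.memLp W).mono_measure hmono
    have mH : MemLp H 2 (volume.restrict Ω) := (Lp.memLp H).mono_measure hmono
    have mR : MemLp R 2 (volume.restrict Ω) := (Lp.memLp R).mono_measure hmono
    have f1 : ∫ x in Q, W x * w2 x = ∫ x in Ω, W x * w' x := by
      rw [H7_ext hΩ hQ hΩQ (f := fun x => W x * w2 x)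
        (by filter_upwards [k4] with x hx hx2; rw [(hx hx2).1, mul_zero])]
      refine integral_congr_ae ?_
      filter_upwards [k2] with x hx
      rw [hx]
    have f2 : ∫ x in Q, H x * w2 x = ∫ x in Ω, H x * w' x := by
      rw [H7_ext hΩ hQ hΩQ (f := fun x => H x * w2 x)
        (by filter_upwards [k4] with x hx hx2; rw [(hx hx2).1, mul_zero])]
      refine integral_congr_ae ?_
      filter_upwards [k2] with x hx
      rw [hx]
    have f3 : ∫ x in Q, inner ℝ (R x) (r2 x) = ∫ x in Ω, inner ℝ (R x) (r' x) := by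
      rw [H7_ext hΩ hQ hΩQ (f := fun x => inner ℝ (R x) (r2 x))
        (by filter_upwards [k4] with x hx hx2; rw [(hx hx2).2, inner_zero_right])]
      refine integral_congr_ae ?_
      filter_upwards [k3] with x hx
      rw [hx]
    rw [f1, f2, f3] at e2
    have g1 : ∫ x in Ω, (w x - W x) * w' x = (∫ x in Ω, w x * w' x) - ∫ x in Ω, W x * w' x := by
      rw [← integral_sub (H7_mul (Lp.memLp w) (Lp.memLp w')) (H7_mul mW (Lp.memLp w'))]
      refine integral_congr_ae (Eventually.of_forall fun x => ?_)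
      show (w x - W x) * w' x = w x * w' x - W x * w' x
      ring
    have g2 : ∫ x in Ω, (h x - H x) * w' x = (∫ x in Ω, h x * w' x) - ∫ x in Ω, H x * w' x := by
      rw [← integral_sub (H7_mul (Lp.memLp h) (Lp.memLp w')) (H7_mul mH (Lp.memLp w'))]
      refine integral_congr_ae (Eventually.of_forall fun x => ?_)
      show (h x - H x) * w' x = h x * w' x - H x * w' x
      ring
    have g3 : ∫ x in Ω, inner ℝ (r x - R x) (r' x)
        = (∫ x in Ω, inner ℝ (r x) (r' x)) - ∫ x in Ω, inner ℝ (R x) (r' x) := by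
      rw [← integral_sub (H7_inner (Lp.memLp r) (Lp.memLp r')) (H7_inner mR (Lp.memLp r'))]
      refine integral_congr_ae (Eventually.of_forall fun x => ?_)
      exact inner_sub_left _ _ _
    have s1 : ∫ x in Ω, (h x - H x) * w' x ≤ 0 := by
      refine integral_nonpos_of_ae ?_
      filter_upwards [h2, hle] with x hx hx2
      rw [hx]
      exact mul_nonpos_of_nonpos_of_nonneg (by linarith) (hβn _)
    have s2 : 0 ≤ ∫ x in Ω, inner ℝ (r x - R x) (r' x) := by
      refine integral_nonneg_of_ae ?_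
      filter_upwards [h3] with x hx
      rw [hx, real_inner_smul_right, real_inner_self_eq_norm_sq]
      exact mul_nonneg (hβ1 _).1 (sq_nonneg _)
    have hl' : 0 < l⁻¹ := by positivity
    have hnn : ∀ᵐ x ∂(volume.restrict Ω), 0 ≤ (w x - W x) * w' x := by
      filter_upwards [h2] with x hx
      rw [hx]
      rcases le_or_gt (w x - (W x + c)) 0 with hs | hs
      · rw [hβ0 _ hs, mul_zero]
      · exact mul_nonneg (by linarith) (hβn _)
    have s3 : ∫ x in Ω, (w x - W x) * w' x = 0 := by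
      refine le_antisymm ?_ (integral_nonneg_of_ae hnn)
      rw [g1]
      rw [g2] at s1
      rw [g3] at s2
      nlinarith [mul_nonneg hl'.le s2]
    have s4 := (integral_eq_zero_iff_of_nonneg_ae hnn
      (H7_mul ((Lp.memLp w).sub mW) (Lp.memLp w'))).1 s3
    filter_upwards [s4, h2] with x hx hx2
    have h4 : (w x - W x) * w' x = 0 := hx
    by_contra hcon
    push Not at hcon
    rw [hx2] at h4
    have h5 := hβp (w x - (W x + c)) (by linarith)
    nlinarith [mul_pos (show 0 < w x - W x by linarith) h5]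
  have h2 : ∀ᵐ x ∂(volume.restrict Ω), ∀ m : ℕ, w x ≤ W x + 1 / ((m:ℝ) + 1) :=
    ae_all_iff.2 fun m => key _ (by positivity)
  filter_upwards [h2] with x hx
  have h3 : Tendsto (fun m : ℕ => 1 / ((m:ℝ) + 1)) atTop (𝓝 0) :=
    tendsto_one_div_add_atTop_nhds_zero_nat
  have h4 : Tendsto (fun m : ℕ => W x + 1 / ((m:ℝ) + 1)) atTop (𝓝 (W x)) := by
    simpa using h3.const_add (W x)
  exact ge_of_tendsto' h4 hx

lemma H7_neg {l : ℝ} {h w : Lp ℝ 2 (volume.restrict Ω)} {r : Lp E 2 (volume.restrict Ω)}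
    (hw : IsRes Ω l h w r) : IsRes Ω l (-h) (-w) (-r) := by
  refine ⟨?_, ?_⟩
  · have := hw.1.smul (-1)
    simpa using this
  · intro w' r' h'
    have := hw.2 w' r' h'
    rw [inner_neg_left, inner_neg_left, inner_neg_left]
    linarith

/-- Domination of resolvents. -/
theorem domin {Q : Set E} (hΩ : IsOpen Ω) (hQ : IsOpen Q) (hΩQ : Ω ⊆ Q) {l : ℝ} (hl : 0 < l)
    {h w : Lp ℝ 2 (volume.restrict Ω)} {r : Lp E 2 (volume.restrict Ω)} (hw : IsRes Ω l h w r)
    {H W : Lp ℝ 2 (volume.restrict Q)} {R : Lp E 2 (volume.restrict Q)} (hW : IsRes Q l H W R)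
    (hH : ∀ᵐ x ∂(volume.restrict Q), 0 ≤ H x) (hle : ∀ᵐ x ∂(volume.restrict Ω), |h x| ≤ H x) :
    (∀ᵐ x ∂(volume.restrict Q), 0 ≤ W x) ∧ ∀ᵐ x ∂(volume.restrict Ω), |w x| ≤ W x := by
  have hWn := H7_pos hl hW hH
  refine ⟨hWn, ?_⟩
  have h1 := H7_half hΩ hQ hΩQ hl hw hW hWn (by
    filter_upwards [hle] with x hx
    exact (le_abs_self _).trans hx)
  have h2 := H7_half hΩ hQ hΩQ hl (H7_neg hw) hW hWn (by
    filter_upwards [hle, Lp.coeFn_neg h] with x hx hx2
    rw [hx2]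
    exact (neg_le_abs _).trans hx)
  filter_upwards [h1, h2, Lp.coeFn_neg w] with x hx1 hx2 hx3
  rw [hx3] at hx2
  exact abs_le'.2 ⟨hx1, hx2⟩

end

end Pool.Agent.MP_4c4330_an.Gen
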