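import Pool.Agent.MP_4c4330_an.Gen.Defs
import Pool.Agent.MP_4c4330_an.Gen.H1
import Pool.Agent.MP_4c4330_an.Gen.H14
import Pool.Agent.MP_4c4330_an.Gen.H7
open MeasureTheory Set Filter Topology
open scoped ENNReal ContDiff
namespace Pool.Agent.MP_4c4330_an.Gen

lemma H15_isOpen_bx (N : ℕ) (R : ℝ) : IsOpen (bx N R) := by
  have : bx N R = ⋂ i, {x : EuclideanSpace ℝ (Fin N) | |x i| < R} := by
    ext x; simp [bx]
  rw [this]
  refine isOpen_iInter_of_finite fun i => ?_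
  exact isOpen_lt (by fun_prop) continuous_const

lemma H15_ext {N : ℕ} {Ω Q : Set (EuclideanSpace ℝ (Fin N))} (hΩ : MeasurableSet Ω) (hΩQ : Ω ⊆ Q)
    (h : Lp ℝ 2 (volume.restrict Ω)) :
    ∃ H : Lp ℝ 2 (volume.restrict Q), (∀ᵐ x ∂(volume.restrict Q), 0 ≤ H x) ∧
      (∀ᵐ x ∂(volume.restrict Ω), |h x| ≤ H x) ∧ ‖H‖ ≤ ‖h‖ := by
  have h1 : MemLp (fun x => |h x|) 2 (volume.restrict Ω) := (Lp.memLp h).abs
  have h2 : MemLp (Ω.indicator fun x => |h x|) 2 (volume.restrict Q) := by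
    have : MemLp (Ω.indicator fun x => |h x|) 2 (volume : Measure (EuclideanSpace ℝ (Fin N))) :=
      (memLp_indicator_iff_restrict hΩ).2 h1
    exact this.restrict Q
  refine ⟨h2.toLp, ?_, ?_, ?_⟩
  · filter_upwards [h2.coeFn_toLp] with x hx
    rw [hx]
    exact indicator_nonneg (fun _ _ => abs_nonneg _) x
  · have h3 := ae_restrict_of_ae_restrict_of_subset hΩQ h2.coeFn_toLp
    filter_upwards [h3, ae_restrict_mem hΩ] with x hx hxm
    rw [hx, indicator_of_mem hxm]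
  · rw [Lp.norm_toLp, Lp.norm_def]
    refine ENNReal.toReal_mono (Lp.eLpNorm_ne_top h) ?_
    rw [eLpNorm_indicator_eq_eLpNorm_restrict hΩ, Measure.restrict_restrict hΩ,
      inter_eq_self_of_subset_left hΩQ]
    exact (eLpNorm_congr_norm_ae (Eventually.of_forall fun x => by simp)).le

/-- [H15] sup bound in a bounded open set. -/
theorem om_sup {N : ℕ} (hN : 0 < N) {Ω : Set (EuclideanSpace ℝ (Fin N))} (hΩ : IsOpen Ω)
    (hb : Bornology.IsBounded Ω) : ∃ C : ℝ, 0 < C ∧ ∀ l ≥ 1,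
    ∀ (h : ℕ → Lp ℝ 2 (volume.restrict Ω))
      (r : ℕ → Lp (EuclideanSpace ℝ (Fin N)) 2 (volume.restrict Ω)),
      (∀ i < N, IsRes Ω l (h i) (h (i + 1)) (r i)) →
      ∀ᵐ x ∂(volume.restrict Ω), |h N x| ≤ C * l ^ ((N : ℝ) / 4) * ‖h 0‖ := by
  obtain ⟨R₀, hR₀⟩ := hb.exists_norm_le
  set R : ℝ := max R₀ 0 + 1 with hRdef
  have hR : 0 < R := by positivity
  have hsub : Ω ⊆ bx N R := by
    intro x hx i
    have h1 : |x i| ≤ ‖x‖ := by
      have := PiLp.norm_apply_le x i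
      simpa using this
    have h2 := hR₀ x hx
    have h3 := le_max_left R₀ 0
    linarith
  have hQ := H15_isOpen_bx N R
  obtain ⟨C, hC, hCb⟩ := bx_sup hN hR
  refine ⟨C, hC, fun l hl h r hres => ?_⟩
  have hl0 : 0 < l := by linarith
  obtain ⟨H0, hH0, hH0', hH0n⟩ := H15_ext hΩ.measurableSet hsub (h 0)
  have hex := (res_facts hQ hl0).1
  choose W Rr hW using hex
  let H : ℕ → Lp ℝ 2 (volume.restrict (bx N R)) := fun i => Nat.rec H0 (fun _ g => W g) i
  have hHs : ∀ i, H (i + 1) = W (H i) := fun i => rfl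
  have hHz : H 0 = H0 := rfl
  have key : ∀ i ≤ N, (∀ᵐ x ∂(volume.restrict (bx N R)), 0 ≤ H i x) ∧
      ∀ᵐ x ∂(volume.restrict Ω), |h i x| ≤ H i x := by
    intro i
    induction i with
    | zero => intro _; exact ⟨hH0, hH0'⟩
    | succ i ih =>
      intro hi
      obtain ⟨a1, a2⟩ := ih (by omega)
      exact domin hΩ hQ hsub hl0 (hres i (by omega)) (H := H i) (W := H (i + 1))
        (R := Rr (H i)) (hW (H i)) a1 a2
  have h3 := hCb l hl H (fun i => Rr (H i)) (fun i _ => hW (H i))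
  have h4 := ae_restrict_of_ae_restrict_of_subset hsub h3
  filter_upwards [(key N le_rfl).2, h4] with x hx1 hx2
  refine hx1.trans ((le_abs_self _).trans (hx2.trans ?_))
  rw [hHz]
  have : 0 ≤ C * l ^ ((N : ℝ) / 4) := by positivity
  exact mul_le_mul_of_nonneg_left hH0n this

end Pool.Agent.MP_4c4330_an.Gen
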