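import Pool.Agent.MP_4c4330_an.Gen.Defs
import Pool.Agent.MP_4c4330_an.Gen.H1
import Pool.Agent.MP_4c4330_an.Gen.H12
import Pool.Agent.MP_4c4330_an.Gen.H6

/-! # GEN, row H16: the resolvent of a bounded open set is compact -/

set_option linter.unusedSectionVars false

open MeasureTheory Set Filter Topology
open scoped ENNReal ContDiff

namespace Pool.Agent.MP_4c4330_an.Gen

/-- The weighted Bessel inequality. -/
theorem H16_bessel {I X Y : Type*} [NormedAddCommGroup X] [InnerProductSpace ℝ X]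
    [NormedAddCommGroup Y] [InnerProductSpace ℝ Y] [DecidableEq I] {b : I → X}
    (hb : Orthonormal ℝ b) {q : I → Y} {lam : I → ℝ} (hpos : ∀ i, 0 < lam i)
    (hq : ∀ i j, inner ℝ (q i) (q j) = lam i * inner ℝ (b i) (b j)) {w : X} {r : Y}
    (h : ∀ i, inner ℝ (q i) r = lam i * inner ℝ (b i) w) (T : Finset I) :
    ∑ i ∈ T, lam i * (inner ℝ (b i) w) ^ 2 ≤ ‖r‖ ^ 2 := by
  have hs : ∀ i, √(lam i) * √(lam i) = lam i := fun i => Real.mul_self_sqrt (hpos i).le
  have hs0 : ∀ i, √(lam i) ≠ 0 := fun i => (Real.sqrt_pos.2 (hpos i)).ne'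
  have ho : Orthonormal ℝ (fun i => (√(lam i))⁻¹ • q i) := by
    rw [orthonormal_iff_ite]
    intro i j
    rw [real_inner_smul_left, real_inner_smul_right, hq]
    have hbb := (orthonormal_iff_ite.1 hb) i j
    rw [hbb]
    by_cases hij : i = j
    · subst hij
      simp only [if_true, mul_one]
      have := hs i
      have h0 := hs0 i
      field_simp
      nlinarith [this]
    · simp [hij]
  have := ho.sum_inner_products_le (x := r) (s := T)
  refine le_trans (le_of_eq ?_) this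
  refine Finset.sum_congr rfl fun i _ => ?_
  rw [real_inner_smul_left, h i, Real.norm_eq_abs, sq_abs]
  have h1 := hs i
  have h0 := hs0 i
  have : (√(lam i))⁻¹ * (lam i * inner ℝ (b i) w) = √(lam i) * inner ℝ (b i) w := by
    have : (√(lam i))⁻¹ * lam i = √(lam i) := by
      field_simp
      nlinarith
    rw [← mul_assoc, this]
  rw [this, mul_pow, Real.sq_sqrt (hpos i).le]

/-- The tail beyond a finite set of indices. -/
theorem H16_tail {I X Y : Type*} [NormedAddCommGroup X] [InnerProductSpace ℝ X]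
    [NormedAddCommGroup Y] [InnerProductSpace ℝ Y] [DecidableEq I] (b : HilbertBasis I ℝ X)
    {q : I → Y} {lam : I → ℝ} (hpos : ∀ i, 0 < lam i)
    (hq : ∀ i j, inner ℝ (q i) (q j) = lam i * inner ℝ (b i) (b j)) {w : X} {r : Y}
    (h : ∀ i, inner ℝ (q i) r = lam i * inner ℝ (b i) w) {S : Finset I} {c : ℝ} (hc : 0 < c)
    (hS : ∀ i, i ∉ S → c ≤ lam i) :
    ‖w - ∑ i ∈ S, inner ℝ (b i) w • b i‖ ^ 2 ≤ ‖r‖ ^ 2 / c := by
  set y := w - ∑ i ∈ S, inner ℝ (b i) w • b i with hy
  have hite : ∀ i j, inner ℝ (b i) (b j) = if i = j then (1:ℝ) else 0 :=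
    orthonormal_iff_ite.1 b.orthonormal
  have hby : ∀ j, inner ℝ (b j) y = if j ∈ S then 0 else inner ℝ (b j) w := by
    intro j
    rw [hy, inner_sub_right, inner_sum]
    have : ∑ i ∈ S, inner ℝ (b j) (inner ℝ (b i) w • b i)
        = ∑ i ∈ S, if j = i then inner ℝ (b i) w else 0 := by
      refine Finset.sum_congr rfl fun i _ => ?_
      rw [real_inner_smul_right, hite]
      split_ifs <;> simp
    rw [this, Finset.sum_ite_eq]
    split_ifs <;> simp
  have hsum := b.hasSum_inner_mul_inner y y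
  rw [real_inner_self_eq_norm_sq] at hsum
  refine hasSum_le_of_sum_le hsum fun T => ?_
  have h1 : ∀ i ∈ T, inner ℝ y (b i) * inner ℝ (b i) y ≤ (lam i * (inner ℝ (b i) w) ^ 2) / c := by
    intro i _
    rw [real_inner_comm (b i) y, hby]
    split_ifs with hi
    · have := (hpos i).le
      simp only [mul_zero]
      positivity
    · rw [le_div_iff₀ hc]
      nlinarith [hS i hi, sq_nonneg (inner ℝ (b i) w)]
  refine (Finset.sum_le_sum h1).trans ?_
  rw [← Finset.sum_div]
  exact div_le_div_of_nonneg_right (H16_bessel b.orthonormal hpos hq h T) hc.le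

section
variable {E : Type*} [NormedAddCommGroup E] [InnerProductSpace ℝ E] [FiniteDimensional ℝ E]
  [MeasurableSpace E] [BorelSpace E] {Ω Q : Set E}

/-- Restriction of finite linear combinations. -/
theorem H16_sum {I : Type*} [DecidableEq I] (hle : volume.restrict Ω ≤ volume.restrict Q)
    (S : Finset I) (c : I → ℝ) {β : I → Lp ℝ 2 (volume.restrict Ω)}
    {b : I → Lp ℝ 2 (volume.restrict Q)} (h : ∀ k, β k =ᵐ[volume.restrict Ω] b k) :
    (∑ k ∈ S, c k • β k : Lp ℝ 2 (volume.restrict Ω)) =ᵐ[volume.restrict Ω]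
      (∑ k ∈ S, c k • b k : Lp ℝ 2 (volume.restrict Q)) := by
  induction S using Finset.induction_on with
  | empty =>
    simp only [Finset.sum_empty]
    filter_upwards [Lp.coeFn_zero ℝ 2 (volume.restrict Ω),
      ae_mono hle (Lp.coeFn_zero ℝ 2 (volume.restrict Q))] with x h1 h2
    rw [h1, h2]
  | insert k S hk ih =>
    rw [Finset.sum_insert hk, Finset.sum_insert hk]
    filter_upwards [Lp.coeFn_add (c k • β k) (∑ k ∈ S, c k • β k), ih, h k,
      Lp.coeFn_smul (c k) (β k), ae_mono hle (Lp.coeFn_add (c k • b k) (∑ k ∈ S, c k • b k)),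
      ae_mono hle (Lp.coeFn_smul (c k) (b k))] with x h1 h2 h3 h4 h5 h6
    rw [h1, h5]
    simp only [Pi.add_apply]
    rw [h2, h4, h6]
    simp only [Pi.smul_apply]
    rw [h3]

/-- Norms of restrictions. -/
theorem H16_norm (hQ : MeasurableSet Q) (hΩQ : Ω ⊆ Q) {f : Lp ℝ 2 (volume.restrict Ω)}
    {g : Lp ℝ 2 (volume.restrict Q)} (h : f =ᵐ[volume.restrict Ω] g) : ‖f‖ ^ 2 ≤ ‖g‖ ^ 2 := by
  rw [norm_sq_Lp, norm_sq_Lp]
  have h1 : ∫ y in Ω, ‖f y‖ ^ 2 = ∫ y in Ω, ‖g y‖ ^ 2 := by
    refine integral_congr_ae ?_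
    filter_upwards [h] with y hy
    rw [hy]
  rw [h1]
  refine setIntegral_mono_set ((Lp.memLp g).integrable_norm_pow (by norm_num)) ?_ ?_
  · exact Eventually.of_forall fun y => by positivity
  · exact HasSubset.Subset.eventuallyLE hΩQ

/-- Inner products with the extension by zero. -/
theorem H16_inner (hQ : MeasurableSet Q) (hΩQ : Ω ⊆ Q) {w β : Lp ℝ 2 (volume.restrict Ω)}
    {w' b : Lp ℝ 2 (volume.restrict Q)} (h1 : w' =ᵐ[volume.restrict Ω] w)
    (h2 : β =ᵐ[volume.restrict Ω] b)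
    (h3 : ∀ᵐ x ∂(volume.restrict Q), x ∉ Ω → w' x = 0) : inner ℝ β w = inner ℝ b w' := by
  rw [inner_Lp_real, inner_Lp_real]
  have e : ∫ y in Q, b y * w' y = ∫ y in Ω, b y * w' y := by
    refine setIntegral_eq_of_subset_of_ae_diff_eq_zero hQ.nullMeasurableSet hΩQ ?_
    filter_upwards [(ae_restrict_iff' hQ).1 h3] with x hx hx'
    rw [hx hx'.1 hx'.2, mul_zero]
  rw [e]
  refine integral_congr_ae ?_
  filter_upwards [h1, h2] with y e1 e2
  rw [e1, e2]

end

/-- A bounded set is contained in a cube. -/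
theorem H16_bx {N : ℕ} {Ω : Set (EuclideanSpace ℝ (Fin N))} (hb : Bornology.IsBounded Ω) :
    ∃ R : ℝ, 0 < R ∧ Ω ⊆ bx N R := by
  obtain ⟨R, hR, h⟩ := hb.subset_ball_lt 0 0
  refine ⟨R, hR, fun x hx i => ?_⟩
  have h1 := h hx
  rw [mem_ball_zero_iff] at h1
  have h2 := PiLp.norm_apply_le x i
  rw [Real.norm_eq_abs] at h2
  exact h2.trans_lt h1

theorem H16_bx_meas {N : ℕ} {R : ℝ} : MeasurableSet (bx N R) := by
  have : IsOpen (bx N R) := by
    unfold bx
    rw [Set.setOf_forall]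
    refine isOpen_iInter_of_finite fun i => ?_
    exact isOpen_lt (by fun_prop) continuous_const
  exact this.measurableSet

/-- [H16] compactness of the resolvent. -/
theorem kop_compact {N : ℕ} (hN : 0 < N) {Ω : Set (EuclideanSpace ℝ (Fin N))} (hΩ : IsOpen Ω)
    (hb : Bornology.IsBounded Ω)
    {K : Lp ℝ 2 (volume.restrict Ω) →L[ℝ] Lp ℝ 2 (volume.restrict Ω)}
    (hK : ∀ h, ∃ r, IsRes Ω 1 h (K h) r) : IsCompactOperator K := by
  classical
  obtain ⟨R, hR, hΩQ⟩ := H16_bx hb
  obtain ⟨B, -, -⟩ := bx_basis hN hR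
  have hQ : MeasurableSet (bx N R) := H16_bx_meas
  have hle : volume.restrict Ω ≤ volume.restrict (bx N R) := Measure.restrict_mono hΩQ le_rfl
  have hβ : ∀ k, ∃ β : Lp ℝ 2 (volume.restrict Ω), β =ᵐ[volume.restrict Ω] B.b k := fun k =>
    ⟨((Lp.memLp (B.b k)).mono_measure hle).toLp _, MemLp.coeFn_toLp _⟩
  choose β hβ using hβ
  let T : ℕ → Lp ℝ 2 (volume.restrict Ω) →L[ℝ] Lp ℝ 2 (volume.restrict Ω) := fun n =>
    (∑ k ∈ B.low (n + 1), (innerSL ℝ (β k)).smulRight (β k)).comp K
  have hT : ∀ n h, T n h = ∑ k ∈ B.low (n + 1), inner ℝ (β k) (K h) • β k := by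
    intro n h
    simp only [T, ContinuousLinearMap.comp_apply, ContinuousLinearMap.sum_apply,
      ContinuousLinearMap.smulRight_apply, innerSL_apply_apply]
  have hc : ∀ n, IsCompactOperator (T n) := by
    intro n
    have h1 : ∀ S : Finset (Fin N → ℕ), IsCompactOperator
        (∑ k ∈ S, (innerSL ℝ (β k)).smulRight (β k) :
          Lp ℝ 2 (volume.restrict Ω) →L[ℝ] Lp ℝ 2 (volume.restrict Ω)) := by
      intro S
      induction S using Finset.induction_on with
      | empty =>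
        simp only [Finset.sum_empty]
        exact isCompactOperator_zero
      | insert k S hk ih =>
        rw [Finset.sum_insert hk]
        refine IsCompactOperator.add ?_ ih
        have := (isCompactOperator_of_locallyCompactSpace_dom (innerSL ℝ (β k))).clm_comp
          (ContinuousLinearMap.toSpanSingleton ℝ (β k))
        exact this
    exact (h1 _).comp_clm K
  have hbd : ∀ n : ℕ, ‖T n - K‖ ≤ √(1 / ((n : ℝ) + 1)) := by
    intro n
    refine ContinuousLinearMap.opNorm_le_bound _ (Real.sqrt_nonneg _) fun h => ?_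
    obtain ⟨r, hr⟩ := hK h
    obtain ⟨w', r', hw', hww, hrr, hz, -, hn'⟩ := ext_zero hΩ.measurableSet hΩQ hr.1
    have hin : ∀ k, inner ℝ (β k) (K h) = inner ℝ (B.b k) w' := fun k =>
      H16_inner hQ hΩQ hww (hβ k) (hz.mono fun x hx hx' => (hx hx').1)
    have hc0 : (0 : ℝ) < (n : ℝ) + 1 := by positivity
    have htail := H16_tail B.b (q := B.q) (lam := B.lam) B.pos
      (fun i j => B.eig i _ _ (B.h10 j)) (w := w') (r := r') (fun i => B.eig i _ _ hw')
      (S := B.low ((n : ℝ) + 1)) hc0 (by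
        intro i hi
        unfold Bas.low at hi
        rw [Set.Finite.mem_toFinset] at hi
        exact (not_le.1 hi).le)
    have hrel : ((K h - T n h : Lp ℝ 2 (volume.restrict Ω)) : EuclideanSpace ℝ (Fin N) → ℝ)
        =ᵐ[volume.restrict Ω]
        (w' - ∑ k ∈ B.low ((n : ℝ) + 1), inner ℝ (B.b k) w' • B.b k :
          Lp ℝ 2 (volume.restrict (bx N R))) := by
      have e := H16_sum hle (B.low ((n : ℝ) + 1)) (fun k => inner ℝ (B.b k) w') hβ
      rw [hT]
      simp only [hin]
      filter_upwards [e, hww, Lp.coeFn_sub (K h)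
        (∑ k ∈ B.low ((n : ℝ) + 1), inner ℝ (B.b k) w' • β k),
        ae_mono hle (Lp.coeFn_sub w'
          (∑ k ∈ B.low ((n : ℝ) + 1), inner ℝ (B.b k) w' • B.b k))] with x h1 h2 h3 h4
      rw [h3, h4]
      simp only [Pi.sub_apply]
      rw [h1, h2]
    have h5 := (H16_norm hQ hΩQ hrel).trans htail
    have h6 : ‖r'‖ ^ 2 ≤ ‖h‖ ^ 2 := by
      rw [hn']
      have := ((res_facts hΩ one_pos).2.2.1 h (K h) r hr).2
      linarith
    have h7 : ‖T n h - K h‖ ^ 2 ≤ 1 / ((n : ℝ) + 1) * ‖h‖ ^ 2 := by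
      rw [norm_sub_rev]
      refine h5.trans ?_
      rw [div_eq_mul_one_div, mul_comm]
      exact mul_le_mul_of_nonneg_left h6 (by positivity)
    rw [ContinuousLinearMap.sub_apply]
    have h8 := Real.sqrt_le_sqrt h7
    rw [Real.sqrt_sq (norm_nonneg _), Real.sqrt_mul (by positivity), Real.sqrt_sq (norm_nonneg _)]
      at h8
    exact h8
  have hlim : Tendsto T atTop (𝓝 K) := by
    rw [tendsto_iff_norm_sub_tendsto_zero]
    refine squeeze_zero (fun _ => norm_nonneg _) hbd ?_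
    have := (Real.continuous_sqrt.tendsto 0).comp (tendsto_one_div_add_atTop_nhds_zero_nat (𝕜 := ℝ))
    rw [Real.sqrt_zero] at this
    exact this
  exact isCompactOperator_of_tendsto hlim (Eventually.of_forall hc)

end Pool.Agent.MP_4c4330_an.Gen
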