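import Pool.Agent.MP_4c4330_an.Gen.Defs
import Pool.Agent.MP_4c4330_an.Gen.H12
import Pool.Agent.MP_4c4330_an.Gen.H6
open MeasureTheory Set Filter Topology
open scoped ENNReal ContDiff
namespace Pool.Agent.MP_4c4330_an.Gen

theorem H17_bas {E : Type} [NormedAddCommGroup E] [InnerProductSpace ℝ E] [FiniteDimensional ℝ E]
    [MeasurableSpace E] [BorelSpace E] {Q : Set E} {I : Type} (B : Bas I Q) {μ : ℝ} (hμ : 0 < μ)
    (hB : ∀ i, μ ≤ B.lam i) (w : Lp ℝ 2 (volume.restrict Q)) (r : Lp E 2 (volume.restrict Q)) (h : InH10 Q w r) :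
    μ * ‖w‖ ^ 2 ≤ ‖r‖ ^ 2 := by
  classical
  have hq : ∀ i j, inner ℝ (B.q i) (B.q j) = if i = j then B.lam i else 0 := by
    intro i j
    rw [B.eig i _ _ (B.h10 j)]
    by_cases hij : i = j
    · subst hij
      rw [if_pos rfl, real_inner_self_eq_norm_sq, B.b.orthonormal.1 i]
      ring
    · rw [if_neg hij, B.b.orthonormal.2 hij, mul_zero]
  set v : I → Lp E 2 (volume.restrict Q) := fun i => (√(B.lam i))⁻¹ • B.q i with hv
  have hs : ∀ i, √(B.lam i) ≠ 0 := fun i => (Real.sqrt_pos.2 (B.pos i)).ne'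
  have hvo : Orthonormal ℝ v := by
    rw [orthonormal_iff_ite]
    intro i j
    rw [hv]
    simp only
    rw [inner_smul_left, inner_smul_right, hq]
    by_cases hij : i = j
    · subst hij
      rw [if_pos rfl, if_pos rfl]
      have h1 := Real.mul_self_sqrt (B.pos i).le
      have h2 := hs i
      change (√(B.lam i))⁻¹ * ((√(B.lam i))⁻¹ * B.lam i) = 1
      field_simp
      rw [sq]
      exact h1.symm
    · rw [if_neg hij, if_neg hij, mul_zero, mul_zero]
  have hin : ∀ i, μ * (inner ℝ w (B.b i) * inner ℝ (B.b i) w) ≤ ‖inner ℝ (v i) r‖ ^ 2 := by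
    intro i
    have e1 : inner ℝ (v i) r = (√(B.lam i))⁻¹ * (B.lam i * inner ℝ (B.b i) w) := by
      rw [hv]
      simp only
      rw [inner_smul_left, B.eig i w r h]
      rfl
    have e2 : inner ℝ w (B.b i) = inner ℝ (B.b i) w := real_inner_comm _ _
    have e3 : ‖inner ℝ (v i) r‖ ^ 2 = B.lam i * (inner ℝ (B.b i) w) ^ 2 := by
      rw [Real.norm_eq_abs, sq_abs, e1]
      have h1 := Real.sq_sqrt (B.pos i).le
      have h2 := hs i
      field_simp
      rw [h1]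
      ring
    rw [e2, e3, ← sq]
    exact mul_le_mul_of_nonneg_right (hB i) (sq_nonneg _)
  have hsum : ∑' i, μ * (inner ℝ w (B.b i) * inner ℝ (B.b i) w) ≤ ‖r‖ ^ 2 := by
    refine Real.tsum_le_of_sum_le (fun i => ?_) (fun u => ?_)
    · rw [real_inner_comm w (B.b i)]
      exact mul_nonneg hμ.le (mul_self_nonneg _)
    · exact (Finset.sum_le_sum fun i _ => hin i).trans (hvo.sum_inner_products_le r)
  rw [tsum_mul_left, B.b.tsum_inner_mul_inner, real_inner_self_eq_norm_sq] at hsum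
  exact hsum

theorem H17_lam {N : ℕ} (hN : 0 < N) {R : ℝ} (hR : 0 < R) (k : Fin N → ℕ) :
    (Real.pi / (2 * R)) ^ 2 ≤ bm N R k := by
  unfold bm
  have h1 : (Real.pi / (2 * R)) ^ 2 ≤ (Real.pi * (k ⟨0, hN⟩ + 1) / (2 * R)) ^ 2 := by
    have hp := Real.pi_pos
    have hk : (0 : ℝ) ≤ k ⟨0, hN⟩ := Nat.cast_nonneg _
    apply pow_le_pow_left₀ (by positivity)
    apply div_le_div_of_nonneg_right _ (by positivity)
    nlinarith
  exact h1.trans (Finset.single_le_sum (f := fun i : Fin N => (Real.pi * (k i + 1) / (2 * R)) ^ 2)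
    (fun i _ => sq_nonneg _) (Finset.mem_univ _))

/-- [H17] Poincaré's inequality. -/
theorem poinc {N : ℕ} (hN : 0 < N) {Ω : Set (EuclideanSpace ℝ (Fin N))} (hΩ : IsOpen Ω)
    (hb : Bornology.IsBounded Ω) : ∃ C : ℝ, 0 < C ∧ ∀ w r, InH10 Ω w r → ‖w‖ ≤ C * ‖r‖ := by
  obtain ⟨R, hR, hsub⟩ := hb.subset_ball_lt 0 0
  have hsub' : Ω ⊆ bx N R := by
    intro x hx i
    have h1 := hsub hx
    rw [mem_ball_zero_iff] at h1
    have h2 : ‖x i‖ ≤ ‖x‖ := PiLp.norm_apply_le x i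
    rw [Real.norm_eq_abs] at h2
    linarith
  obtain ⟨B, hB, -⟩ := bx_basis hN hR
  have hp := Real.pi_pos
  set μ : ℝ := Real.pi / (2 * R) with hμ
  have hμ0 : 0 < μ := by positivity
  refine ⟨μ⁻¹, by positivity, fun w r h => ?_⟩
  obtain ⟨w', r', h', -, -, -, hw, hr⟩ := ext_zero hΩ.measurableSet hsub' h
  have h1 := H17_bas B (μ := μ ^ 2) (by positivity) (fun i => by rw [hB]; exact H17_lam hN hR i) w' r' h'
  rw [hw, hr] at h1
  have h2 : (μ * ‖w‖) ^ 2 ≤ ‖r‖ ^ 2 := by rw [mul_pow]; exact h1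
  have h3 : μ * ‖w‖ ≤ ‖r‖ := (pow_le_pow_iff_left₀ (by positivity) (norm_nonneg _) two_ne_zero).1 h2
  rw [inv_mul_eq_div, le_div_iff₀ hμ0]
  linarith

end Pool.Agent.MP_4c4330_an.Gen
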