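import Pool.Agent.MP_4c4330_an.Gen.Defs
open MeasureTheory Set Filter Topology
open scoped ENNReal ContDiff
namespace Pool.Agent.MP_4c4330_an.Gen

open Module End

theorem H18_perp {X : Type} [NormedAddCommGroup X] [InnerProductSpace ℝ X] (P : Submodule ℝ X)
    {ι : Type} (b : HilbertBasis ι ℝ P) (x : X) (h : ∀ i, inner ℝ x ((b i : P) : X) = 0) (y : P) :
    inner ℝ x (y : X) = 0 := by
  have h1 := (b.hasSum_repr y).mapL ((innerSL ℝ x).comp P.subtypeL)
  have h2 : (fun i => ((innerSL ℝ x).comp P.subtypeL) (b.repr y i • b i)) = fun _ => 0 := by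
    funext i
    rw [map_smul]
    have : ((innerSL ℝ x).comp P.subtypeL) (b i) = inner ℝ x ((b i : P) : X) := rfl
    rw [this, h i, smul_zero]
  rw [h2] at h1
  exact h1.unique hasSum_zero

/-- [H18] spectral theorem for a compact symmetric injective operator. -/
theorem spectral {X : Type} [NormedAddCommGroup X] [InnerProductSpace ℝ X] [CompleteSpace X]
    (K : X →L[ℝ] X) (hK : IsCompactOperator K) (hs : (K : X →ₗ[ℝ] X).IsSymmetric)
    (hi : ∀ x, K x = 0 → x = 0) : ∃ (I : Type) (b : HilbertBasis I ℝ X) (κ : I → ℝ),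
      (∀ i, K (b i) = κ i • b i) ∧ ∀ c > 0, {i | c ≤ κ i}.Finite := by
  classical
  have hcl : ∀ μ : ℝ, CompleteSpace (eigenspace (K : End ℝ X) μ) := by
    intro μ
    have hc : IsClosed ((eigenspace (K : End ℝ X) μ : Submodule ℝ X) : Set X) := by
      have e : ((eigenspace (K : End ℝ X) μ : Submodule ℝ X) : Set X) = {x | K x = μ • x} := by
        ext x
        rw [SetLike.mem_coe, mem_eigenspace_iff]
        rfl
      rw [e]
      exact isClosed_eq K.continuous (continuous_const_smul μ)
    exact hc.completeSpace_coe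
  have hB : ∀ μ : ℝ, ∃ (w : Set (eigenspace (K : End ℝ X) μ)) (b : HilbertBasis w ℝ (eigenspace (K : End ℝ X) μ)),
      ⇑b = ((↑) : w → eigenspace (K : End ℝ X) μ) := fun μ => exists_hilbertBasis ℝ _
  choose w b hb using hB
  set v : (Σ μ : ℝ, w μ) → X := fun a => ((b a.1 a.2 : eigenspace (K : End ℝ X) a.1) : X) with hv
  have horth : Orthonormal ℝ v :=
    hs.orthogonalFamily_eigenspaces.orthonormal_sigma_orthonormal (v_family := fun μ => ⇑(b μ))
      (fun μ => (b μ).orthonormal)
  have hspan : (Submodule.span ℝ (Set.range v))ᗮ = ⊥ := by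
    rw [eq_bot_iff]
    intro x hx
    rw [Submodule.mem_orthogonal] at hx
    rw [← ContinuousLinearMap.orthogonalComplement_iSup_eigenspaces_eq_bot hK hs]
    rw [← Submodule.iInf_orthogonal, Submodule.mem_iInf]
    intro μ
    rw [Submodule.mem_orthogonal']
    intro y hy
    refine H18_perp (eigenspace (K : End ℝ X) μ) (b μ) x (fun i => ?_) ⟨y, hy⟩
    rw [real_inner_comm]
    exact hx _ (Submodule.subset_span ⟨⟨μ, i⟩, rfl⟩)
  have hKv : ∀ a : (Σ μ : ℝ, w μ), K (v a) = a.1 • v a := by
    intro a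
    exact mem_eigenspace_iff.1 (b a.1 a.2).2
  refine ⟨(Σ μ : ℝ, w μ), HilbertBasis.mkOfOrthogonalEqBot horth hspan, fun a => a.1, ?_, ?_⟩
  · intro a
    rw [HilbertBasis.coe_mkOfOrthogonalEqBot]
    exact hKv a
  · intro c hc
    have hcomp := hK.isCompact_closure_image_closedBall 1
    have htb := hcomp.totallyBounded
    rw [Metric.totallyBounded_iff] at htb
    obtain ⟨t, ht, hcov⟩ := htb (c / 2) (by positivity)
    have hex : ∀ a : (Σ μ : ℝ, w μ), ∃ y ∈ t, dist (K (v a)) y < c / 2 := by
      intro a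
      have h1 : K (v a) ∈ closure (K '' Metric.closedBall 0 1) := by
        apply subset_closure
        refine ⟨v a, ?_, rfl⟩
        rw [mem_closedBall_zero_iff]
        exact (horth.1 a).le
      have h2 := hcov h1
      rw [Set.mem_iUnion₂] at h2
      obtain ⟨y, hy, hd⟩ := h2
      exact ⟨y, hy, hd⟩
    choose f hf hd using hex
    refine Set.Finite.of_injOn (f := f) (fun a _ => hf a) ?_ ht
    intro a ha a' ha' haa
    by_contra hne
    have e1 : dist (K (v a)) (K (v a')) < c := by
      have h1 := hd a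
      have h2 := hd a'
      rw [← haa, dist_comm] at h2
      have h3 := dist_triangle (K (v a)) (f a) (K (v a'))
      linarith
    rw [dist_eq_norm, hKv, hKv] at e1
    have e2 : ‖a.1 • v a - a'.1 • v a'‖ ^ 2 = a.1 ^ 2 + a'.1 ^ 2 := by
      rw [norm_sub_sq_real, norm_smul, norm_smul, horth.1 a, horth.1 a', inner_smul_left, inner_smul_right,
        horth.2 hne, mul_zero, mul_zero, mul_zero, sub_zero, mul_one, mul_one, Real.norm_eq_abs, Real.norm_eq_abs,
        sq_abs, sq_abs]
    have h3 : c ≤ a.1 := ha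
    have h4 : c ≤ a'.1 := ha'
    have h5 : ‖a.1 • v a - a'.1 • v a'‖ ^ 2 < c ^ 2 := pow_lt_pow_left₀ e1 (norm_nonneg _) two_ne_zero
    nlinarith

end Pool.Agent.MP_4c4330_an.Gen
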