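import Pool.Agent.MP_4c4330_an.Gen.Defs
import Pool.Agent.MP_4c4330_an.Gen.H1
open MeasureTheory Set Filter Topology
open scoped ENNReal ContDiff
namespace Pool.Agent.MP_4c4330_an.Gen

section
variable {E : Type*} [NormedAddCommGroup E] [InnerProductSpace ℝ E] [FiniteDimensional ℝ E]
  [MeasurableSpace E] [BorelSpace E] {Ω : Set E} {a α : ℝ} {n : ℕ}

/-- [H2] the resolvent as an operator. -/
theorem kop (hΩ : IsOpen Ω) : ∃ K : Lp ℝ 2 (volume.restrict Ω) →L[ℝ] Lp ℝ 2 (volume.restrict Ω),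
    (∀ h, ∃ r, IsRes Ω 1 h (K h) r) ∧
    (K : Lp ℝ 2 (volume.restrict Ω) →ₗ[ℝ] Lp ℝ 2 (volume.restrict Ω)).IsSymmetric ∧
    ∀ h, K h = 0 → h = 0 := by
  obtain ⟨hex, huniq, hbd, hadd, hsmul, hsym, hinj⟩ :=
    res_facts (Ω := Ω) hΩ (l := 1) one_pos
  choose w r hwr using hex
  have hwadd : ∀ h h', w (h + h') = w h + w h' := fun h h' =>
    (huniq _ _ _ _ _ (hwr (h + h')) (hadd _ _ _ _ _ _ (hwr h) (hwr h'))).1
  have hwsmul : ∀ (c : ℝ) h, w (c • h) = c • w h := fun c h =>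
    (huniq _ _ _ _ _ (hwr (c • h)) (hsmul c _ _ _ (hwr h))).1
  let K0 : Lp ℝ 2 (volume.restrict Ω) →ₗ[ℝ] Lp ℝ 2 (volume.restrict Ω) :=
    { toFun := w
      map_add' := hwadd
      map_smul' := fun c h => by simpa using hwsmul c h }
  have hK0 : ∀ h, K0 h = w h := fun h => rfl
  let K : Lp ℝ 2 (volume.restrict Ω) →L[ℝ] Lp ℝ 2 (volume.restrict Ω) :=
    K0.mkContinuous 1 (fun h => by
      rw [one_mul, hK0]
      exact (hbd h (w h) (r h) (hwr h)).1)
  have hK : ∀ h, K h = w h := fun h => rfl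
  refine ⟨K, fun h => ⟨r h, by rw [hK]; exact hwr h⟩, ?_, ?_⟩
  · intro h h'
    show inner ℝ (K h) h' = inner ℝ h (K h')
    rw [hK, hK]
    exact hsym h (w h) (r h) h' (w h') (r h') (hwr h) (hwr h')
  · intro h h0
    rw [hK] at h0
    have h1 := hwr h
    rw [h0] at h1
    exact hinj h (r h) h1

end

end Pool.Agent.MP_4c4330_an.Gen
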