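import Pool.Agent.MP_4c4330_an.Gen.Defs
import Pool.Agent.MP_4c4330_an.Gen.H16
import Pool.Agent.MP_4c4330_an.Gen.H17
import Pool.Agent.MP_4c4330_an.Gen.H18
import Pool.Agent.MP_4c4330_an.Gen.H2
open MeasureTheory Set Filter Topology
open scoped ENNReal ContDiff
namespace Pool.Agent.MP_4c4330_an.Gen

set_option linter.unusedSectionVars false

/-- [H19] the eigenbasis of a bounded open set. -/
theorem om_basis {N : ℕ} (hN : 0 < N) {Ω : Set (EuclideanSpace ℝ (Fin N))} (hΩ : IsOpen Ω)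
    (hb : Bornology.IsBounded Ω) : ∃ I : Type, Nonempty (Bas I Ω) := by
  obtain ⟨K, hK, hKs, hKi⟩ := kop hΩ
  obtain ⟨C, hC, hP⟩ := poinc hN hΩ hb
  have hKc := kop_compact hN hΩ hb hK
  obtain ⟨I, b, κ, hκ, hfin⟩ := spectral K hKc hKs hKi
  choose r hr using hK
  have hb1 : ∀ i, inner ℝ (b i) (b i) = (1 : ℝ) := by
    intro i
    rw [real_inner_self_eq_norm_sq, b.orthonormal.1 i, one_pow]
  have hb0 : ∀ i, b i ≠ 0 := fun i => b.orthonormal.ne_zero i
  have hKb : ∀ i, K (b i) ≠ 0 := fun i h => hb0 i (hKi _ h)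
  have hid : ∀ i, κ i = κ i ^ 2 + ‖r (b i)‖ ^ 2 := by
    intro i
    have h := (hr (b i)).2 (K (b i)) (r (b i)) (hr (b i)).1
    rw [inv_one, one_mul, real_inner_self_eq_norm_sq (r (b i)), hκ i, inner_smul_left,
      inner_smul_right, hb1] at h
    simp only [conj_trivial, mul_one] at h
    linarith [sq (κ i)]
  have hκ0 : ∀ i, 0 < κ i := by
    intro i
    have h1 : κ i ≠ 0 := by
      intro h
      apply hKb i
      rw [hκ i, h, zero_smul]
    have h2 : 0 ≤ κ i := by
      rw [hid i]; positivity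
    exact lt_of_le_of_ne h2 (Ne.symm h1)
  have hr0 : ∀ i, 0 < ‖r (b i)‖ := by
    intro i
    have h := hP _ _ (hr (b i)).1
    have h2 : 0 < ‖K (b i)‖ := norm_pos_iff.2 (hKb i)
    by_contra hcon
    have h3 : ‖r (b i)‖ = 0 := le_antisymm (not_lt.1 hcon) (norm_nonneg _)
    rw [h3, mul_zero] at h
    linarith
  have hκ1 : ∀ i, κ i < 1 := by
    intro i
    have h1 := hid i
    have h2 : 0 < ‖r (b i)‖ ^ 2 := by have := hr0 i; positivity
    have h3 := hκ0 i
    by_contra hcon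
    push Not at hcon
    nlinarith
  refine ⟨I, ⟨⟨b, fun i => (κ i)⁻¹ • r (b i), fun i => (κ i)⁻¹ - 1, ?_, ?_, ?_, ?_⟩⟩⟩
  · intro i
    have := (one_lt_inv₀ (hκ0 i)).2 (hκ1 i)
    linarith
  · intro i
    have h := InH10.smul (hr (b i)).1 (κ i)⁻¹
    rw [hκ i, smul_smul, inv_mul_cancel₀ (hκ0 i).ne', one_smul] at h
    exact h
  · intro i w r' hw
    have h := (hr (b i)).2 w r' hw
    rw [inv_one, one_mul, hκ i, inner_smul_left] at h
    simp only [conj_trivial] at h
    rw [inner_smul_left]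
    simp only [conj_trivial]
    have h3 := (hκ0 i).ne'
    have h4 : inner ℝ (r (b i)) r' = inner ℝ (b i) w - κ i * inner ℝ (b i) w := by linarith
    rw [h4]
    field_simp
  · intro c
    refine (hfin (1 / (|c| + 1)) (by positivity)).subset ?_
    intro i hi
    simp only [mem_setOf_eq] at hi ⊢
    have h1 : (κ i)⁻¹ ≤ |c| + 1 := by
      have := le_abs_self c
      linarith
    rw [one_div]
    exact inv_le_of_inv_le₀ (hκ0 i) h1

end Pool.Agent.MP_4c4330_an.Gen
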