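import Pool.Agent.MP_4c4330_an.Gen.Defs
import Pool.Agent.MP_4c4330_an.Gen.H15
open MeasureTheory Set Filter Topology
open scoped ENNReal ContDiff
namespace Pool.Agent.MP_4c4330_an.Gen

set_option linter.unusedSectionVars false

section
variable {E : Type*} [NormedAddCommGroup E] [InnerProductSpace ℝ E] [FiniteDimensional ℝ E]
  [MeasurableSpace E] [BorelSpace E] {Ω : Set E}

lemma H20_coeFn {κ : Type} (T : Finset κ) (u : κ → ℝ)
    (b : κ → Lp ℝ 2 (volume.restrict Ω)) :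
    (fun x => (∑ i ∈ T, u i • b i : Lp ℝ 2 (volume.restrict Ω)) x)
      =ᵐ[volume.restrict Ω] fun x => ∑ i ∈ T, u i * b i x := by
  classical
  induction T using Finset.induction_on with
  | empty =>
    simp only [Finset.sum_empty]
    exact Lp.coeFn_zero _ _ _
  | insert i T hi ih =>
    rw [Finset.sum_insert hi]
    filter_upwards [ih, Lp.coeFn_add (u i • b i) (∑ i ∈ T, u i • b i), Lp.coeFn_smul (u i) (b i)]
      with x h1 h2 h3
    rw [Finset.sum_insert hi, h2, Pi.add_apply, h1, h3, Pi.smul_apply, smul_eq_mul]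

lemma H20_inH10 {κ : Type} (T : Finset κ) (u : κ → ℝ)
    (b : κ → Lp ℝ 2 (volume.restrict Ω)) (q : κ → Lp E 2 (volume.restrict Ω))
    (h : ∀ i, InH10 Ω (b i) (q i)) : InH10 Ω (∑ i ∈ T, u i • b i) (∑ i ∈ T, u i • q i) := by
  classical
  induction T using Finset.induction_on with
  | empty =>
    simp only [Finset.sum_empty]
    exact inH10_zero
  | insert i T hi ih =>
    rw [Finset.sum_insert hi, Finset.sum_insert hi]
    exact ((h i).smul (u i)).add ih

lemma H20_res {κ : Type} (T : Finset κ) (u p lam : κ → ℝ)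
    (b : κ → Lp ℝ 2 (volume.restrict Ω)) (q : κ → Lp E 2 (volume.restrict Ω))
    (h : ∀ i, InH10 Ω (b i) (q i))
    (eig : ∀ i w r, InH10 Ω w r → inner ℝ (q i) r = lam i * inner ℝ (b i) w) {l : ℝ}
    (hp : ∀ i, p i = 1 + lam i / l) :
    IsRes Ω l (∑ i ∈ T, (u i * p i) • b i) (∑ i ∈ T, u i • b i) (∑ i ∈ T, u i • q i) := by
  refine ⟨H20_inH10 T u b q h, fun w' r' hw => ?_⟩
  rw [sum_inner, sum_inner, sum_inner, Finset.mul_sum, ← Finset.sum_add_distrib]
  refine Finset.sum_congr rfl fun i _ => ?_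
  rw [real_inner_smul_left, real_inner_smul_left, real_inner_smul_left, eig i w' r' hw, hp i]
  ring

end

/-- [H20] pointwise bound of the spectral function. -/
theorem om_point {N : ℕ} (hN : 0 < N) {Ω : Set (EuclideanSpace ℝ (Fin N))} (hΩ : IsOpen Ω)
    (hb : Bornology.IsBounded Ω) {I : Type} (B : Bas I Ω) : ∃ C : ℝ, 0 < C ∧ ∀ l ≥ 1,
    ∀ᵐ x ∂(volume.restrict Ω), ∑ i ∈ B.low l, (B.b i x) ^ 2 ≤ C * l ^ ((N : ℝ) / 2) := by
  classical
  obtain ⟨C, hC, hsup⟩ := om_sup hN hΩ hb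
  refine ⟨(C * 2 ^ N) ^ 2, by positivity, fun l hl => ?_⟩
  have hl0 : 0 < l := by linarith
  set S := B.low l with hS
  have hlam : ∀ i ∈ S, B.lam i ≤ l := by
    intro i hi
    rw [hS, Bas.low, Set.Finite.mem_toFinset] at hi
    exact hi
  set K : ℝ := C * 2 ^ N * l ^ ((N : ℝ) / 4) with hK
  have hK0 : 0 < K := by positivity
  let p : I → ℝ := fun i => 1 + B.lam i / l
  have hp1 : ∀ i, 0 ≤ p i := fun i => by
    have := div_pos (B.pos i) hl0
    show 0 ≤ 1 + B.lam i / l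
    linarith
  have hp2 : ∀ i ∈ S, p i ≤ 2 := fun i hi => by
    have := (div_le_one hl0).2 (hlam i hi)
    show 1 + B.lam i / l ≤ 2
    linarith
  -- one linear combination
  have hone : ∀ c : I → ℝ, ∀ᵐ x ∂(volume.restrict Ω),
      |∑ i ∈ S, c i * B.b i x| ≤ K * √(∑ i ∈ S, (c i) ^ 2) := by
    intro c
    have h1 := hsup l hl (fun j => ∑ i ∈ S, (c i * p i ^ (N - j)) • B.b i)
      (fun j => ∑ i ∈ S, (c i * p i ^ (N - (j + 1))) • B.q i) (by
        intro j hj
        have h2 := H20_res S (fun i => c i * p i ^ (N - (j + 1))) p B.lam (fun i => B.b i) B.q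
          B.h10 B.eig (l := l) (fun i => rfl)
        have h3 : ∀ i ∈ S, (c i * p i ^ (N - (j + 1)) * p i) • B.b i
            = (c i * p i ^ (N - j)) • B.b i := by
          intro i _
          rw [mul_assoc, ← pow_succ, show N - (j + 1) + 1 = N - j by omega]
        rw [Finset.sum_congr rfl h3] at h2
        exact h2)
    filter_upwards [h1, H20_coeFn S (fun i => c i * p i ^ (N - N)) (fun i => B.b i)] with x h2 h3
    have h4 : ∑ i ∈ S, c i * B.b i x = ∑ i ∈ S, c i * p i ^ (N - N) * B.b i x := by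
      simp
    rw [h4, ← h3]
    refine h2.trans ?_
    have h5 : ‖∑ i ∈ S, (c i * p i ^ (N - 0)) • B.b i‖ ≤ 2 ^ N * √(∑ i ∈ S, (c i) ^ 2) := by
      have h6 : ‖∑ i ∈ S, (c i * p i ^ (N - 0)) • B.b i‖ ^ 2
          = ∑ i ∈ S, (c i * p i ^ N) ^ 2 := by
        rw [← real_inner_self_eq_norm_sq, B.b.orthonormal.inner_sum]
        refine Finset.sum_congr rfl fun i _ => ?_
        simp only [Nat.sub_zero, conj_trivial]
        ring
      have h7 : ∑ i ∈ S, (c i * p i ^ N) ^ 2 ≤ (2 ^ N) ^ 2 * ∑ i ∈ S, (c i) ^ 2 := by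
        rw [Finset.mul_sum]
        refine Finset.sum_le_sum fun i hi => ?_
        rw [mul_pow, mul_comm]
        refine mul_le_mul_of_nonneg_right ?_ (sq_nonneg _)
        exact pow_le_pow_left₀ (pow_nonneg (hp1 i) _) (pow_le_pow_left₀ (hp1 i) (hp2 i hi) _) 2
      refine abs_le_of_sq_le_sq' ?_ (by positivity) |>.2
      rw [h6, mul_pow, Real.sq_sqrt (Finset.sum_nonneg fun i _ => sq_nonneg _)]
      exact h7
    calc C * l ^ ((N : ℝ) / 4) * ‖∑ i ∈ S, (c i * p i ^ (N - 0)) • B.b i‖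
        ≤ C * l ^ ((N : ℝ) / 4) * (2 ^ N * √(∑ i ∈ S, (c i) ^ 2)) :=
          mul_le_mul_of_nonneg_left h5 (by positivity)
      _ = K * √(∑ i ∈ S, (c i) ^ 2) := by rw [hK]; ring
  -- a dense sequence of coefficients
  have hall : ∀ᵐ x ∂(volume.restrict Ω), ∀ n : ℕ,
      |∑ i : S, TopologicalSpace.denseSeq (S → ℝ) n i * B.b i x|
        ≤ K * √(∑ i : S, (TopologicalSpace.denseSeq (S → ℝ) n i) ^ 2) := by
    rw [ae_all_iff]
    intro n
    let c : I → ℝ := fun i => if h : i ∈ S then TopologicalSpace.denseSeq (S → ℝ) n ⟨i, h⟩ else 0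
    filter_upwards [hone c] with x hx
    have hc : ∀ i : S, c i = TopologicalSpace.denseSeq (S → ℝ) n i := by
      intro i
      simp [c, i.2]
    rw [← Finset.sum_coe_sort S, ← Finset.sum_coe_sort S] at hx
    simp only [hc] at hx
    exact hx
  filter_upwards [hall] with x hx
  have hcl : IsClosed {c : S → ℝ | |∑ i : S, c i * B.b i x| ≤ K * √(∑ i : S, (c i) ^ 2)} := by
    refine isClosed_le ?_ ?_
    · fun_prop
    · fun_prop
  have huniv : ∀ c : S → ℝ, |∑ i : S, c i * B.b i x| ≤ K * √(∑ i : S, (c i) ^ 2) := by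
    intro c
    have h1 : range (TopologicalSpace.denseSeq (S → ℝ))
        ⊆ {c : S → ℝ | |∑ i : S, c i * B.b i x| ≤ K * √(∑ i : S, (c i) ^ 2)} := by
      rintro _ ⟨n, rfl⟩
      exact hx n
    have h2 := hcl.closure_subset_iff.2 h1
    exact h2 (TopologicalSpace.denseRange_denseSeq (S → ℝ) c)
  have h3 := huniv fun i => B.b i x
  rw [Finset.sum_coe_sort S (fun i => B.b i x * B.b i x),
    Finset.sum_coe_sort S (fun i => (B.b i x) ^ 2)] at h3
  have h4 : ∑ i ∈ S, B.b i x * B.b i x = ∑ i ∈ S, (B.b i x) ^ 2 :=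
    Finset.sum_congr rfl fun i _ => (sq _).symm
  rw [h4] at h3
  set Q := ∑ i ∈ S, (B.b i x) ^ 2 with hQ
  have hQ0 : 0 ≤ Q := Finset.sum_nonneg fun i _ => sq_nonneg _
  rw [abs_of_nonneg hQ0] at h3
  have h5 : Q ≤ K ^ 2 := by
    rcases hQ0.eq_or_lt with h | h
    · rw [← h]; positivity
    · have h6 : 0 < √Q := Real.sqrt_pos.2 h
      have h7 : √Q * √Q = Q := Real.mul_self_sqrt hQ0
      have h8 : √Q ≤ K := by
        by_contra hcon
        push Not at hcon
        nlinarith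
      nlinarith
  have h6 : K ^ 2 = (C * 2 ^ N) ^ 2 * l ^ ((N : ℝ) / 2) := by
    rw [hK, mul_pow, ← Real.rpow_natCast (l ^ ((N : ℝ) / 4)) 2, ← Real.rpow_mul hl0.le]
    congr 2
    push_cast
    ring
  rw [← h6]
  exact h5

end Pool.Agent.MP_4c4330_an.Gen
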