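import Pool.Agent.MP_4c4330_an.Gen.Defs
import Pool.Agent.MP_4c4330_an.SuperCrit

open MeasureTheory Set Filter Topology
open scoped ENNReal ContDiff

set_option linter.unusedSectionVars false

namespace Pool.Agent.MP_4c4330_an.Gen

noncomputable section

section
variable {E : Type*} [NormedAddCommGroup E] [InnerProductSpace ℝ E] [FiniteDimensional ℝ E]
  [MeasurableSpace E] [BorelSpace E] {Ω : Set E}

/-- Orthogonal sums. -/
lemma H21_norm_sq {X : Type*} [NormedAddCommGroup X] [InnerProductSpace ℝ X] {ι : Type*}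
    [Fintype ι] (u : ι → X) (ho : ∀ k k', k ≠ k' → inner ℝ (u k) (u k') = 0) (a : ι → ℝ) :
    ‖∑ k, a k • u k‖ ^ 2 = ∑ k, (a k) ^ 2 * ‖u k‖ ^ 2 := by
  classical
  rw [← real_inner_self_eq_norm_sq, sum_inner]
  apply Finset.sum_congr rfl
  intro k _
  rw [inner_sum, Finset.sum_eq_single k]
  · rw [real_inner_smul_left, real_inner_smul_right, real_inner_self_eq_norm_sq]
    ring
  · intro k' _ hk'
    rw [real_inner_smul_left, real_inner_smul_right, ho k k' (Ne.symm hk')]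
    ring
  · intro h
    exact absurd (Finset.mem_univ k) h

/-- The variational lower bound of the counting function. -/
lemma H21_count {I : Type} (B : Bas I Ω) {ι : Type*} [Fintype ι]
    (u : ι → Lp ℝ 2 (volume.restrict Ω)) (p : ι → Lp E 2 (volume.restrict Ω))
    (hu : ∀ k, InH10 Ω (u k) (p k)) (ho : ∀ k k', k ≠ k' → inner ℝ (u k) (u k') = 0)
    (ho' : ∀ k k', k ≠ k' → inner ℝ (p k) (p k') = 0) {Λ : ℝ}
    (h0 : ∀ k, 0 < ‖u k‖ ^ 2) (h1 : ∀ k, ‖p k‖ ^ 2 ≤ Λ * ‖u k‖ ^ 2) {l : ℝ} (hl : Λ < l) :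
    Fintype.card ι ≤ (B.low l).card := by
  classical
  by_contra hcon
  push Not at hcon
  let A : (ι → ℝ) →ₗ[ℝ] (B.low l → ℝ) :=
    { toFun := fun a i => ∑ k, a k * inner ℝ (B.b i) (u k)
      map_add' := by
        intro a a'
        funext i
        simp only [Pi.add_apply, add_mul, Finset.sum_add_distrib]
      map_smul' := by
        intro c a
        funext i
        simp only [Pi.smul_apply, smul_eq_mul, RingHom.id_apply, Finset.mul_sum, mul_assoc] }
  have hker : LinearMap.ker A ≠ ⊥ := by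
    apply LinearMap.ker_ne_bot_of_finrank_lt
    rw [Module.finrank_fintype_fun_eq_card, Module.finrank_fintype_fun_eq_card, Fintype.card_coe]
    exact hcon
  obtain ⟨a, ha, hane⟩ := (Submodule.ne_bot_iff _).1 hker
  rw [LinearMap.mem_ker] at ha
  set w := ∑ k, a k • u k with hw
  set r := ∑ k, a k • p k with hr
  have hwr : InH10 Ω w r := by
    have h2 : (w, r) = ∑ k, a k • (u k, p k) := by
      rw [hw, hr]
      ext1
      · simp [Prod.fst_sum]
      · simp [Prod.snd_sum]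
    show (w, r) ∈ (testPairs Ω).topologicalClosure
    rw [h2]
    exact Submodule.sum_mem _ fun k _ => Submodule.smul_mem _ _ (hu k)
  have hlow : ∀ i ∈ B.low l, inner ℝ (B.b i) w = 0 := by
    intro i hi
    have h2 := congrFun ha ⟨i, hi⟩
    have h3 : ∑ k, a k * inner ℝ (B.b i) (u k) = 0 := h2
    rw [hw, inner_sum, ← h3]
    apply Finset.sum_congr rfl
    intro k _
    rw [real_inner_smul_right]
  have hw2 : ‖w‖ ^ 2 = ∑ k, (a k) ^ 2 * ‖u k‖ ^ 2 := H21_norm_sq u ho a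
  have hr2 : ‖r‖ ^ 2 = ∑ k, (a k) ^ 2 * ‖p k‖ ^ 2 := H21_norm_sq p ho' a
  have hrw : ‖r‖ ^ 2 ≤ Λ * ‖w‖ ^ 2 := by
    rw [hw2, hr2, Finset.mul_sum]
    apply Finset.sum_le_sum
    intro k _
    have := mul_le_mul_of_nonneg_left (h1 k) (sq_nonneg (a k))
    linarith
  have hwpos : 0 < ‖w‖ ^ 2 := by
    rw [hw2]
    obtain ⟨k, hk⟩ := Function.ne_iff.1 hane
    apply Finset.sum_pos'
    · intro k _
      exact mul_nonneg (sq_nonneg _) (h0 k).le
    · exact ⟨k, Finset.mem_univ k, mul_pos (by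
        have : a k ≠ 0 := hk
        positivity) (h0 k)⟩
  -- Bessel's inequality for the gradients
  have hb : ∀ i j, inner ℝ (B.b i) (B.b j) = if i = j then (1:ℝ) else 0 := fun i j =>
    orthonormal_iff_ite.1 B.b.orthonormal i j
  have hon : Orthonormal ℝ fun i => (√(B.lam i))⁻¹ • B.q i := by
    rw [orthonormal_iff_ite]
    intro i j
    rw [real_inner_smul_left, real_inner_smul_right, B.eig i _ _ (B.h10 j), hb]
    by_cases hij : i = j
    · subst hij
      rw [if_pos rfl, mul_one]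
      have hp := B.pos i
      have hs : √(B.lam i) ≠ 0 := (Real.sqrt_pos.2 hp).ne'
      have hs2 : √(B.lam i) * √(B.lam i) = B.lam i := Real.mul_self_sqrt hp.le
      field_simp
      rw [sq, hs2]
    · rw [if_neg hij]
      ring
  have hS : ∀ S : Finset I, ∑ i ∈ S, l * (inner ℝ w (B.b i) * inner ℝ (B.b i) w)
      ≤ Λ * ‖w‖ ^ 2 := by
    intro S
    refine le_trans ?_ ((hon.sum_inner_products_le (s := S) r).trans hrw)
    apply Finset.sum_le_sum
    intro i _
    rw [real_inner_smul_left, B.eig i _ _ hwr, real_inner_comm (B.b i) w]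
    have hp := B.pos i
    have hs : √(B.lam i) ≠ 0 := (Real.sqrt_pos.2 hp).ne'
    have hs2 : √(B.lam i) * √(B.lam i) = B.lam i := Real.mul_self_sqrt hp.le
    have h3 : (√(B.lam i))⁻¹ * (B.lam i * inner ℝ (B.b i) w) = √(B.lam i) * inner ℝ (B.b i) w := by
      rw [← mul_assoc]
      congr 1
      field_simp
      rw [sq, hs2]
    rw [h3, Real.norm_eq_abs, sq_abs, mul_pow, sq (√(B.lam i)), hs2]
    by_cases hi : i ∈ B.low l
    · rw [hlow i hi]; simp
    · have h4 : l < B.lam i := by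
        by_contra h5
        exact hi ((B.fin l).mem_toFinset.2 (not_lt.1 h5))
      have h5 : 0 ≤ (inner ℝ (B.b i) w : ℝ) ^ 2 := sq_nonneg _
      nlinarith
  have hsum : HasSum (fun i => l * (inner ℝ w (B.b i) * inner ℝ (B.b i) w)) (l * ‖w‖ ^ 2) := by
    have := (B.b.hasSum_inner_mul_inner w w).mul_left l
    rwa [real_inner_self_eq_norm_sq] at this
  have hfin : l * ‖w‖ ^ 2 ≤ Λ * ‖w‖ ^ 2 := hasSum_le_of_sum_le hsum hS
  have := le_of_mul_le_mul_right hfin hwpos
  linarith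

lemma H21_setInt {φ : E → ℝ} (hφ : IsTest Ω φ) {f : E → ℝ} (hf : ∀ x, x ∉ tsupport φ → f x = 0) :
    ∫ x in Ω, f x = ∫ x, f x := by
  apply setIntegral_eq_integral_of_forall_compl_eq_zero
  intro x hx
  apply hf
  exact fun h => hx (hφ.2.2 h)

lemma H21_grad_zero {φ : E → ℝ} {x : E} (hx : x ∉ tsupport φ) : gradient φ x = 0 := by
  unfold gradient
  have h2 : fderiv ℝ φ x = 0 := by
    by_contra h
    exact hx (support_fderiv_subset ℝ h)
  rw [h2, map_zero]

/-- Rescaled bumps. -/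
lemma H21_resc {f : E → ℝ} (hft : IsTest (univ : Set E) f) (hf1 : ∀ x, 1 ≤ ‖x‖ → f x = 0)
    {x₀ : E} {r : ℝ} (hr : 0 < r) (hΩ : Metric.closedBall x₀ r ⊆ Ω) :
    IsTest Ω (resc f x₀ r 1) ∧ tsupport (resc f x₀ r 1) ⊆ Metric.closedBall x₀ r := by
  have h0 : ∀ x, x ∉ Metric.closedBall x₀ r → resc f x₀ r 1 x = 0 := by
    intro x hx
    unfold resc
    have h1 : f (r⁻¹ • (x - x₀)) = 0 := by
      apply hf1
      rw [norm_smul, norm_inv, Real.norm_eq_abs, abs_of_pos hr]
      rw [Metric.mem_closedBall, dist_eq_norm, not_le] at hx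
      rw [inv_mul_eq_div, le_div_iff₀ hr]
      linarith
    rw [h1, mul_zero]
  have hts : tsupport (resc f x₀ r 1) ⊆ Metric.closedBall x₀ r := by
    apply closure_minimal _ Metric.isClosed_closedBall
    intro x hx
    by_contra hcon
    exact hx (h0 x hcon)
  refine ⟨⟨?_, ?_, hts.trans hΩ⟩, hts⟩
  · unfold resc
    exact contDiff_const.mul (hft.1.comp ((contDiff_id.sub contDiff_const).const_smul _))
  · exact HasCompactSupport.intro (isCompact_closedBall x₀ r) h0

end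

/-- Disjoint bumps in an open set. -/
lemma H21_bumps {N : ℕ} {Ω : Set (EuclideanSpace ℝ (Fin N))} (hΩ : IsOpen Ω)
    (hne : Ω.Nonempty) {I : Type} (B : Bas I Ω) : ∃ K : ℝ, 0 < K ∧ ∀ m : ℕ, 0 < m → ∀ l : ℝ,
    K * (m:ℝ) ^ 2 < l → m ^ N ≤ (B.low l).card := by
  obtain ⟨x₀, hx₀⟩ := hne
  obtain ⟨ρ, hρ, hball⟩ := Metric.isOpen_iff.1 hΩ x₀ hx₀
  let b : ContDiffBump (0 : EuclideanSpace ℝ (Fin N)) := ⟨1 / 2, 1, by norm_num, by norm_num⟩
  set f : EuclideanSpace ℝ (Fin N) → ℝ := (fun x => b x) with hf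
  have hft : IsTest (univ : Set (EuclideanSpace ℝ (Fin N))) f :=
    ⟨b.contDiff, b.hasCompactSupport, subset_univ _⟩
  have hf1 : ∀ x, 1 ≤ ‖x‖ → f x = 0 := fun x hx => b.zero_of_le_dist (by simpa [b] using hx)
  have hfd := hft.differentiable
  set c0 := ∫ x, f x ^ 2 with hc0
  set c2 := ∫ x, ‖gradient f x‖ ^ 2 with hc2
  have hc2n : 0 ≤ c2 := integral_nonneg fun x => by positivity
  have hc0p : 0 < c0 := by
    apply Continuous.integral_pos_of_hasCompactSupport_nonneg_nonzero (x := 0)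
    · exact hft.cont.pow 2
    · exact hft.2.1.comp_left (g := fun v : ℝ => v ^ 2) (by simp)
    · intro y; positivity
    · have : f 0 = 1 := b.one_of_mem_closedBall (by simp [b])
      rw [this]; norm_num
  set s := ρ / (2 * (N + 1)) with hs
  have hs0 : 0 < s := by positivity
  refine ⟨9 * (c2 + 1) / (c0 * s ^ 2), by positivity, ?_⟩
  intro m hm l hl
  have hm' : (0:ℝ) < m := by exact_mod_cast hm
  set r := s / (3 * m) with hr
  have hr0 : 0 < r := by positivity
  let pt : (Fin N → Fin m) → EuclideanSpace ℝ (Fin N) := fun k =>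
    x₀ + WithLp.toLp 2 (fun i => s / m * (k i : ℝ))
  have hpt : ∀ k, ‖pt k - x₀‖ ≤ s * N := by
    intro k
    have h1 : pt k - x₀ = WithLp.toLp 2 (fun i => s / m * ((k i : ℕ) : ℝ)) := by
      simp [pt]
    rw [h1, EuclideanSpace.norm_eq]
    apply Real.sqrt_le_iff.2
    refine ⟨by positivity, ?_⟩
    have h2 : ∀ i ∈ (Finset.univ : Finset (Fin N)),
        ‖(WithLp.toLp 2 (fun i => s / m * ((k i : ℕ) : ℝ)) : EuclideanSpace ℝ (Fin N)) i‖ ^ 2
          ≤ s ^ 2 := by
      intro i _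
      have h3 : ((k i : ℕ) : ℝ) ≤ m := by exact_mod_cast (k i).2.le
      have h4 : s / m * ((k i : ℕ) : ℝ) ≤ s := by
        rw [div_mul_eq_mul_div, div_le_iff₀ hm']
        exact mul_le_mul_of_nonneg_left h3 hs0.le
      have h5 : 0 ≤ s / m * ((k i : ℕ) : ℝ) := by positivity
      show ‖s / m * ((k i : ℕ) : ℝ)‖ ^ 2 ≤ s ^ 2
      rw [Real.norm_eq_abs, sq_abs]
      exact pow_le_pow_left₀ h5 h4 2
    refine (Finset.sum_le_sum h2).trans ?_
    rw [Finset.sum_const, Finset.card_univ, Fintype.card_fin, nsmul_eq_mul, mul_pow]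
    rcases Nat.eq_zero_or_pos N with h6 | h6
    · simp [h6]
    · have h7 : (1:ℝ) ≤ N := by exact_mod_cast h6
      have h8 : 0 ≤ s ^ 2 := by positivity
      nlinarith [mul_nonneg h8 (by linarith : (0:ℝ) ≤ (N:ℝ) - 1), mul_nonneg (mul_nonneg h8 (by linarith : (0:ℝ) ≤ (N:ℝ) - 1)) (by linarith : (0:ℝ) ≤ (N:ℝ))]
  have hsep : ∀ k k', k ≠ k' → s / m ≤ ‖pt k - pt k'‖ := by
    intro k k' hkk
    obtain ⟨i, hi⟩ := Function.ne_iff.1 hkk
    have h1 : ‖(pt k - pt k') i‖ ≤ ‖pt k - pt k'‖ := PiLp.norm_apply_le _ i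
    refine le_trans ?_ h1
    have h2 : (pt k - pt k') i = s / m * (((k i : ℕ) : ℝ) - ((k' i : ℕ) : ℝ)) := by
      simp only [pt, PiLp.sub_apply, PiLp.add_apply]
      ring
    rw [h2, norm_mul, Real.norm_eq_abs, abs_of_pos (by positivity : 0 < s / m)]
    have h3 : (1:ℝ) ≤ ‖((k i : ℕ) : ℝ) - ((k' i : ℕ) : ℝ)‖ := by
      have h4 : ((k i : ℕ) : ℤ) ≠ ((k' i : ℕ) : ℤ) := by
        intro h
        apply hi
        exact Fin.ext (by exact_mod_cast h)
      have h5 : (1:ℤ) ≤ |((k i : ℕ) : ℤ) - ((k' i : ℕ) : ℤ)| :=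
        Int.one_le_abs (sub_ne_zero.2 h4)
      rw [Real.norm_eq_abs]
      exact_mod_cast h5
    nlinarith [mul_le_mul_of_nonneg_left h3 (by positivity : 0 ≤ s / m)]
  have hcb : ∀ k, Metric.closedBall (pt k) r ⊆ Ω := by
    intro k x hx
    apply hball
    rw [Metric.mem_ball, dist_eq_norm]
    rw [Metric.mem_closedBall, dist_eq_norm] at hx
    have h1 : r ≤ s := by
      rw [hr, div_le_iff₀ (by positivity)]
      have : (1:ℝ) ≤ m := by exact_mod_cast hm
      nlinarith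
    have h2 : x - x₀ = (x - pt k) + (pt k - x₀) := by abel
    have h3 : s * (N + 1) = ρ / 2 := by
      rw [hs]; field_simp
    calc ‖x - x₀‖ ≤ ‖x - pt k‖ + ‖pt k - x₀‖ := by rw [h2]; exact norm_add_le _ _
      _ ≤ s + s * N := add_le_add (hx.trans h1) (hpt k)
      _ = ρ / 2 := by rw [← h3]; ring
      _ < ρ := by linarith
  have hT := fun k => H21_resc hft hf1 hr0 (hcb k)
  have hdisj : ∀ k k', k ≠ k' → ∀ x, x ∈ tsupport (resc f (pt k) r 1) →
      x ∈ tsupport (resc f (pt k') r 1) → False := by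
    intro k k' hkk x hx hx'
    have h1 := (hT k).2 hx
    have h2 := (hT k').2 hx'
    rw [Metric.mem_closedBall, dist_eq_norm] at h1 h2
    have h3 := hsep k k' hkk
    have h4 : pt k - pt k' = (x - pt k') - (x - pt k) := by abel
    have h5 : ‖pt k - pt k'‖ ≤ r + r := by
      rw [h4]
      exact (norm_sub_le _ _).trans (add_le_add h2 h1)
    have h6 : r + r < s / m := by
      have : s / m = 3 * r := by rw [hr]; field_simp
      rw [this]; linarith
    linarith
  have hcard : Fintype.card (Fin N → Fin m) = m ^ N := by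
    rw [Fintype.card_fun, Fintype.card_fin, Fintype.card_fin]
  rw [← hcard]
  have hnu : ∀ k, ‖((hT k).1.memLp 2).toLp (resc f (pt k) r 1)‖ ^ 2 = r ^ N * c0 := by
    intro k
    rw [norm_sq_Lp]
    have e1 : ∫ y in Ω, ‖((hT k).1.memLp 2).toLp (resc f (pt k) r 1) y‖ ^ 2
        = ∫ y in Ω, (resc f (pt k) r 1 y) ^ 2 := by
      apply integral_congr_ae
      filter_upwards [((hT k).1.memLp 2).coeFn_toLp] with y hy
      rw [hy, Real.norm_eq_abs, sq_abs]
    rw [e1, H21_setInt (hT k).1 (fun x hx => by rw [image_eq_zero_of_notMem_tsupport hx]; norm_num)]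
    have e3 : ∀ y, (resc f (pt k) r 1 y) ^ 2 = (fun z => f z ^ 2) (r⁻¹ • (y - pt k)) := by
      intro y
      unfold resc
      rw [one_mul]
    simp only [e3]
    rw [int_resc (fun z => f z ^ 2) (pt k) hr0, finrank_euclideanSpace_fin]
  have hnp : ∀ k, ‖((hT k).1.grad_memLp 2).toLp (gradient (resc f (pt k) r 1))‖ ^ 2
      = r ^ N * (r⁻¹ ^ 2 * c2) := by
    intro k
    rw [norm_sq_Lp]
    have e1 : ∫ y in Ω, ‖((hT k).1.grad_memLp 2).toLp (gradient (resc f (pt k) r 1)) y‖ ^ 2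
        = ∫ y in Ω, ‖gradient (resc f (pt k) r 1) y‖ ^ 2 := by
      apply integral_congr_ae
      filter_upwards [((hT k).1.grad_memLp 2).coeFn_toLp] with y hy
      rw [hy]
    rw [e1, H21_setInt (hT k).1 (fun x hx => by rw [H21_grad_zero hx]; simp)]
    have e3 : ∀ y, ‖gradient (resc f (pt k) r 1) y‖ ^ 2
        = (fun z => r⁻¹ ^ 2 * ‖gradient f z‖ ^ 2) (r⁻¹ • (y - pt k)) := by
      intro y
      rw [resc_grad hfd, norm_smul, mul_pow, Real.norm_eq_abs, sq_abs, one_mul]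
    simp only [e3]
    rw [int_resc (fun z => r⁻¹ ^ 2 * ‖gradient f z‖ ^ 2) (pt k) hr0, finrank_euclideanSpace_fin,
      MeasureTheory.integral_const_mul]
  refine H21_count B (fun k => ((hT k).1.memLp 2).toLp (resc f (pt k) r 1))
    (fun k => ((hT k).1.grad_memLp 2).toLp (gradient (resc f (pt k) r 1)))
    (fun k => (hT k).1.inH10) ?_ ?_ (Λ := 9 * (c2 + 1) / (c0 * s ^ 2) * (m:ℝ) ^ 2) ?_ ?_ hl
  · intro k k' hkk
    rw [L2.inner_def]
    rw [integral_eq_zero_of_ae]
    filter_upwards [((hT k).1.memLp 2).coeFn_toLp, ((hT k').1.memLp 2).coeFn_toLp] with x e1 e2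
    rw [e1, e2]
    by_cases hx : x ∈ tsupport (resc f (pt k) r 1)
    · have hx' : x ∉ tsupport (resc f (pt k') r 1) := fun h => hdisj k k' hkk x hx h
      rw [image_eq_zero_of_notMem_tsupport hx']; simp
    · rw [image_eq_zero_of_notMem_tsupport hx]; simp
  · intro k k' hkk
    rw [L2.inner_def]
    rw [integral_eq_zero_of_ae]
    filter_upwards [((hT k).1.grad_memLp 2).coeFn_toLp, ((hT k').1.grad_memLp 2).coeFn_toLp]
      with x e1 e2
    rw [e1, e2]
    by_cases hx : x ∈ tsupport (resc f (pt k) r 1)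
    · have hx' : x ∉ tsupport (resc f (pt k') r 1) := fun h => hdisj k k' hkk x hx h
      rw [H21_grad_zero hx']; simp
    · rw [H21_grad_zero hx]; simp
  · intro k
    rw [hnu k]
    positivity
  · intro k
    rw [hnu k, hnp k]
    have h1 : r⁻¹ ^ 2 = 9 * (m:ℝ) ^ 2 / s ^ 2 := by
      rw [hr]; field_simp; norm_num
    rw [h1]
    have h2 : 9 * (c2 + 1) / (c0 * s ^ 2) * (m:ℝ) ^ 2 * (r ^ N * c0)
        = r ^ N * (9 * (m:ℝ) ^ 2 / s ^ 2 * (c2 + 1)) := by
      field_simp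
    rw [h2]
    apply mul_le_mul_of_nonneg_left _ (by positivity)
    apply mul_le_mul_of_nonneg_left _ (by positivity)
    linarith

/-- [H21] lower bound of the counting function. -/
theorem om_count {N : ℕ} (hN : 0 < N) {Ω : Set (EuclideanSpace ℝ (Fin N))} (hΩ : IsOpen Ω)
    (hne : Ω.Nonempty) {I : Type} (B : Bas I Ω) : ∃ c > 0, ∃ l₀ : ℝ, ∀ l ≥ l₀,
    c * l ^ ((N : ℝ) / 2) ≤ (B.low l).card := by
  obtain ⟨K, hK, hbm⟩ := H21_bumps hΩ hne B
  refine ⟨((8 * K)⁻¹) ^ ((N : ℝ) / 2), by positivity, 2 * K, ?_⟩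
  intro l hl
  have hl0 : 0 < l := by linarith
  set x := √(l / (2 * K)) with hx
  have hx1 : 1 ≤ x := by
    rw [hx]
    apply Real.one_le_sqrt.2
    rw [le_div_iff₀ (by positivity)]
    linarith
  set m := ⌊x⌋₊ with hm
  have hm1 : 1 ≤ m := by
    rw [hm]
    exact Nat.le_floor (by exact_mod_cast hx1)
  have hmx : (m:ℝ) ≤ x := Nat.floor_le (by linarith)
  have hmx2 : x / 2 ≤ m := by
    have h1 : x < m + 1 := Nat.lt_floor_add_one x
    have h2 : (1:ℝ) ≤ m := by exact_mod_cast hm1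
    linarith
  have hx2 : x ^ 2 = l / (2 * K) := Real.sq_sqrt (by positivity)
  have h3 : K * (m:ℝ) ^ 2 < l := by
    have h4 : (m:ℝ) ^ 2 ≤ x ^ 2 := pow_le_pow_left₀ (by positivity) hmx 2
    rw [hx2] at h4
    have h5 : K * (m:ℝ) ^ 2 ≤ K * (l / (2 * K)) := mul_le_mul_of_nonneg_left h4 hK.le
    have h6 : K * (l / (2 * K)) = l / 2 := by field_simp
    linarith
  have h7 := hbm m (by omega) l h3
  have h8 : ((m:ℝ)) ^ N ≤ (B.low l).card := by exact_mod_cast h7
  refine le_trans ?_ h8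
  have h9 : (x / 2) ^ N ≤ (m:ℝ) ^ N := pow_le_pow_left₀ (by positivity) hmx2 N
  refine le_trans (le_of_eq ?_) h9
  have h10 : x / 2 = ((8 * K)⁻¹ * l) ^ ((1:ℝ) / 2) := by
    rw [← Real.sqrt_eq_rpow, hx]
    have h11 : (8 * K)⁻¹ * l = l / (2 * K) / 2 ^ 2 := by
      field_simp; norm_num
    rw [h11, Real.sqrt_div (x := l / (2 * K)) (by positivity), Real.sqrt_sq (by norm_num)]
  rw [h10, ← Real.rpow_natCast, ← Real.rpow_mul (by positivity),
    Real.mul_rpow (by positivity) hl0.le]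
  have h12 : (1:ℝ) / 2 * N = (N:ℝ) / 2 := by ring
  rw [h12]

end

end Pool.Agent.MP_4c4330_an.Gen
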