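import Pool.Agent.MP_4c4330_an.Gen.Defs

open MeasureTheory Set Filter Topology
open scoped ENNReal ContDiff

set_option linter.unusedSectionVars false

namespace Pool.Agent.MP_4c4330_an.Gen

noncomputable section

section
variable {E : Type*} [NormedAddCommGroup E] [InnerProductSpace ℝ E] [FiniteDimensional ℝ E]
  [MeasurableSpace E] [BorelSpace E] {Ω : Set E}

lemma H22_grad_mul {φ ψ : E → ℝ} (hφ : Differentiable ℝ φ) (hψ : Differentiable ℝ ψ) (x : E) :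
    gradient (fun y => φ y * ψ y) x = φ x • gradient ψ x + ψ x • gradient φ x := by
  unfold gradient
  have h := ((hφ x).hasFDerivAt.mul (hψ x).hasFDerivAt).fderiv
  have h' : fderiv ℝ (fun y => φ y * ψ y) x = φ x • fderiv ℝ ψ x + ψ x • fderiv ℝ φ x := h
  rw [h', map_add, map_smul, map_smul]

lemma H22_test_mul {m φ : E → ℝ} (hm : IsTest Ω m) (hφ : IsTest Ω φ) :
    IsTest Ω (fun y => m y * φ y) := by
  refine ⟨hm.1.mul hφ.1, hφ.2.1.mul_left, ?_⟩
  refine (closure_mono ?_).trans hφ.2.2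
  intro x hx
  rw [Function.mem_support] at hx ⊢
  exact right_ne_zero_of_mul hx

/-- Multiplication by `m` as an operator. -/
def H22_T (F : Type*) [NormedAddCommGroup F] [NormedSpace ℝ F] {μ : Measure E} (f : Lp ℝ ∞ μ) :
    Lp F 2 μ →L[ℝ] Lp F 2 μ :=
  (ContinuousLinearMap.lsmul ℝ ℝ : ℝ →L[ℝ] F →L[ℝ] F).holderL μ ∞ 2 2 f

lemma H22_T_coe {F : Type*} [NormedAddCommGroup F] [NormedSpace ℝ F] {μ : Measure E}
    (f : Lp ℝ ∞ μ) (w : Lp F 2 μ) : H22_T F f w =ᵐ[μ] fun x => f x • w x := by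
  exact ContinuousLinearMap.coeFn_holder _ f w

/-- The map `w ↦ w • G`. -/
def H22_D {μ : Measure E} (G : Lp E ∞ μ) : Lp ℝ 2 μ →L[ℝ] Lp E 2 μ :=
  ((ContinuousLinearMap.lsmul ℝ ℝ : ℝ →L[ℝ] E →L[ℝ] E).flip).holderL μ ∞ 2 2 G

lemma H22_D_coe {μ : Measure E} (G : Lp E ∞ μ) (w : Lp ℝ 2 μ) :
    H22_D G w =ᵐ[μ] fun x => w x • G x := by
  exact ContinuousLinearMap.coeFn_holder _ G w

/-- The map `r ↦ ⟨G, r⟩`. -/
def H22_G {μ : Measure E} (G : Lp E ∞ μ) : Lp E 2 μ →L[ℝ] Lp ℝ 2 μ :=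
  (innerSL ℝ : E →L[ℝ] E →L[ℝ] ℝ).holderL μ ∞ 2 2 G

lemma H22_G_coe {μ : Measure E} (G : Lp E ∞ μ) (r : Lp E 2 μ) :
    H22_G G r =ᵐ[μ] fun x => inner ℝ (G x) (r x) := by
  exact ContinuousLinearMap.coeFn_holder _ G r

lemma H22_T_symm {F : Type*} [NormedAddCommGroup F] [InnerProductSpace ℝ F] {μ : Measure E}
    (f : Lp ℝ ∞ μ) (w w' : Lp F 2 μ) :
    inner ℝ (H22_T F f w) w' = inner ℝ w (H22_T F f w') := by
  rw [L2.inner_def, L2.inner_def]
  apply integral_congr_ae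
  filter_upwards [H22_T_coe f w, H22_T_coe f w'] with x h1 h2
  rw [h1, h2, real_inner_smul_left, real_inner_smul_right]

lemma H22_D_G {μ : Measure E} (G : Lp E ∞ μ) (w : Lp ℝ 2 μ) (r : Lp E 2 μ) :
    inner ℝ (H22_D G w) r = inner ℝ w (H22_G G r) := by
  rw [L2.inner_def, L2.inner_def]
  apply integral_congr_ae
  filter_upwards [H22_D_coe G w, H22_G_coe G r] with x h1 h2
  rw [h1, h2, real_inner_smul_left]
  simp [mul_comm]

/-- Product of a test function and an element of `H¹₀`. -/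
lemma H22_prod {m : E → ℝ} (hm : IsTest Ω m) {w : Lp ℝ 2 (volume.restrict Ω)}
    {r : Lp E 2 (volume.restrict Ω)} (h : InH10 Ω w r) :
    InH10 Ω (H22_T ℝ ((hm.memLp ∞).toLp m) w)
      (H22_T E ((hm.memLp ∞).toLp m) r + H22_D ((hm.grad_memLp ∞).toLp (gradient m)) w) := by
  have hcl : IsClosed {z : Lp ℝ 2 (volume.restrict Ω) × Lp E 2 (volume.restrict Ω) |
      InH10 Ω (H22_T ℝ ((hm.memLp ∞).toLp m) z.1) (H22_T E ((hm.memLp ∞).toLp m) z.2
        + H22_D ((hm.grad_memLp ∞).toLp (gradient m)) z.1)} := by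
    have hc : Continuous fun z : Lp ℝ 2 (volume.restrict Ω) × Lp E 2 (volume.restrict Ω) =>
        (H22_T ℝ ((hm.memLp ∞).toLp m) z.1, H22_T E ((hm.memLp ∞).toLp m) z.2
        + H22_D ((hm.grad_memLp ∞).toLp (gradient m)) z.1) := by
      fun_prop
    exact (isClosed_InH10 (Ω := Ω)).preimage hc
  have hsub : (testPairs Ω : Set _) ⊆ {z : Lp ℝ 2 (volume.restrict Ω) × Lp E 2 (volume.restrict Ω) |
      InH10 Ω (H22_T ℝ ((hm.memLp ∞).toLp m) z.1) (H22_T E ((hm.memLp ∞).toLp m) z.2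
        + H22_D ((hm.grad_memLp ∞).toLp (gradient m)) z.1)} := by
    rintro z ⟨ψ, hψ, h1, h2⟩
    apply subset_closure
    refine ⟨fun y => m y * ψ y, H22_test_mul hm hψ, ?_, ?_⟩
    · show H22_T ℝ ((hm.memLp ∞).toLp m) z.1 =ᵐ[volume.restrict Ω] fun y => m y * ψ y
      filter_upwards [H22_T_coe ((hm.memLp ∞).toLp m) z.1, (hm.memLp ∞).coeFn_toLp, h1]
        with x e1 e2 e3
      rw [e1, e2, e3, smul_eq_mul]
    · show (H22_T E ((hm.memLp ∞).toLp m) z.2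
        + H22_D ((hm.grad_memLp ∞).toLp (gradient m)) z.1 : Lp E 2 (volume.restrict Ω))
          =ᵐ[volume.restrict Ω] gradient fun y => m y * ψ y
      filter_upwards [Lp.coeFn_add (H22_T E ((hm.memLp ∞).toLp m) z.2)
        (H22_D ((hm.grad_memLp ∞).toLp (gradient m)) z.1),
        H22_T_coe ((hm.memLp ∞).toLp m) z.2, (hm.memLp ∞).coeFn_toLp, h1, h2,
        (hm.grad_memLp ∞).coeFn_toLp, H22_D_coe ((hm.grad_memLp ∞).toLp (gradient m)) z.1]
        with x e0 e1 e2 e3 e4 e5 e6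
      rw [e0, Pi.add_apply, e1, e2, e6, e3, e4, e5, H22_grad_mul hm.differentiable hψ.differentiable]
  exact (closure_minimal hsub hcl) h

/-- Integration by parts. -/
lemma H22_parts {m : E → ℝ} (hm : IsTest Ω m) {w w' : Lp ℝ 2 (volume.restrict Ω)}
    {r r' : Lp E 2 (volume.restrict Ω)} (h : InH10 Ω w r) (h' : InH10 Ω w' r') :
    inner ℝ w (H22_G ((hm.grad_memLp ∞).toLp (gradient m)) r')
      + inner ℝ w' (H22_G ((hm.grad_memLp ∞).toLp (gradient m)) r)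
      + inner ℝ w (H22_T ℝ ((hm.lap_memLp ∞).toLp (lap m)) w') = 0 := by
  -- both test functions
  have key : ∀ z ∈ (testPairs Ω : Set (Lp ℝ 2 (volume.restrict Ω) × Lp E 2 (volume.restrict Ω))),
      ∀ z' ∈ (testPairs Ω : Set (Lp ℝ 2 (volume.restrict Ω) × Lp E 2 (volume.restrict Ω))),
      inner ℝ z.1 (H22_G ((hm.grad_memLp ∞).toLp (gradient m)) z'.2)
      + inner ℝ z'.1 (H22_G ((hm.grad_memLp ∞).toLp (gradient m)) z.2)
      + inner ℝ z.1 (H22_T ℝ ((hm.lap_memLp ∞).toLp (lap m)) z'.1) = 0 := by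
    rintro z ⟨ψ, hψ, h1, h2⟩ z' ⟨φ, hφ, h3, h4⟩
    have hg := green_test hm (H22_test_mul hψ hφ)
    have i1 := MeasureTheory.L2.integrable_inner (𝕜 := ℝ) z.1
      (H22_G ((hm.grad_memLp ∞).toLp (gradient m)) z'.2)
    have i2 := MeasureTheory.L2.integrable_inner (𝕜 := ℝ) z'.1
      (H22_G ((hm.grad_memLp ∞).toLp (gradient m)) z.2)
    have i3 := MeasureTheory.L2.integrable_inner (𝕜 := ℝ) z.1
      (H22_T ℝ ((hm.lap_memLp ∞).toLp (lap m)) z'.1)
    rw [L2.inner_def, L2.inner_def, L2.inner_def, ← integral_add i1 i2]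
    have e1 : ∫ x in Ω, (inner ℝ (z.1 x) (H22_G ((hm.grad_memLp ∞).toLp (gradient m)) z'.2 x)
        + inner ℝ (z'.1 x) (H22_G ((hm.grad_memLp ∞).toLp (gradient m)) z.2 x))
        = ∫ x in Ω, inner ℝ (gradient (fun y => ψ y * φ y) x) (gradient m x) := by
      apply integral_congr_ae
      filter_upwards [h1, h2, h3, h4, H22_G_coe ((hm.grad_memLp ∞).toLp (gradient m)) z'.2,
        H22_G_coe ((hm.grad_memLp ∞).toLp (gradient m)) z.2, (hm.grad_memLp ∞).coeFn_toLp]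
        with x e1 e2 e3 e4 e5 e6 e7
      rw [e5, e6, e1, e2, e3, e4, e7, H22_grad_mul hψ.differentiable hφ.differentiable,
        inner_add_left, real_inner_smul_left, real_inner_smul_left,
        real_inner_comm (gradient m x) (gradient φ x), real_inner_comm (gradient m x) (gradient ψ x)]
      simp [mul_comm]
    have e2 : ∫ x in Ω, inner ℝ (z.1 x) (H22_T ℝ ((hm.lap_memLp ∞).toLp (lap m)) z'.1 x)
        = ∫ x in Ω, (ψ x * φ x) * lap m x := by
      apply integral_congr_ae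
      filter_upwards [h1, h3, H22_T_coe ((hm.lap_memLp ∞).toLp (lap m)) z'.1,
        (hm.lap_memLp ∞).coeFn_toLp] with x e1 e3 e5 e7
      rw [e5, e1, e3, e7]
      simp only [smul_eq_mul, RCLike.inner_apply, conj_trivial]
      ring
    rw [e1, e2, hg]
    ring
  -- closure in the second variable
  have key2 : ∀ z ∈ (testPairs Ω : Set (Lp ℝ 2 (volume.restrict Ω) × Lp E 2 (volume.restrict Ω))),
      inner ℝ z.1 (H22_G ((hm.grad_memLp ∞).toLp (gradient m)) r')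
      + inner ℝ w' (H22_G ((hm.grad_memLp ∞).toLp (gradient m)) z.2)
      + inner ℝ z.1 (H22_T ℝ ((hm.lap_memLp ∞).toLp (lap m)) w') = 0 := by
    intro z hz
    have hcl : IsClosed {z' : Lp ℝ 2 (volume.restrict Ω) × Lp E 2 (volume.restrict Ω) |
        inner ℝ z.1 (H22_G ((hm.grad_memLp ∞).toLp (gradient m)) z'.2)
        + inner ℝ z'.1 (H22_G ((hm.grad_memLp ∞).toLp (gradient m)) z.2)
        + inner ℝ z.1 (H22_T ℝ ((hm.lap_memLp ∞).toLp (lap m)) z'.1) = 0} := by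
      apply isClosed_eq _ continuous_const
      fun_prop
    exact (closure_minimal (fun z' hz' => key z hz z' hz') hcl) h'
  have hcl : IsClosed {z : Lp ℝ 2 (volume.restrict Ω) × Lp E 2 (volume.restrict Ω) |
      inner ℝ z.1 (H22_G ((hm.grad_memLp ∞).toLp (gradient m)) r')
      + inner ℝ w' (H22_G ((hm.grad_memLp ∞).toLp (gradient m)) z.2)
      + inner ℝ z.1 (H22_T ℝ ((hm.lap_memLp ∞).toLp (lap m)) w') = 0} := by
    apply isClosed_eq _ continuous_const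
    fun_prop
  exact (closure_minimal (fun z hz => key2 z hz) hcl) h

end

/-- [H22] commutator with a test function. -/
theorem om_comm {N : ℕ} {Ω : Set (EuclideanSpace ℝ (Fin N))} (hΩ : IsOpen Ω) {I : Type}
    (B : Bas I Ω) {m : EuclideanSpace ℝ (Fin N) → ℝ} (hm : IsTest Ω m) : ∃ C : ℝ, 0 < C ∧
    ∀ (i : I) (S : Finset I),
      ∑ j ∈ S, ((B.lam j - B.lam i) * ∫ x in Ω, m x * B.b i x * B.b j x) ^ 2
        ≤ C * (1 + B.lam i) := by
  set T := H22_T ℝ ((hm.memLp ∞).toLp m) with hT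
  set TE := H22_T (EuclideanSpace ℝ (Fin N)) ((hm.memLp ∞).toLp m) with hTE
  set G := H22_G ((hm.grad_memLp ∞).toLp (gradient m)) with hG
  set D := H22_D ((hm.grad_memLp ∞).toLp (gradient m)) with hD
  set L := H22_T ℝ ((hm.lap_memLp ∞).toLp (lap m)) with hL
  refine ⟨8 * ‖G‖ ^ 2 + 2 * ‖L‖ ^ 2 + 1, by positivity, ?_⟩
  intro i S
  have hb : ∀ j, ‖B.b j‖ = 1 := fun j => B.b.orthonormal.1 j
  have hq : ‖B.q i‖ ^ 2 = B.lam i := by
    have h1 := B.eig i _ _ (B.h10 i)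
    rw [real_inner_self_eq_norm_sq, real_inner_self_eq_norm_sq, hb i] at h1
    rw [h1]; ring
  have hid : ∀ j, (B.lam j - B.lam i) * ∫ x in Ω, m x * B.b i x * B.b j x
      = -inner ℝ (B.b j) ((2:ℝ) • G (B.q i) + L (B.b i)) := by
    intro j
    have h1 : ∫ x in Ω, m x * B.b i x * B.b j x = inner ℝ (B.b j) (T (B.b i)) := by
      rw [inner_Lp_real]
      apply integral_congr_ae
      filter_upwards [H22_T_coe ((hm.memLp ∞).toLp m) (B.b i), (hm.memLp ∞).coeFn_toLp]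
        with x e1 e2
      rw [hT, e1, e2, smul_eq_mul]
      ring
    have h2 := B.eig j _ _ (H22_prod hm (B.h10 i))
    have h3 := B.eig i _ _ (H22_prod hm (B.h10 j))
    have h4 := H22_parts hm (B.h10 i) (B.h10 j)
    rw [← hT, ← hTE, ← hD, inner_add_right] at h2 h3
    rw [← hG, ← hL] at h4
    have h5 : inner ℝ (B.q j) (TE (B.q i)) = inner ℝ (B.q i) (TE (B.q j)) := by
      rw [real_inner_comm, hTE, H22_T_symm]
    have h6 : inner ℝ (B.q j) (D (B.b i)) = inner ℝ (B.b i) (G (B.q j)) := by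
      rw [real_inner_comm, hD, H22_D_G]
    have h7 : inner ℝ (B.q i) (D (B.b j)) = inner ℝ (B.b j) (G (B.q i)) := by
      rw [real_inner_comm, hD, H22_D_G]
    have h8 : inner ℝ (B.b i) (T (B.b j)) = inner ℝ (B.b j) (T (B.b i)) := by
      rw [real_inner_comm, hT, H22_T_symm]
    have h9 : inner ℝ (B.b i) (L (B.b j)) = inner ℝ (B.b j) (L (B.b i)) := by
      rw [real_inner_comm, hL, H22_T_symm]
    rw [h5, h6] at h2
    rw [h7, h8] at h3
    rw [h9] at h4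
    rw [h1, inner_add_right, real_inner_smul_right]
    linarith
  have hbes := B.b.orthonormal.sum_inner_products_le (s := S) ((2:ℝ) • G (B.q i) + L (B.b i))
  have hsum : ∑ j ∈ S, ((B.lam j - B.lam i) * ∫ x in Ω, m x * B.b i x * B.b j x) ^ 2
      = ∑ j ∈ S, ‖(inner ℝ (B.b j) ((2:ℝ) • G (B.q i) + L (B.b i)) : ℝ)‖ ^ 2 := by
    apply Finset.sum_congr rfl
    intro j _
    rw [hid j, Real.norm_eq_abs, sq_abs, neg_sq]
  rw [hsum]
  refine hbes.trans ?_
  have n1 : ‖(2:ℝ) • G (B.q i) + L (B.b i)‖ ≤ 2 * (‖G‖ * ‖B.q i‖) + ‖L‖ := by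
    refine (norm_add_le _ _).trans ?_
    rw [norm_smul, Real.norm_eq_abs, abs_of_pos (by norm_num : (0:ℝ) < 2)]
    have a1 := G.le_opNorm (B.q i)
    have a2 := L.le_opNorm (B.b i)
    rw [hb i, mul_one] at a2
    linarith
  have n2 : ‖(2:ℝ) • G (B.q i) + L (B.b i)‖ ^ 2 ≤ (2 * (‖G‖ * ‖B.q i‖) + ‖L‖) ^ 2 :=
    pow_le_pow_left₀ (norm_nonneg _) n1 2
  have n3 : (2 * (‖G‖ * ‖B.q i‖) + ‖L‖) ^ 2 ≤ 8 * ‖G‖ ^ 2 * ‖B.q i‖ ^ 2 + 2 * ‖L‖ ^ 2 := by
    nlinarith [sq_nonneg (2 * (‖G‖ * ‖B.q i‖) - ‖L‖)]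
  have hl := B.pos i
  rw [hq] at n3
  have g0 : 0 ≤ ‖G‖ ^ 2 := by positivity
  have l0 : 0 ≤ ‖L‖ ^ 2 := by positivity
  nlinarith [mul_nonneg g0 hl.le, mul_nonneg l0 hl.le]

end

end Pool.Agent.MP_4c4330_an.Gen
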