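import Pool.Agent.MP_4c4330_an.Gen.Defs
open MeasureTheory Set Filter Topology
open scoped ENNReal ContDiff
namespace Pool.Agent.MP_4c4330_an.Gen

/-- [H23] pigeonhole. -/
theorem pigeon {f : ℝ → ℕ} (hf : Monotone f) {C p l₀ : ℝ} (hp : 0 ≤ p)
    (hC : ∀ l ≥ 1, (f l : ℝ) ≤ C * l ^ p) (h1 : ∀ l ≥ l₀, 1 ≤ f l) {δ : ℝ} (hδ : 0 < δ) :
    ∃ τ > 0, ∀ L : ℝ, ∃ l ≥ L, (f ((1 + τ) * l) : ℝ) ≤ (1 + δ) * f l := by
  have hcont : ContinuousAt (fun τ : ℝ => (1 + τ) ^ p) 0 :=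
    (continuousAt_const.add continuousAt_id).rpow_const (Or.inl (by norm_num))
  have hev : ∀ᶠ τ : ℝ in 𝓝 0, (1 + τ) ^ p < 1 + δ := by
    apply hcont.eventually_lt_const
    simp only [add_zero, Real.one_rpow]
    linarith
  obtain ⟨τ, hτ, hτ0⟩ := ((hev.filter_mono nhdsWithin_le_nhds :
    ∀ᶠ τ : ℝ in 𝓝[>] 0, (1 + τ) ^ p < 1 + δ).and self_mem_nhdsWithin).exists
  have hτ0' : 0 < τ := hτ0
  refine ⟨τ, hτ0', ?_⟩
  by_contra hcon
  push Not at hcon
  obtain ⟨L', hL'⟩ := hcon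
  set L := max L' (max 1 l₀) with hL
  have hL1 : 1 ≤ L := (le_max_left 1 l₀).trans (le_max_right _ _)
  have hL2 : l₀ ≤ L := (le_max_right 1 l₀).trans (le_max_right _ _)
  have hL3 : L' ≤ L := le_max_left _ _
  have h1τ : 1 ≤ 1 + τ := by linarith
  have hpow1 : ∀ j : ℕ, 1 ≤ (1 + τ) ^ j := fun j => one_le_pow₀ h1τ
  have hge : ∀ j : ℕ, L ≤ (1 + τ) ^ j * L := fun j =>
    le_mul_of_one_le_left (by linarith) (hpow1 j)
  have hgrow : ∀ j : ℕ, (1 + δ) ^ j ≤ (f ((1 + τ) ^ j * L) : ℝ) := by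
    intro j
    induction j with
    | zero =>
      rw [pow_zero, pow_zero, one_mul]
      exact_mod_cast h1 L hL2
    | succ j ih =>
      have h2 := hL' ((1 + τ) ^ j * L) (hL3.trans (hge j))
      have h3 : (1 + τ) * ((1 + τ) ^ j * L) = (1 + τ) ^ (j + 1) * L := by ring
      rw [h3] at h2
      have h4 : (1 + δ) ^ (j + 1) = (1 + δ) * (1 + δ) ^ j := by ring
      rw [h4]
      exact (mul_le_mul_of_nonneg_left ih (by linarith)).trans h2.le
  set q := (1 + τ) ^ p with hq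
  have hq0 : 0 < q := Real.rpow_pos_of_pos (by linarith) p
  have hup : ∀ j : ℕ, ((1 + δ) / q) ^ j ≤ C * L ^ p := by
    intro j
    have h2 := hC ((1 + τ) ^ j * L) (hL1.trans (hge j))
    have h3 : ((1 + τ) ^ j * L) ^ p = q ^ j * L ^ p := by
      rw [Real.mul_rpow (by positivity) (by linarith), hq, ← Real.rpow_natCast,
        ← Real.rpow_mul (by linarith), mul_comm (j : ℝ) p, Real.rpow_mul (by linarith),
        Real.rpow_natCast]
    rw [h3] at h2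
    rw [div_pow, div_le_iff₀ (by positivity)]
    calc (1 + δ) ^ j ≤ (f ((1 + τ) ^ j * L) : ℝ) := hgrow j
      _ ≤ C * (q ^ j * L ^ p) := h2
      _ = C * L ^ p * q ^ j := by ring
  have hr : 1 < (1 + δ) / q := by
    rw [lt_div_iff₀ hq0, one_mul]
    exact hτ
  obtain ⟨j, hj⟩ := ((tendsto_pow_atTop_atTop_of_one_lt hr).eventually_gt_atTop
    (C * L ^ p)).exists
  exact absurd (hup j) (not_le.2 hj)

end Pool.Agent.MP_4c4330_an.Gen
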