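import Pool.Agent.MP_4c4330_an.Gen.Defs
import Pool.Agent.MP_4c4330_an.Gen.H20
import Pool.Agent.MP_4c4330_an.Gen.H21
import Pool.Agent.MP_4c4330_an.Gen.H22
import Pool.Agent.MP_4c4330_an.Gen.H23
open MeasureTheory Set Filter Topology
open scoped ENNReal ContDiff
namespace Pool.Agent.MP_4c4330_an.Gen

theorem H24_bdd {N : ℕ} {Ω : Set (EuclideanSpace ℝ (Fin N))} {m : EuclideanSpace ℝ (Fin N) → ℝ}
    (hm : IsTest Ω m) : ∃ M : ℝ, 0 ≤ M ∧ ∀ x, |m x| ≤ M := by
  obtain ⟨M, hM⟩ := hm.2.1.exists_bound_of_continuous hm.cont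
  exact ⟨M, (norm_nonneg _).trans (hM 0), fun x => by simpa [Real.norm_eq_abs] using hM x⟩

theorem H24_memLp {N : ℕ} {Ω : Set (EuclideanSpace ℝ (Fin N))} {m : EuclideanSpace ℝ (Fin N) → ℝ}
    (hm : IsTest Ω m) (u : Lp ℝ 2 (volume.restrict Ω)) :
    MemLp (fun x => m x * u x) 2 (volume.restrict Ω) :=
  (Lp.memLp u).mul' (p := ⊤) (q := 2) (r := 2) (hm.memLp ⊤)

/-- multiplication by a test function -/
noncomputable def H24_U {N : ℕ} {Ω : Set (EuclideanSpace ℝ (Fin N))}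
    {m : EuclideanSpace ℝ (Fin N) → ℝ} (hm : IsTest Ω m) (u : Lp ℝ 2 (volume.restrict Ω)) :
    Lp ℝ 2 (volume.restrict Ω) := (H24_memLp hm u).toLp _

theorem H24_U_ae {N : ℕ} {Ω : Set (EuclideanSpace ℝ (Fin N))}
    {m : EuclideanSpace ℝ (Fin N) → ℝ} (hm : IsTest Ω m) (u : Lp ℝ 2 (volume.restrict Ω)) :
    H24_U hm u =ᵐ[volume.restrict Ω] fun x => m x * u x := (H24_memLp hm u).coeFn_toLp

theorem H24_U_inner {N : ℕ} {Ω : Set (EuclideanSpace ℝ (Fin N))}
    {m : EuclideanSpace ℝ (Fin N) → ℝ} (hm : IsTest Ω m) (u v : Lp ℝ 2 (volume.restrict Ω)) :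
    inner ℝ v (H24_U hm u) = ∫ x in Ω, m x * u x * v x := by
  rw [inner_Lp_real]
  apply integral_congr_ae
  filter_upwards [H24_U_ae hm u] with x hx
  rw [hx]
  ring

theorem H24_U_norm {N : ℕ} {Ω : Set (EuclideanSpace ℝ (Fin N))}
    {m : EuclideanSpace ℝ (Fin N) → ℝ} (hm : IsTest Ω m) {M : ℝ} (hM : ∀ x, |m x| ≤ M)
    (hM0 : 0 ≤ M)
    (u : Lp ℝ 2 (volume.restrict Ω)) : ‖H24_U hm u‖ ^ 2 ≤ M ^ 2 * ‖u‖ ^ 2 := by
  have h1 : ‖H24_U hm u‖ ≤ M * ‖u‖ := by
    apply Lp.norm_le_mul_norm_of_ae_le_mul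
    filter_upwards [H24_U_ae hm u] with x hx
    rw [hx, norm_mul]
    exact mul_le_mul_of_nonneg_right (by simpa [Real.norm_eq_abs] using hM x) (norm_nonneg _)
  calc ‖H24_U hm u‖ ^ 2 ≤ (M * ‖u‖) ^ 2 := pow_le_pow_left₀ (norm_nonneg _) h1 2
    _ = _ := by ring

theorem H24_mem {N : ℕ} {Ω : Set (EuclideanSpace ℝ (Fin N))} {I : Type} (B : Bas I Ω) (c : ℝ)
    (i : I) : i ∈ B.low c ↔ B.lam i ≤ c := by
  unfold Bas.low
  rw [Set.Finite.mem_toFinset]
  rfl

/-- the leakage of one function -/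
theorem H24_one {N : ℕ} {Ω : Set (EuclideanSpace ℝ (Fin N))} {I : Type} (B : Bas I Ω)
    {m : EuclideanSpace ℝ (Fin N) → ℝ} (hm : IsTest Ω m) {C l τ : ℝ} (hl : 0 < l) (hτ : 0 < τ)
    (hC0 : 0 < C)
    (hC : ∀ (i : I) (S : Finset I),
      ∑ j ∈ S, ((B.lam j - B.lam i) * ∫ x in Ω, m x * B.b i x * B.b j x) ^ 2
        ≤ C * (1 + B.lam i)) (i : I) (hi : i ∈ B.low l) :
    ∫ x in Ω, (m x * B.b i x
        - ∑ j ∈ B.low l, (∫ y in Ω, m y * B.b i y * B.b j y) * B.b j x) ^ 2 ≤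
      C * (1 + l) / (τ * l) ^ 2 +
        ∑ j ∈ (B.low ((1 + τ) * l)).filter (fun j => l < B.lam j),
          (∫ y in Ω, m y * B.b i y * B.b j y) ^ 2 := by
  classical
  have hcoef : ∀ j, inner ℝ (B.b j : Lp ℝ 2 (volume.restrict Ω)) (H24_U hm (B.b i)) =
      ∫ y in Ω, m y * B.b i y * B.b j y := fun j => H24_U_inner hm _ _
  set v : Lp ℝ 2 (volume.restrict Ω) := H24_U hm (B.b i) -
    ∑ j ∈ B.low l, (∫ y in Ω, m y * B.b i y * B.b j y) • (B.b j : Lp ℝ 2 (volume.restrict Ω))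
    with hv
  have h1 : ∫ x in Ω, (m x * B.b i x
        - ∑ j ∈ B.low l, (∫ y in Ω, m y * B.b i y * B.b j y) * B.b j x) ^ 2 = ‖v‖ ^ 2 := by
    rw [norm_sq_Lp]
    apply integral_congr_ae
    have e1 : (v : EuclideanSpace ℝ (Fin N) → ℝ) =ᵐ[volume.restrict Ω] fun x => (m x * B.b i x
        - ∑ j ∈ B.low l, (∫ y in Ω, m y * B.b i y * B.b j y) * B.b j x) := by
      have e2 : ∀ T : Finset I, ((∑ j ∈ T, (∫ y in Ω, m y * B.b i y * B.b j y) •
          (B.b j : Lp ℝ 2 (volume.restrict Ω)) : Lp ℝ 2 (volume.restrict Ω)) :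
          EuclideanSpace ℝ (Fin N) → ℝ) =ᵐ[volume.restrict Ω] fun x =>
            ∑ j ∈ T, (∫ y in Ω, m y * B.b i y * B.b j y) * B.b j x := by
        intro T
        induction T using Finset.induction_on with
        | empty =>
          rw [Finset.sum_empty]
          filter_upwards [Lp.coeFn_zero ℝ 2 (volume.restrict Ω)] with x hx
          rw [hx]
          simp
        | insert k T hk ih =>
          rw [Finset.sum_insert hk]
          filter_upwards [ih, Lp.coeFn_add ((∫ y in Ω, m y * B.b i y * B.b k y) •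
            (B.b k : Lp ℝ 2 (volume.restrict Ω))) (∑ j ∈ T, (∫ y in Ω, m y * B.b i y * B.b j y) •
            (B.b j : Lp ℝ 2 (volume.restrict Ω))),
            Lp.coeFn_smul (∫ y in Ω, m y * B.b i y * B.b k y)
              (B.b k : Lp ℝ 2 (volume.restrict Ω))] with x h1 h2 h3
          rw [h2, Pi.add_apply, h1, h3, Pi.smul_apply, smul_eq_mul, Finset.sum_insert hk]
      filter_upwards [H24_U_ae hm (B.b i), e2 (B.low l), Lp.coeFn_sub (H24_U hm (B.b i))
        (∑ j ∈ B.low l, (∫ y in Ω, m y * B.b i y * B.b j y) •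
          (B.b j : Lp ℝ 2 (volume.restrict Ω)))] with x h1 h2 h3
      rw [hv, h3, Pi.sub_apply, h1, h2]
    filter_upwards [e1] with x hx
    rw [hx, Real.norm_eq_abs, sq_abs]
  rw [h1]
  have horth : Orthonormal ℝ (fun j => (B.b j : Lp ℝ 2 (volume.restrict Ω))) := B.b.orthonormal
  have hin : ∀ j ∈ B.low l, inner ℝ (B.b j : Lp ℝ 2 (volume.restrict Ω)) v = 0 := by
    intro j hj
    rw [hv, inner_sub_right, hcoef, horth.inner_right_sum _ hj, sub_self]
  have hout : ∀ j, j ∉ B.low l → inner ℝ (B.b j : Lp ℝ 2 (volume.restrict Ω)) v =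
      ∫ y in Ω, m y * B.b i y * B.b j y := by
    intro j hj
    rw [hv, inner_sub_right, hcoef, inner_sum]
    rw [Finset.sum_eq_zero, sub_zero]
    intro k hk
    have hjk : j ≠ k := by
      rintro rfl
      exact hj hk
    rw [inner_smul_right, horth.2 hjk, mul_zero]
  have hsum : HasSum (fun j => (inner ℝ (B.b j : Lp ℝ 2 (volume.restrict Ω)) v) ^ 2) (‖v‖ ^ 2) := by
    have h2 := B.b.hasSum_inner_mul_inner v v
    rw [real_inner_self_eq_norm_sq] at h2
    have h3 : (fun j => inner ℝ v (B.b j : Lp ℝ 2 (volume.restrict Ω)) *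
        inner ℝ (B.b j : Lp ℝ 2 (volume.restrict Ω)) v) =
        fun j => (inner ℝ (B.b j : Lp ℝ 2 (volume.restrict Ω)) v) ^ 2 := by
      funext j
      rw [real_inner_comm v (B.b j : Lp ℝ 2 (volume.restrict Ω)), sq]
    rw [h3] at h2
    exact h2
  refine hasSum_le_of_sum_le hsum ?_
  intro T
  have hsplit : ∑ j ∈ T, (inner ℝ (B.b j : Lp ℝ 2 (volume.restrict Ω)) v) ^ 2 ≤
      ∑ j ∈ T.filter (fun j => (1 + τ) * l < B.lam j),
        (∫ y in Ω, m y * B.b i y * B.b j y) ^ 2 +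
      ∑ j ∈ (B.low ((1 + τ) * l)).filter (fun j => l < B.lam j),
          (∫ y in Ω, m y * B.b i y * B.b j y) ^ 2 := by
    have hlt : l < (1 + τ) * l := by nlinarith
    rw [← Finset.sum_filter_add_sum_filter_not T (fun j => (1 + τ) * l < B.lam j)]
    apply add_le_add
    · apply Finset.sum_le_sum
      intro j hj
      rw [Finset.mem_filter] at hj
      rw [hout j (by rw [H24_mem]; linarith [hj.2])]
    · rw [← Finset.sum_filter_add_sum_filter_not (T.filter (fun j => ¬ (1 + τ) * l < B.lam j))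
        (fun j => l < B.lam j)]
      have hz : ∑ j ∈ (T.filter (fun j => ¬ (1 + τ) * l < B.lam j)).filter
          (fun j => ¬ l < B.lam j), (inner ℝ (B.b j : Lp ℝ 2 (volume.restrict Ω)) v) ^ 2 = 0 := by
        apply Finset.sum_eq_zero
        intro j hj
        rw [Finset.mem_filter] at hj
        rw [hin j (by rw [H24_mem]; linarith [hj.2])]
        norm_num
      rw [hz, add_zero]
      have he : ∑ j ∈ (T.filter (fun j => ¬ (1 + τ) * l < B.lam j)).filter
          (fun j => l < B.lam j), (inner ℝ (B.b j : Lp ℝ 2 (volume.restrict Ω)) v) ^ 2 =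
          ∑ j ∈ (T.filter (fun j => ¬ (1 + τ) * l < B.lam j)).filter
          (fun j => l < B.lam j), (∫ y in Ω, m y * B.b i y * B.b j y) ^ 2 := by
        apply Finset.sum_congr rfl
        intro j hj
        rw [Finset.mem_filter] at hj
        rw [hout j (by rw [H24_mem]; linarith [hj.2])]
      rw [he]
      apply Finset.sum_le_sum_of_subset_of_nonneg
      · intro j hj
        rw [Finset.mem_filter, Finset.mem_filter] at hj
        rw [Finset.mem_filter, H24_mem]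
        exact ⟨by linarith [hj.1.2], hj.2⟩
      · intro j _ _
        positivity
  refine hsplit.trans (add_le_add ?_ le_rfl)
  have hli : B.lam i ≤ l := (H24_mem B l i).1 hi
  rw [le_div_iff₀ (by positivity), Finset.sum_mul]
  refine le_trans ?_ ((hC i (T.filter (fun j => (1 + τ) * l < B.lam j))).trans ?_)
  · apply Finset.sum_le_sum
    intro j hj
    rw [Finset.mem_filter] at hj
    have h3 : τ * l ≤ B.lam j - B.lam i := by nlinarith [hj.2]
    have h4 : (τ * l) ^ 2 ≤ (B.lam j - B.lam i) ^ 2 := pow_le_pow_left₀ (by positivity) h3 2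
    rw [mul_pow (B.lam j - B.lam i), mul_comm _ ((τ * l) ^ 2)]
    exact mul_le_mul_of_nonneg_right h4 (sq_nonneg _)
  · exact mul_le_mul_of_nonneg_left (by linarith) hC0.le

theorem H24_mid {N : ℕ} {Ω : Set (EuclideanSpace ℝ (Fin N))} {I : Type} (B : Bas I Ω)
    {m : EuclideanSpace ℝ (Fin N) → ℝ} (hm : IsTest Ω m) {M : ℝ} (hM0 : 0 ≤ M)
    (hM : ∀ x, |m x| ≤ M) (A T : Finset I) :
    ∑ i ∈ A, ∑ j ∈ T, (∫ y in Ω, m y * B.b i y * B.b j y) ^ 2 ≤ M ^ 2 * T.card := by
  have horth : Orthonormal ℝ (fun j => (B.b j : Lp ℝ 2 (volume.restrict Ω))) := B.b.orthonormal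
  rw [Finset.sum_comm]
  calc ∑ j ∈ T, ∑ i ∈ A, (∫ y in Ω, m y * B.b i y * B.b j y) ^ 2
      ≤ ∑ j ∈ T, M ^ 2 := by
        apply Finset.sum_le_sum
        intro j _
        have h1 : ∀ i, (∫ y in Ω, m y * B.b i y * B.b j y) ^ 2 =
            ‖inner ℝ (B.b i : Lp ℝ 2 (volume.restrict Ω)) (H24_U hm (B.b j))‖ ^ 2 := by
          intro i
          rw [H24_U_inner, Real.norm_eq_abs, sq_abs]
          congr 1
          apply integral_congr_ae
          filter_upwards with x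
          ring
        simp only [h1]
        refine (horth.sum_inner_products_le (H24_U hm (B.b j)) (s := A)).trans ?_
        refine (H24_U_norm hm hM hM0 (B.b j)).trans ?_
        rw [horth.1 j]
        norm_num
    _ = M ^ 2 * T.card := by
        rw [Finset.sum_const, nsmul_eq_mul, mul_comm]

theorem H24_card {N : ℕ} {Ω : Set (EuclideanSpace ℝ (Fin N))} {I : Type} (B : Bas I Ω)
    (hvol : volume Ω < ⊤) {K : ℝ} (A : Finset I)
    (h : ∀ᵐ x ∂(volume.restrict Ω), ∑ i ∈ A, (B.b i x) ^ 2 ≤ K) :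
    (A.card : ℝ) ≤ K * (volume Ω).toReal := by
  have horth : Orthonormal ℝ (fun j => (B.b j : Lp ℝ 2 (volume.restrict Ω))) := B.b.orthonormal
  have hint : ∀ i, Integrable (fun x => (B.b i x) ^ 2) (volume.restrict Ω) := fun i =>
    (Lp.memLp (B.b i)).integrable_sq
  have hfin : IsFiniteMeasure (volume.restrict Ω) := ⟨by rwa [Measure.restrict_apply_univ]⟩
  calc (A.card : ℝ) = ∑ i ∈ A, (1 : ℝ) := by rw [Finset.sum_const, nsmul_eq_mul, mul_one]
    _ = ∑ i ∈ A, ∫ x in Ω, (B.b i x) ^ 2 := by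
        apply Finset.sum_congr rfl
        intro i _
        have h1 := norm_sq_Lp (B.b i : Lp ℝ 2 (volume.restrict Ω))
        rw [horth.1 i, one_pow] at h1
        rw [h1]
        apply integral_congr_ae
        filter_upwards with x
        rw [Real.norm_eq_abs, sq_abs]
    _ = ∫ x in Ω, ∑ i ∈ A, (B.b i x) ^ 2 := by
        rw [integral_finsetSum]
        intro i _
        exact hint i
    _ ≤ ∫ x in Ω, K := by
        apply integral_mono_ae _ (integrable_const K) h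
        exact integrable_finsetSum _ (fun i _ => hint i)
    _ = K * (volume Ω).toReal := by
        rw [integral_const, smul_eq_mul, Measure.real, Measure.restrict_apply_univ, mul_comm]

/-- [H24] the family of the low eigenfunctions has small leakage for test functions. -/
theorem om_leak {N : ℕ} (hN : 0 < N) {Ω : Set (EuclideanSpace ℝ (Fin N))} (hΩ : IsOpen Ω)
    (hb : Bornology.IsBounded Ω) (hne : Ω.Nonempty) {I : Type} (B : Bas I Ω) {δ : ℝ}
    (hδ : 0 < δ) (S : Finset (EuclideanSpace ℝ (Fin N) → ℝ)) (hS : ∀ m ∈ S, IsTest Ω m) :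
    ∀ L : ℝ, ∃ l ≥ L, 0 < (B.low l).card ∧ ∀ m ∈ S, ∑ i ∈ B.low l,
      ∫ x in Ω, (m x * B.b i x
        - ∑ j ∈ B.low l, (∫ y in Ω, m y * B.b i y * B.b j y) * B.b j x) ^ 2
      ≤ δ * (B.low l).card := by
  classical
  have hex : ∀ m ∈ S, ∃ M : ℝ, 0 ≤ M ∧ ∀ x, |m x| ≤ M := fun m hm => H24_bdd (hS m hm)
  choose! Mf hM0 hMf using hex
  have hex2 : ∀ m ∈ S, ∃ C : ℝ, 0 < C ∧ ∀ (i : I) (T : Finset I),
      ∑ j ∈ T, ((B.lam j - B.lam i) * ∫ x in Ω, m x * B.b i x * B.b j x) ^ 2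
        ≤ C * (1 + B.lam i) := fun m hm => om_comm hΩ B (hS m hm)
  choose! Cf hC0 hCf using hex2
  set Q : ℝ := ∑ m ∈ S, (Mf m) ^ 2 with hQdef
  have hQ : ∀ m ∈ S, (Mf m) ^ 2 ≤ Q := fun m hm =>
    Finset.single_le_sum (f := fun m => (Mf m) ^ 2) (fun m _ => sq_nonneg _) hm
  have hQ0 : 0 ≤ Q := Finset.sum_nonneg (fun m _ => sq_nonneg _)
  set C : ℝ := ∑ m ∈ S, Cf m with hCdef
  have hC : ∀ m ∈ S, Cf m ≤ C := fun m hm =>
    Finset.single_le_sum (f := fun m => Cf m) (fun m hm => (hC0 m hm).le) hm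
  have hC00 : 0 ≤ C := Finset.sum_nonneg (fun m hm => (hC0 m hm).le)
  obtain ⟨C1, hC1, hpt⟩ := om_point hN hΩ hb B
  obtain ⟨c, hc, l₀, hcount⟩ := om_count hN hΩ hne B
  have hsub : ∀ l l' : ℝ, l ≤ l' → B.low l ⊆ B.low l' := by
    intro l l' hll i hi
    rw [H24_mem] at hi ⊢
    linarith
  have hmono : Monotone (fun l : ℝ => (B.low l).card) := fun l l' hll =>
    Finset.card_le_card (hsub l l' hll)
  have hvol : volume Ω < ⊤ := hb.measure_lt_top
  have hup : ∀ l ≥ 1, (((fun l : ℝ => (B.low l).card) l : ℕ) : ℝ) ≤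
      (C1 * (volume Ω).toReal) * l ^ ((N : ℝ) / 2) := by
    intro l hl
    have h1 := H24_card B hvol (B.low l) (hpt l hl)
    calc _ ≤ _ := h1
      _ = _ := by ring
  have hlow : ∀ l ≥ max l₀ 1, 1 ≤ (fun l : ℝ => (B.low l).card) l := by
    intro l hl
    have h1 := hcount l ((le_max_left _ _).trans hl)
    have h2 : (0 : ℝ) < c * l ^ ((N : ℝ) / 2) := by
      have : (0 : ℝ) < l := lt_of_lt_of_le one_pos ((le_max_right _ _).trans hl)
      positivity
    have h3 : (0 : ℝ) < ((B.low l).card : ℝ) := lt_of_lt_of_le h2 h1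
    have h4 : 0 < (B.low l).card := by exact_mod_cast h3
    exact h4
  have hδ' : 0 < δ / (2 * (Q + 1)) := by positivity
  obtain ⟨τ, hτ, hpig⟩ := pigeon hmono (p := (N : ℝ) / 2) (by positivity) hup hlow hδ'
  intro L
  obtain ⟨l, hl, hfl⟩ := hpig (max L (max (max l₀ 1) (4 * C / (τ ^ 2 * δ))))
  have hl1 : L ≤ l := (le_max_left _ _).trans hl
  have hl2 : max l₀ 1 ≤ l := (le_max_left _ _).trans ((le_max_right _ _).trans hl)
  have hl3 : 4 * C / (τ ^ 2 * δ) ≤ l := (le_max_right _ _).trans ((le_max_right _ _).trans hl)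
  have hl4 : 1 ≤ l := (le_max_right _ _).trans hl2
  have hl0 : 0 < l := by linarith
  refine ⟨l, hl1, hlow l hl2, ?_⟩
  intro m hm
  have hmid : (((B.low ((1 + τ) * l)).filter (fun j => l < B.lam j)).card : ℝ) ≤
      δ / (2 * (Q + 1)) * (B.low l).card := by
    have h1 : B.low l ⊆ (B.low ((1 + τ) * l)).filter (fun j => ¬ l < B.lam j) := by
      intro j hj
      rw [Finset.mem_filter]
      refine ⟨hsub l _ (by nlinarith) hj, ?_⟩
      rw [H24_mem] at hj
      exact not_lt.2 hj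
    have h2 := Finset.card_filter_add_card_filter_not (s := B.low ((1 + τ) * l))
      (fun j => l < B.lam j)
    have h3 := Finset.card_le_card h1
    have h4 : ((B.low l).card : ℝ) ≤
        (((B.low ((1 + τ) * l)).filter (fun j => ¬ l < B.lam j)).card : ℝ) := by
      exact_mod_cast h3
    have h5 : (((B.low ((1 + τ) * l)).filter (fun j => l < B.lam j)).card : ℝ) +
        (((B.low ((1 + τ) * l)).filter (fun j => ¬ l < B.lam j)).card : ℝ) =
        ((B.low ((1 + τ) * l)).card : ℝ) := by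
      exact_mod_cast h2
    have h6 : ((B.low ((1 + τ) * l)).card : ℝ) ≤ (1 + δ / (2 * (Q + 1))) * (B.low l).card := hfl
    linarith
  have hdec : Cf m * (1 + l) / (τ * l) ^ 2 ≤ δ / 2 := by
    rw [div_le_iff₀ (by positivity)]
    rw [div_le_iff₀ (by positivity)] at hl3
    have h1 : Cf m * (1 + l) ≤ C * (2 * l) := by
      have := hC m hm
      have := hC0 m hm
      nlinarith
    have h2 : C * (2 * l) ≤ δ / 2 * (τ * l) ^ 2 := by
      have : 4 * C * l ≤ l * (τ ^ 2 * δ) * l := mul_le_mul_of_nonneg_right hl3 hl0.le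
      nlinarith
    linarith
  calc _ ≤ ∑ i ∈ B.low l, (Cf m * (1 + l) / (τ * l) ^ 2 +
        ∑ j ∈ (B.low ((1 + τ) * l)).filter (fun j => l < B.lam j),
          (∫ y in Ω, m y * B.b i y * B.b j y) ^ 2) := by
        apply Finset.sum_le_sum
        intro i hi
        exact H24_one B (hS m hm) hl0 hτ (hC0 m hm) (hCf m hm) i hi
    _ = (B.low l).card * (Cf m * (1 + l) / (τ * l) ^ 2) + ∑ i ∈ B.low l,
        ∑ j ∈ (B.low ((1 + τ) * l)).filter (fun j => l < B.lam j),
          (∫ y in Ω, m y * B.b i y * B.b j y) ^ 2 := by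
        rw [Finset.sum_add_distrib, Finset.sum_const, nsmul_eq_mul]
    _ ≤ (B.low l).card * (δ / 2) + (Mf m) ^ 2 *
        (((B.low ((1 + τ) * l)).filter (fun j => l < B.lam j)).card : ℝ) := by
        apply add_le_add
        · exact mul_le_mul_of_nonneg_left hdec (Nat.cast_nonneg _)
        · exact H24_mid B (hS m hm) (hM0 m hm) (hMf m hm) _ _
    _ ≤ (B.low l).card * (δ / 2) + Q * (δ / (2 * (Q + 1)) * (B.low l).card) := by
        apply add_le_add le_rfl
        exact mul_le_mul (hQ m hm) hmid (Nat.cast_nonneg _) hQ0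
    _ ≤ (B.low l).card * (δ / 2) + (δ / 2) * (B.low l).card := by
        apply add_le_add le_rfl
        rw [← mul_assoc]
        apply mul_le_mul_of_nonneg_right _ (Nat.cast_nonneg _)
        rw [← mul_div_assoc, div_le_div_iff₀ (by positivity) (by norm_num)]
        nlinarith
    _ = δ * (B.low l).card := by ring

end Pool.Agent.MP_4c4330_an.Gen
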