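import Pool.Agent.MP_4c4330_an.Gen.Defs
import Pool.Agent.MP_4c4330_an.Gen.D3
import Pool.Agent.MP_4c4330_an.Gen.H19
import Pool.Agent.MP_4c4330_an.Gen.H20
import Pool.Agent.MP_4c4330_an.Gen.H21
import Pool.Agent.MP_4c4330_an.Gen.H24
open MeasureTheory Set Filter Topology
open scoped ENNReal ContDiff
namespace Pool.Agent.MP_4c4330_an.Gen

/-- Approximation by test functions. -/
lemma H25_approx {N : ℕ} {Ω : Set (EuclideanSpace ℝ (Fin N))} (hΩ : IsOpen Ω)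
    (m : Lp ℝ 2 (volume.restrict Ω)) {η : ℝ} (hη : 0 < η) :
    ∃ φ : EuclideanSpace ℝ (Fin N) → ℝ, IsTest Ω φ ∧ ∫ x in Ω, (m x - φ x) ^ 2 ≤ η := by
  have h1 : m ∈ closure (((testPairs Ω).map (LinearMap.fst ℝ (Lp ℝ 2 (volume.restrict Ω))
      (Lp (EuclideanSpace ℝ (Fin N)) 2 (volume.restrict Ω))) : Submodule ℝ _) : Set _) := by
    have : m ∈ ((testPairs Ω).map (LinearMap.fst ℝ (Lp ℝ 2 (volume.restrict Ω))
      (Lp (EuclideanSpace ℝ (Fin N)) 2 (volume.restrict Ω)))).topologicalClosure := by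
      rw [dense_test hΩ]; trivial
    exact this
  obtain ⟨_, ⟨z, ⟨ψ, hψ, hz1, _⟩, rfl⟩, hz⟩ :=
    Metric.mem_closure_iff.1 h1 (√η) (Real.sqrt_pos.2 hη)
  have e1 : z.1 = (hψ.memLp 2).toLp ψ := Lp.ext (hz1.trans (hψ.memLp 2).coeFn_toLp.symm)
  refine ⟨ψ, hψ, ?_⟩
  rw [dist_eq_norm] at hz
  have hz2 : ‖m - (hψ.memLp 2).toLp ψ‖ < √η := by rw [← e1]; exact hz
  have h2 := norm_sq_Lp (m - (hψ.memLp 2).toLp ψ)
  have h3 : ∫ x in Ω, (m x - ψ x) ^ 2 = ∫ x in Ω, ‖(m - (hψ.memLp 2).toLp ψ :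
      Lp ℝ 2 (volume.restrict Ω)) x‖ ^ 2 := by
    apply integral_congr_ae
    filter_upwards [Lp.coeFn_sub m ((hψ.memLp 2).toLp ψ), (hψ.memLp 2).coeFn_toLp] with x hx hx'
    rw [hx, Pi.sub_apply, hx', Real.norm_eq_abs, sq_abs]
  rw [h3, ← h2]
  have h4 : ‖m - (hψ.memLp 2).toLp ψ‖ ^ 2 ≤ (√η) ^ 2 :=
    pow_le_pow_left₀ (norm_nonneg _) hz2.le 2
  rwa [Real.sq_sqrt hη.le] at h4

/-- The family of the low eigenfunctions. -/
noncomputable def H25_fam {N : ℕ} {Ω : Set (EuclideanSpace ℝ (Fin N))} {I : Type} (B : Bas I Ω)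
    (l : ℝ) : Fam Ω (B.low l).card where
  e := fun j => B.b ((B.low l).equivFin.symm j)
  q := fun j => B.q ((B.low l).equivFin.symm j)
  lam := fun j => B.lam ((B.low l).equivFin.symm j)
  pos := fun _ => B.pos _
  h10 := fun _ => B.h10 _
  orth := B.b.orthonormal.comp _
    (Subtype.val_injective.comp (B.low l).equivFin.symm.injective)
  eig := fun _ => B.eig _

lemma H25_sum {N : ℕ} {Ω : Set (EuclideanSpace ℝ (Fin N))} {I : Type} (B : Bas I Ω)
    (l : ℝ) (f : I → ℝ) : ∑ j : Fin (B.low l).card, f ((B.low l).equivFin.symm j)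
      = ∑ i ∈ B.low l, f i := by
  rw [← Finset.sum_coe_sort (B.low l) f]
  exact Equiv.sum_comp (B.low l).equivFin.symm (fun i : B.low l => f i)

lemma H25_leak {N : ℕ} {Ω : Set (EuclideanSpace ℝ (Fin N))} {I : Type} (B : Bas I Ω)
    (l : ℝ) (m : EuclideanSpace ℝ (Fin N) → ℝ) : leak (H25_fam B l) m = ∑ i ∈ B.low l,
      ∫ x in Ω, (m x * B.b i x
        - ∑ j ∈ B.low l, (∫ y in Ω, m y * B.b i y * B.b j y) * B.b j x) ^ 2 := by
  rw [← H25_sum B l (fun i => ∫ x in Ω, (m x * B.b i x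
        - ∑ j ∈ B.low l, (∫ y in Ω, m y * B.b i y * B.b j y) * B.b j x) ^ 2)]
  unfold leak
  refine Finset.sum_congr rfl fun i _ => ?_
  congr 1
  funext x
  rw [← H25_sum B l (fun j => (∫ y in Ω, m y * B.b ((B.low l).equivFin.symm i) y * B.b j y)
    * B.b j x)]
  rfl

theorem good_bounded {N : ℕ} (hN : 0 < N) {Ω : Set (EuclideanSpace ℝ (Fin N))} (hΩ : IsOpen Ω)
    (hb : Bornology.IsBounded Ω) (hne : Ω.Nonempty) : ∃ C > 0, Good Ω C := by
  obtain ⟨I, ⟨B⟩⟩ := om_basis hN hΩ hb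
  obtain ⟨C₁, hC₁, h1⟩ := om_point hN hΩ hb B
  obtain ⟨c, hc, l₀, h2⟩ := om_count hN hΩ hne B
  have hfin : volume Ω < ⊤ := hb.measure_lt_top
  refine ⟨C₁ / c, by positivity, ?_⟩
  intro S δ hδ
  have hC : 0 < C₁ / c := by positivity
  set C := C₁ / c with hCdef
  have hη : 0 < δ / (4 * C) := by positivity
  choose t ht1 ht2 using fun m : Lp ℝ 2 (volume.restrict Ω) => H25_approx hΩ m hη
  classical
  obtain ⟨l, hl, hpos, hleak⟩ := om_leak hN hΩ hb hne B (δ := δ / 4) (by positivity)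
    (S.image t) (fun m hm => by
      obtain ⟨m', _, rfl⟩ := Finset.mem_image.1 hm
      exact ht1 m') (max 1 l₀)
  have hl1 : 1 ≤ l := (le_max_left _ _).trans hl
  have hl0 : l₀ ≤ l := (le_max_right _ _).trans hl
  have hPB : PB (H25_fam B l) C := by
    filter_upwards [h1 l hl1] with x hx
    have e1 : ∑ i, ((H25_fam B l).e i x) ^ 2 = ∑ i ∈ B.low l, (B.b i x) ^ 2 :=
      H25_sum B l (fun i => (B.b i x) ^ 2)
    rw [e1]
    refine hx.trans ?_
    have h3 := h2 l hl0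
    rw [hCdef, div_mul_eq_mul_div, le_div_iff₀ hc]
    nlinarith [mul_le_mul_of_nonneg_left h3 hC₁.le]
  refine ⟨(B.low l).card, hpos, H25_fam B l, hPB, ?_⟩
  intro m hm
  have h4 := leak_cont hfin (H25_fam B l) hC.le hPB (m := m) (m' := t m)
    (Lp.memLp m) ((ht1 m).memLp 2)
  refine h4.trans ?_
  have h5 := hleak (t m) (Finset.mem_image_of_mem t hm)
  rw [← H25_leak] at h5
  have hn : (0 : ℝ) < (B.low l).card := by exact_mod_cast hpos
  have h6 : C * (B.low l).card * ∫ x in Ω, (m x - t m x) ^ 2 ≤ δ / 4 * (B.low l).card := by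
    calc C * (B.low l).card * ∫ x in Ω, (m x - t m x) ^ 2
        ≤ C * (B.low l).card * (δ / (4 * C)) :=
          mul_le_mul_of_nonneg_left (ht2 m) (by positivity)
      _ = δ / 4 * (B.low l).card := by field_simp
  linarith

end Pool.Agent.MP_4c4330_an.Gen
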