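import Pool.Agent.MP_4c4330_an.Gen.Defs2
import Pool.Agent.MP_4c4330_an.Gen.F1
import Pool.Agent.MP_4c4330_an.Gen.G3
import Pool.Agent.MP_4c4330_an.Gen.H25

open MeasureTheory Set Filter Topology
open scoped ENNReal ContDiff

namespace Pool.Agent.MP_4c4330_an.Gen

theorem R2_anti {E : Type*} [NormedAddCommGroup E] [InnerProductSpace ℝ E] [FiniteDimensional ℝ E]
    [MeasurableSpace E] [BorelSpace E] {Ω : Set E} {a α : ℝ} (hΩ : IsOpen Ω) (ha : 0 < a)
    (hα : 0 < α) {U : ℝ → EnergySpace Ω}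
    (hU : IsTrajectory Ω a α U) : AntitoneOn (fun t => ‖U t‖ ^ α) (Ici 0) := by
  obtain ⟨J, hJ⟩ := exists_J (Ω := Ω) ha hα
  intro s hs t _ hst
  exact Real.rpow_le_rpow (norm_nonneg _) ((traj_facts hΩ ha hα hJ hU).1 s t hs hst) hα.le

theorem R2_big {f : ℝ → ℝ} (hf : AntitoneOn f (Ici 0)) (h0 : ∀ t, 0 ≤ f t) {b : ℝ} (hb : 0 < b)
    (h : ∀ T₀ : ℝ, ∃ t ≥ T₀, 0 < t ∧ b ≤ t * f t) (c : ℝ) :
    ∃ T > 0, c < ∫ t in (0:ℝ)..T, f t := by
  have hint : ∀ s t : ℝ, 0 ≤ s → 0 ≤ t → IntervalIntegrable f volume s t := by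
    intro s t hs ht
    apply AntitoneOn.intervalIntegrable
    apply hf.mono
    intro x hx
    rcases mem_uIcc.1 hx with h | h
    · exact hs.trans h.1
    · exact ht.trans h.1
  have key : ∀ n : ℕ, ∃ T > 0, n * (b / 2) ≤ ∫ t in (0:ℝ)..T, f t := by
    intro n
    induction n with
    | zero =>
      refine ⟨1, one_pos, ?_⟩
      simp only [Nat.cast_zero, zero_mul]
      exact intervalIntegral.integral_nonneg zero_le_one fun t _ => h0 t
    | succ n ih =>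
      obtain ⟨T, hT, ih⟩ := ih
      obtain ⟨t, ht1, ht2, ht3⟩ := h (2 * T)
      refine ⟨t, ht2, ?_⟩
      have e1 : (∫ s in (0:ℝ)..T, f s) + ∫ s in T..(t / 2), f s = ∫ s in (0:ℝ)..(t / 2), f s :=
        intervalIntegral.integral_add_adjacent_intervals (hint _ _ le_rfl hT.le)
          (hint _ _ hT.le (by linarith))
      have e2 : (∫ s in (0:ℝ)..(t / 2), f s) + ∫ s in (t / 2)..t, f s = ∫ s in (0:ℝ)..t, f s :=
        intervalIntegral.integral_add_adjacent_intervals (hint _ _ le_rfl (by linarith))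
          (hint _ _ (by linarith) ht2.le)
      have e3 : 0 ≤ ∫ s in T..(t / 2), f s :=
        intervalIntegral.integral_nonneg (by linarith) fun t _ => h0 t
      have e4 : ∫ _ in (t / 2)..t, f t ≤ ∫ s in (t / 2)..t, f s := by
        apply intervalIntegral.integral_mono_on (by linarith) _ (hint _ _ (by linarith) ht2.le)
        · intro s hs
          exact hf (show (0:ℝ) ≤ s by linarith [hs.1]) ht2.le hs.2
        · exact intervalIntegrable_const
      rw [intervalIntegral.integral_const, smul_eq_mul] at e4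
      have e5 : b / 2 ≤ (t - t / 2) * f t := by
        have : (t - t / 2) * f t = t * f t / 2 := by ring
        rw [this]
        linarith
      push_cast
      linarith
  obtain ⟨n, hn⟩ := exists_nat_gt (c / (b / 2))
  obtain ⟨T, hT, h1⟩ := key n
  refine ⟨T, hT, lt_of_lt_of_le ?_ h1⟩
  rwa [div_lt_iff₀ (by positivity)] at hn

/-- [R2] the result. -/
theorem main2 {N : ℕ} (hN : 0 < N) {Ω : Set (EuclideanSpace ℝ (Fin N))} (hΩ : IsOpen Ω)
    (hb : Bornology.IsBounded Ω) (hne : Ω.Nonempty) {a α : ℝ} (ha : 0 < a) (hα : 0 < α) :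
    ∃ δ : ℝ, 0 < δ ∧ ∀ᶠ x in residual (EnergySpace Ω), ∃ U : ℝ → EnergySpace Ω,
      IsTrajectory Ω a α U ∧ U 0 = x ∧
      (∀ T₀ : ℝ, ∃ t ≥ T₀, 0 < t ∧ δ < t ^ (2 / α) * nrg Ω (U t)) ∧
      ∀ c : ℝ, ∃ T > 0, c < ∫ t in (0:ℝ)..T, (nrg Ω (U t)) ^ (α / 2) := by
  have hfin : volume Ω < ⊤ := hb.measure_lt_top
  obtain ⟨C, hC, hG⟩ := good_bounded hN hΩ hb hne
  obtain ⟨δ, hδ, hx⟩ := generic_lim hΩ ha hα hfin hC hG
  refine ⟨δ, hδ, ?_⟩
  filter_upwards [hx] with x hx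
  obtain ⟨U, hU0, hU⟩ := traj_exists (a := a) (α := α) hΩ ha hα x
  have hx1 := hx U hU hU0
  refine ⟨U, hU, hU0, ?_, ?_⟩
  · intro T₀
    obtain ⟨t, h1, h2, h3⟩ := hx1 T₀
    exact ⟨t, h1, h2, by rwa [nrg_eq]⟩
  · intro c
    have e : ∀ t, (nrg Ω (U t)) ^ (α / 2) = ‖U t‖ ^ α := by
      intro t
      rw [nrg_eq, ← Real.rpow_natCast ‖U t‖ 2, ← Real.rpow_mul (norm_nonneg _)]
      congr 1
      push_cast
      ring
    simp only [e]
    refine R2_big (R2_anti hΩ ha hα hU) (fun t => Real.rpow_nonneg (norm_nonneg _) _)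
      (Real.rpow_pos_of_pos hδ (α / 2)) ?_ c
    intro T₀
    obtain ⟨t, h1, h2, h3⟩ := hx1 T₀
    refine ⟨t, h1, h2, ?_⟩
    have h4 : δ ^ (α / 2) ≤ (t ^ (2 / α) * ‖U t‖ ^ 2) ^ (α / 2) :=
      Real.rpow_le_rpow hδ.le h3.le (by positivity)
    rw [Real.mul_rpow (Real.rpow_nonneg h2.le _) (by positivity), ← Real.rpow_mul h2.le,
      ← Real.rpow_natCast ‖U t‖ 2, ← Real.rpow_mul (norm_nonneg _)] at h4
    have e1 : 2 / α * (α / 2) = 1 := by field_simp
    have e2 : ((2 : ℕ) : ℝ) * (α / 2) = α := by push_cast; ring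
    rwa [e1, e2, Real.rpow_one] at h4

end Pool.Agent.MP_4c4330_an.Gen
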