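import Pool.Agent.MP_4c4330_an.Nonlin

/-! # Scalar inequalities for the damping nonlinearity -/

open Set Real Filter Topology

namespace Pool.Agent.MP_4c4330_an

/-- The derivative of `g`. -/
noncomputable def gp (a α x : ℝ) : ℝ := a * (α + 1) * |x| ^ α

/-- The truncated derivative. -/
noncomputable def gk (a α k x : ℝ) : ℝ := min (gp a α x) k

/-- Dual exponent. -/
noncomputable def qe (α : ℝ) : ℝ := (α + 2) / (α + 1)

variable {a α : ℝ}

lemma gp_nonneg (ha : 0 < a) (hα : 0 < α) (x : ℝ) : 0 ≤ gp a α x := by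
  unfold gp; positivity

lemma continuous_gp (hα : 0 < α) : Continuous (gp a α) := by
  unfold gp
  have : Continuous fun x : ℝ => |x| ^ α := continuous_abs.rpow_const (fun _ => Or.inr hα.le)
  fun_prop

lemma continuous_gk (hα : 0 < α) (k : ℝ) : Continuous (gk a α k) := by
  unfold gk
  exact (continuous_gp hα).min continuous_const

lemma gk_nonneg (ha : 0 < a) (hα : 0 < α) {k : ℝ} (hk : 0 ≤ k) (x : ℝ) : 0 ≤ gk a α k x :=
  le_min (gp_nonneg ha hα x) hk

lemma gk_le (k x : ℝ) : gk a α k x ≤ k := min_le_right _ _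
lemma gk_le_gp (k x : ℝ) : gk a α k x ≤ gp a α x := min_le_left _ _

lemma qe_pos (hα : 0 < α) : 0 < qe α := by unfold qe; positivity
lemma one_lt_qe (hα : 0 < α) : 1 < qe α := by
  unfold qe; rw [lt_div_iff₀ (by linarith)]; linarith
lemma qe_lt_two (hα : 0 < α) : qe α < 2 := by
  unfold qe; rw [div_lt_iff₀ (by linarith)]; linarith
lemma qe_mul (hα : 0 < α) : (α + 1) * qe α = α + 2 := by
  unfold qe; field_simp

lemma hasDerivAt_g (hα : 0 < α) (x : ℝ) : HasDerivAt (g a α) (gp a α x) x := by
  have key : ∀ x : ℝ, 0 < x → HasDerivAt (g a α) (gp a α x) x := by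
    intro x hx
    have h1 : HasDerivAt (fun y : ℝ => a * y ^ (α + 1)) (a * ((α + 1) * x ^ (α + 1 - 1))) x :=
      (Real.hasDerivAt_rpow_const (Or.inl hx.ne')).const_mul a
    have h2 : g a α =ᶠ[𝓝 x] fun y : ℝ => a * y ^ (α + 1) := by
      filter_upwards [lt_mem_nhds hx] with y hy
      exact g_eq_of_nonneg hα (le_of_lt hy)
    have h3 : gp a α x = a * ((α + 1) * x ^ (α + 1 - 1)) := by
      unfold gp
      rw [abs_of_pos hx, show α + 1 - 1 = α by ring]
      ring
    rw [h3]
    exact h1.congr_of_eventuallyEq h2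
  rcases lt_trichotomy x 0 with h | h | h
  · have h1 := (key (-x) (by linarith)).scomp x (hasDerivAt_neg x)
    have h2 : g a α = fun y => -((g a α ∘ Neg.neg) y) := by
      funext y
      simp only [Function.comp, g_neg, neg_neg]
    have h3 : gp a α x = -((-1 : ℝ) • gp a α (-x)) := by
      unfold gp; rw [abs_neg]; simp
    rw [h2, h3]
    exact h1.neg
  · subst h
    have h3 : gp a α 0 = 0 := by unfold gp; simp [Real.zero_rpow hα.ne']
    rw [h3, hasDerivAt_iff_tendsto_slope]
    have h4 : Tendsto (fun y : ℝ => a * |y| ^ α) (𝓝[≠] 0) (𝓝 0) := by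
      have : Continuous fun y : ℝ => a * |y| ^ α :=
        continuous_const.mul (continuous_abs.rpow_const (fun _ => Or.inr hα.le))
      have h5 := this.tendsto 0
      simp only [abs_zero, Real.zero_rpow hα.ne', mul_zero] at h5
      exact h5.mono_left nhdsWithin_le_nhds
    refine h4.congr' ?_
    filter_upwards [self_mem_nhdsWithin] with y hy
    have hy' : y ≠ 0 := hy
    rw [slope_def_field, g_zero, sub_zero, sub_zero]
    unfold g
    field_simp
  · exact key x h

lemma add_rpow_two (hα : 0 < α) {x y : ℝ} (hx : 0 ≤ x) (hy : 0 ≤ y) :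
    (2 : ℝ) ^ (-α) * (x + y) ^ (α + 1) ≤ x ^ (α + 1) + y ^ (α + 1) := by
  have h2 := (convexOn_rpow (p := α + 1) (by linarith)).2 (show x ∈ Ici (0:ℝ) from hx)
    (show y ∈ Ici (0:ℝ) from hy) (show (0:ℝ) ≤ 2⁻¹ by norm_num)
    (show (0:ℝ) ≤ 2⁻¹ by norm_num) (by norm_num)
  simp only [smul_eq_mul] at h2
  rw [← mul_add, ← mul_add, Real.mul_rpow (by norm_num) (by positivity)] at h2
  have e : ((2 : ℝ)⁻¹) ^ (α + 1) = 2⁻¹ * 2 ^ (-α) := by
    rw [Real.rpow_add_one (by norm_num), Real.inv_rpow (by norm_num), Real.rpow_neg (by norm_num)]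
    ring
  rw [e] at h2
  linarith

/-- Strong monotonicity. -/
lemma g_strong (ha : 0 < a) (hα : 0 < α) (x y : ℝ) :
    a * (2 : ℝ) ^ (-α) * |x - y| ^ (α + 2) ≤ (g a α x - g a α y) * (x - y) := by
  have two : (0 : ℝ) < 2 ^ (-α) := Real.rpow_pos_of_pos (by norm_num) _
  have two1 : (2 : ℝ) ^ (-α) ≤ 1 := Real.rpow_le_one_of_one_le_of_nonpos (by norm_num) (by linarith)
  -- for nonnegative `s = x - y`
  have key : ∀ x y : ℝ, y ≤ x →
      a * (2 : ℝ) ^ (-α) * |x - y| ^ (α + 1) ≤ g a α x - g a α y := by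
    intro x y hxy
    have hs : 0 ≤ x - y := by linarith
    rw [abs_of_nonneg hs]
    rcases le_total 0 y with hy | hy
    · rw [g_eq_of_nonneg hα (hy.trans hxy), g_eq_of_nonneg hα hy]
      have h1 := Real.add_rpow_le_rpow_add hs hy (show (1 : ℝ) ≤ α + 1 by linarith)
      rw [sub_add_cancel] at h1
      have h2 : 0 ≤ (x - y) ^ (α + 1) := by positivity
      have h3 : (2 : ℝ) ^ (-α) * (x - y) ^ (α + 1) ≤ (x - y) ^ (α + 1) := by nlinarith
      nlinarith
    · rcases le_total 0 x with hx | hx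
      · have hy' : 0 ≤ -y := by linarith
        have e1 : g a α y = -(a * (-y) ^ (α + 1)) := by
          rw [← g_eq_of_nonneg hα hy', g_neg, neg_neg]
        rw [g_eq_of_nonneg hα hx, e1]
        have h1 := add_rpow_two hα hx hy'
        have e2 : x + -y = x - y := by ring
        rw [e2] at h1
        nlinarith
      · have hx' : 0 ≤ -x := by linarith
        have hy' : 0 ≤ -y := by linarith
        have e1 : g a α y = -(a * (-y) ^ (α + 1)) := by
          rw [← g_eq_of_nonneg hα hy', g_neg, neg_neg]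
        have e2 : g a α x = -(a * (-x) ^ (α + 1)) := by
          rw [← g_eq_of_nonneg hα hx', g_neg, neg_neg]
        rw [e1, e2]
        have h1 := Real.add_rpow_le_rpow_add hs hx' (show (1 : ℝ) ≤ α + 1 by linarith)
        have e3 : x - y + -x = -y := by ring
        rw [e3] at h1
        have h2 : 0 ≤ (x - y) ^ (α + 1) := by positivity
        have h3 : (2 : ℝ) ^ (-α) * (x - y) ^ (α + 1) ≤ (x - y) ^ (α + 1) := by nlinarith
        nlinarith
  have split : ∀ s : ℝ, |s| ^ (α + 2) = |s| ^ (α + 1) * |s| := by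
    intro s
    rcases eq_or_ne s 0 with h | h
    · rw [h, abs_zero, Real.zero_rpow (by linarith), mul_zero]
    · rw [show α + 2 = (α + 1) + 1 by ring, Real.rpow_add_one (abs_ne_zero.2 h)]
  rcases le_total y x with h | h
  · have h1 := mul_le_mul_of_nonneg_right (key x y h) (show 0 ≤ x - y by linarith)
    rw [split, abs_of_nonneg (show 0 ≤ x - y by linarith)] at *
    nlinarith
  · have h1 := mul_le_mul_of_nonneg_right (key y x h) (show 0 ≤ y - x by linarith)
    rw [split, abs_sub_comm x y, abs_of_nonneg (show 0 ≤ y - x by linarith)] at *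
    nlinarith

/-- Young's inequality. -/
lemma young_q (hα : 0 < α) {c : ℝ} (hc : 0 < c) : ∃ C : ℝ, 0 < C ∧ ∀ x y : ℝ,
    |x| * |y| ≤ c * |y| ^ (α + 2) + C * |x| ^ qe α := by
  have hp : Real.HolderConjugate (α + 2) (qe α) := by
    rw [Real.holderConjugate_iff]
    refine ⟨by linarith, ?_⟩
    unfold qe
    field_simp
    ring
  set l : ℝ := c ^ (1 / (α + 2)) with hl
  have hl0 : 0 < l := Real.rpow_pos_of_pos hc _
  have hlp : l ^ (α + 2) = c := by
    rw [hl, ← Real.rpow_mul hc.le]
    have : 1 / (α + 2) * (α + 2) = 1 := by field_simp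
    rw [this, Real.rpow_one]
  refine ⟨(1 / l) ^ qe α, by positivity, fun x y => ?_⟩
  have h1 := Real.young_inequality_of_nonneg (a := l * |y|) (b := (1 / l) * |x|) (by positivity)
    (by positivity) hp
  have h2 : l * |y| * (1 / l * |x|) = |x| * |y| := by field_simp
  rw [h2, Real.mul_rpow hl0.le (abs_nonneg y), Real.mul_rpow (by positivity) (abs_nonneg x),
    hlp] at h1
  refine h1.trans (add_le_add ?_ ?_)
  · exact div_le_self (by positivity) (by linarith)
  · exact div_le_self (by positivity) (one_lt_qe hα).le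

end Pool.Agent.MP_4c4330_an
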